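import Pool.Agent.BP2.D.Rec

set_option autoImplicit false

/-!
# MP_475aca_co, part (D): the parameters (pure inequalities)

Proof. `K := 48 c₀ / ε`, `Lmin := ⌈2/ε⌉ + 1`, `y₀ := ε / (4 c₀ (Lmin + 2)) * exp (-K)`,
`y m := y₀ exp (K (M - m) / M)` (so `y₀ ≤ y m ≤ y₀ e^K` for `m ≤ M`), `Lf m := ⌊ε / (4 c₀ y m)⌋₊`
(for `m ≤ M`, else `Lmin`; always between `Lmin` and `Lmax := ⌊ε / (4 c₀ y₀)⌋₊`),
`F m := M ^ (-(M * y m))`, `R := ⌈32 (Lmax + 1) / ε⌉₊`, `N := 5 c₁ (Lmax + 1)^2 (R + 1)`,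
`nm := nmax c₁ N Lmax`, and `M₀` large.
With `L = Lf m`, `y = y m`, `C₁ = c₁ (L + 1)^2`: `ε/(8 c₀ y) ≤ L`, `L + 1 ≤ ε/(2 c₀ y)`.
* A1: `log 2 + M y log M ≤ 2 M y log m ≤ m / (c₀ (L + 1)) * log m`, `log m ≥ (3/4) log M`;
* A2: `m! ≥ m₁! (m/2)^(m - m₁)`, `m - m₁ ≥ g - k ≥ N L / 2`, `(3 (m + n))^n ≤ (6 M)^n`,
  `M y(m₁) - M y(m) ≥ K y (m - m₁)` (convexity of `exp`), `n - g + k ≤ N + 3 C₁ ≤ 2 N`, and
  `K y L ≥ 6`, so the quotient of the two sides is at most `2 (nm + 1) (12/ε)^nm / M ≤ 1`;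
* A3, A4, A5: immediate from the choice of `R`, `N`, `M₀`.
-/

namespace BP2

/-- A1, one value -/
lemma ana1 {c₀ ε y M m L : ℝ} (hc₀ : 1 ≤ c₀) (hy : 0 < y) (hL : 0 ≤ L)
    (hL1 : c₀ * (L + 1) ≤ ε / (2 * y)) (hm0 : 0 < m) (hm : ε * M < m)
    (hlog : 3 / 4 * Real.log M ≤ Real.log m) (hM1 : 1 ≤ Real.log M) (hMy : 2 ≤ M * y)
    (hM : 0 < M) :
    2 * m ^ (-(m / (c₀ * (L + 1)))) ≤ M ^ (-(M * y)) := by
  have hcL : 0 < c₀ * (L + 1) := by positivity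
  have h1 : 2 * (M * y) ≤ m / (c₀ * (L + 1)) := by
    rw [le_div_iff₀ hcL]
    calc 2 * (M * y) * (c₀ * (L + 1)) ≤ 2 * (M * y) * (ε / (2 * y)) := by gcongr
      _ = ε * M := by field_simp
      _ ≤ m := hm.le
  have h2 : (2 : ℝ) ≤ Real.exp 1 := by
    have := Real.add_one_le_exp (1 : ℝ)
    linarith
  rw [Real.rpow_def_of_pos hm0, Real.rpow_def_of_pos hM]
  have h3 : 3 / 4 * Real.log M * (2 * (M * y)) ≤ Real.log m * (m / (c₀ * (L + 1))) := by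
    apply mul_le_mul hlog h1 (by positivity)
    linarith
  have h4 : 1 * 2 ≤ Real.log M * (M * y) := mul_le_mul hM1 hMy (by norm_num) (by linarith)
  calc 2 * Real.exp (Real.log m * -(m / (c₀ * (L + 1))))
      ≤ Real.exp 1 * Real.exp (Real.log m * -(m / (c₀ * (L + 1)))) := by gcongr
    _ = Real.exp (1 + Real.log m * -(m / (c₀ * (L + 1)))) := (Real.exp_add _ _).symm
    _ ≤ Real.exp (Real.log M * -(M * y)) := by
      apply Real.exp_le_exp.2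
      nlinarith

/-- A2, one value -/
lemma ana2 {ε y y₁ : ℝ} {M m₁ n N nm d : ℕ} (hε : 0 < ε) (hε1 : ε ≤ 1)
    (hd : d ≤ nm) (hn : n ≤ nm) (hnm : n ≤ m₁ + d) (hmM : m₁ + d ≤ M)
    (hm : ε * M ≤ (m₁ + d : ℕ)) (h2 : m₁ + d ≤ 2 * (m₁ + 1)) (hnd : n ≤ d + 2 * N)
    (hy : 3 * N ≤ M * (y₁ - y)) (hN : 1 ≤ N) (hM : 1 ≤ M)
    (hbig : 2 * (nm + 1 : ℝ) * (12 / ε) ^ nm ≤ M) :
    2 * (nm + 1 : ℝ) * (3 * ((m₁ + d : ℕ) + n)) ^ n *
      ((m₁.factorial : ℝ) * (M : ℝ) ^ (-(M * y₁))) ≤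
      ((m₁ + d).factorial : ℝ) * (M : ℝ) ^ (-(M * y)) := by
  have hM1 : (1 : ℝ) ≤ M := by exact_mod_cast hM
  have hM0 : (0 : ℝ) < M := by linarith
  have e1 : (3 * (((m₁ + d : ℕ) : ℝ) + n)) ≤ 6 * M := by
    have a : ((m₁ + d : ℕ) : ℝ) ≤ M := by exact_mod_cast hmM
    have b : (n : ℝ) ≤ ((m₁ + d : ℕ) : ℝ) := by exact_mod_cast hnm
    linarith
  have e2 : (3 * (((m₁ + d : ℕ) : ℝ) + n)) ^ n ≤ 6 ^ nm * (M : ℝ) ^ (d + 2 * N) := by
    calc (3 * (((m₁ + d : ℕ) : ℝ) + n)) ^ n ≤ (6 * M) ^ n := by gcongr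
      _ = 6 ^ n * (M : ℝ) ^ n := mul_pow _ _ _
      _ ≤ 6 ^ nm * (M : ℝ) ^ (d + 2 * N) := by
        gcongr
        norm_num
  have e3 : (ε / 2) ^ nm * (M : ℝ) ^ d ≤ ((m₁ + 1 : ℕ) : ℝ) ^ d := by
    have a : ε / 2 * M ≤ ((m₁ + 1 : ℕ) : ℝ) := by
      have : ((m₁ + d : ℕ) : ℝ) ≤ 2 * ((m₁ + 1 : ℕ) : ℝ) := by exact_mod_cast h2
      linarith
    calc (ε / 2) ^ nm * (M : ℝ) ^ d ≤ (ε / 2) ^ d * (M : ℝ) ^ d := by
          apply mul_le_mul_of_nonneg_right _ (by positivity)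
          exact pow_le_pow_of_le_one (by positivity) (by linarith) hd
      _ = (ε / 2 * M) ^ d := (mul_pow _ _ _).symm
      _ ≤ ((m₁ + 1 : ℕ) : ℝ) ^ d := by gcongr
  have e4 : (m₁.factorial : ℝ) * ((m₁ + 1 : ℕ) : ℝ) ^ d ≤ ((m₁ + d).factorial : ℝ) := by
    exact_mod_cast Nat.factorial_mul_pow_le_factorial
  have e5 : (M : ℝ) ^ (-(M * y₁)) * (M : ℝ) ^ (3 * N) ≤ (M : ℝ) ^ (-(M * y)) := by
    have a : -(M * y) = -(M * y₁) + M * (y₁ - y) := by ring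
    rw [a, Real.rpow_add hM0]
    gcongr
    rw [← Real.rpow_natCast]
    apply Real.rpow_le_rpow_of_exponent_le hM1
    push_cast
    exact hy
  have e6 : 2 * (nm + 1 : ℝ) * 6 ^ nm ≤ (ε / 2) ^ nm * M := by
    have a : (6 : ℝ) ^ nm = (12 / ε) ^ nm * (ε / 2) ^ nm := by
      rw [← mul_pow]
      congr 1
      field_simp
      norm_num
    rw [a]
    calc 2 * (nm + 1 : ℝ) * ((12 / ε) ^ nm * (ε / 2) ^ nm)
        = (ε / 2) ^ nm * (2 * (nm + 1 : ℝ) * (12 / ε) ^ nm) := by ring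
      _ ≤ (ε / 2) ^ nm * M := by gcongr
  have e7 : (M : ℝ) ≤ (M : ℝ) ^ N := by
    calc (M : ℝ) = (M : ℝ) ^ 1 := (pow_one _).symm
      _ ≤ (M : ℝ) ^ N := pow_le_pow_right₀ hM1 hN
  have hf0 : (0 : ℝ) ≤ (m₁.factorial : ℝ) * (M : ℝ) ^ (-(M * y₁)) := by positivity
  calc 2 * (nm + 1 : ℝ) * (3 * ((m₁ + d : ℕ) + n)) ^ n *
      ((m₁.factorial : ℝ) * (M : ℝ) ^ (-(M * y₁)))
      ≤ 2 * (nm + 1 : ℝ) * (6 ^ nm * (M : ℝ) ^ (d + 2 * N)) *
        ((m₁.factorial : ℝ) * (M : ℝ) ^ (-(M * y₁))) := by gcongr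
    _ = (2 * (nm + 1 : ℝ) * 6 ^ nm) * ((M : ℝ) ^ (d + 2 * N) *
        ((m₁.factorial : ℝ) * (M : ℝ) ^ (-(M * y₁)))) := by ring
    _ ≤ ((ε / 2) ^ nm * (M : ℝ) ^ N) * ((M : ℝ) ^ (d + 2 * N) *
        ((m₁.factorial : ℝ) * (M : ℝ) ^ (-(M * y₁)))) := by
        apply mul_le_mul_of_nonneg_right _ (by positivity)
        exact e6.trans (by gcongr)
    _ = ((m₁.factorial : ℝ) * ((ε / 2) ^ nm * (M : ℝ) ^ d)) *
        ((M : ℝ) ^ (-(M * y₁)) * (M : ℝ) ^ (3 * N)) := by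
        have : (M : ℝ) ^ (d + 2 * N) * (M : ℝ) ^ N = (M : ℝ) ^ d * (M : ℝ) ^ (3 * N) := by
          rw [← pow_add, ← pow_add]
          congr 1
          ring
        calc ((ε / 2) ^ nm * (M : ℝ) ^ N) * ((M : ℝ) ^ (d + 2 * N) *
              ((m₁.factorial : ℝ) * (M : ℝ) ^ (-(M * y₁))))
            = ((M : ℝ) ^ (d + 2 * N) * (M : ℝ) ^ N) * ((ε / 2) ^ nm *
              ((m₁.factorial : ℝ) * (M : ℝ) ^ (-(M * y₁)))) := by ring
          _ = _ := by rw [this]; ring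
    _ ≤ ((m₁.factorial : ℝ) * ((m₁ + 1 : ℕ) : ℝ) ^ d) * (M : ℝ) ^ (-(M * y)) := by gcongr
    _ ≤ ((m₁ + d).factorial : ℝ) * (M : ℝ) ^ (-(M * y)) := by gcongr

theorem analysis (c₀ c₁ : ℕ) (hc₀ : 1 ≤ c₀) (hc₁ : 1 ≤ c₁) (m₀ : ℕ → ℕ → ℕ) (ε : ℝ) (hε : 0 < ε)
    (hε1 : ε ≤ 1) :
    ∃ (y₀ : ℝ) (N R M₀ : ℕ), 0 < y₀ ∧ 0 < R ∧ ∀ M : ℕ, M₀ ≤ M →
      ∃ (Lf : ℕ → ℕ) (F : ℕ → ℝ), (∀ m, 0 ≤ F m) ∧ (∀ m, 1 ≤ Lf m) ∧
        F M ≤ (M : ℝ) ^ (-(y₀ * M)) ∧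
        (∀ m : ℕ, m ≤ M → ε * M < m → 2 * (m : ℝ) ^ (-((m : ℝ) / (c₀ * (Lf m + 1)))) ≤ F m) ∧
        (∀ m : ℕ, m ≤ M → ε * M < m → ∀ n g k m₁ : ℕ, n ≤ nmax c₁ N (Lf m) → g ≤ n →
          N * Lf m ≤ g + c₁ * (Lf m + 1) ^ 2 → k ≤ c₁ * (Lf m + 1) ^ 2 → m ≤ m₁ + g →
          m₁ + g ≤ m + k →
          2 * (nmax c₁ N (Lf m) + 1 : ℝ) * (3 * (m + n)) ^ n *
            ((m₁.factorial : ℝ) * F m₁) ≤ (m.factorial : ℝ) * F m) ∧
        (∀ m : ℕ, m ≤ M → ε * M < m → ∀ g : ℕ, N * Lf m ≤ g + c₁ * (Lf m + 1) ^ 2 →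
          2 * (c₁ * (Lf m + 1) ^ 2) * R + c₁ * (Lf m + 1) ^ 2 + 1 ≤ g ∧
          (nmax c₁ N (Lf m) : ℝ) ≤ (1 + ε) * g ∧ ((c₁ * (Lf m + 1) ^ 2 : ℕ) : ℝ) ≤ ε * g) ∧
        (∀ m : ℕ, m ≤ M → ε * M < m → 16 * (Lf m + 1) * (2 * M) ≤ R * m) ∧
        (∀ m : ℕ, m ≤ M → ε * M < m → m₀ (Lf m) N ≤ m) := by
  have hc₀' : (1 : ℝ) ≤ c₀ := by exact_mod_cast hc₀
  -- constants
  set K : ℝ := 48 * c₀ / ε with hK
  have hK0 : 0 < K := by positivity
  set Lmin : ℕ := ⌈2 / ε⌉₊ + 1 with hLmin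
  have hLmin1 : 2 / ε + 1 ≤ (Lmin : ℝ) := by
    rw [hLmin]
    push_cast
    linarith [Nat.le_ceil (2 / ε)]
  have hLminε : 2 + ε ≤ ε * Lmin := by
    calc 2 + ε = ε * (2 / ε + 1) := by field_simp
      _ ≤ ε * Lmin := by gcongr
  set y₀ : ℝ := ε / (4 * c₀ * (Lmin + 2)) * Real.exp (-K) with hy₀
  have hy₀0 : 0 < y₀ := by positivity
  set Lmax : ℕ := ⌊ε / (4 * c₀ * y₀)⌋₊ with hLmax
  set R : ℕ := ⌈32 * (Lmax + 1) / ε⌉₊ with hR
  have hR0 : 0 < R := by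
    rw [hR, Nat.ceil_pos]
    positivity
  have hRε : 32 * ((Lmax : ℝ) + 1) ≤ R * ε := by
    have := Nat.le_ceil (32 * ((Lmax : ℝ) + 1) / ε)
    rw [← hR, div_le_iff₀ hε] at this
    exact this
  set N : ℕ := 5 * (c₁ * (Lmax + 1) ^ 2) * (R + 1) with hN
  set nm : ℕ := nmax c₁ N Lmax with hnm
  set Cx : ℕ := c₁ * (Lmax + 1) ^ 2 with hCx
  have hCx1 : 1 ≤ Cx := Nat.mul_pos hc₁ (by positivity)
  have hNx : N = 5 * (Cx * R) + 5 * Cx := by
    rw [hN]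
    ring
  have hCR : Cx ≤ Cx * R := Nat.le_mul_of_pos_right _ hR0
  have hN1 : 1 ≤ N := by omega
  -- the largest value of `m₀`
  obtain ⟨B, hB⟩ : ∃ B : ℕ, ∀ L ≤ Lmax, m₀ L N ≤ B :=
    ⟨(Finset.range (Lmax + 1)).sup (fun L => m₀ L N), fun L hL =>
      Finset.le_sup (f := fun L => m₀ L N) (Finset.mem_range.2 (by omega))⟩
  -- the function `y`
  let y : ℕ → ℕ → ℝ := fun M m => y₀ * Real.exp (K * (((M : ℝ) - m) / M))
  let Lf : ℕ → ℕ → ℕ := fun M m => if m ≤ M then ⌊ε / (4 * c₀ * y M m)⌋₊ else Lmin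
  refine ⟨y₀, N, R, 3 + ⌈(1 / ε) ^ 4⌉₊ + ⌈2 / y₀⌉₊ + ⌈(2 * nm + B : ℝ) / ε⌉₊ +
    ⌈2 * (nm + 1 : ℝ) * (12 / ε) ^ nm⌉₊, hy₀0, hR0, ?_⟩
  intro M hM
  refine ⟨Lf M, fun m => (M : ℝ) ^ (-(M * y M m)), ?_⟩
  have hM3 : (3 : ℝ) ≤ M := by exact_mod_cast (by omega : 3 ≤ M)
  have hM0 : (0 : ℝ) < M := by linarith
  have hMa : (1 / ε) ^ 4 ≤ M := by
    refine (Nat.le_ceil _).trans ?_
    exact_mod_cast (by omega : ⌈(1 / ε) ^ 4⌉₊ ≤ M)
  have hMb : 2 / y₀ ≤ M := by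
    refine (Nat.le_ceil _).trans ?_
    exact_mod_cast (by omega : ⌈2 / y₀⌉₊ ≤ M)
  have hMc : (2 * nm + B : ℝ) / ε ≤ M := by
    refine (Nat.le_ceil _).trans ?_
    exact_mod_cast (by omega : ⌈(2 * nm + B : ℝ) / ε⌉₊ ≤ M)
  have hMd : 2 * (nm + 1 : ℝ) * (12 / ε) ^ nm ≤ M := by
    refine (Nat.le_ceil _).trans ?_
    exact_mod_cast (by omega : ⌈2 * (nm + 1 : ℝ) * (12 / ε) ^ nm⌉₊ ≤ M)
  have hMc' : (2 * nm + B : ℝ) ≤ ε * M := by
    rw [div_le_iff₀ hε] at hMc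
    linarith
  have hlogM : 1 ≤ Real.log M := by
    rw [← Real.log_exp 1]
    apply Real.log_le_log (Real.exp_pos 1)
    linarith [Real.exp_one_lt_d9]
  -- bounds for `y`
  have hyge : ∀ m ≤ M, y₀ ≤ y M m := by
    intro m hm
    have hm' : (m : ℝ) ≤ M := by exact_mod_cast hm
    have : (1 : ℝ) ≤ Real.exp (K * (((M : ℝ) - m) / M)) := by
      apply Real.one_le_exp
      have : 0 ≤ (M : ℝ) - m := by linarith
      positivity
    calc y₀ = y₀ * 1 := (mul_one _).symm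
      _ ≤ y M m := mul_le_mul_of_nonneg_left this hy₀0.le
  have hyle : ∀ m : ℕ, y M m ≤ ε / (4 * c₀ * (Lmin + 2)) := by
    intro m
    have hm' : (0 : ℝ) ≤ m := Nat.cast_nonneg m
    have h1 : K * (((M : ℝ) - m) / M) ≤ K := by
      have : ((M : ℝ) - m) / M ≤ 1 := by
        rw [div_le_one hM0]
        linarith
      calc K * (((M : ℝ) - m) / M) ≤ K * 1 := by gcongr
        _ = K := mul_one _
    calc y M m ≤ y₀ * Real.exp K := by
          apply mul_le_mul_of_nonneg_left (Real.exp_le_exp.2 h1) hy₀0.le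
      _ = ε / (4 * c₀ * (Lmin + 2)) * (Real.exp (-K) * Real.exp K) := by rw [hy₀]; ring
      _ = ε / (4 * c₀ * (Lmin + 2)) := by
          rw [← Real.exp_add]
          simp
  have hypos : ∀ m : ℕ, 0 < y M m := fun m => mul_pos hy₀0 (Real.exp_pos _)
  -- bounds for `Lf`
  have hLeq : ∀ m ≤ M, Lf M m = ⌊ε / (4 * c₀ * y M m)⌋₊ := fun m hm => if_pos hm
  have hLlo : ∀ m ≤ M, Lmin + 2 ≤ Lf M m := by
    intro m hm
    rw [hLeq m hm]
    apply Nat.le_floor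
    rw [le_div_iff₀ (by have := hypos m; positivity)]
    have h1 := hyle m
    rw [le_div_iff₀ (by positivity)] at h1
    push_cast
    linarith
  have hLhi : ∀ m ≤ M, Lf M m ≤ Lmax := by
    intro m hm
    rw [hLeq m hm, hLmax]
    apply Nat.floor_le_floor
    have := hyge m hm
    gcongr
  have hL1 : ∀ m ≤ M, (c₀ : ℝ) * ((Lf M m : ℝ) + 1) ≤ ε / (2 * y M m) := by
    intro m hm
    have h0 := hypos m
    have h1 : (Lf M m : ℝ) ≤ ε / (4 * c₀ * y M m) := by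
      rw [hLeq m hm]
      exact Nat.floor_le (by positivity)
    have h2 : (1 : ℝ) ≤ Lf M m := by
      have := hLlo m hm
      exact_mod_cast (by omega : 1 ≤ Lf M m)
    calc (c₀ : ℝ) * ((Lf M m : ℝ) + 1) ≤ c₀ * (ε / (4 * c₀ * y M m) + ε / (4 * c₀ * y M m)) := by
          gcongr
          linarith
      _ = ε / (2 * y M m) := by
          field_simp
          norm_num
  have hL6 : ∀ m ≤ M, 6 ≤ K * y M m * Lf M m := by
    intro m hm
    have h0 := hypos m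
    have h1 : ε / (4 * c₀ * y M m) < (Lf M m : ℝ) + 1 := by
      rw [hLeq m hm]
      exact Nat.lt_floor_add_one _
    have h2 : (1 : ℝ) ≤ Lf M m := by
      have := hLlo m hm
      exact_mod_cast (by omega : 1 ≤ Lf M m)
    have h3 : ε / (4 * c₀ * y M m) ≤ 2 * Lf M m := by linarith
    have h4 : ε / (8 * c₀ * y M m) ≤ Lf M m := by
      have : ε / (8 * c₀ * y M m) = ε / (4 * c₀ * y M m) / 2 := by
        field_simp
        norm_num
      rw [this]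
      linarith
    calc (6 : ℝ) = K * y M m * (ε / (8 * c₀ * y M m)) := by
          rw [hK]
          field_simp
          norm_num
      _ ≤ K * y M m * Lf M m := by gcongr
  have hC : ∀ m ≤ M, c₁ * (Lf M m + 1) ^ 2 ≤ Cx := by
    intro m hm
    have := hLhi m hm
    rw [hCx]
    gcongr
  refine ⟨fun m => by positivity, ?_, ?_, ?_, ?_, ?_, ?_, ?_⟩
  · intro m
    by_cases hm : m ≤ M
    · have := hLlo m hm
      omega
    · show 1 ≤ (if m ≤ M then ⌊ε / (4 * c₀ * y M m)⌋₊ else Lmin)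
      rw [if_neg hm, hLmin]
      omega
  · have : y M M = y₀ := by
      show y₀ * Real.exp (K * (((M : ℝ) - M) / M)) = y₀
      simp
    show (M : ℝ) ^ (-(M * y M M)) ≤ _
    rw [this, mul_comm]
  · -- A1
    intro m hm hεm
    have hm0 : (0 : ℝ) < m := lt_of_le_of_lt (by positivity) hεm
    have hmM : (m : ℝ) ≤ M := by exact_mod_cast hm
    apply ana1 hc₀' (hypos m) (Nat.cast_nonneg _) (hL1 m hm) hm0 hεm _ hlogM _ hM0
    · have h1 : Real.log (ε * M) ≤ Real.log m := Real.log_le_log (by positivity) hεm.le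
      rw [Real.log_mul hε.ne' hM0.ne'] at h1
      have h2 : Real.log ((1 / ε) ^ 4) ≤ Real.log M := Real.log_le_log (by positivity) hMa
      rw [Real.log_pow, one_div, Real.log_inv] at h2
      push_cast at h2
      linarith
    · have h1 : 2 ≤ M * y₀ := by
        rw [div_le_iff₀ hy₀0] at hMb
        exact hMb
      exact h1.trans (mul_le_mul_of_nonneg_left (hyge m hm) hM0.le)
  · -- A2
    intro m hm hεm n g k m₁ hn hg hNL hk hmg hmk
    have hL3 := hLlo m hm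
    have hCle := hC m hm
    have hy0 := hypos m
    have hL6m := hL6 m hm
    have hnmle : nmax c₁ N (Lf M m) ≤ nm := by
      rw [hnm]
      unfold nmax
      have := hLhi m hm
      gcongr
    generalize hLL : Lf M m = L at *
    generalize hCC : c₁ * (L + 1) ^ 2 = C at *
    have hNNL : N ≤ N * L := Nat.le_mul_of_pos_right _ (by omega)
    have hm1m : m₁ ≤ m := by omega
    obtain ⟨d, rfl⟩ : ∃ d, m = m₁ + d := ⟨m - m₁, by omega⟩
    have hnmax : nmax c₁ N L = N * L + N + C := by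
      rw [← hCC]
      unfold nmax
      ring
    have hnmm : 2 * nm ≤ m₁ + d := by
      have h1 : (2 * nm + B : ℝ) ≤ ((m₁ + d : ℕ) : ℝ) := hMc'.trans hεm.le
      have h2 : 2 * nm + B ≤ m₁ + d := by exact_mod_cast h1
      omega
    have hd2 : N * L ≤ 2 * d := by omega
    refine ana2 hε hε1 (by omega) hn (by omega) hm hεm.le (by omega) (by omega) ?_ hN1
      (by omega) ?_
    · -- `3 N ≤ M (y₁ - y)`
      have e1 : y M m₁ = y M (m₁ + d) * Real.exp (K * ((d : ℝ) / M)) := by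
        show y₀ * Real.exp (K * (((M : ℝ) - m₁) / M)) =
          y₀ * Real.exp (K * (((M : ℝ) - (m₁ + d : ℕ)) / M)) * Real.exp (K * ((d : ℝ) / M))
        have e0 : K * (((M : ℝ) - m₁) / M) =
            K * (((M : ℝ) - (m₁ + d : ℕ)) / M) + K * ((d : ℝ) / M) := by
          push_cast
          field_simp
          ring
        rw [e0, Real.exp_add]
        ring
      have e2 : 1 + K * ((d : ℝ) / M) ≤ Real.exp (K * ((d : ℝ) / M)) := by
        linarith [Real.add_one_le_exp (K * ((d : ℝ) / M))]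
      have e3 : K * y M (m₁ + d) * d ≤ M * (y M m₁ - y M (m₁ + d)) := by
        rw [e1]
        calc K * y M (m₁ + d) * d = M * (y M (m₁ + d) * (K * ((d : ℝ) / M))) := by
              field_simp
          _ ≤ M * (y M (m₁ + d) * (Real.exp (K * ((d : ℝ) / M)) - 1)) := by
              gcongr
              linarith
          _ = _ := by ring
      refine le_trans ?_ e3
      have e4 : (N : ℝ) * L ≤ 2 * d := by exact_mod_cast hd2
      have e5 : (0 : ℝ) ≤ N := Nat.cast_nonneg _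
      calc 3 * (N : ℝ) = 6 * (N / 2) := by ring
        _ ≤ (K * y M (m₁ + d) * L) * (N / 2) := by gcongr
        _ = K * y M (m₁ + d) * (N * L / 2) := by ring
        _ ≤ K * y M (m₁ + d) * d := by
            gcongr
            linarith
    · -- the constant
      refine le_trans ?_ hMd
      have h12 : (1 : ℝ) ≤ 12 / ε := by
        rw [le_div_iff₀ hε]
        linarith
      have : (nmax c₁ N L : ℝ) ≤ nm := by exact_mod_cast hnmle
      gcongr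
  · -- A3
    intro m hm hεm g hg
    have hL3 := hLlo m hm
    have hCle := hC m hm
    generalize hLL : Lf M m = L at *
    have hnmax : nmax c₁ N L = N * L + N + c₁ * (L + 1) ^ 2 := by
      unfold nmax
      ring
    rw [hnmax]
    generalize hCC : c₁ * (L + 1) ^ 2 = C at *
    have hNNL : N ≤ N * L := Nat.le_mul_of_pos_right _ (by omega)
    have hεL : 2 ≤ ε * L := by
      have h1 : (Lmin : ℝ) ≤ L := by exact_mod_cast (by omega : Lmin ≤ L)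
      have h2 : ε * Lmin ≤ ε * L := by gcongr
      linarith
    have hgr : (N : ℝ) * L ≤ g + C := by exact_mod_cast hg
    have hNC : 3 * (C : ℝ) ≤ N := by exact_mod_cast (by omega : 3 * C ≤ N)
    have hN0 : (0 : ℝ) ≤ N := Nat.cast_nonneg _
    have hC0 : (0 : ℝ) ≤ C := Nat.cast_nonneg _
    have hεN : 2 * (N : ℝ) ≤ ε * (N * L) := by
      calc 2 * (N : ℝ) ≤ (ε * L) * N := by gcongr
        _ = ε * (N * L) := by ring
    have hεg : ε * (N * L) ≤ ε * (g + C) := by gcongr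
    have hεC : ε * C ≤ C := by
      calc ε * C ≤ 1 * C := by gcongr
        _ = C := one_mul _
    refine ⟨?_, ?_, ?_⟩
    · have h1 : C * R ≤ Cx * R := Nat.mul_le_mul_right _ hCle
      have h2 : 2 * C * R = 2 * (C * R) := by ring
      rw [h2]
      omega
    · push_cast
      nlinarith
    · nlinarith
  · -- A4
    intro m hm hεm
    have h1 := hLhi m hm
    have h2 : (Lf M m : ℝ) ≤ Lmax := by exact_mod_cast h1
    have h3 : (16 * (Lf M m + 1) * (2 * M) : ℝ) ≤ R * m := by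
      calc (16 * (Lf M m + 1) * (2 * M) : ℝ) = 32 * ((Lf M m : ℝ) + 1) * M := by ring
        _ ≤ 32 * ((Lmax : ℝ) + 1) * M := by gcongr
        _ ≤ (R * ε) * M := by gcongr
        _ = R * (ε * M) := by ring
        _ ≤ R * m := by gcongr
    exact_mod_cast h3
  · -- A5
    intro m hm hεm
    have h1 : (2 * nm + B : ℝ) ≤ (m : ℝ) := hMc'.trans hεm.le
    have h2 : 2 * nm + B ≤ m := by exact_mod_cast h1
    have h3 := hB (Lf M m) (hLhi m hm)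
    omega

end BP2
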