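import Pool.Agent.BP2.D.Count

/-!
# MP_475aca_co, part (D): the number of pairings with many bad windows or short cycles

`ι` = in-labels, `κ` = out-labels except the target top, both of size `m`; `mate a` = the out-label
in the gap of `a` (`none` if there is none), `pos a` = the index of the gap.
-/

set_option autoImplicit false

namespace BP2.Cnt

open Finset Nat

section numbers

/-- `∑_{x < 2^k} Θ / x ≤ Θ k` -/
lemma sum_div_pow (Θ k : ℕ) : ∑ x ∈ Finset.Ico 1 (2 ^ k), Θ / x ≤ Θ * k := by
  induction k with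
  | zero => simp
  | succ k ih =>
    have h1 : (1 : ℕ) ≤ 2 ^ k := Nat.one_le_two_pow
    have h2 : 2 ^ k ≤ 2 ^ (k + 1) := Nat.pow_le_pow_right (by norm_num) (by omega)
    rw [← Finset.sum_Ico_consecutive _ h1 h2]
    have h3 : ∑ x ∈ Finset.Ico (2 ^ k) (2 ^ (k + 1)), Θ / x ≤ Θ := by
      calc ∑ x ∈ Finset.Ico (2 ^ k) (2 ^ (k + 1)), Θ / x
          ≤ ∑ x ∈ Finset.Ico (2 ^ k) (2 ^ (k + 1)), Θ / 2 ^ k := by
            apply Finset.sum_le_sum
            intro x hx
            exact Nat.div_le_div_left (Finset.mem_Ico.mp hx).1 (by positivity)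
        _ = 2 ^ k * (Θ / 2 ^ k) := by
            rw [Finset.sum_const, Nat.card_Ico, smul_eq_mul]
            congr 1
            rw [pow_succ]
            omega
        _ ≤ Θ := Nat.mul_div_le Θ (2 ^ k)
    calc _ ≤ Θ * k + Θ := Nat.add_le_add ih h3
      _ = Θ * (k + 1) := by ring

lemma sum_div_le (Θ m : ℕ) : ∑ x ∈ Finset.Icc 1 m, Θ / x ≤ Θ * (Nat.log 2 m + 1) := by
  refine le_trans ?_ (sum_div_pow Θ (Nat.log 2 m + 1))
  apply Finset.sum_le_sum_of_subset
  intro x hx
  rw [Finset.mem_Icc] at hx
  rw [Finset.mem_Ico]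
  exact ⟨hx.1, lt_of_le_of_lt hx.2 (Nat.lt_pow_succ_log_self (by norm_num) m)⟩

/-- the number of `d ∈ [1, m]^L` with product at most `Θ` -/
lemma card_prod_le (m L : ℕ) : ∀ Θ : ℕ,
    #{d ∈ Fintype.piFinset (fun _ : Fin L => Finset.Icc 1 m) | ∏ i, d i ≤ Θ} ≤
      Θ * (Nat.log 2 m + 1) ^ L := by
  induction L with
  | zero =>
    intro Θ
    rcases Nat.eq_zero_or_pos Θ with h | h
    · subst h
      simp
    · simp only [pow_zero, mul_one]
      refine le_trans (Finset.card_filter_le _ _) ?_
      simp
      exact h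
  | succ L ih =>
    intro Θ
    set ℓ := Nat.log 2 m + 1 with hℓ
    have hsub : ({d ∈ Fintype.piFinset (fun _ : Fin (L + 1) => Finset.Icc 1 m) |
        ∏ i, d i ≤ Θ} : Finset (Fin (L + 1) → ℕ)) ⊆
        (Finset.Icc 1 m).biUnion fun x =>
          ({d ∈ Fintype.piFinset (fun _ : Fin L => Finset.Icc 1 m) |
            ∏ i, d i ≤ Θ / x} : Finset (Fin L → ℕ)).image (fun d => Fin.cons x d) := by
      intro d hd
      rw [Finset.mem_filter, Fintype.mem_piFinset] at hd
      rw [Finset.mem_biUnion]
      refine ⟨d 0, hd.1 0, ?_⟩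
      rw [Finset.mem_image]
      refine ⟨Fin.tail d, ?_, Fin.cons_self_tail d⟩
      rw [Finset.mem_filter, Fintype.mem_piFinset]
      refine ⟨fun i => hd.1 i.succ, ?_⟩
      have h0 := (Finset.mem_Icc.mp (hd.1 0)).1
      rw [Nat.le_div_iff_mul_le (by omega), mul_comm]
      have := hd.2
      rw [Fin.prod_univ_succ] at this
      exact this
    calc _ ≤ _ := Finset.card_le_card hsub
      _ ≤ ∑ x ∈ Finset.Icc 1 m, #(({d ∈ Fintype.piFinset (fun _ : Fin L => Finset.Icc 1 m) |
            ∏ i, d i ≤ Θ / x} : Finset (Fin L → ℕ)).image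
              (fun d => (Fin.cons x d : Fin (L + 1) → ℕ))) :=
          Finset.card_biUnion_le
      _ ≤ ∑ x ∈ Finset.Icc 1 m, (Θ / x) * ℓ ^ L := by
          apply Finset.sum_le_sum
          intro x _
          exact Finset.card_image_le.trans (ih (Θ / x))
      _ = (∑ x ∈ Finset.Icc 1 m, Θ / x) * ℓ ^ L := by rw [Finset.sum_mul]
      _ ≤ (Θ * ℓ) * ℓ ^ L := Nat.mul_le_mul_right _ (sum_div_le Θ m)
      _ = Θ * ℓ ^ (L + 1) := by ring

end numbers

section win

variable {κ ι : Type*}

/-- a window: `L + 1` in-labels of proper gaps, consecutive along the alternating path -/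
structure Win (mate : ι → Option κ) (σ : κ ≃ ι) {L : ℕ} (w : Fin (L + 1) → ι) : Prop where
  inj : Function.Injective w
  prop : ∀ i, (mate (w i)).isSome
  nx : ∀ i : Fin L, (mate (w i.castSucc)).map σ = some (w i.succ)

/-- a cycle of the alternating path -/
structure Cyc (mate : ι → Option κ) (σ : κ ≃ ι) {j : ℕ} (w : Fin (j + 1) → ι) : Prop where
  inj : Function.Injective w
  nx : ∀ i : Fin (j + 1), (mate (w i)).map σ = some (w (i + 1))

/-- the product of the consecutive differences -/
def dpr {L : ℕ} (y : Fin (L + 1) → ℕ) : ℕ := ∏ i : Fin L, (y i.succ - y i.castSucc)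

/-- the window is bad: the product of the distances of its sorted positions is at most `Θ` -/
def BadW (pos : ι → ℕ) (Θ : ℕ) {L : ℕ} (w : Fin (L + 1) → ι) : Prop :=
  ∃ ρ : Equiv.Perm (Fin (L + 1)), StrictMono (fun i => pos (w (ρ i))) ∧
    dpr (fun i => pos (w (ρ i))) ≤ Θ

/-- bad window or short cycle starting at `a`, with support `U` -/
def BadS (mate : ι → Option κ) (pos : ι → ℕ) (Θ L : ℕ) (σ : κ ≃ ι) (a : ι) (U : Set ι) : Prop :=
  (∃ w : Fin (L + 1) → ι, Win mate σ w ∧ BadW pos Θ w ∧ w 0 = a ∧ U = Set.range w) ∨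
  (∃ j, j < L ∧ ∃ w : Fin (j + 1) → ι, Cyc mate σ w ∧ w 0 = a ∧ U = Set.range w)

set_option linter.unusedSectionVars false

variable [Fintype κ] [Fintype ι] [DecidableEq κ] [DecidableEq ι]

/-- the pairs `(mate (w i), v i)` -/
def chG (mate : ι → Option κ) {k : ℕ} (w v : Fin k → ι) : Finset (κ × ι) :=
  Finset.univ.biUnion fun i => (mate (w i)).toFinset.image fun o => (o, v i)

lemma mem_chG {mate : ι → Option κ} {k : ℕ} {w v : Fin k → ι} {p : κ × ι} :
    p ∈ chG mate w v ↔ ∃ i, mate (w i) = some p.1 ∧ v i = p.2 := by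
  unfold chG
  simp only [Finset.mem_biUnion, Finset.mem_univ, true_and, Finset.mem_image,
    Option.mem_toFinset, Option.mem_def]
  constructor
  · rintro ⟨i, o, ho, rfl⟩
    exact ⟨i, ho, rfl⟩
  · rintro ⟨i, ho, hv⟩
    exact ⟨i, p.1, ho, by rw [hv]⟩

lemma injOn_chG {mate : ι → Option κ} (hmate : ∀ a b o, mate a = some o → mate b = some o → a = b)
    {k : ℕ} {w v : Fin k → ι} (hw : Function.Injective w) :
    Set.InjOn Prod.fst (chG mate w v : Set (κ × ι)) := by
  intro p hp q hq h
  rw [Finset.mem_coe, mem_chG] at hp hq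
  obtain ⟨i, h1, h2⟩ := hp
  obtain ⟨j, h3, h4⟩ := hq
  rw [h] at h1
  have : i = j := hw (hmate _ _ _ h1 h3)
  subst this
  exact Prod.ext h (by rw [← h2, ← h4])

lemma card_chG {mate : ι → Option κ} (hmate : ∀ a b o, mate a = some o → mate b = some o → a = b)
    {k : ℕ} {w v : Fin k → ι} (hw : Function.Injective w) (hs : ∀ i, (mate (w i)).isSome) :
    #(chG mate w v) = k := by
  unfold chG
  rw [Finset.card_biUnion]
  · calc ∑ i, #((mate (w i)).toFinset.image fun o => (o, v i)) = ∑ i : Fin k, 1 := by
          apply Finset.sum_congr rfl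
          intro i _
          obtain ⟨o, ho⟩ := Option.isSome_iff_exists.mp (hs i)
          rw [ho]
          simp
      _ = k := by simp
  · intro i _ j _ hij
    rw [Function.onFun, Finset.disjoint_left]
    intro p hp hq
    simp only [Finset.mem_image, Option.mem_toFinset, Option.mem_def] at hp hq
    obtain ⟨o, ho, rfl⟩ := hp
    obtain ⟨o', ho', h⟩ := hq
    have : o' = o := congrArg Prod.fst h
    subst this
    exact hij (hw (hmate _ _ _ ho ho'))

/-- the number of bad window tuples with given start -/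
lemma card_badW {mate : ι → Option κ} {pos : ι → ℕ} {m : ℕ} (hpos : ∀ a, pos a ≤ m)
    (hinj : ∀ a b, (mate a).isSome → (mate b).isSome → pos a = pos b → a = b) (Θ L : ℕ) (a : ι)
    (T : Finset (Fin (L + 1) → ι))
    (hT : ∀ w ∈ T, w 0 = a ∧ (∀ i, (mate (w i)).isSome) ∧ BadW pos Θ w) :
    #T ≤ (L + 1)! * (Θ * (Nat.log 2 m + 1) ^ L) := by
  classical
  have hch : ∀ w : Fin (L + 1) → ι, ∃ ρ : Equiv.Perm (Fin (L + 1)), w ∈ T →
      (StrictMono (fun i => pos (w (ρ i))) ∧ dpr (fun i => pos (w (ρ i))) ≤ Θ) := by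
    intro w
    by_cases hw : w ∈ T
    · obtain ⟨ρ, h⟩ := (hT w hw).2.2
      exact ⟨ρ, fun _ => h⟩
    · exact ⟨1, fun h => absurd h hw⟩
  choose ρ hρ using hch
  let F : (Fin (L + 1) → ι) → Equiv.Perm (Fin (L + 1)) × (Fin L → ℕ) := fun w =>
    (ρ w, fun i => pos (w (ρ w i.succ)) - pos (w (ρ w i.castSucc)))
  have hF : #T ≤ #((Finset.univ : Finset (Equiv.Perm (Fin (L + 1)))) ×ˢ
      ({d ∈ Fintype.piFinset (fun _ : Fin L => Finset.Icc 1 m) | ∏ i, d i ≤ Θ} :
        Finset (Fin L → ℕ))) := by
    apply Finset.card_le_card_of_injOn F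
    · intro w hw
      obtain ⟨h1, h2⟩ := hρ w hw
      simp only [Finset.coe_product, Set.mem_prod, Finset.mem_coe, Finset.mem_univ, true_and,
        Finset.mem_filter, Fintype.mem_piFinset, F]
      refine ⟨fun i => ?_, h2⟩
      have h3 : pos (w (ρ w i.castSucc)) < pos (w (ρ w i.succ)) := h1 i.castSucc_lt_succ
      have h4 := hpos (w (ρ w i.succ))
      rw [Finset.mem_Icc]
      omega
    · intro w hw w' hw' h
      have hr : ρ w = ρ w' := congrArg Prod.fst h
      have hd : (fun i : Fin L => pos (w (ρ w i.succ)) - pos (w (ρ w i.castSucc))) =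
          fun i => pos (w' (ρ w' i.succ)) - pos (w' (ρ w' i.castSucc)) := congrArg Prod.snd h
      obtain ⟨h1, h2⟩ := hρ w hw
      obtain ⟨h1', h2'⟩ := hρ w' hw'
      rw [← hr] at hd h1' h2'
      -- the difference is constant
      have hc : ∀ i : Fin (L + 1), (pos (w (ρ w i)) : ℤ) - pos (w' (ρ w i)) =
          (pos (w (ρ w 0)) : ℤ) - pos (w' (ρ w 0)) := by
        intro i
        induction i using Fin.induction with
        | zero => rfl
        | succ i ih =>
          have h3 : pos (w (ρ w i.castSucc)) < pos (w (ρ w i.succ)) := h1 i.castSucc_lt_succ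
          have h4 : pos (w' (ρ w i.castSucc)) < pos (w' (ρ w i.succ)) := h1' i.castSucc_lt_succ
          have h5 := congrFun hd i
          omega
      have ha := hc ((ρ w).symm 0)
      rw [Equiv.apply_symm_apply, (hT w hw).1, (hT w' hw').1] at ha
      have hp : ∀ j, pos (w j) = pos (w' j) := by
        intro j
        have hj := hc ((ρ w).symm j)
        rw [Equiv.apply_symm_apply] at hj
        omega
      funext j
      exact hinj _ _ ((hT w hw).2.1 j) ((hT w' hw').2.1 j) (hp j)
  refine hF.trans ?_
  rw [Finset.card_product, Finset.card_univ, Fintype.card_perm, Fintype.card_fin]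
  exact Nat.mul_le_mul_left _ (card_prod_le m L Θ)

/-- the factor lost per bad structure -/
noncomputable def betaC (m Θ L : ℕ) : ℝ :=
  Real.exp 1 ^ L * (((L + 1)! * (Θ * (Nat.log 2 m + 1) ^ L) : ℕ) / (m : ℝ) ^ L + L / m)

/-- the number of pairings with `k` disjoint bad windows or short cycles -/
theorem bad_count {mate : ι → Option κ} {pos : ι → ℕ} {m : ℕ} (hm : 0 < m)
    (hκ : Fintype.card κ = m) (hι : Fintype.card ι = m)
    (hmate : ∀ a b o, mate a = some o → mate b = some o → a = b)
    (hpos : ∀ a, pos a ≤ m)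
    (hinj : ∀ a b, (mate a).isSome → (mate b).isSome → pos a = pos b → a = b)
    (Θ L k : ℕ) (T : Finset (κ ≃ ι))
    (hT : ∀ σ ∈ T, ∃ A : Finset ι, #A = k ∧ ∃ U : ι → Set ι,
      (∀ a ∈ A, BadS mate pos Θ L σ a (U a)) ∧
      (∀ a ∈ A, ∀ b ∈ A, a ≠ b → Disjoint (U a) (U b))) :
    ((#T : ℕ) : ℝ) ≤ 2 ^ m * (m ! : ℕ) * betaC m Θ L ^ k := by
  classical
  have he : 0 ≤ Real.exp 1 / m := by positivity
  have he1 : (1 : ℝ) ≤ Real.exp 1 := Real.one_le_exp (by norm_num)
  -- codes
  let γ := (Fin (L + 1) → ι) ⊕ (Σ j : Fin L, (Fin (j.1 + 1) → ι))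
  let ch : γ → Finset (κ × ι) := fun g => match g with
    | Sum.inl w => chG mate (fun i : Fin L => w i.castSucc) (fun i : Fin L => w i.succ)
    | Sum.inr ⟨j, w⟩ => chG mate w (fun i => w (i + 1))
  let W1 : ι → Finset (Fin (L + 1) → ι) := fun a =>
    Finset.univ.filter fun w => w 0 = a ∧ Function.Injective w ∧ (∀ i, (mate (w i)).isSome) ∧
      BadW pos Θ w
  let W2 : ι → Finset (Σ j : Fin L, (Fin (j.1 + 1) → ι)) := fun a =>
    Finset.univ.sigma fun j => Finset.univ.filter fun w => w 0 = a ∧ Function.Injective w ∧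
      (∀ i, (mate (w i)).isSome)
  let Ch : ι → Finset γ := fun a => (W1 a).disjSum (W2 a)
  refine count_chains hm hκ hι ch Ch ?_ k T ?_
  · intro a
    have h1 : ∑ w ∈ W1 a, (Real.exp 1 / m) ^ #(ch (Sum.inl w)) ≤
        (((L + 1)! * (Θ * (Nat.log 2 m + 1) ^ L) : ℕ) : ℝ) * (Real.exp 1 / m) ^ L := by
      calc ∑ w ∈ W1 a, (Real.exp 1 / m) ^ #(ch (Sum.inl w))
          = ∑ w ∈ W1 a, (Real.exp 1 / m) ^ L := by
            apply Finset.sum_congr rfl
            intro w hw
            simp only [W1, Finset.mem_filter, Finset.mem_univ, true_and] at hw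
            congr 1
            apply card_chG hmate
            · intro i j hij
              exact Fin.castSucc_injective L (hw.2.1 hij)
            · intro i
              exact hw.2.2.1 _
        _ = (#(W1 a) : ℝ) * (Real.exp 1 / m) ^ L := by
            rw [Finset.sum_const, nsmul_eq_mul]
        _ ≤ _ := by
            apply mul_le_mul_of_nonneg_right _ (pow_nonneg he _)
            have := card_badW hpos hinj Θ L a (W1 a) (by
              intro w hw
              simp only [W1, Finset.mem_filter, Finset.mem_univ, true_and] at hw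
              exact ⟨hw.1, hw.2.2.1, hw.2.2.2⟩)
            exact_mod_cast this
    have h2 : ∑ w ∈ W2 a, (Real.exp 1 / m) ^ #(ch (Sum.inr w)) ≤ L * Real.exp 1 ^ L / m := by
      rw [Finset.sum_sigma]
      calc ∑ j : Fin L, ∑ w ∈ Finset.univ.filter (fun w : Fin (j.1 + 1) → ι => w 0 = a ∧
              Function.Injective w ∧ (∀ i, (mate (w i)).isSome)),
              (Real.exp 1 / m) ^ #(ch (Sum.inr ⟨j, w⟩))
          ≤ ∑ j : Fin L, Real.exp 1 ^ L / m := by
            apply Finset.sum_le_sum
            intro j _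
            calc ∑ w ∈ Finset.univ.filter (fun w : Fin (j.1 + 1) → ι => w 0 = a ∧
                Function.Injective w ∧ (∀ i, (mate (w i)).isSome)),
                (Real.exp 1 / m) ^ #(ch (Sum.inr ⟨j, w⟩))
                = ∑ w ∈ Finset.univ.filter (fun w : Fin (j.1 + 1) → ι => w 0 = a ∧
                Function.Injective w ∧ (∀ i, (mate (w i)).isSome)),
                (Real.exp 1 / m) ^ (j.1 + 1) := by
                  apply Finset.sum_congr rfl
                  intro w hw
                  rw [Finset.mem_filter] at hw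
                  congr 1
                  exact card_chG hmate hw.2.2.1 hw.2.2.2
              _ = (#(Finset.univ.filter (fun w : Fin (j.1 + 1) → ι => w 0 = a ∧
                Function.Injective w ∧ (∀ i, (mate (w i)).isSome))) : ℝ) *
                (Real.exp 1 / m) ^ (j.1 + 1) := by
                  rw [Finset.sum_const, nsmul_eq_mul]
              _ ≤ (m : ℝ) ^ j.1 * (Real.exp 1 / m) ^ (j.1 + 1) := by
                  apply mul_le_mul_of_nonneg_right _ (pow_nonneg he _)
                  have : #(Finset.univ.filter (fun w : Fin (j.1 + 1) → ι => w 0 = a ∧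
                      Function.Injective w ∧ (∀ i, (mate (w i)).isSome))) ≤
                      #(Finset.univ : Finset (Fin j.1 → ι)) := by
                    apply Finset.card_le_card_of_injOn (fun w => Fin.tail w)
                    · intro w _
                      exact Finset.mem_coe.mpr (Finset.mem_univ _)
                    · intro w hw w' hw' h
                      rw [Finset.mem_coe, Finset.mem_filter] at hw hw'
                      rw [← Fin.cons_self_tail w, ← Fin.cons_self_tail w', hw.2.1, hw'.2.1]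
                      simp only at h
                      rw [h]
                  have h3 : #(Finset.univ : Finset (Fin j.1 → ι)) = m ^ j.1 := by
                    rw [Finset.card_univ, Fintype.card_fun, Fintype.card_fin, hι]
                  rw [h3] at this
                  exact_mod_cast this
              _ = Real.exp 1 ^ (j.1 + 1) / m := by
                  have : (m : ℝ) ≠ 0 := by positivity
                  rw [div_pow, pow_succ (m : ℝ)]
                  field_simp
              _ ≤ Real.exp 1 ^ L / m := by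
                  apply div_le_div_of_nonneg_right _ (by positivity)
                  exact pow_le_pow_right₀ he1 j.2
        _ = L * Real.exp 1 ^ L / m := by
            rw [Finset.sum_const, Finset.card_univ, Fintype.card_fin, nsmul_eq_mul]
            ring
    calc ∑ P ∈ Ch a, (Real.exp 1 / m) ^ #(ch P)
        = ∑ w ∈ W1 a, (Real.exp 1 / m) ^ #(ch (Sum.inl w)) +
          ∑ w ∈ W2 a, (Real.exp 1 / m) ^ #(ch (Sum.inr w)) := by
          simp only [Ch]
          rw [Finset.sum_disjSum]
      _ ≤ (((L + 1)! * (Θ * (Nat.log 2 m + 1) ^ L) : ℕ) : ℝ) * (Real.exp 1 / m) ^ L +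
          L * Real.exp 1 ^ L / m := add_le_add h1 h2
      _ = betaC m Θ L := by
          unfold betaC
          rw [div_pow]
          ring
  · intro σ hσ
    obtain ⟨A, hA, U, hU, hdis⟩ := hT σ hσ
    have hcode : ∀ a, ∃ g : γ, a ∈ A → (g ∈ Ch a ∧ Set.InjOn Prod.fst (ch g : Set (κ × ι)) ∧
        (∀ p ∈ ch g, σ p.1 = p.2) ∧ ∀ p ∈ ch g, ∃ b ∈ U a, mate b = some p.1) := by
      intro a
      by_cases ha : a ∈ A
      · rcases hU a ha with ⟨w, hw, hb, h0, hUa⟩ | ⟨j, hj, w, hw, h0, hUa⟩
        · refine ⟨Sum.inl w, fun _ => ⟨?_, ?_, ?_, ?_⟩⟩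
          · have h1 : w ∈ W1 a := by
              simp only [W1, Finset.mem_filter, Finset.mem_univ, true_and]
              exact ⟨h0, hw.inj, hw.prop, hb⟩
            exact Finset.inl_mem_disjSum.mpr h1
          · apply injOn_chG hmate
            intro i j hij
            exact Fin.castSucc_injective L (hw.inj hij)
          · intro p hp
            simp only [ch] at hp
            rw [mem_chG] at hp
            obtain ⟨i, h1, h2⟩ := hp
            have := hw.nx i
            rw [h1] at this
            simp only [Option.map_some, Option.some.injEq] at this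
            rw [this, h2]
          · intro p hp
            simp only [ch] at hp
            rw [mem_chG] at hp
            obtain ⟨i, h1, h2⟩ := hp
            exact ⟨w i.castSucc, by rw [hUa]; exact Set.mem_range_self _, h1⟩
        · refine ⟨Sum.inr ⟨⟨j, hj⟩, w⟩, fun _ => ⟨?_, ?_, ?_, ?_⟩⟩
          · have h1 : (⟨⟨j, hj⟩, w⟩ : Σ j : Fin L, (Fin (j.1 + 1) → ι)) ∈ W2 a := by
              simp only [W2, Finset.mem_sigma, Finset.mem_filter, Finset.mem_univ, true_and]
              refine ⟨h0, hw.inj, fun i => ?_⟩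
              have := hw.nx i
              rcases hmi : mate (w i) with _ | o
              · rw [hmi] at this
                simp at this
              · rfl
            exact Finset.inr_mem_disjSum.mpr h1
          · exact injOn_chG hmate hw.inj
          · intro p hp
            simp only [ch] at hp
            rw [mem_chG] at hp
            obtain ⟨i, h1, h2⟩ := hp
            have := hw.nx i
            rw [h1] at this
            simp only [Option.map_some, Option.some.injEq] at this
            rw [this, h2]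
          · intro p hp
            simp only [ch] at hp
            rw [mem_chG] at hp
            obtain ⟨i, h1, h2⟩ := hp
            exact ⟨w i, by rw [hUa]; exact Set.mem_range_self _, h1⟩
      · by_cases hne : Nonempty γ
        · obtain ⟨g⟩ := hne
          exact ⟨g, fun h => absurd h ha⟩
        · exfalso
          apply hne
          exact ⟨Sum.inl fun _ => a⟩
    choose c hc using hcode
    refine ⟨A, hA, c, fun a ha => ⟨(hc a ha).1, (hc a ha).2.1, (hc a ha).2.2.1⟩, ?_⟩
    intro a ha b hb hab
    rw [Finset.disjoint_left]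
    intro o ho ho'
    rw [Finset.mem_image] at ho ho'
    obtain ⟨p, hp, rfl⟩ := ho
    obtain ⟨q, hq, hqp⟩ := ho'
    obtain ⟨x, hx, hmx⟩ := (hc a ha).2.2.2 p hp
    obtain ⟨y, hy, hmy⟩ := (hc b hb).2.2.2 q hq
    rw [hqp] at hmy
    have hxy : x = y := hmate _ _ _ hmx hmy
    subst hxy
    exact (Set.disjoint_left.mp (hdis a ha b hb hab)) hx hy

end win

end BP2.Cnt
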