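import Mathlib

/-!
# MP_475aca_co, part (D): counting bijections which contain many disjoint chains

`(m - j)! ≤ m! (e/m)^j`; the number of bijections extending a partial injection with `j` pairs is
at most `(m - j)!`; union bound over `k` disjoint chains.
-/

set_option autoImplicit false

namespace BP2.Cnt

open Finset Nat

/-- `(m - j)! ≤ m! (e/m)^j` -/
lemma factorial_sub_le (d j : ℕ) :
    ((d ! : ℕ) : ℝ) * ((d + j : ℕ) : ℝ) ^ j ≤ Real.exp 1 ^ j * (((d + j)! : ℕ) : ℝ) := by
  induction j with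
  | zero => simp
  | succ j ih =>
    rcases Nat.eq_zero_or_pos (d + j) with h0 | h0
    · obtain ⟨rfl, rfl⟩ : d = 0 ∧ j = 0 := by omega
      have h1 : (1 : ℝ) ≤ Real.exp 1 := Real.one_le_exp (by norm_num)
      norm_num
    · have hp : (0 : ℝ) < ((d + j : ℕ) : ℝ) := by exact_mod_cast h0
      have h1 : (1 + 1 / ((d + j : ℕ) : ℝ)) ^ j ≤ Real.exp 1 := by
        have h2 : (1 + 1 / ((d + j : ℕ) : ℝ)) ≤ Real.exp (1 / ((d + j : ℕ) : ℝ)) := by
          have := Real.add_one_le_exp (1 / ((d + j : ℕ) : ℝ))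
          linarith
        have h3 : (1 + 1 / ((d + j : ℕ) : ℝ)) ^ j ≤ Real.exp (1 / ((d + j : ℕ) : ℝ)) ^ j :=
          pow_le_pow_left₀ (by positivity) h2 j
        refine h3.trans ?_
        rw [← Real.exp_nat_mul]
        apply Real.exp_le_exp.mpr
        have hj : (j : ℝ) ≤ ((d + j : ℕ) : ℝ) := by
          push_cast
          have : (0 : ℝ) ≤ (d : ℝ) := by positivity
          linarith
        rw [mul_one_div]
        exact (div_le_one hp).mpr hj
      have h4 : (((d + (j + 1) : ℕ)) : ℝ) = ((d + j : ℕ) : ℝ) * (1 + 1 / ((d + j : ℕ) : ℝ)) := by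
        field_simp
        push_cast
        ring
      have h5 : (((d + (j + 1))! : ℕ) : ℝ) = ((d + (j + 1) : ℕ) : ℝ) * (((d + j)! : ℕ) : ℝ) := by
        rw [show d + (j + 1) = (d + j) + 1 by ring, Nat.factorial_succ]
        push_cast
        ring
      calc ((d ! : ℕ) : ℝ) * ((d + (j + 1) : ℕ) : ℝ) ^ (j + 1)
          = ((d + (j + 1) : ℕ) : ℝ) * (((d ! : ℕ) : ℝ) * ((d + j : ℕ) : ℝ) ^ j) *
              (1 + 1 / ((d + j : ℕ) : ℝ)) ^ j := by
            rw [pow_succ]
            nth_rewrite 1 [h4]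
            rw [mul_pow]
            ring
        _ ≤ ((d + (j + 1) : ℕ) : ℝ) * (Real.exp 1 ^ j * (((d + j)! : ℕ) : ℝ)) *
              Real.exp 1 := by
            gcongr
        _ = Real.exp 1 ^ (j + 1) * (((d + (j + 1))! : ℕ) : ℝ) := by
            rw [h5, pow_succ]
            ring

lemma factorial_sub_le' {m j : ℕ} (hm : 0 < m) (h : j ≤ m) :
    (((m - j)! : ℕ) : ℝ) ≤ ((m ! : ℕ) : ℝ) * (Real.exp 1 / m) ^ j := by
  have h1 := factorial_sub_le (m - j) j
  rw [Nat.sub_add_cancel h] at h1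
  have hp : (0 : ℝ) < (m : ℝ) ^ j := by positivity
  rw [div_pow, ← mul_div_assoc, le_div_iff₀ hp]
  linarith

section ext

variable {κ ι : Type*} [Fintype κ] [Fintype ι] [DecidableEq κ] [DecidableEq ι]

/-- the number of bijections extending a partial injection -/
lemma card_extend {m : ℕ} (hκ : Fintype.card κ = m) (P : Finset (κ × ι))
    (hP : Set.InjOn Prod.fst (P : Set (κ × ι))) :
    #{σ : κ ≃ ι | ∀ p ∈ P, σ p.1 = p.2} ≤ (m - #P)! := by
  classical
  by_cases hne : ∃ σ : κ ≃ ι, ∀ p ∈ P, σ p.1 = p.2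
  swap
  · have : ({σ : κ ≃ ι | ∀ p ∈ P, σ p.1 = p.2} : Finset (κ ≃ ι)) = ∅ := by
      rw [Finset.filter_eq_empty_iff]
      intro σ _ h
      exact hne ⟨σ, h⟩
    rw [this]
    simp
  obtain ⟨σ₀, hσ₀⟩ := hne
  have hιm : Fintype.card ι = m := by rw [← hκ]; exact (Fintype.card_congr σ₀).symm
  set A := P.image Prod.fst with hA
  set B := P.image Prod.snd with hB
  have hcA : #A = #P := Finset.card_image_of_injOn hP
  have hBA : ∀ σ : κ ≃ ι, (∀ p ∈ P, σ p.1 = p.2) → ∀ x, x ∉ A → σ x ∉ B := by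
    intro σ hσ x hx hb
    rw [hB, Finset.mem_image] at hb
    obtain ⟨p, hp, hpx⟩ := hb
    rw [← hσ p hp] at hpx
    apply hx
    rw [hA, Finset.mem_image]
    exact ⟨p, hp, σ.injective hpx⟩
  have hBA' : ∀ σ : κ ≃ ι, (∀ p ∈ P, σ p.1 = p.2) → ∀ x, x ∈ A → σ x ∈ B := by
    intro σ hσ x hx
    rw [hA, Finset.mem_image] at hx
    obtain ⟨p, hp, rfl⟩ := hx
    rw [hσ p hp, hB]
    exact Finset.mem_image_of_mem _ hp
  let r : {σ : κ ≃ ι // ∀ p ∈ P, σ p.1 = p.2} → ({x : κ // x ∉ A} ≃ {y : ι // y ∉ B}) :=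
    fun σ => σ.1.subtypeEquiv (fun x => by
      constructor
      · exact hBA σ.1 σ.2 x
      · intro h1 h2
        exact h1 (hBA' σ.1 σ.2 x h2))
  have hr : Function.Injective r := by
    intro σ τ h
    apply Subtype.ext
    apply Equiv.ext
    intro x
    by_cases hx : x ∈ A
    · rw [hA, Finset.mem_image] at hx
      obtain ⟨p, hp, rfl⟩ := hx
      rw [σ.2 p hp, τ.2 p hp]
    · have := congrArg (fun e => ((e ⟨x, hx⟩ : {y : ι // y ∉ B}) : ι)) h
      simpa [r] using this
  have hc1 : Fintype.card {x : κ // x ∉ A} = m - #P := by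
    rw [Fintype.card_subtype_compl, hκ, ← hcA]
    congr 1
    exact Fintype.card_coe A
  have e0 : {x : κ // x ∉ A} ≃ {y : ι // y ∉ B} := r ⟨σ₀, hσ₀⟩
  calc #{σ : κ ≃ ι | ∀ p ∈ P, σ p.1 = p.2}
      = Fintype.card {σ : κ ≃ ι // ∀ p ∈ P, σ p.1 = p.2} := (Fintype.card_subtype _).symm
    _ ≤ Fintype.card ({x : κ // x ∉ A} ≃ {y : ι // y ∉ B}) :=
        Fintype.card_le_of_injective r hr
    _ = (Fintype.card {x : κ // x ∉ A})! := Fintype.card_equiv e0
    _ = (m - #P)! := by rw [hc1]

/-- the union bound over `k` disjoint chains -/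
theorem count_chains {γ : Type*} {m : ℕ} (hm : 0 < m) (hκ : Fintype.card κ = m)
    (hι : Fintype.card ι = m) (ch : γ → Finset (κ × ι))
    (Ch : ι → Finset γ) {β : ℝ}
    (hβ : ∀ a, ∑ P ∈ Ch a, (Real.exp 1 / m) ^ #(ch P) ≤ β) (k : ℕ) (T : Finset (κ ≃ ι))
    (hT : ∀ σ ∈ T, ∃ A : Finset ι, #A = k ∧ ∃ c : ι → γ,
      (∀ a ∈ A, c a ∈ Ch a ∧ Set.InjOn Prod.fst (ch (c a) : Set (κ × ι)) ∧
        ∀ p ∈ ch (c a), σ p.1 = p.2) ∧
      (∀ a ∈ A, ∀ b ∈ A, a ≠ b →
        Disjoint ((ch (c a)).image Prod.fst) ((ch (c b)).image Prod.fst))) :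
    ((#T : ℕ) : ℝ) ≤ 2 ^ m * (m ! : ℕ) * β ^ k := by
  classical
  have he : 0 ≤ Real.exp 1 / m := by positivity
  -- the events for fixed `A` and `c`
  let Ev : (A : Finset ι) → ((a : A) → γ) → Finset (κ ≃ ι) := fun A c =>
    if (∀ a, Set.InjOn Prod.fst (ch (c a) : Set (κ × ι))) ∧
        (∀ a b, a ≠ b → Disjoint ((ch (c a)).image Prod.fst) ((ch (c b)).image Prod.fst)) then
      ({σ : κ ≃ ι | ∀ a, ∀ p ∈ ch (c a), σ p.1 = p.2} : Finset (κ ≃ ι)) else ∅
  have hEv : ∀ A c, ((#(Ev A c) : ℕ) : ℝ) ≤ (m ! : ℕ) * ∏ a, (Real.exp 1 / m) ^ #(ch (c a)) := by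
    intro A c
    by_cases hc : (∀ a, Set.InjOn Prod.fst (ch (c a) : Set (κ × ι))) ∧
        (∀ a b, a ≠ b → Disjoint ((ch (c a)).image Prod.fst) ((ch (c b)).image Prod.fst))
    swap
    · have : Ev A c = ∅ := by simp only [Ev]; rw [if_neg hc]
      rw [this]
      simp only [Finset.card_empty, Nat.cast_zero]
      positivity
    · have hE : Ev A c = ({σ : κ ≃ ι | ∀ a, ∀ p ∈ ch (c a), σ p.1 = p.2} : Finset (κ ≃ ι)) := by
        simp only [Ev]; rw [if_pos hc]
      set P : Finset (κ × ι) := Finset.univ.biUnion (fun a => ch (c a)) with hP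
      have hdis : ∀ a b, a ≠ b → Disjoint (ch (c a)) (ch (c b)) := by
        intro a b hab
        rw [Finset.disjoint_left]
        intro p hp hq
        exact (Finset.disjoint_left.mp (hc.2 a b hab)) (Finset.mem_image_of_mem _ hp)
          (Finset.mem_image_of_mem _ hq)
      have hcard : #P = ∑ a, #(ch (c a)) := by
        rw [hP, Finset.card_biUnion]
        intro a _ b _ hab
        exact hdis a b hab
      have hinj : Set.InjOn Prod.fst (P : Set (κ × ι)) := by
        intro p hp q hq hpq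
        rw [hP, Finset.mem_coe, Finset.mem_biUnion] at hp hq
        obtain ⟨a, -, ha⟩ := hp
        obtain ⟨b, -, hb⟩ := hq
        by_cases hab : a = b
        · subst hab
          exact hc.1 a ha hb hpq
        · exfalso
          apply (Finset.disjoint_left.mp (hc.2 a b hab)) (Finset.mem_image_of_mem _ ha)
          rw [hpq]
          exact Finset.mem_image_of_mem _ hb
      have hsub : Ev A c = ({σ : κ ≃ ι | ∀ p ∈ P, σ p.1 = p.2} : Finset (κ ≃ ι)) := by
        rw [hE]
        ext σ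
        simp only [Finset.mem_filter, Finset.mem_univ, true_and, hP, Finset.mem_biUnion]
        constructor
        · rintro h p ⟨a, ha⟩
          exact h a p ha
        · intro h a p hp
          exact h p ⟨a, hp⟩
      have hle : #P ≤ m := by
        rw [← hκ, ← Finset.card_image_of_injOn hinj]
        exact Finset.card_le_univ _
      rw [hsub]
      calc ((#({σ : κ ≃ ι | ∀ p ∈ P, σ p.1 = p.2} : Finset (κ ≃ ι)) : ℕ) : ℝ)
          ≤ (((m - #P)! : ℕ) : ℝ) := by exact_mod_cast card_extend hκ P hinj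
        _ ≤ ((m ! : ℕ) : ℝ) * (Real.exp 1 / m) ^ #P := factorial_sub_le' hm hle
        _ = (m ! : ℕ) * ∏ a, (Real.exp 1 / m) ^ #(ch (c a)) := by
            rw [Finset.prod_pow_eq_pow_sum, hcard]
  -- covering
  have hcov : T ⊆
      (Finset.powersetCard k (Finset.univ : Finset ι)).biUnion fun A =>
        (Fintype.piFinset fun a : A => Ch a).biUnion fun c => Ev A c := by
    intro σ hσ
    obtain ⟨A, hA, c, h1, h2⟩ := hT σ hσ
    rw [Finset.mem_biUnion]
    refine ⟨A, by rw [Finset.mem_powersetCard]; exact ⟨Finset.subset_univ _, hA⟩, ?_⟩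
    rw [Finset.mem_biUnion]
    refine ⟨fun a => c a, ?_, ?_⟩
    · rw [Fintype.mem_piFinset]
      intro a
      exact (h1 a a.2).1
    · have hc : (∀ a : A, Set.InjOn Prod.fst (ch (c a) : Set (κ × ι))) ∧
          (∀ a b : A, a ≠ b → Disjoint ((ch (c a)).image Prod.fst) ((ch (c b)).image Prod.fst)) := by
        refine ⟨fun a => (h1 a a.2).2.1, fun a b hab => h2 a a.2 b b.2 ?_⟩
        intro h
        exact hab (Subtype.ext h)
      simp only [Ev]
      rw [if_pos hc, Finset.mem_filter]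
      exact ⟨Finset.mem_univ _, fun a p hp => (h1 a a.2).2.2 p hp⟩
  have hβ0 : 0 ≤ β ∨ IsEmpty ι := by
    by_cases hn : Nonempty ι
    · left
      obtain ⟨a⟩ := hn
      refine le_trans ?_ (hβ a)
      exact Finset.sum_nonneg fun P _ => pow_nonneg he _
    · right
      exact not_nonempty_iff.mp hn
  have hβ0' : 0 ≤ β := by
    rcases hβ0 with h | h
    · exact h
    · exfalso
      rw [Fintype.card_eq_zero] at hι
      omega
  calc ((#T : ℕ) : ℝ)
      ≤ ((#((Finset.powersetCard k (Finset.univ : Finset ι)).biUnion fun A =>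
        (Fintype.piFinset fun a : A => Ch a).biUnion fun c => Ev A c) : ℕ) : ℝ) := by
          exact_mod_cast Finset.card_le_card hcov
    _ ≤ ((∑ A ∈ Finset.powersetCard k (Finset.univ : Finset ι),
        ∑ c ∈ (Fintype.piFinset fun a : A => Ch a), #(Ev A c) : ℕ) : ℝ) := by
          have : #((Finset.powersetCard k (Finset.univ : Finset ι)).biUnion fun A =>
            (Fintype.piFinset fun a : A => Ch a).biUnion fun c => Ev A c) ≤
              ∑ A ∈ Finset.powersetCard k (Finset.univ : Finset ι),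
              ∑ c ∈ (Fintype.piFinset fun a : A => Ch a), #(Ev A c) := by
            refine Finset.card_biUnion_le.trans ?_
            apply Finset.sum_le_sum
            intro A _
            exact Finset.card_biUnion_le
          exact_mod_cast this
    _ = ∑ A ∈ Finset.powersetCard k (Finset.univ : Finset ι),
        ∑ c ∈ (Fintype.piFinset fun a : A => Ch a), ((#(Ev A c) : ℕ) : ℝ) := by
          push_cast
          rfl
    _ ≤ ∑ A ∈ Finset.powersetCard k (Finset.univ : Finset ι),
        ∑ c ∈ (Fintype.piFinset fun a : A => Ch a),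
          ((m ! : ℕ) : ℝ) * ∏ a, (Real.exp 1 / m) ^ #(ch (c a)) := by
          apply Finset.sum_le_sum
          intro A _
          apply Finset.sum_le_sum
          intro c _
          exact hEv A c
    _ = ∑ A ∈ Finset.powersetCard k (Finset.univ : Finset ι),
        ((m ! : ℕ) : ℝ) * ∏ a : A, ∑ P ∈ Ch a, (Real.exp 1 / m) ^ #(ch P) := by
          apply Finset.sum_congr rfl
          intro A _
          rw [← Finset.mul_sum, Finset.prod_univ_sum]
    _ ≤ ∑ A ∈ Finset.powersetCard k (Finset.univ : Finset ι), ((m ! : ℕ) : ℝ) * β ^ k := by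
          apply Finset.sum_le_sum
          intro A hA
          rw [Finset.mem_powersetCard] at hA
          apply mul_le_mul_of_nonneg_left _ (by positivity)
          calc ∏ a : A, ∑ P ∈ Ch a, (Real.exp 1 / m) ^ #(ch P) ≤ ∏ a : A, β := by
                apply Finset.prod_le_prod
                · intro a _
                  exact Finset.sum_nonneg fun P _ => pow_nonneg he _
                · intro a _
                  exact hβ a
            _ = β ^ k := by
                rw [Finset.prod_const, Finset.card_univ, Fintype.card_coe, hA.2]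
    _ = (((Finset.powersetCard k (Finset.univ : Finset ι)).card : ℕ) : ℝ) *
          (((m ! : ℕ) : ℝ) * β ^ k) := by
          rw [Finset.sum_const, nsmul_eq_mul]
    _ ≤ 2 ^ m * (((m ! : ℕ) : ℝ) * β ^ k) := by
          apply mul_le_mul_of_nonneg_right _ (by positivity)
          rw [Finset.card_powersetCard, Finset.card_univ, hι]
          exact_mod_cast Nat.choose_le_two_pow m k
    _ = 2 ^ m * (m ! : ℕ) * β ^ k := by ring

end ext

end BP2.Cnt
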