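import Pool.Agent.BP2.D.Bad

/-!
# MP_475aca_co, part (D): a maximal family of disjoint windows and short cycles

A maximal family covers almost everything: `m ≤ (2 L + 1) #family + (L + 1) #stops`.
-/

set_option autoImplicit false

namespace BP2.Cnt

open Finset Nat

variable {κ ι : Type*}

/-- window or short cycle starting at `a`, with support `U` -/
def Str (mate : ι → Option κ) (L : ℕ) (σ : κ ≃ ι) (a : ι) (U : Set ι) : Prop :=
  (∃ w : Fin (L + 1) → ι, Win mate σ w ∧ w 0 = a ∧ U = Set.range w) ∨
  (∃ j, j < L ∧ ∃ w : Fin (j + 1) → ι, Cyc mate σ w ∧ w 0 = a ∧ U = Set.range w)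

lemma Str.mem {mate : ι → Option κ} {L : ℕ} {σ : κ ≃ ι} {a : ι} {U : Set ι}
    (h : Str mate L σ a U) : a ∈ U := by
  rcases h with ⟨w, -, h0, rfl⟩ | ⟨j, -, w, -, h0, rfl⟩
  · exact ⟨0, h0⟩
  · exact ⟨0, h0⟩

/-- the next in-label -/
def nxt (mate : ι → Option κ) (σ : κ ≃ ι) (a : ι) : Option ι := (mate a).map σ

lemma nxt_inj {mate : ι → Option κ} (hmate : ∀ a b o, mate a = some o → mate b = some o → a = b)
    {σ : κ ≃ ι} {a b c : ι} (ha : nxt mate σ a = some c) (hb : nxt mate σ b = some c) : a = b := by
  unfold nxt at ha hb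
  rw [Option.map_eq_some_iff] at ha hb
  obtain ⟨o, h1, h2⟩ := ha
  obtain ⟨o', h3, h4⟩ := hb
  have : o = o' := σ.injective (h2.trans h4.symm)
  subst this
  exact hmate _ _ _ h1 h3

/-- if `b` is in the support and its predecessor is not, then `b` is the start -/
lemma Str.start {mate : ι → Option κ}
    (hmate : ∀ a b o, mate a = some o → mate b = some o → a = b) {L : ℕ} {σ : κ ≃ ι} {a : ι}
    {U : Set ι} (h : Str mate L σ a U) {b c : ι} (hb : b ∈ U) (hc : c ∉ U)
    (hcb : nxt mate σ c = some b) : b = a := by
  rcases h with ⟨w, hw, h0, rfl⟩ | ⟨j, -, w, hw, h0, rfl⟩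
  · obtain ⟨i, rfl⟩ := hb
    rcases Fin.eq_zero_or_eq_succ i with rfl | ⟨k, rfl⟩
    · exact h0
    · exfalso
      apply hc
      exact ⟨k.castSucc, nxt_inj hmate (hw.nx k) hcb⟩
  · obtain ⟨i, rfl⟩ := hb
    exfalso
    apply hc
    refine ⟨i - 1, nxt_inj hmate ?_ hcb⟩
    have := hw.nx (i - 1)
    rw [sub_add_cancel] at this
    exact this

/-- the walk from `x` -/
def walk (mate : ι → Option κ) (σ : κ ≃ ι) (x : ι) : ℕ → Option ι
  | 0 => some x
  | i + 1 => (walk mate σ x i).bind (nxt mate σ)

lemma walk_inj {mate : ι → Option κ} (hmate : ∀ a b o, mate a = some o → mate b = some o → a = b)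
    {σ : κ ≃ ι} {x y : ι} (i : ℕ) : ∀ {b : ι}, walk mate σ x i = some b →
      walk mate σ y i = some b → x = y := by
  induction i with
  | zero =>
    intro b h1 h2
    simp only [walk, Option.some.injEq] at h1 h2
    rw [h1, h2]
  | succ i ih =>
    intro b h1 h2
    simp only [walk] at h1 h2
    rw [Option.bind_eq_some_iff] at h1 h2
    obtain ⟨c, h3, h4⟩ := h1
    obtain ⟨d, h5, h6⟩ := h2
    have : c = d := nxt_inj hmate h4 h6
    subst this
    exact ih h3 h5

/-- if nothing disjoint from `V` is a structure then the walk from `x ∉ V` ends soon -/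
lemma walk_ends {mate : ι → Option κ}
    (hmate : ∀ a b o, mate a = some o → mate b = some o → a = b) {L : ℕ} {σ : κ ≃ ι} {V : Set ι}
    (hV : ∀ a U, Str mate L σ a U → ¬ Disjoint U V) {x : ι} (hx : x ∉ V) :
    (∃ i < L, ∃ c b, c ∉ V ∧ b ∈ V ∧ nxt mate σ c = some b ∧ walk mate σ x (i + 1) = some b) ∨
    (∃ i ≤ L, ∃ b, walk mate σ x i = some b ∧ mate b = none) := by
  by_contra hcon
  rw [not_or] at hcon
  obtain ⟨hc1, hc2⟩ := hcon
  have key : ∀ i ≤ L, ∃ c, walk mate σ x i = some c ∧ c ∉ V ∧ (mate c).isSome := by
    intro i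
    induction i with
    | zero =>
      intro _
      refine ⟨x, rfl, hx, ?_⟩
      rcases hm : mate x with _ | o
      · exact absurd ⟨0, Nat.zero_le _, x, rfl, hm⟩ hc2
      · rfl
    | succ i ih =>
      intro hi
      obtain ⟨c, h1, h2, h3⟩ := ih (by omega)
      obtain ⟨o, ho⟩ := Option.isSome_iff_exists.mp h3
      have hn : nxt mate σ c = some (σ o) := by unfold nxt; rw [ho]; rfl
      have hw : walk mate σ x (i + 1) = some (σ o) := by
        simp only [walk, h1, Option.bind_some, hn]
      refine ⟨σ o, hw, ?_, ?_⟩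
      · intro hv
        exact hc1 ⟨i, by omega, c, σ o, h2, hv, hn, hw⟩
      · rcases hm : mate (σ o) with _ | o'
        · exact absurd ⟨i + 1, hi, σ o, hw, hm⟩ hc2
        · rfl
  have key' : ∀ i : ℕ, ∃ c : ι, i ≤ L → (walk mate σ x i = some c ∧ c ∉ V ∧ (mate c).isSome) := by
    intro i
    by_cases hi : i ≤ L
    · obtain ⟨c, h⟩ := key i hi
      exact ⟨c, fun _ => h⟩
    · exact ⟨x, fun h => absurd h hi⟩
  choose c hc using key'
  have h0 : c 0 = x := by
    have := (hc 0 (Nat.zero_le _)).1
    simp only [walk, Option.some.injEq] at this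
    exact this.symm
  have hstep : ∀ i < L, nxt mate σ (c i) = some (c (i + 1)) := by
    intro i hi
    have h1 := (hc i (by omega)).1
    have h2 := (hc (i + 1) (by omega)).1
    simp only [walk, h1, Option.bind_some] at h2
    exact h2
  by_cases hinj : ∀ i ≤ L, ∀ j ≤ L, c i = c j → i = j
  · -- a window
    let w : Fin (L + 1) → ι := fun i => c i
    have hs : Str mate L σ x (Set.range w) := by
      left
      refine ⟨w, ⟨?_, ?_, ?_⟩, h0, rfl⟩
      · intro i j hij
        exact Fin.ext (hinj i (by omega) j (by omega) hij)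
      · intro i
        exact (hc i (by omega)).2.2
      · intro i
        exact hstep i i.2
    apply hV x _ hs
    rw [Set.disjoint_left]
    rintro _ ⟨i, rfl⟩
    exact (hc i (by omega)).2.1
  · -- a cycle
    push Not at hinj
    have hex : ∃ p, 0 < p ∧ p ≤ L ∧ c p = c 0 := by
      obtain ⟨i, hi, j, hj, hij, hne⟩ := hinj
      have hback : ∀ d i j, i ≤ L → j ≤ L → c (i + d) = c (j + d) → i + d ≤ L → j + d ≤ L →
          c i = c j := by
        intro d
        induction d with
        | zero => intro i j _ _ h _ _; exact h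
        | succ d ih =>
          intro i j hi hj h h1 h2
          apply ih i j hi hj _ (by omega) (by omega)
          have h3 := hstep (i + d) (by omega)
          have h4 := hstep (j + d) (by omega)
          rw [show i + d + 1 = i + (d + 1) by ring] at h3
          rw [show j + d + 1 = j + (d + 1) by ring, ← h] at h4
          exact nxt_inj hmate h3 h4
      rcases lt_or_gt_of_ne hne with hlt | hlt
      · refine ⟨j - i, by omega, by omega, ?_⟩
        apply hback i (j - i) 0 (by omega) (by omega) _ (by omega) (by omega)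
        rw [show j - i + i = j by omega, Nat.zero_add]
        exact hij.symm
      · refine ⟨i - j, by omega, by omega, ?_⟩
        apply hback j (i - j) 0 (by omega) (by omega) _ (by omega) (by omega)
        rw [show i - j + j = i by omega, Nat.zero_add]
        exact hij
    classical
    let p := Nat.find hex
    obtain ⟨hp0, hpL, hpc⟩ := Nat.find_spec hex
    have hmin : ∀ q, 0 < q → q < p → c q ≠ c 0 := by
      intro q hq hqp h
      exact Nat.find_min hex hqp ⟨hq, by have : p ≤ L := hpL; omega, h⟩
    change 0 < p at hp0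
    change p ≤ L at hpL
    change c p = c 0 at hpc
    obtain ⟨j, hj⟩ : ∃ j, p = j + 1 := ⟨p - 1, by omega⟩
    let w : Fin (j + 1) → ι := fun i => c i
    have hs : Str mate L σ x (Set.range w) := by
      right
      refine ⟨j, by omega, w, ⟨?_, ?_⟩, h0, rfl⟩
      · intro i k hik
        have hik' : c i = c k := hik
        -- go back to zero
        have hback : ∀ d i j, c (i + d) = c (j + d) → i + d ≤ L → j + d ≤ L →
            c i = c j := by
          intro d
          induction d with
          | zero => intro i j h _ _; exact h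
          | succ d ih =>
            intro i j h h1 h2
            apply ih i j _ (by omega) (by omega)
            have h3 := hstep (i + d) (by omega)
            have h4 := hstep (j + d) (by omega)
            rw [show i + d + 1 = i + (d + 1) by ring] at h3
            rw [show j + d + 1 = j + (d + 1) by ring, ← h] at h4
            exact nxt_inj hmate h3 h4
        by_contra hne
        have hne' : (i : ℕ) ≠ k := fun h => hne (Fin.ext h)
        have hi2 := i.2
        have hk2 := k.2
        rcases lt_or_gt_of_ne hne' with hlt | hlt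
        · apply hmin (k - i) (by omega) (by omega)
          apply hback i (k - i) 0 _ (by omega) (by omega)
          rw [show (k : ℕ) - i + i = k by omega, Nat.zero_add]
          exact hik'.symm
        · apply hmin (i - k) (by omega) (by omega)
          apply hback k (i - k) 0 _ (by omega) (by omega)
          rw [show (i : ℕ) - k + k = i by omega, Nat.zero_add]
          exact hik'
      · intro i
        have h1 := hstep i (by have := i.2; omega)
        have h2 : w (i + 1) = c (i + 1 : ℕ) := by
          by_cases hi : (i : ℕ) = j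
          · have h3 : i = Fin.last j := Fin.ext (by rw [hi]; rfl)
            rw [h3, Fin.last_add_one]
            change c 0 = c (j + 1)
            rw [← hj, hpc]
          · have h3 : ((i + 1 : Fin (j + 1)) : ℕ) = i + 1 := by
              apply Fin.val_add_one_of_lt
              rw [Fin.lt_def]
              have := i.2
              simp only [Fin.val_last]
              omega
            change c ((i + 1 : Fin (j + 1)) : ℕ) = _
            rw [h3]
        rw [h2]
        exact h1
    apply hV x _ hs
    rw [Set.disjoint_left]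
    rintro _ ⟨i, rfl⟩
    exact (hc i (by have := i.2; omega)).2.1

variable [Fintype ι] [DecidableEq ι]

/-- decomposition into disjoint good windows (`F`) and bad structures (`B`) -/
theorem decomp {mate : ι → Option κ} {pos : ι → ℕ}
    (hmate : ∀ a b o, mate a = some o → mate b = some o → a = b) (Θ L : ℕ) (σ : κ ≃ ι)
    (N : Finset ι) (hN : ∀ a, mate a = none → a ∈ N) :
    ∃ (F B : Finset ι) (U : ι → Set ι) (w : ι → Fin (L + 1) → ι), Disjoint F B ∧
      (∀ a ∈ F, Win mate σ (w a) ∧ ¬ BadW pos Θ (w a) ∧ w a 0 = a ∧ U a = Set.range (w a)) ∧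
      (∀ a ∈ B, BadS mate pos Θ L σ a (U a)) ∧
      (∀ a ∈ F ∪ B, ∀ b ∈ F ∪ B, a ≠ b → Disjoint (U a) (U b)) ∧
      Fintype.card ι ≤ (2 * L + 1) * (#F + #B) + (L + 1) * #N := by
  classical
  let Pr : Finset ι → Prop := fun A => ∃ U : ι → Set ι, (∀ a ∈ A, Str mate L σ a (U a)) ∧
    (∀ a ∈ A, ∀ b ∈ A, a ≠ b → Disjoint (U a) (U b))
  have hne : ((Finset.univ : Finset (Finset ι)).filter Pr).Nonempty := by
    refine ⟨∅, ?_⟩
    rw [Finset.mem_filter]
    refine ⟨Finset.mem_univ _, fun _ => ∅, ?_, ?_⟩
    · intro a ha
      exact absurd ha (Finset.notMem_empty a)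
    · intro a ha
      exact absurd ha (Finset.notMem_empty a)
  obtain ⟨A, hA, hmax⟩ := Finset.exists_max_image _ Finset.card hne
  rw [Finset.mem_filter] at hA
  obtain ⟨-, U, hU, hdis⟩ := hA
  let V : Set ι := ⋃ a ∈ A, U a
  have hVm : ∀ a ∈ A, U a ⊆ V := by
    intro a ha x hx
    exact Set.mem_biUnion (t := U) ha hx
  have hV : ∀ b Ub, Str mate L σ b Ub → ¬ Disjoint Ub V := by
    intro b Ub hb hd
    have hbA : b ∉ A := by
      intro h
      exact (Set.disjoint_left.mp hd) hb.mem (hVm b h (hU b h).mem)
    have hins : Pr (insert b A) := by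
      refine ⟨Function.update U b Ub, ?_, ?_⟩
      · intro a ha
        rcases Finset.mem_insert.mp ha with rfl | ha
        · rw [Function.update_self]
          exact hb
        · have hab : a ≠ b := fun h => hbA (h ▸ ha)
          rw [Function.update_of_ne hab]
          exact hU a ha
      · intro a ha c hc hac
        by_cases h1 : a = b
        · have h2 : c ≠ b := fun h => hac (h1.trans h.symm)
          have hc' : c ∈ A := (Finset.mem_insert.mp hc).resolve_left h2
          rw [h1, Function.update_self, Function.update_of_ne h2]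
          exact Set.disjoint_of_subset_right (hVm c hc') hd
        · have ha' : a ∈ A := (Finset.mem_insert.mp ha).resolve_left h1
          by_cases h2 : c = b
          · rw [h2, Function.update_self, Function.update_of_ne h1]
            exact (Set.disjoint_of_subset_right (hVm a ha') hd).symm
          · have hc' : c ∈ A := (Finset.mem_insert.mp hc).resolve_left h2
            rw [Function.update_of_ne h1, Function.update_of_ne h2]
            exact hdis a ha' c hc' hac
    have := hmax (insert b A) (by rw [Finset.mem_filter]; exact ⟨Finset.mem_univ _, hins⟩)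
    rw [Finset.card_insert_of_notMem hbA] at this
    omega
  -- counting
  have hcount : Fintype.card ι ≤ (2 * L + 1) * #A + (L + 1) * #N := by
    have h1 : #(Finset.univ.filter fun x => x ∈ V) ≤ (L + 1) * #A := by
      have hsub : (Finset.univ.filter fun x => x ∈ V) ⊆
          A.biUnion fun a => Finset.univ.filter fun x => x ∈ U a := by
        intro x hx
        rw [Finset.mem_filter] at hx
        obtain ⟨a, ha, hxa⟩ := Set.mem_iUnion₂.mp hx.2
        rw [Finset.mem_biUnion]
        exact ⟨a, ha, by rw [Finset.mem_filter]; exact ⟨Finset.mem_univ _, hxa⟩⟩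
      refine (Finset.card_le_card hsub).trans ?_
      refine Finset.card_biUnion_le.trans ?_
      rw [mul_comm, ← smul_eq_mul]
      apply Finset.sum_le_card_nsmul
      intro a ha
      rcases hU a ha with ⟨w, -, -, hr⟩ | ⟨j, hj, w, -, -, hr⟩
      · have : (Finset.univ.filter fun x => x ∈ U a) ⊆ Finset.univ.image w := by
          intro x hx
          rw [Finset.mem_filter, hr] at hx
          obtain ⟨i, hi⟩ := hx.2
          exact Finset.mem_image.mpr ⟨i, Finset.mem_univ _, hi⟩
        exact (Finset.card_le_card this).trans (Finset.card_image_le.trans (by simp))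
      · have : (Finset.univ.filter fun x => x ∈ U a) ⊆ Finset.univ.image w := by
          intro x hx
          rw [Finset.mem_filter, hr] at hx
          obtain ⟨i, hi⟩ := hx.2
          exact Finset.mem_image.mpr ⟨i, Finset.mem_univ _, hi⟩
        refine (Finset.card_le_card this).trans (Finset.card_image_le.trans ?_)
        simp only [Finset.card_univ, Fintype.card_fin]
        omega
    have h2 : #(Finset.univ.filter fun x => x ∉ V) ≤ L * #A + (L + 1) * #N := by
      have hch : ∀ x, ∃ q : ι × ℕ, x ∉ V → (((q.1 ∈ A ∧ 1 ≤ q.2 ∧ q.2 ≤ L) ∨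
          (q.1 ∈ N ∧ q.2 ≤ L ∧ q.1 ∉ A)) ∨ (q.1 ∈ N ∧ q.2 ≤ L)) ∧
          walk mate σ x q.2 = some q.1 := by
        intro x
        by_cases hx : x ∈ V
        · exact ⟨(x, 0), fun h => absurd hx h⟩
        · rcases walk_ends hmate hV hx with ⟨i, hi, c, b, hc, hb, hcb, hw⟩ | ⟨i, hi, b, hw, hm⟩
          · refine ⟨(b, i + 1), fun _ => ⟨Or.inl (Or.inl ⟨?_, by simp, by simp; omega⟩), hw⟩⟩
            obtain ⟨a, ha, hba⟩ := Set.mem_iUnion₂.mp hb
            have : b = a := (hU a ha).start hmate hba (fun h => hc (hVm a ha h)) hcb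
            rw [this]
            exact ha
          · exact ⟨(b, i), fun _ => ⟨Or.inr ⟨hN b hm, hi⟩, hw⟩⟩
      choose q hq using hch
      have hsub2 : #(Finset.univ.filter fun x => x ∉ V) ≤
          #((A ×ˢ Finset.Icc 1 L) ∪ (N ×ˢ Finset.range (L + 1))) := by
        apply Finset.card_le_card_of_injOn q
        · intro x hx
          rw [Finset.mem_coe, Finset.mem_filter] at hx
          have := (hq x hx.2).1
          rw [Finset.mem_coe, Finset.mem_union, Finset.mem_product, Finset.mem_product,
            Finset.mem_Icc, Finset.mem_range]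
          rcases this with (⟨h1, h2, h3⟩ | ⟨h1, h2, -⟩) | ⟨h1, h2⟩
          · left; exact ⟨h1, h2, h3⟩
          · right; exact ⟨h1, by omega⟩
          · right; exact ⟨h1, by omega⟩
        · intro x hx y hy hxy
          rw [Finset.mem_coe, Finset.mem_filter] at hx hy
          have h3 := (hq x hx.2).2
          have h4 := (hq y hy.2).2
          rw [← hxy] at h4
          exact walk_inj hmate _ h3 h4
      refine hsub2.trans ((Finset.card_union_le _ _).trans ?_)
      rw [Finset.card_product, Finset.card_product, Nat.card_Icc, Finset.card_range]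
      apply le_of_eq
      rw [Nat.add_sub_cancel]
      ring
    have h3 : Fintype.card ι = #(Finset.univ.filter fun x => x ∈ V) +
        #(Finset.univ.filter fun x => x ∉ V) := by
      rw [← Finset.card_univ (α := ι)]
      exact (Finset.card_filter_add_card_filter_not (s := Finset.univ) (fun x => x ∈ V)).symm
    rw [h3]
    calc _ ≤ (L + 1) * #A + (L * #A + (L + 1) * #N) := Nat.add_le_add h1 h2
      _ = (2 * L + 1) * #A + (L + 1) * #N := by ring
  -- splitting
  let F : Finset ι := A.filter fun a => ∃ w : Fin (L + 1) → ι, Win mate σ w ∧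
    ¬ BadW pos Θ w ∧ w 0 = a ∧ U a = Set.range w
  have hw : ∀ a, ∃ w : Fin (L + 1) → ι, a ∈ F → (Win mate σ w ∧
    ¬ BadW pos Θ w ∧ w 0 = a ∧ U a = Set.range w) := by
    intro a
    by_cases ha : a ∈ F
    · obtain ⟨w, h⟩ := (Finset.mem_filter.mp ha).2
      exact ⟨w, fun _ => h⟩
    · exact ⟨fun _ => a, fun h => absurd h ha⟩
  choose w hw using hw
  have hFB : F ∪ (A \ F) = A := by
    rw [Finset.union_sdiff_of_subset (Finset.filter_subset _ _)]
  refine ⟨F, A \ F, U, w, Finset.disjoint_sdiff, hw, ?_, ?_, ?_⟩
  · intro a ha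
    rw [Finset.mem_sdiff] at ha
    rcases hU a ha.1 with ⟨v, h1, h2, h3⟩ | h
    · left
      refine ⟨v, h1, ?_, h2, h3⟩
      by_contra hb
      apply ha.2
      rw [Finset.mem_filter]
      exact ⟨ha.1, v, h1, hb, h2, h3⟩
    · right
      exact h
  · rw [hFB]
    exact hdis
  · rw [← Finset.card_union_of_disjoint Finset.disjoint_sdiff, hFB]
    exact hcount

end BP2.Cnt
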