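import Mathlib

set_option autoImplicit false

/-!
# MP_475aca_co, part (D): the state model

A letter is a gap `gap u l` (`u` = upper label, `l` = lower label) or a marker `mk a u l b`, which
stands for the two gaps `(a, u)` and `(l, b)` with a rigid block between them, where `a` and `b` are
partners. A state is `(t, xs)`: the top label and the list of the letters. `τ` is the partner of a
label.

* visit of the gap `gap u l` in `A ++ gap u l :: B`: the new state is `(u, rs A ++ gap t l :: B)`; if
  `τ t = l` the gap `gap t l` is deleted (a gain);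
* visit of the marker `mk a u l b` in `A ++ mk a u l b :: B`: nothing moves, the new state is
  `(l, gap u t :: (A ++ B))`; if `τ t = u` the gap `gap u t` is deleted (a gain);
* a marker `mk a u l b` may be replaced by its two gaps `gap a u`, `gap l b`.
-/

namespace BP2

variable {α : Type*}

/-- letters: gaps and markers; the labels are given from top to bottom -/
inductive Lt (α : Type*)
  | gap (u l : α) : Lt α
  | mk (a u l b : α) : Lt α
  deriving DecidableEq

namespace Lt

/-- the letter turned over -/
def sw : Lt α → Lt α
  | gap u l => gap l u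
  | mk a u l b => mk b l u a

/-- `true` for markers -/
def isMk : Lt α → Bool
  | gap _ _ => false
  | mk _ _ _ _ => true

/-- the label which must be the partner of the top -/
def ent : Lt α → α
  | gap _ l => l
  | mk _ u _ _ => u

/-- the new top after a visit of the letter -/
def lv : Lt α → α
  | gap u _ => u
  | mk _ _ l _ => l

/-- the labels of a letter -/
def labels : Lt α → List α
  | gap u l => [u, l]
  | mk a u l b => [a, u, l, b]

end Lt

open Lt

/-- the block `A` turned over -/
def rs (A : List (Lt α)) : List (Lt α) := (A.map sw).reverse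

/-- states: the top label and the letters -/
abbrev St (α : Type*) := α × List (Lt α)

/-- all the labels of a state -/
def labels (s : St α) : List α := s.1 :: s.2.flatMap Lt.labels

/-- `Run τ W n g k s s'`: `n` steps lead from `s` to `s'`, `g` of them are gains, `k` of them are
bad: visits of letters with `W` (as they are just before the visit), and dissolutions of markers. -/
inductive Run (τ : α → α) (W : Lt α → Bool) : ℕ → ℕ → ℕ → St α → St α → Prop
  | refl (s : St α) : Run τ W 0 0 0 s s
  | gapW {n g k : ℕ} {s : St α} {t u l : α} {A B : List (Lt α)} :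
      Run τ W n g k s (t, A ++ gap u l :: B) → τ t ≠ l →
      Run τ W (n + 1) g (k + (W (gap u l)).toNat) s (u, rs A ++ gap t l :: B)
  | gapG {n g k : ℕ} {s : St α} {t u l : α} {A B : List (Lt α)} :
      Run τ W n g k s (t, A ++ gap u l :: B) → τ t = l →
      Run τ W (n + 1) (g + 1) (k + (W (gap u l)).toNat) s (u, rs A ++ B)
  | mkW {n g k : ℕ} {s : St α} {t a u l b : α} {A B : List (Lt α)} :
      Run τ W n g k s (t, A ++ mk a u l b :: B) → τ t ≠ u →
      Run τ W (n + 1) g (k + (W (mk a u l b)).toNat) s (l, gap u t :: (A ++ B))
  | mkG {n g k : ℕ} {s : St α} {t a u l b : α} {A B : List (Lt α)} :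
      Run τ W n g k s (t, A ++ mk a u l b :: B) → τ t = u →
      Run τ W (n + 1) (g + 1) (k + (W (mk a u l b)).toNat) s (l, A ++ B)
  | dis {n g k : ℕ} {s : St α} {t a u l b : α} {A B : List (Lt α)} :
      Run τ W n g k s (t, A ++ mk a u l b :: B) →
      Run τ W (n + 1) g (k + 1) s (t, A ++ gap a u :: gap l b :: B)

@[simp] lemma sw_sw (x : Lt α) : sw (sw x) = x := by
  cases x <;> rfl

@[simp] lemma isMk_sw (x : Lt α) : isMk (sw x) = isMk x := by
  cases x <;> rfl

@[simp] lemma rs_nil : rs ([] : List (Lt α)) = [] := rfl

lemma rs_append (A B : List (Lt α)) : rs (A ++ B) = rs B ++ rs A := by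
  simp [rs]

lemma rs_single (x : Lt α) : rs [x] = [sw x] := rfl

@[simp] lemma rs_rs (A : List (Lt α)) : rs (rs A) = A := by
  simp only [rs, List.map_reverse, List.reverse_reverse, List.map_map]
  rw [List.map_congr_left (g := id) (fun x _ => by simp), List.map_id]

open List in
lemma rs_sublist {A B : List (Lt α)} (h : A <+ B) : rs A <+ rs B :=
  (h.map sw).reverse

@[simp] lemma rs_length (A : List (Lt α)) : (rs A).length = A.length := by
  simp [rs]

lemma mem_rs (A : List (Lt α)) (x : Lt α) : x ∈ rs A ↔ sw x ∈ A := by
  simp only [rs, List.mem_reverse, List.mem_map]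
  constructor
  · rintro ⟨y, hy, rfl⟩
    rwa [sw_sw]
  · intro h
    exact ⟨_, h, sw_sw x⟩

lemma Run.trans {τ : α → α} {W : Lt α → Bool} {n g k n' g' k' : ℕ}
    {s s' s'' : St α} (h : Run τ W n g k s s') (h' : Run τ W n' g' k' s' s'') :
    Run τ W (n + n') (g + g') (k + k') s s'' := by
  induction h' with
  | refl => exact h
  | gapW _ hne ih =>
    have := Run.gapW (ih h) hne
    simpa only [Nat.add_assoc] using this
  | gapG _ he ih =>
    have := Run.gapG (ih h) he
    simpa only [Nat.add_assoc] using this
  | mkW _ hne ih =>
    have := Run.mkW (ih h) hne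
    simpa only [Nat.add_assoc] using this
  | mkG _ he ih =>
    have := Run.mkG (ih h) he
    simpa only [Nat.add_assoc] using this
  | dis _ ih =>
    have := Run.dis (ih h)
    simpa only [Nat.add_assoc] using this

/-- the number of letters decreases by the number of gains, up to the dissolutions -/
lemma Run.length {τ : α → α} {W : Lt α → Bool} {n g k : ℕ}
    {s s' : St α} (h : Run τ W n g k s s') :
    s'.2.length + g ≤ s.2.length + k ∧ s.2.length ≤ s'.2.length + g := by
  induction h with
  | refl => simp
  | gapW _ _ ih =>
    simp only [List.length_append, List.length_cons, rs_length] at ih ⊢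
    omega
  | gapG _ _ ih =>
    simp only [List.length_append, List.length_cons, rs_length] at ih ⊢
    omega
  | mkW _ _ ih =>
    simp only [List.length_append, List.length_cons] at ih ⊢
    omega
  | mkG _ _ ih =>
    simp only [List.length_append, List.length_cons] at ih ⊢
    omega
  | dis _ ih =>
    simp only [List.length_append, List.length_cons] at ih ⊢
    omega

lemma Run.le {τ : α → α} {W : Lt α → Bool} {n g k : ℕ}
    {s s' : St α} (h : Run τ W n g k s s') : g ≤ n ∧ k ≤ n := by
  have hb : ∀ x : Bool, x.toNat ≤ 1 := by decide
  induction h with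
  | refl => simp
  | gapW _ _ ih => exact ⟨by omega, Nat.add_le_add ih.2 (hb _)⟩
  | gapG _ _ ih => exact ⟨by omega, Nat.add_le_add ih.2 (hb _)⟩
  | mkW _ _ ih => exact ⟨by omega, Nat.add_le_add ih.2 (hb _)⟩
  | mkG _ _ ih => exact ⟨by omega, Nat.add_le_add ih.2 (hb _)⟩
  | dis _ ih => exact ⟨by omega, by omega⟩

end BP2
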