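import Mathlib

/-!
# Erdős–Szekeres in several coordinates, and greedy decomposition into monotone families

(burnt pancake numbers, part (D), helper37)
-/

namespace BP2.ES

open Finset

variable {ι : Type*}

/-- On `T`, the order given by `a` implies the relation `r`. -/
def Ch (a : ι → ℕ) (r : ι → ι → Prop) (T : Finset ι) : Prop :=
  ∀ x ∈ T, ∀ y ∈ T, a x < a y → r x y

lemma Ch.mono {a : ι → ℕ} {r : ι → ι → Prop} {T U : Finset ι} (h : Ch a r T) (hU : U ⊆ T) :
    Ch a r U := fun x hx y hy => h x (hU hx) y (hU hy)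

section one

open Classical in
/-- Size of the largest `r`-chain inside `S` whose `a`-maximum is `x`. -/
noncomputable def len (a : ι → ℕ) (r : ι → ι → Prop) (S : Finset ι) (x : ι) : ℕ :=
  (S.powerset.filter (fun T => x ∈ T ∧ (∀ y ∈ T, a y ≤ a x) ∧ Ch a r T)).sup Finset.card

lemma le_len {a : ι → ℕ} {r : ι → ι → Prop} {S T : Finset ι} {x : ι} (hT : T ⊆ S)
    (hx : x ∈ T) (hm : ∀ y ∈ T, a y ≤ a x) (hc : Ch a r T) : T.card ≤ len a r S x := by
  classical
  unfold len
  apply Finset.le_sup (f := Finset.card)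
  simp only [Finset.mem_filter, Finset.mem_powerset]
  exact ⟨hT, hx, hm, hc⟩

lemma exists_len {a : ι → ℕ} {r : ι → ι → Prop} {S : Finset ι} {x : ι} (hx : x ∈ S) :
    ∃ T ⊆ S, x ∈ T ∧ (∀ y ∈ T, a y ≤ a x) ∧ Ch a r T ∧ T.card = len a r S x := by
  classical
  have hne : (S.powerset.filter
      (fun T => x ∈ T ∧ (∀ y ∈ T, a y ≤ a x) ∧ Ch a r T)).Nonempty := by
    refine ⟨{x}, ?_⟩
    rw [Finset.mem_filter, Finset.mem_powerset]
    refine ⟨Finset.singleton_subset_iff.mpr hx, Finset.mem_singleton_self x, ?_, ?_⟩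
    · intro y hy
      rw [Finset.mem_singleton] at hy
      rw [hy]
    · intro y hy z hz h
      rw [Finset.mem_singleton] at hy hz
      subst hy; subst hz
      exact absurd h (lt_irrefl _)
  obtain ⟨T, hT, hTe⟩ := Finset.exists_mem_eq_sup _ hne Finset.card
  simp only [Finset.mem_filter, Finset.mem_powerset] at hT
  exact ⟨T, hT.1, hT.2.1, hT.2.2.1, hT.2.2.2, by unfold len; exact hTe.symm⟩

lemma one_le_len {a : ι → ℕ} {r : ι → ι → Prop} {S : Finset ι} {x : ι} (hx : x ∈ S) :
    1 ≤ len a r S x := by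
  obtain ⟨T, -, hxT, -, -, hc⟩ := exists_len (a := a) (r := r) hx
  rw [← hc]
  exact Finset.card_pos.mpr ⟨x, hxT⟩

lemma len_lt {a : ι → ℕ} {r : ι → ι → Prop} (htr : ∀ x y z, r x y → r y z → r x z)
    {S : Finset ι} (ha : Set.InjOn a (S : Set ι)) {x y : ι} (hx : x ∈ S) (hy : y ∈ S)
    (h : a x < a y) (hr : r x y) : len a r S x < len a r S y := by
  classical
  obtain ⟨T, hTS, hxT, hm, hch, hc⟩ := exists_len (a := a) (r := r) hx
  have hyT : y ∉ T := fun hyT => absurd (hm y hyT) (by omega)
  have hle : (insert y T).card ≤ len a r S y := by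
    apply le_len
    · intro z hz
      rcases Finset.mem_insert.mp hz with rfl | hz
      · exact hy
      · exact hTS hz
    · exact Finset.mem_insert_self _ _
    · intro z hz
      rcases Finset.mem_insert.mp hz with rfl | hz
      · exact le_rfl
      · exact (hm z hz).trans h.le
    · intro u hu v hv huv
      rcases Finset.mem_insert.mp hu with rfl | hu'
      · rcases Finset.mem_insert.mp hv with rfl | hv'
        · exact absurd huv (lt_irrefl _)
        · exact absurd huv (by have := hm v hv'; omega)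
      · rcases Finset.mem_insert.mp hv with rfl | hv'
        · rcases (hm u hu').lt_or_eq with hlt | heq
          · exact htr _ _ _ (hch u hu' x hxT hlt) hr
          · have := ha (hTS hu') hx heq
            subst this
            exact hr
        · exact hch u hu' v hv' huv
  rw [Finset.card_insert_of_notMem hyT, hc] at hle
  omega

/-- One step of Erdős–Szekeres: `n ^ 2` elements contain `n` on which `b` is monotone or
antitone with respect to `a`. -/
theorem es_one {a b : ι → ℕ} {S : Finset ι} (ha : Set.InjOn a (S : Set ι))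
    (hb : Set.InjOn b (S : Set ι)) {n : ℕ} (hn : n ^ 2 ≤ S.card) :
    ∃ T ⊆ S, T.card = n ∧
      (Ch a (fun x y => b x < b y) T ∨ Ch a (fun x y => b y < b x) T) := by
  classical
  rcases Nat.eq_zero_or_pos n with rfl | hpos
  · exact ⟨∅, Finset.empty_subset _, rfl, Or.inl (fun x hx => absurd hx (Finset.notMem_empty x))⟩
  by_contra hcon
  push Not at hcon
  -- all lengths are `< n`
  have hlt : ∀ (r : ι → ι → Prop), (r = (fun x y => b x < b y) ∨ r = (fun x y => b y < b x)) →
      ∀ x ∈ S, len a r S x < n := by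
    intro r hr x hx
    by_contra hge
    push Not at hge
    obtain ⟨T, hTS, hxT, hm, hch, hc⟩ := exists_len (a := a) (r := r) hx
    rw [← hc] at hge
    obtain ⟨U, hUT, hUc⟩ := Finset.exists_subset_card_eq hge
    have h := hcon U (hUT.trans hTS) hUc
    rcases hr with rfl | rfl
    · exact h.1 (hch.mono hUT)
    · exact h.2 (hch.mono hUT)
  have hmap : ∀ x ∈ S, (len a (fun x y => b x < b y) S x, len a (fun x y => b y < b x) S x) ∈
      (Finset.Icc 1 (n - 1)) ×ˢ (Finset.Icc 1 (n - 1)) := by
    intro x hx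
    have h1 := hlt _ (Or.inl rfl) x hx
    have h2 := hlt _ (Or.inr rfl) x hx
    have h3 := one_le_len (a := a) (r := fun x y => b x < b y) hx
    have h4 := one_le_len (a := a) (r := fun x y => b y < b x) hx
    simp only [Finset.mem_product, Finset.mem_Icc]
    omega
  have hinj : Set.InjOn (fun x => (len a (fun x y => b x < b y) S x,
      len a (fun x y => b y < b x) S x)) (S : Set ι) := by
    have key : ∀ x ∈ S, ∀ y ∈ S, a x < a y →
        len a (fun x y => b x < b y) S x ≠ len a (fun x y => b x < b y) S y ∨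
        len a (fun x y => b y < b x) S x ≠ len a (fun x y => b y < b x) S y := by
      intro x hx y hy h
      have hbne : b x ≠ b y := fun hbe => by
        have := hb hx hy hbe
        subst this
        exact absurd h (lt_irrefl _)
      rcases lt_or_gt_of_ne hbne with hlt' | hgt'
      · left
        exact (len_lt (r := fun x y => b x < b y)
          (fun x y z (h1 : b x < b y) (h2 : b y < b z) => lt_trans h1 h2) ha hx hy h hlt').ne
      · right
        exact (len_lt (r := fun x y => b y < b x)
          (fun x y z (h1 : b y < b x) (h2 : b z < b y) => lt_trans h2 h1) ha hx hy h hgt').ne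
    intro x hx y hy hxy
    simp only [Prod.mk.injEq] at hxy
    by_contra hne
    have hane : a x ≠ a y := fun hae => hne (ha hx hy hae)
    rcases lt_or_gt_of_ne hane with h | h
    · rcases key x hx y hy h with h' | h'
      · exact h' hxy.1
      · exact h' hxy.2
    · rcases key y hy x hx h with h' | h'
      · exact h' hxy.1.symm
      · exact h' hxy.2.symm
  have hcard := Finset.card_le_card_of_injOn _ hmap hinj
  rw [Finset.card_product, Nat.card_Icc] at hcard
  have h1 : (n - 1 + 1 - 1) * (n - 1 + 1 - 1) < n ^ 2 := by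
    have : n - 1 + 1 - 1 = n - 1 := by omega
    rw [this, pow_two]
    exact Nat.mul_lt_mul_of_lt_of_le (by omega) (by omega) (by omega)
  omega

end one

/-- Erdős–Szekeres in `L` further coordinates, for finsets. -/
theorem es_many {L : ℕ} {a : ι → ℕ} {b : Fin L → ι → ℕ} {S : Finset ι}
    (ha : Set.InjOn a (S : Set ι)) (hb : ∀ j, Set.InjOn (b j) (S : Set ι)) {n : ℕ}
    (hn : n ^ (2 ^ L) ≤ S.card) :
    ∃ T ⊆ S, T.card = n ∧
      ∀ j, (Ch a (fun x y => b j x < b j y) T ∨ Ch a (fun x y => b j y < b j x) T) := by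
  classical
  induction L generalizing S with
  | zero =>
    simp only [pow_zero, pow_one] at hn
    obtain ⟨T, hT, hc⟩ := Finset.exists_subset_card_eq hn
    exact ⟨T, hT, hc, fun j => j.elim0⟩
  | succ L ih =>
    have hn' : (n ^ (2 ^ L)) ^ 2 ≤ S.card := by
      rw [← pow_mul, ← pow_succ]; exact hn
    obtain ⟨T, hTS, hTc, hT0⟩ := es_one ha (hb 0) hn'
    obtain ⟨U, hUT, hUc, hU⟩ := ih (b := fun j => b j.succ) (S := T)
      (ha.mono (by exact_mod_cast hTS)) (fun j => (hb j.succ).mono (by exact_mod_cast hTS)) hTc.ge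
    refine ⟨U, hUT.trans hTS, hUc, ?_⟩
    intro j
    refine Fin.cases ?_ (fun i => ?_) j
    · rcases hT0 with h | h
      · exact Or.inl (h.mono hUT)
      · exact Or.inr (h.mono hUT)
    · exact hU i

/-- Enumerate a finset increasingly in `a`. -/
lemma exists_enum {a : ι → ℕ} {T : Finset ι} (ha : Set.InjOn a (T : Set ι)) {n : ℕ}
    (hc : T.card = n) : ∃ f : Fin n → ι, Function.Injective f ∧ (∀ k, f k ∈ T) ∧
      (∀ x ∈ T, ∃ k, f k = x) ∧ StrictMono (fun k => a (f k)) := by
  classical
  have hic : (T.image a).card = n := by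
    rw [Finset.card_image_of_injOn ha, hc]
  have hmem : ∀ k : Fin n, ∃ x ∈ T, a x = (T.image a).orderEmbOfFin hic k := by
    intro k
    have := Finset.orderEmbOfFin_mem (T.image a) hic k
    obtain ⟨x, hx, hxe⟩ := Finset.mem_image.mp this
    exact ⟨x, hx, hxe⟩
  choose f hfT hfa using hmem
  have hsm : StrictMono (fun k => a (f k)) := by
    intro i j hij
    simp only [hfa]
    exact (Finset.orderEmbOfFin (T.image a) hic).strictMono hij
  refine ⟨f, fun i j hij => ?_, hfT, ?_, hsm⟩
  · exact hsm.injective (by simp only [hij])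
  · intro x hx
    have hax : a x ∈ (T.image a : Finset ℕ) := Finset.mem_image_of_mem a hx
    have hr : a x ∈ Set.range ((T.image a).orderEmbOfFin hic) := by
      rw [Finset.range_orderEmbOfFin]; exact_mod_cast hax
    obtain ⟨k, hk⟩ := hr
    refine ⟨k, ha (hfT k) hx ?_⟩
    rw [hfa, hk]

/-- **(i)** Erdős–Szekeres in several coordinates, enumerated form: first coordinate strictly
increasing, every coordinate strictly monotone or strictly antitone. -/
theorem es_enum {L : ℕ} {pos : ι → Fin (L + 1) → ℕ} {S : Finset ι}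
    (hinj : ∀ j, Set.InjOn (fun i => pos i j) (S : Set ι)) {n : ℕ}
    (hn : n ^ (2 ^ L) ≤ S.card) :
    ∃ f : Fin n → ι, Function.Injective f ∧ (∀ k, f k ∈ S) ∧
      StrictMono (fun k => pos (f k) 0) ∧
      ∀ j, StrictMono (fun k => pos (f k) j) ∨ StrictAnti (fun k => pos (f k) j) := by
  obtain ⟨T, hTS, hTc, hT⟩ := es_many (a := fun i => pos i 0)
    (b := fun (j : Fin L) i => pos i j.succ) (hinj 0) (fun j => hinj j.succ) hn
  obtain ⟨f, hfi, hfT, -, hsm⟩ := exists_enum
    ((hinj 0).mono (by exact_mod_cast hTS : (T : Set ι) ⊆ S)) hTc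
  refine ⟨f, hfi, fun k => hTS (hfT k), hsm, ?_⟩
  intro j
  refine Fin.cases (Or.inl hsm) (fun i => ?_) j
  rcases hT i with h | h
  · exact Or.inl (fun k l hkl => h _ (hfT k) _ (hfT l) (hsm hkl))
  · exact Or.inr (fun k l hkl => h _ (hfT k) _ (hfT l) (hsm hkl))

/-- A family: an injective enumeration of windows, monotone in every coordinate. -/
structure Fam {L : ℕ} (pos : ι → Fin (L + 1) → ℕ) (n : ℕ) where
  f : Fin n → ι
  inj : Function.Injective f
  first : StrictMono (fun k => pos (f k) 0)
  mono : ∀ j, StrictMono (fun k => pos (f k) j) ∨ StrictAnti (fun k => pos (f k) j)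

/-- The finset of windows of a family. -/
def Fam.set [DecidableEq ι] {L : ℕ} {pos : ι → Fin (L + 1) → ℕ} {n : ℕ} (F : Fam pos n) :
    Finset ι := Finset.univ.image F.f

lemma Fam.card_set [DecidableEq ι] {L : ℕ} {pos : ι → Fin (L + 1) → ℕ} {n : ℕ}
    (F : Fam pos n) : F.set.card = n := by
  unfold Fam.set
  rw [Finset.card_image_of_injective _ F.inj, Finset.card_univ, Fintype.card_fin]

lemma Fam.mem_set [DecidableEq ι] {L : ℕ} {pos : ι → Fin (L + 1) → ℕ} {n : ℕ}
    (F : Fam pos n) {x : ι} : x ∈ F.set ↔ ∃ k, F.f k = x := by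
  unfold Fam.set
  simp

/-- **(ii)** Greedy decomposition of a finite set of windows into monotone families of size
`n` and a rest of size `< n ^ (2 ^ L)`. -/
theorem greedy [DecidableEq ι] {L : ℕ} {pos : ι → Fin (L + 1) → ℕ} {n : ℕ} (hn : 0 < n)
    (S : Finset ι) (hinj : ∀ j, Set.InjOn (fun i => pos i j) (S : Set ι)) :
    ∃ (Fs : List (Fam pos n)) (rest : Finset ι), rest ⊆ S ∧ rest.card < n ^ (2 ^ L) ∧
      (∀ F ∈ Fs, F.set ⊆ S) ∧ (∀ F ∈ Fs, Disjoint F.set rest) ∧
      Fs.Pairwise (fun F G => Disjoint F.set G.set) ∧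
      (∀ x ∈ S, x ∈ rest ∨ ∃ F ∈ Fs, x ∈ F.set) := by
  induction hs : S.card using Nat.strong_induction_on generalizing S with
  | _ m ih =>
    by_cases hlt : S.card < n ^ (2 ^ L)
    · exact ⟨[], S, Finset.Subset.refl _, hlt, by simp, by simp, by simp,
        fun x hx => Or.inl hx⟩
    · push Not at hlt
      obtain ⟨f, hfi, hfS, hsm, hmono⟩ := es_enum hinj hlt
      let F : Fam pos n := ⟨f, hfi, hsm, hmono⟩
      have hFS : F.set ⊆ S := by
        intro x hx
        obtain ⟨k, rfl⟩ := F.mem_set.mp hx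
        exact hfS k
      have hcard : (S \ F.set).card < m := by
        rw [Finset.card_sdiff_of_subset hFS, F.card_set, hs]
        have : F.set.card ≤ S.card := Finset.card_le_card hFS
        rw [F.card_set, hs] at this
        omega
      obtain ⟨Fs, rest, h1, h2, h3, h4, h5, h6⟩ := ih _ hcard (S \ F.set)
        (fun j => (hinj j).mono (by exact_mod_cast Finset.sdiff_subset)) rfl
      have hdis : Disjoint F.set (S \ F.set) := Finset.disjoint_sdiff
      refine ⟨F :: Fs, rest, h1.trans Finset.sdiff_subset, h2, ?_, ?_, ?_, ?_⟩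
      · intro G hG
        rcases List.mem_cons.mp hG with rfl | hG
        · exact hFS
        · exact (h3 G hG).trans Finset.sdiff_subset
      · intro G hG
        rcases List.mem_cons.mp hG with rfl | hG
        · exact Finset.disjoint_of_subset_right h1 hdis
        · exact h4 G hG
      · rw [List.pairwise_cons]
        exact ⟨fun G hG => Finset.disjoint_of_subset_right (h3 G hG) hdis, h5⟩
      · intro x hx
        by_cases hxF : x ∈ F.set
        · exact Or.inr ⟨F, List.mem_cons_self, hxF⟩
        · rcases h6 x (Finset.mem_sdiff.mpr ⟨hx, hxF⟩) with h | ⟨G, hG, hxG⟩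
          · exact Or.inl h
          · exact Or.inr ⟨G, List.mem_cons_of_mem _ hG, hxG⟩

/-- **(iii)** The same inside the classes of a map into a finite type: every family lies inside
one class, and the rest has at most `#κ * n ^ (2 ^ L)` windows. -/
theorem greedy_classes [DecidableEq ι] {κ : Type*} [Fintype κ] [DecidableEq κ] {L : ℕ}
    {pos : ι → Fin (L + 1) → ℕ} {n : ℕ} (hn : 0 < n) (cl : ι → κ)
    (S : Finset ι) (hinj : ∀ j, Set.InjOn (fun i => pos i j) (S : Set ι)) :
    ∃ (Fs : List (Fam pos n)) (rest : Finset ι), rest ⊆ S ∧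
      rest.card ≤ Fintype.card κ * n ^ (2 ^ L) ∧
      (∀ F ∈ Fs, F.set ⊆ S) ∧ (∀ F ∈ Fs, ∀ k l, cl (F.f k) = cl (F.f l)) ∧
      (∀ F ∈ Fs, Disjoint F.set rest) ∧
      Fs.Pairwise (fun F G => Disjoint F.set G.set) ∧
      (∀ x ∈ S, x ∈ rest ∨ ∃ F ∈ Fs, x ∈ F.set) := by
  -- induction over a finset of classes
  suffices H : ∀ K : Finset κ, ∃ (Fs : List (Fam pos n)) (rest : Finset ι),
      rest ⊆ S.filter (fun x => cl x ∈ K) ∧ rest.card ≤ K.card * n ^ (2 ^ L) ∧
      (∀ F ∈ Fs, F.set ⊆ S.filter (fun x => cl x ∈ K)) ∧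
      (∀ F ∈ Fs, ∀ k l, cl (F.f k) = cl (F.f l)) ∧
      (∀ F ∈ Fs, Disjoint F.set rest) ∧
      Fs.Pairwise (fun F G => Disjoint F.set G.set) ∧
      (∀ x ∈ S.filter (fun x => cl x ∈ K), x ∈ rest ∨ ∃ F ∈ Fs, x ∈ F.set) by
    obtain ⟨Fs, rest, h1, h2, h3, h4, h5, h6, h7⟩ := H Finset.univ
    have hS : S.filter (fun x => cl x ∈ (Finset.univ : Finset κ)) = S := by simp
    rw [hS] at h1 h3 h7
    exact ⟨Fs, rest, h1, by simpa [Finset.card_univ] using h2, h3, h4, h5, h6, h7⟩
  intro K
  induction K using Finset.induction_on with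
  | empty =>
    refine ⟨[], ∅, by simp, by simp, by simp, by simp, by simp, by simp, ?_⟩
    intro x hx
    simp at hx
  | insert c K hc ih =>
    obtain ⟨Fs, rest, h1, h2, h3, h4, h5, h6, h7⟩ := ih
    obtain ⟨Gs, rest', g1, g2, g3, g4, g5, g6⟩ := greedy (pos := pos) hn
      (S.filter (fun x => cl x = c))
      (fun j => (hinj j).mono (by exact_mod_cast Finset.filter_subset _ _))
    have hdis : Disjoint (S.filter (fun x => cl x = c)) (S.filter (fun x => cl x ∈ K)) := by
      rw [Finset.disjoint_left]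
      intro x hx hx'
      rw [Finset.mem_filter] at hx hx'
      exact hc (hx.2 ▸ hx'.2)
    have hsub1 : S.filter (fun x => cl x = c) ⊆ S.filter (fun x => cl x ∈ insert c K) := by
      intro x hx
      rw [Finset.mem_filter] at hx ⊢
      exact ⟨hx.1, by rw [hx.2]; exact Finset.mem_insert_self _ _⟩
    have hsub2 : S.filter (fun x => cl x ∈ K) ⊆ S.filter (fun x => cl x ∈ insert c K) := by
      intro x hx
      rw [Finset.mem_filter] at hx ⊢
      exact ⟨hx.1, Finset.mem_insert_of_mem hx.2⟩
    refine ⟨Gs ++ Fs, rest' ∪ rest, ?_, ?_, ?_, ?_, ?_, ?_, ?_⟩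
    · exact Finset.union_subset (g1.trans hsub1) (h1.trans hsub2)
    · rw [Finset.card_insert_of_notMem hc, Nat.add_mul, Nat.one_mul]
      have := Finset.card_union_le rest' rest
      omega
    · intro F hF
      rcases List.mem_append.mp hF with hF | hF
      · exact (g3 F hF).trans hsub1
      · exact (h3 F hF).trans hsub2
    · intro F hF k l
      rcases List.mem_append.mp hF with hF | hF
      · have hk := g3 F hF (F.mem_set.mpr ⟨k, rfl⟩)
        have hl := g3 F hF (F.mem_set.mpr ⟨l, rfl⟩)
        rw [Finset.mem_filter] at hk hl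
        rw [hk.2, hl.2]
      · exact h4 F hF k l
    · intro F hF
      rw [Finset.disjoint_union_right]
      rcases List.mem_append.mp hF with hF | hF
      · refine ⟨g4 F hF, ?_⟩
        exact Finset.disjoint_of_subset_left (g3 F hF)
          (Finset.disjoint_of_subset_right h1 hdis)
      · refine ⟨?_, h5 F hF⟩
        exact Finset.disjoint_of_subset_left (h3 F hF)
          (Finset.disjoint_of_subset_right g1 hdis.symm)
    · rw [List.pairwise_append]
      refine ⟨g5, h6, ?_⟩
      intro F hF G hG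
      exact Finset.disjoint_of_subset_left (g3 F hF)
        (Finset.disjoint_of_subset_right (h3 G hG) hdis)
    · intro x hx
      rw [Finset.mem_filter, Finset.mem_insert] at hx
      obtain ⟨hxS, hxc | hxK⟩ := hx
      · rcases g6 x (Finset.mem_filter.mpr ⟨hxS, hxc⟩) with h | ⟨F, hF, hxF⟩
        · exact Or.inl (Finset.mem_union_left _ h)
        · exact Or.inr ⟨F, List.mem_append_left _ hF, hxF⟩
      · rcases h7 x (Finset.mem_filter.mpr ⟨hxS, hxK⟩) with h | ⟨F, hF, hxF⟩
        · exact Or.inl (Finset.mem_union_right _ h)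
        · exact Or.inr ⟨F, List.mem_append_right _ hF, hxF⟩

end BP2.ES
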