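import Pool.Agent.BP2.D.Val

set_option autoImplicit false

/-!
# MP_475aca_co, part (D): the endgame

Every valid state with `m` letters, `j` of them markers, is finished by at most `4 m + j` visits.
-/

namespace BP2

open Lt (gap sw isMk)

variable {α : Type*}

/-- all letters are gaps -/
def allGap (A : List (Lt α)) : Prop := ∀ x ∈ A, isMk x = false

lemma allGap_rs {A : List (Lt α)} (h : allGap A) : allGap (rs A) := by
  intro x hx
  have := h _ ((mem_rs A x).mp hx)
  simpa using this

lemma allGap_append {A B : List (Lt α)} : allGap (A ++ B) ↔ allGap A ∧ allGap B := by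
  simp only [allGap, List.mem_append]
  exact ⟨fun h => ⟨fun x hx => h x (Or.inl hx), fun x hx => h x (Or.inr hx)⟩,
    fun h x hx => hx.elim (h.1 x) (h.2 x)⟩

lemma allGap_cons {u l : α} {B : List (Lt α)} : allGap (gap u l :: B) ↔ allGap B := by
  simp only [allGap, List.mem_cons, forall_eq_or_imp, isMk, true_and]

lemma clP_none (C : Set α) (t : α) (A : List (Lt α)) (ht : t ∉ C) (h : ∀ x ∈ lbl A, x ∉ C) :
    clP C t A := by
  induction A generalizing t with
  | nil => simp [clP]
  | cons x A ih =>
    cases x with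
    | gap u l =>
      simp only [lbl_gap, List.mem_cons, forall_eq_or_imp] at h
      exact ⟨by simp [ht, h.1], ih l h.2.1 h.2.2⟩
    | mk a u l b =>
      simp only [lbl_mk, List.mem_cons, forall_eq_or_imp] at h
      exact ⟨by simp [ht, h.1], by simp [h.2.1, h.2.2.1], ih b h.2.2.2.1 h.2.2.2.2⟩

lemma clP_only (C : Set α) (t : α) (A : List (Lt α)) (hnd : (t :: lbl A).Nodup)
    (h : ∀ x ∈ t :: lbl A, x ∈ C → x = pnd t A) : clP C t A := by
  induction A generalizing t with
  | nil => simp [clP]
  | cons x A ih =>
    cases x with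
    | gap u l =>
      simp only [lbl_gap] at h hnd
      have hnd' := hnd
      simp only [List.nodup_cons, List.mem_cons, not_or] at hnd'
      obtain ⟨⟨htu, htl, htA⟩, ⟨hul, huA⟩, hlA, hA⟩ := hnd'
      have hp : pnd t (gap u l :: A) = pnd l A := rfl
      rw [hp] at h
      have hm := pnd_mem' l A
      have hno : ∀ z ∈ t :: u :: l :: lbl A, z ∉ l :: lbl A → z ∉ C := by
        intro z hz hz2 hzC
        exact hz2 (h z hz hzC ▸ hm)
      have ht : t ∉ C := hno t (by simp) (by simp [htl, htA])
      have hu : u ∉ C := hno u (by simp) (by simp [hul, huA])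
      exact ⟨by simp [ht, hu], ih l (List.nodup_cons.mpr ⟨hlA, hA⟩) fun x hx hxC =>
        h x (List.mem_cons_of_mem _ (List.mem_cons_of_mem _ hx)) hxC⟩
    | mk a u l b =>
      simp only [lbl_mk] at h hnd
      have hnd' := hnd
      simp only [List.nodup_cons, List.mem_cons, not_or] at hnd'
      obtain ⟨⟨hta, htu, htl, htb, htA⟩, ⟨hau, hal, hab, haA⟩, ⟨hul, hub, huA⟩, ⟨hlb, hlA⟩,
        hbA, hA⟩ := hnd'
      have hp : pnd t (Lt.mk a u l b :: A) = pnd b A := rfl
      rw [hp] at h
      have hm := pnd_mem' b A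
      have hno : ∀ z ∈ t :: a :: u :: l :: b :: lbl A, z ∉ b :: lbl A → z ∉ C := by
        intro z hz hz2 hzC
        exact hz2 (h z hz hzC ▸ hm)
      have ht : t ∉ C := hno t (by simp) (by simp [htb, htA])
      have ha : a ∉ C := hno a (by simp) (by simp [hab, haA])
      have hu : u ∉ C := hno u (by simp) (by simp [hub, huA])
      have hl : l ∉ C := hno l (by simp) (by simp [hlb, hlA])
      exact ⟨by simp [ht, ha], by simp [hu, hl], ih b (List.nodup_cons.mpr ⟨hbA, hA⟩)
        fun x hx hxC => h x (List.mem_cons_of_mem _ (List.mem_cons_of_mem _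
          (List.mem_cons_of_mem _ (List.mem_cons_of_mem _ hx)))) hxC⟩

/-- in a valid state the two ends of a block are not partners -/
lemma Val.no_ring {τ : α → α} (hτ : ∀ x, τ (τ x) = x) {T t u l : α} {A B : List (Lt α)}
    (h : Val τ T (t, A ++ gap u l :: B)) : τ (pnd t A) ≠ u := by
  intro e
  set y := pnd t A with hy
  have hnd := h.nodup
  simp only [val_labels_eq, lbl_append, lbl_gap] at hnd
  have h2 : ((t :: lbl A) ++ (u :: l :: lbl B)).Nodup := by simpa using hnd
  have hnd1 : (t :: lbl A).Nodup := (List.nodup_append.mp h2).1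
  have hdis : ∀ z ∈ t :: lbl A, z ≠ u ∧ z ≠ l ∧ z ∉ lbl B := by
    intro z hz
    rw [List.nodup_append] at h2
    refine ⟨fun e => h2.2.2 z hz u (by simp) e, fun e => h2.2.2 z hz l (by simp) e, fun e =>
      h2.2.2 z hz z (by simp [e]) rfl⟩
  have hdis2 : u ≠ l ∧ u ∉ lbl B := by
    have h3 := (List.nodup_append.mp h2).2.1
    simp only [List.nodup_cons, List.mem_cons, not_or] at h3
    exact h3.1
  have hym := pnd_mem' t A
  rw [← hy] at hym
  have hyu : y ≠ u := (hdis y hym).1
  have hτu : τ u = y := by rw [← e, hτ]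
  refine h.conn {y, u} ?_ ?_ ?_ y ?_ (by simp)
  · rintro z (rfl | rfl)
    · simp [e]
    · simp [hτu]
  · simp only [clP_append, clP]
    refine ⟨clP_only _ t A hnd1 ?_, ?_, clP_none _ l B ?_ ?_⟩
    · rintro x hx (rfl | rfl)
      · exact hy
      · exact absurd rfl (hdis x hx).1
    · rw [← hy]
      simp
    · rintro (h2 | h2)
      · exact (hdis y hym).2.1 h2.symm
      · exact hdis2.1 h2.symm
    · rintro x hx (rfl | rfl)
      · exact (hdis y hym).2.2 hx
      · exact hdis2.2 hx
  · rintro (h2 | h2)
    · exact hyu (by rw [← e, ← h2, h.fixT])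
    · exact hyu (by rw [← hτu, ← h2, h.fixT])
  · simp only [val_labels_eq, lbl_append]
    rcases List.mem_cons.mp hym with h2 | h2
    · simp [h2]
    · simp [h2]

lemma mem_lbl_split {x : α} {A : List (Lt α)} (hA : allGap A) (h : x ∈ lbl A) :
    ∃ A1 u l A2, A = A1 ++ gap u l :: A2 ∧ (x = u ∨ x = l) := by
  induction A with
  | nil => simp at h
  | cons y A ih =>
    cases y with
    | gap u l =>
      simp only [lbl_gap, List.mem_cons] at h
      rcases h with h | h | h
      · exact ⟨[], u, l, A, rfl, Or.inl h⟩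
      · exact ⟨[], u, l, A, rfl, Or.inr h⟩
      · obtain ⟨A1, u', l', A2, rfl, h2⟩ := ih (allGap_cons.mp hA) h
        exact ⟨gap u l :: A1, u', l', A2, rfl, h2⟩
    | mk a u l b =>
      have := hA (Lt.mk a u l b) (by simp)
      simp [isMk] at this

/-- a gain by at most three visits, top not the target top -/
lemma gain3 {τ : α → α} (hτ : ∀ x, τ (τ x) = x) (W : Lt α → Bool) {T t : α} {A : List (Lt α)}
    (h : Val τ T (t, A)) (hA : allGap A) (ht : t ≠ T) :
    ∃ n k s', n ≤ 3 ∧ Run τ W n 1 k (t, A) s' ∧ allGap s'.2 ∧ s'.2.length + 1 = A.length := by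
  have h1 : τ t ∈ BP2.labels (t, A) := h.closed t (by simp [val_labels_eq])
  have h2 : τ t ≠ t := fun e => ht (h.fixed t (by simp [val_labels_eq]) e)
  have h3 : τ t ∈ lbl A := by
    simp only [val_labels_eq, List.mem_cons] at h1
    exact h1.resolve_left h2
  obtain ⟨A1, u, l, A2, rfl, hx⟩ := mem_lbl_split hA h3
  have hA1 : allGap A1 := (allGap_append.mp hA).1
  have hA2 : allGap A2 := allGap_cons.mp (allGap_append.mp hA).2
  by_cases hl : τ t = l
  · refine ⟨1, _, _, by omega, Run.gapG (Run.refl _) hl, ?_, ?_⟩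
    · exact allGap_append.mpr ⟨allGap_rs hA1, hA2⟩
    · simp
      omega
  · have hu : τ t = u := hx.resolve_right hl
    cases A1 with
    | nil =>
      exfalso
      exact h.no_ring hτ hu
    | cons y A1 =>
      cases y with
      | mk a u' l' b =>
        have := hA1 (Lt.mk a u' l' b) (by simp)
        simp [isMk] at this
      | gap u' l' =>
        have hA1' : allGap A1 := allGap_cons.mp hA1
        have hnd := h.nodup
        simp only [val_labels_eq, lbl_append, lbl_gap, List.cons_append] at hnd
        have hul' : τ t ≠ l' := by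
          rw [hu]
          intro e
          subst e
          simp at hnd
        have r1 : Run τ W (0 + 1) 0 (0 + (W (gap u' l')).toNat)
            (t, [] ++ gap u' l' :: (A1 ++ gap u l :: A2))
            (u', rs [] ++ gap t l' :: (A1 ++ gap u l :: A2)) :=
          Run.gapW (Run.refl _) hul'
        have e1 : ((u', rs [] ++ gap t l' :: (A1 ++ gap u l :: A2)) : St α) =
            (u', (gap t l' :: A1) ++ gap u l :: A2) := by simp
        have e0 : ((t, [] ++ gap u' l' :: (A1 ++ gap u l :: A2)) : St α) =
            (t, gap u' l' :: A1 ++ gap u l :: A2) := by simp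
        rw [e1, e0] at r1
        by_cases hg : τ u' = l
        · refine ⟨2, _, _, by omega, Run.gapG r1 hg, ?_, ?_⟩
          · exact allGap_append.mpr ⟨allGap_rs (allGap_cons.mpr hA1'), hA2⟩
          · simp
            omega
        · have r2 := Run.gapW r1 hg
          have e2 : ((u, rs (gap t l' :: A1) ++ gap u' l :: A2) : St α) =
              (u, rs A1 ++ gap l' t :: (gap u' l :: A2)) := by
            simp [rs, sw]
          rw [e2] at r2
          have r3 := Run.gapG r2 (by rw [← hu, hτ])
          refine ⟨3, _, _, by omega, r3, ?_, ?_⟩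
          · exact allGap_append.mpr ⟨allGap_rs (allGap_rs hA1'), allGap_cons.mpr hA2⟩
          · simp

/-- a gain by at most four visits -/
lemma gain4 {τ : α → α} (hτ : ∀ x, τ (τ x) = x) (W : Lt α → Bool) {T t : α} {A : List (Lt α)}
    (h : Val τ T (t, A)) (hA : allGap A) (hne : A ≠ []) :
    ∃ n k s', n ≤ 4 ∧ Run τ W n 1 k (t, A) s' ∧ allGap s'.2 ∧ s'.2.length + 1 = A.length := by
  by_cases ht : t = T
  · subst ht
    cases A with
    | nil => exact absurd rfl hne
    | cons y A =>
      cases y with
      | mk a u l b =>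
        have := hA (Lt.mk a u l b) (by simp)
        simp [isMk] at this
      | gap u l =>
        have hnd := h.nodup
        simp only [val_labels_eq, lbl_gap] at hnd
        have hl : τ t ≠ l := by
          rw [h.fixT]
          rintro rfl
          simp at hnd
        have r1 : Run τ W (0 + 1) 0 (0 + (W (gap u l)).toNat) (t, [] ++ gap u l :: A)
            (u, rs [] ++ gap t l :: A) := Run.gapW (Run.refl _) hl
        simp only [rs_nil, List.nil_append] at r1
        have hv := h.run hτ r1
        have hA' : allGap (gap t l :: A) := allGap_cons.mpr (allGap_cons.mp hA)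
        have hut : u ≠ t := by
          rintro rfl
          simp at hnd
        obtain ⟨n, k, s', hn, r2, h2, h3⟩ := gain3 hτ W hv hA' hut
        exact ⟨_, _, s', by omega, r1.trans r2, h2, by simpa using h3⟩
  · obtain ⟨n, k, s', hn, r, h2, h3⟩ := gain3 hτ W h hA ht
    exact ⟨n, k, s', by omega, r, h2, h3⟩

/-- the number of markers -/
def mkc (A : List (Lt α)) : ℕ := A.countP isMk

lemma mkc_eq_zero {A : List (Lt α)} : mkc A = 0 ↔ allGap A := by
  simp [mkc, List.countP_eq_zero, allGap]

lemma mkc_split {A : List (Lt α)} (h : mkc A ≠ 0) :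
    ∃ A1 a u l b A2, A = A1 ++ Lt.mk a u l b :: A2 := by
  have h1 : ∃ x ∈ A, isMk x = true := by
    by_contra hc
    push Not at hc
    exact h (List.countP_eq_zero.mpr (fun x hx => by simpa using hc x hx))
  obtain ⟨x, hx, hb⟩ := h1
  obtain ⟨A1, A2, rfl⟩ := List.append_of_mem hx
  cases x with
  | gap u l => simp [isMk] at hb
  | mk a u l b => exact ⟨A1, a, u, l, b, A2, rfl⟩

/-- THE ENDGAME: a valid state with `m` letters, `j` of them markers, is finished by at most
`4 m + j` visits, without dissolutions, with `m` gains -/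
theorem endgame {τ : α → α} (hτ : ∀ x, τ (τ x) = x) (W : Lt α → Bool) {T : α} (s : St α)
    (h : Val τ T s) :
    ∃ n k, n ≤ 4 * s.2.length + mkc s.2 ∧ Run τ W n s.2.length k s (T, []) := by
  generalize hm : 4 * s.2.length + mkc s.2 = m
  induction m using Nat.strong_induction_on generalizing s with
  | _ m ih =>
    obtain ⟨t, A⟩ := s
    simp only at hm ⊢
    by_cases hk : mkc A = 0
    · by_cases hne : A = []
      · subst hne
        have := h.nil
        subst this
        exact ⟨0, 0, by omega, Run.refl _⟩
      · obtain ⟨n, k, s', hn, r, h2, hl⟩ := gain4 hτ W h (mkc_eq_zero.mp hk) hne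
        have hk' : mkc s'.2 = 0 := mkc_eq_zero.mpr h2
        obtain ⟨n', k', hn', r'⟩ := ih (4 * s'.2.length + mkc s'.2) (by omega) s' (h.run hτ r) rfl
        refine ⟨n + n', k + k', by omega, ?_⟩
        have := r.trans r'
        rwa [show 1 + s'.2.length = A.length by omega] at this
    · obtain ⟨A1, a, u, l, b, A2, rfl⟩ := mkc_split hk
      have hkc : mkc (A1 ++ Lt.mk a u l b :: A2) = mkc (A1 ++ A2) + 1 := by
        simp [mkc, List.countP_append, List.countP_cons, isMk]
        omega
      have hlc : (A1 ++ Lt.mk a u l b :: A2).length = (A1 ++ A2).length + 1 := by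
        simp
        omega
      by_cases hg : τ t = u
      · have r := Run.mkG (W := W) (Run.refl (τ := τ) (W := W) (t, A1 ++ Lt.mk a u l b :: A2)) hg
        obtain ⟨n', k', hn', r'⟩ := ih (4 * (A1 ++ A2).length + mkc (A1 ++ A2))
          (by omega) (l, A1 ++ A2) (h.run hτ r) rfl
        refine ⟨0 + 1 + n', 0 + (W (Lt.mk a u l b)).toNat + k', by omega, ?_⟩
        have := r.trans r'
        rwa [show 0 + 1 + (A1 ++ A2).length = (A1 ++ Lt.mk a u l b :: A2).length by omega] at this
      · have r := Run.mkW (W := W) (Run.refl (τ := τ) (W := W) (t, A1 ++ Lt.mk a u l b :: A2)) hg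
        have hk2 : mkc (gap u t :: (A1 ++ A2)) = mkc (A1 ++ A2) := by simp [mkc, isMk]
        have hl2 : (gap u t :: (A1 ++ A2)).length = (A1 ++ A2).length + 1 := by simp
        obtain ⟨n', k', hn', r'⟩ := ih (4 * (gap u t :: (A1 ++ A2)).length +
          mkc (gap u t :: (A1 ++ A2))) (by omega) (l, gap u t :: (A1 ++ A2))
          (h.run hτ r) rfl
        refine ⟨0 + 1 + n', 0 + (W (Lt.mk a u l b)).toNat + k', by omega, ?_⟩
        have := r.trans r'
        rwa [show 0 + (gap u t :: (A1 ++ A2)).length =
          (A1 ++ Lt.mk a u l b :: A2).length by omega] at this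

end BP2
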