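import Pool.Agent.BP2.D.Defs

set_option autoImplicit false

/-!
# MP_475aca_co, part (D): the joints (on Defs v2)

`ty x = true` means: `x` is an out-label. A letter is visited correctly iff the label `ent` entered
is an in-label. Improper letters: `ent` and `lv` of the same type.
-/

namespace BP2

variable {α : Type*}

/-- a visit is wrong iff the entered label is an out-label -/
def Wr (ty : α → Bool) (x : Lt α) : Bool := ty x.ent

/-- number of improper letters, plus one if the top is an in-label -/
def imp (ty : α → Bool) (s : St α) : ℕ :=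
  s.2.countP (fun x => ty x.ent == ty x.lv) + (!ty s.1).toNat

/-- the labels of a list of glued pairs -/
def lb (ρ : List (α × α)) : List α := ρ.flatMap fun p => [p.1, p.2]

/-- typed pairings: involutions, the only fixed point is `T`, partners have opposite types -/
structure Pairing (ty : α → Bool) (T : α) (τ : α → α) : Prop where
  invol : ∀ x, τ (τ x) = x
  fix : ∀ x, τ x = x ↔ x = T
  opp : ∀ x, x ≠ T → ty (τ x) = !ty x

/-- the inner labels of the markers are partners -/
def Mk (τ : α → α) (s : St α) : Prop := ∀ a u l b, Lt.mk a u l b ∈ s.2 → τ a = b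

open Classical in
/-- the typed pairings which contain the pairs of `ρ` and the inner pairs of the markers of `s` -/
noncomputable def Sh [Fintype α] (ty : α → Bool) (T : α) (ρ : List (α × α)) (s : St α) :
    Finset (α → α) :=
  Finset.univ.filter fun τ => Pairing ty T τ ∧ (∀ p ∈ ρ, τ p.1 = p.2) ∧ Mk τ s

/-- the state `s` and the glued pairs `ρ` together contain every label exactly once -/
structure WF (s : St α) (ρ : List (α × α)) : Prop where
  nodup : (labels s ++ lb ρ).Nodup
  cover : ∀ x, x ∈ labels s ++ lb ρ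

/-- the zone of the coordinate `i`: the letters `w b i`, `b < N`, in increasing (`e = false`) or
decreasing (`e = true`) order, turned over iff `c = true` -/
def zone (w : ℕ → ℕ → Lt α) (N i : ℕ) (e c : Bool) : List (Lt α) :=
  let l := (List.range N).map fun b => w b i
  let l' := if e then l.reverse else l
  if c then l'.map Lt.sw else l'

/-- a family of `N` windows of `L + 1` letters in the list `xs`: `w b i` is the letter `i` of the
window `b` in the orientation in which it is visited -/
def Fam (τ : α → α) (ty : α → Bool) (xs : List (Lt α)) (N L : ℕ) : Prop :=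
  ∃ (w : ℕ → ℕ → Lt α) (kd e c : ℕ → Bool) (π : List ℕ),
    π.Perm (List.range (L + 1)) ∧
    (∀ b < N, ∀ i ≤ L, (w b i).isMk = kd i ∧ ty (w b i).ent = false ∧ ty (w b i).lv = true) ∧
    (∀ b < N, ∀ i < L, τ (w b i).lv = (w b (i + 1)).ent) ∧
    (π.flatMap fun i => zone w N i (e i) (c i)).Sublist xs

/-- (T1) the number of the pairings -/
def ShCard : Prop :=
  ∀ (α : Type) [Fintype α] (ty : α → Bool) (T : α) (s : St α) (ρ : List (α × α)), WF s ρ →
    (Sh ty T ρ s).card ≤ s.2.length.factorial

/-- (T2) the possible outcomes of `n` steps: at most `(3(m+n))^n` -/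
def Outcomes : Prop :=
  ∀ (α : Type) [Fintype α] (W : Lt α → Bool) (s : St α) (n : ℕ),
    ∃ S : Finset (List (α × α) × St α), S.card ≤ (3 * (s.2.length + n)) ^ n ∧
      ∀ (ty : α → Bool) (T : α) (ρ : List (α × α)), WF s ρ → ∀ (τ : α → α) (g k : ℕ) (s' : St α),
        τ ∈ Sh ty T ρ s → Run τ W n g k s s' →
        ∃ φ, (φ, s') ∈ S ∧ (labels s).Perm (labels s' ++ lb φ) ∧ τ ∈ Sh ty T (ρ ++ φ) s'

open Classical in
/-- the typed pairings without a family of `N` windows of `L + 1` letters -/
noncomputable def stuckSet [Fintype α] (ty : α → Bool) (T : α) (ρ : List (α × α)) (s : St α)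
    (N L : ℕ) : Finset (α → α) :=
  (Sh ty T ρ s).filter fun τ => ¬ Fam τ ty s.2 N L

/-- (T3) few typed pairings have no family -/
def StuckCard (c₀ : ℕ) : Prop :=
  ∀ L N : ℕ, 1 ≤ L → ∃ m₀ : ℕ, ∀ (α : Type) [Fintype α] (ty : α → Bool) (T : α) (s : St α)
    (ρ : List (α × α)), WF s ρ → m₀ ≤ s.2.length → 16 * (L + 1) * imp ty s ≤ s.2.length →
      ((stuckSet ty T ρ s N L).card : ℝ) ≤
        (s.2.length.factorial : ℝ) *
          (s.2.length : ℝ) ^ (-((s.2.length : ℝ) / (c₀ * (L + 1))))

/-- (T4) the parallel lemma, `c₁ (L + 1) ^ 2` = an absolute bound for all losses -/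
def ParLemma (c₁ : ℕ) : Prop :=
  ∀ (α : Type) (τ : α → α) (ty : α → Bool) (s : St α) (N L : ℕ), (labels s).Nodup →
    Fam τ ty s.2 N L →
    ∃ (n g k : ℕ) (s' : St α), Run τ (Wr ty) n g k s s' ∧ n ≤ N * (L + 1) + c₁ * (L + 1) ^ 2 ∧
      N * L ≤ g + c₁ * (L + 1) ^ 2 ∧ k ≤ c₁ * (L + 1) ^ 2

/-- (T5) improper letters arise only from wrong visits -/
def ImpLemma : Prop :=
  ∀ (α : Type) (τ : α → α) (ty : α → Bool) (n g k : ℕ) (s s' : St α),
    Run τ (Wr ty) n g k s s' → imp ty s' ≤ imp ty s + 2 * k

/-! ### the final statement of (D) -/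

/-- shapes: involutions with exactly one fixed point, containing the inner pairs of the markers -/
def IsShape (τ : α → α) (s : St α) : Prop :=
  Function.Involutive τ ∧ (∃! x, τ x = x) ∧ Mk τ s

/-- `τ` is good at `s`: for every typing with partners of opposite types and at most `δ m` improper
letters there is a run to at most `ε m` letters with at most `(1 + ε) m` steps, at most `ε m` of them
bad -/
def GoodD (ε δ : ℝ) (s : St α) (τ : α → α) : Prop :=
  ∀ ty : α → Bool, (∀ x, τ x ≠ x → ty (τ x) = !ty x) → (imp ty s : ℝ) ≤ δ * s.2.length →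
    ∃ (n g k : ℕ) (s' : St α), Run τ (Wr ty) n g k s s' ∧
      (s'.2.length : ℝ) ≤ ε * s.2.length ∧ (n : ℝ) ≤ (1 + ε) * s.2.length ∧
      (k : ℝ) ≤ ε * s.2.length

open Classical in
/-- the shapes at `s` which are not good -/
noncomputable def badShapes [Fintype α] (ε δ : ℝ) (s : St α) : Finset (α → α) :=
  Finset.univ.filter fun τ : α → α => IsShape τ s ∧ ¬ GoodD ε δ s τ

/-- (D) all but `m! * m ^ (- c m)` shapes are good -/
def TheoremD : Prop :=
  ∀ ε : ℝ, 0 < ε → ∃ c δ : ℝ, 0 < c ∧ 0 < δ ∧ ∃ m₀ : ℕ, ∀ (α : Type) [Fintype α] (s : St α),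
    WF s [] → m₀ ≤ s.2.length →
    ((badShapes ε δ s).card : ℝ) ≤
      (s.2.length.factorial : ℝ) * (s.2.length : ℝ) ^ (-(c * s.2.length))

end BP2
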