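import Pool.Agent.BP2.D.Pattern
import Pool.Agent.BP2.D.Stmt

/-!
# Good windows give a family (`Fam`)

(burnt pancake numbers, part (D), version U, helper37)
-/

namespace BP2

open Lt

variable {α : Type*}

/-- families survive the insertion of letters -/
lemma Fam.mono {τ : α → α} {ty : α → Bool} {xs ys : List (Lt α)} {N L : ℕ}
    (h : Fam τ ty xs N L) (hs : xs.Sublist ys) : Fam τ ty ys N L := by
  obtain ⟨w, kd, e, c, π, h1, h2, h3, h4⟩ := h
  exact ⟨w, kd, e, c, π, h1, h2, h3, h4.trans hs⟩

/-- **Good windows give a family.** `w i j` is the letter `j` of the window `i` in the orientation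
in which it is visited; in `xs` it is turned over iff `o i j`. -/
theorem fam_of_windows {ι : Type*} {L N Θ : ℕ} {τ : α → α} {ty : α → Bool} {xs : List (Lt α)}
    (x0 : Lt α) (S : Finset ι) (pos : ι → Fin (L + 1) → ℕ) (w : ι → Fin (L + 1) → Lt α)
    (o : ι → Fin (L + 1) → Bool)
    (hget : ∀ i ∈ S, ∀ j, xs[pos i j]? = some (if o i j then (w i j).sw else w i j))
    (hty : ∀ i ∈ S, ∀ j, ty (w i j).ent = false ∧ ty (w i j).lv = true)
    (hlink : ∀ i ∈ S, ∀ j : Fin L, τ (w i j.castSucc).lv = (w i j.succ).ent)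
    (hinj : ∀ j, Set.InjOn (fun i => pos i j) (S : Set ι))
    (hwin : ∀ i ∈ S, Function.Injective (pos i))
    (hgood : ∀ i ∈ S, Θ < ∏ r, Pat.dist (pos i) r)
    (hcard : (L + 1).factorial * 4 ^ (L + 1) *
      ((Nat.log 2 xs.length + 1) ^ L * (4 * xs.length) ^ L) * N ^ (2 ^ L) < S.card * Θ) :
    Fam τ ty xs N L := by
  classical
  have hκ : Fintype.card ((Fin (L + 1) → Bool) × (Fin (L + 1) → Bool)) = 4 ^ (L + 1) := by
    rw [Fintype.card_prod]
    simp only [Fintype.card_pi, Fintype.card_bool, Finset.prod_const, Finset.card_univ,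
      Fintype.card_fin]
    rw [← mul_pow]
    norm_num
  obtain ⟨ρ, cc, dec, f, hfi, hfS, hcl, hd0, hsub⟩ := Pat.pattern_list
    (κ := (Fin (L + 1) → Bool) × (Fin (L + 1) → Bool)) (Θ := Θ) (n := N) (xs := xs) S pos
    (fun i j => if o i j then (w i j).sw else w i j)
    (fun i => ((fun j => (w i j).isMk), o i)) hget hinj hwin hgood (by rw [hκ]; exact hcard)
  have hcl1 : ∀ k j, (w (f k) j).isMk = cc.1 j := by
    intro k j
    have := congrArg Prod.fst (hcl k)
    exact congrFun this j
  have hcl2 : ∀ k j, o (f k) j = cc.2 j := by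
    intro k j
    have := congrArg Prod.snd (hcl k)
    exact congrFun this j
  let w' : ℕ → ℕ → Lt α := fun b i =>
    if h : b < N ∧ i < L + 1 then w (f ⟨b, h.1⟩) ⟨i, h.2⟩ else x0
  let ext : (Fin (L + 1) → Bool) → ℕ → Bool := fun g i => if h : i < L + 1 then g ⟨i, h⟩ else false
  have hw' : ∀ (b : Fin N) (j : Fin (L + 1)), w' b j = w (f b) j := by
    intro b j
    simp only [w']
    rw [dif_pos ⟨b.2, j.2⟩]
  have hext : ∀ g (j : Fin (L + 1)), ext g j = g j := by
    intro g j
    simp only [ext]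
    rw [dif_pos j.2]
  have hzone : ∀ j : Fin (L + 1), zone w' N j (ext dec j) (ext cc.2 j) =
      Pat.zone (fun k j => if o (f k) j then (w (f k) j).sw else w (f k) j) dec j := by
    intro j
    have h1 : (List.range N).map (fun b => w' b j) =
        (List.finRange N).map (fun k => w (f k) j) := by
      rw [← List.map_coe_finRange_eq_range, List.map_map]
      apply List.map_congr_left
      intro k _
      exact hw' k j
    unfold zone Pat.zone
    rw [hext, hext, h1]
    have h2 : (List.finRange N).map (fun k => if o (f k) j then (w (f k) j).sw else w (f k) j) =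
        if cc.2 j then ((List.finRange N).map (fun k => w (f k) j)).map sw
        else (List.finRange N).map (fun k => w (f k) j) := by
      by_cases hc : cc.2 j = true
      · rw [if_pos hc, List.map_map]
        apply List.map_congr_left
        intro k _
        rw [hcl2, if_pos hc]
        rfl
      · rw [if_neg hc]
        apply List.map_congr_left
        intro k _
        rw [hcl2, if_neg hc]
    rw [h2]
    by_cases hc : cc.2 j = true <;> by_cases hd : dec j = true <;>
      simp [hc, hd, List.map_reverse]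
  refine ⟨w', ext cc.1, ext dec, ext cc.2, (List.finRange (L + 1)).map (fun r => (ρ r : ℕ)),
    ?_, ?_, ?_, ?_⟩
  · have h1 : ((List.finRange (L + 1)).map ρ).Perm (List.finRange (L + 1)) :=
      Equiv.Perm.map_finRange_perm ρ
    have h2 := h1.map (fun x : Fin (L + 1) => (x : ℕ))
    rw [List.map_map, List.map_coe_finRange_eq_range] at h2
    exact h2
  · intro b hb i hi
    have hi' : i < L + 1 := by omega
    have e1 : w' b i = w (f ⟨b, hb⟩) ⟨i, hi'⟩ := hw' ⟨b, hb⟩ ⟨i, hi'⟩
    have e2 : ext cc.1 i = cc.1 ⟨i, hi'⟩ := hext cc.1 ⟨i, hi'⟩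
    rw [e1, e2]
    exact ⟨hcl1 _ _, hty _ (hfS _) _⟩
  · intro b hb i hi
    have e1 : w' b i = w (f ⟨b, hb⟩) (⟨i, hi⟩ : Fin L).castSucc :=
      hw' ⟨b, hb⟩ (⟨i, hi⟩ : Fin L).castSucc
    have e2 : w' b (i + 1) = w (f ⟨b, hb⟩) (⟨i, hi⟩ : Fin L).succ :=
      hw' ⟨b, hb⟩ (⟨i, hi⟩ : Fin L).succ
    rw [e1, e2]
    exact hlink _ (hfS _) _
  · rw [List.flatMap_map]
    have e : (fun r : Fin (L + 1) => zone w' N (ρ r) (ext dec (ρ r)) (ext cc.2 (ρ r))) =
        fun r => Pat.zone (fun k j => if o (f k) j then (w (f k) j).sw else w (f k) j) dec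
          (ρ r) := by
      funext r
      exact hzone (ρ r)
    rw [e]
    exact hsub

end BP2
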