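import Pool.Agent.BP2.D.ParD
import Pool.Agent.BP2.D.Stmt

set_option autoImplicit false

/-!
# MP_475aca_co, part (D): the joint `ParLemma`
-/

namespace BP2

open List Lt

variable {α : Type*}

lemma zone_eq_zc (w : ℕ → ℕ → Lt α) (e c : ℕ → Bool) (N i : ℕ) :
    zone w N i (e i) (c i) =
      zc w (fun j => if c j = true then e j else !(e j)) (fun j => !(c j)) N i := by
  unfold zone zc inc
  rcases hc : c i with _ | _ <;> rcases he : e i with _ | _ <;> simp [rs, hc, he, List.map_reverse]

/-- (T4) -/
theorem parLemma : ParLemma 28 := by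
  classical
  rintro α τ ty ⟨t, xs⟩ N L - ⟨w, kd, e, c, π, hπ, h1, h2, h3⟩
  have h4 : π.flatMap (zc w (fun j => if c j = true then e j else !(e j)) (fun j => !(c j)) N)
      <+ xs := by
    have : (fun i => zone w N i (e i) (c i)) =
        zc w (fun j => if c j = true then e j else !(e j)) (fun j => !(c j)) N :=
      funext fun i => zone_eq_zc w e c N i
    rw [← this]
    exact h3
  obtain ⟨n, g, k, t', xs', hr, hn, hg, hk⟩ := parallel τ (Wr ty) L N w kd
    (fun b hb i hi => (h1 b hb i hi).1) h2 (fun b hb i hi => (h1 b hb i hi).2.1) π hπ _ _ t xs h4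
  refine ⟨n, g, k, (t', xs'), hr, ?_, hg, ?_⟩
  · nlinarith
  · nlinarith

end BP2
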