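import Pool.Agent.BP2.D.Num

/-!
# MP_475aca_co, part (D): few pairings have few good windows
-/

set_option autoImplicit false

namespace BP2.Cnt

open Finset Nat

/-- the number of good windows in a disjoint family is below the pattern threshold -/
def FewGood {κ ι : Type*} (mate : ι → Option κ) (pos : ι → ℕ) (m L N : ℕ) (σ : κ ≃ ι) : Prop :=
  ∀ (F : Finset ι) (w : ι → Fin (L + 1) → ι),
    (∀ a ∈ F, Win mate σ (w a) ∧ ¬ BadW pos (Th m L) (w a) ∧ w a 0 = a) →
    (∀ a ∈ F, ∀ b ∈ F, a ≠ b → Disjoint (Set.range (w a)) (Set.range (w b))) →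
    ¬ ((L + 1)! * 4 ^ (L + 1) * ((Nat.log 2 m + 1) ^ L * (4 * m) ^ L) * N ^ (2 ^ L) <
      #F * Th m L)

/-- **few pairings have few good windows** -/
theorem stuck_abstract (L N : ℕ) (hL : 1 ≤ L) : ∃ m₀ : ℕ, ∀ (m : ℕ), m₀ ≤ m →
    ∀ (κ ι : Type) [Fintype κ] [Fintype ι] [DecidableEq κ] [DecidableEq ι]
      (mate : ι → Option κ) (pos : ι → ℕ), Fintype.card κ = m → Fintype.card ι = m →
      (∀ a b o, mate a = some o → mate b = some o → a = b) →
      (∀ a, pos a ≤ m) →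
      (∀ a b, (mate a).isSome → (mate b).isSome → pos a = pos b → a = b) →
      ∀ (Nn : Finset ι), (∀ a, mate a = none → a ∈ Nn) → 4 * (L + 1) * #Nn ≤ m →
      ∀ (T : Finset (κ ≃ ι)), (∀ σ ∈ T, FewGood mate pos m L N σ) →
      ((#T : ℕ) : ℝ) ≤ (m ! : ℝ) * (m : ℝ) ^ (-((m : ℝ) / ((16 : ℕ) * (L + 1)))) := by
  obtain ⟨m₁, h1⟩ := pattern_num L N (4 ^ (L + 1)) hL
  obtain ⟨m₂, h20, h2⟩ := final_num L hL
  refine ⟨m₁ + m₂ + 8 * (L + 1), ?_⟩
  intro m hm κ ι _ _ _ _ mate pos hκ hι hmate hpos hinj Nn hN hNn T hT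
  have hm0 : 0 < m := by omega
  -- the number of bad structures
  obtain ⟨k, hk⟩ : ∃ k, k = m / (4 * (L + 1)) + 1 := ⟨_, rfl⟩
  have hkm : m ≤ 4 * (L + 1) * k := by
    have := Nat.lt_mul_div_succ m (b := 4 * (L + 1)) (by positivity)
    rw [← hk] at this
    exact this.le
  refine le_trans (bad_count hm0 hκ hι hmate hpos hinj (Th m L) L k T ?_) (h2 m (by omega) k hkm)
  intro σ hσ
  obtain ⟨F, B, U, w, hFB, hF, hB, hdis, hcard⟩ :=
    decomp (pos := pos) hmate (Th m L) L σ Nn hN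
  have hfew := hT σ hσ F w (fun a ha => ⟨(hF a ha).1, (hF a ha).2.1, (hF a ha).2.2.1⟩) (by
    intro a ha b hb hab
    have := hdis a (Finset.mem_union_left _ ha) b (Finset.mem_union_left _ hb) hab
    rw [(hF a ha).2.2.2, (hF b hb).2.2.2] at this
    exact this)
  have hF8 : 8 * (L + 1) * #F < m := by
    by_contra hcon
    exact hfew (h1 m (by omega) #F (not_lt.mp hcon))
  have hB4 : m < 4 * (L + 1) * #B := by
    rw [hι] at hcard
    nlinarith
  have hkB : k ≤ #B := by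
    have := Nat.div_lt_of_lt_mul hB4
    omega
  obtain ⟨A, hAB, hA⟩ := Finset.exists_subset_card_eq hkB
  refine ⟨A, hA, U, fun a ha => hB a (hAB ha), fun a ha b hb hab => ?_⟩
  exact hdis a (Finset.mem_union_right _ (hAB ha)) b (Finset.mem_union_right _ (hAB hb)) hab

end BP2.Cnt
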