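import Pool.Agent.BP2.D.Stuck
import Pool.Agent.BP2.D.StuckA

/-!
# (T3): few typed pairings have no family (`StuckCard 16`)

(burnt pancake numbers, part (D), version U, helper37)
-/

set_option autoImplicit false

namespace BP2

open Stk

/-- (T3) -/
theorem stuckCard : StuckCard 16 := by
  classical
  intro L N hL
  obtain ⟨m₀, h0⟩ := Cnt.stuck_abstract L N hL
  refine ⟨m₀ + 8 * (L + 1), ?_⟩
  intro α _ ty T s ρ hWF hm himp
  by_cases hne : (Sh ty T ρ s).Nonempty
  · obtain ⟨τ0, hτ0⟩ := hne
    have hm0 : 0 < s.2.length := by omega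
    obtain ⟨hκ, hι⟩ := card_both hWF hτ0
    -- the image of the stuck pairings
    let f : (α → α) → (KK ty T s ≃ II ty T s) := fun τ =>
      if h : τ ∈ Sh ty T ρ s then sig hWF h else sig hWF hτ0
    have hf : ∀ τ (h : τ ∈ Sh ty T ρ s), f τ = sig hWF h := by
      intro τ h
      simp only [f]
      rw [dif_pos h]
    have hsub : ∀ τ ∈ stuckSet ty T ρ s N L, τ ∈ Sh ty T ρ s := by
      intro τ hτ
      unfold stuckSet at hτ
      exact (Finset.mem_filter.mp hτ).1
    have hinj : Set.InjOn f (stuckSet ty T ρ s N L : Set (α → α)) := by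
      intro τ hτ τ' hτ' h
      have h1 := hsub τ hτ
      have h2 := hsub τ' hτ'
      rw [hf τ h1, hf τ' h2] at h
      exact sig_inj hWF h1 h2 h
    have hcard : (stuckSet ty T ρ s N L).card = ((stuckSet ty T ρ s N L).image f).card :=
      (Finset.card_image_of_injOn hinj).symm
    rw [hcard]
    refine h0 s.2.length (by omega) (KK ty T s) (II ty T s) (mate ty T s) (ps ty T s) hκ hι
      (mate_inj hWF) (fun a => (ps_lt hm0 a).le) (ps_inj hWF) (stops ty T s) ?_ ?_ _ ?_
    · intro a ha
      unfold stops
      rw [Finset.mem_filter]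
      exact ⟨Finset.mem_univ a, ha⟩
    · have h1 := card_stops (ty := ty) (T := T) hWF
      have h2 : 8 * (L + 1) ≤ s.2.length := by omega
      nlinarith
    · intro σ hσ
      rw [Finset.mem_image] at hσ
      obtain ⟨τ, hτ, rfl⟩ := hσ
      have hτS := hsub τ hτ
      rw [hf τ hτS]
      intro F w hF hdis hlt
      unfold stuckSet at hτ
      exact (Finset.mem_filter.mp hτ).2
        (fam_of_good hWF hτS hm0 F w (fun a ha => ⟨(hF a ha).1, (hF a ha).2.1⟩) hdis hlt)
  · rw [Finset.not_nonempty_iff_eq_empty] at hne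
    have : stuckSet ty T ρ s N L = ∅ := by
      unfold stuckSet
      rw [hne]
      simp
    rw [this]
    simp only [Finset.card_empty, Nat.cast_zero]
    positivity

end BP2
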