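import Mathlib
import Pool.Agent.BP2.D.Defs

set_option autoImplicit false

/-!
# MP_475aca_co, part (D): (T2) the possible outcomes of `n` steps

`outc n s`: the list `φ` of the pairs glued in the `n` steps (gains and inner pairs of visited
markers) and the final state. It does not depend on the pairing. There are at most
`(3 (m + n)) ^ n` outcomes, `m` the number of letters.
-/

namespace BP2

open Finset Lt

variable {α : Type*}

/-- all labels of the letters in a list -/
def lab (xs : List (Lt α)) : List α := xs.flatMap Lt.labels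

lemma labels_eq (s : St α) : labels s = s.1 :: lab s.2 := rfl

@[simp] lemma lab_nil : lab ([] : List (Lt α)) = [] := rfl

lemma lab_cons (x : Lt α) (xs : List (Lt α)) : lab (x :: xs) = x.labels ++ lab xs := rfl

lemma lab_append (A B : List (Lt α)) : lab (A ++ B) = lab A ++ lab B := by
  simp [lab]

@[simp] lemma labels_gap (u l : α) : (gap u l).labels = [u, l] := rfl

@[simp] lemma labels_mk (a u l b : α) : (mk a u l b).labels = [a, u, l, b] := rfl

lemma labels_sw (x : Lt α) : (sw x).labels = x.labels.reverse := by
  cases x <;> rfl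

/-- turning a block over reverses the list of its labels -/
lemma lab_rs (A : List (Lt α)) : lab (rs A) = (lab A).reverse := by
  induction A with
  | nil => rfl
  | cons x A ih =>
    have h1 : rs (x :: A) = rs A ++ [sw x] := by
      rw [← List.singleton_append, rs_append, rs_single]
    rw [h1, lab_append, ih, lab_cons x A, List.reverse_append, lab_cons, labels_sw, lab_nil,
      List.append_nil]

open List in
lemma lab_rs_perm (A : List (Lt α)) : lab (rs A) ~ lab A := by
  rw [lab_rs]
  exact List.reverse_perm _

/-- the labels of a list of pairs -/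
def plab (φ : List (α × α)) : List α := φ.flatMap fun p => [p.1, p.2]

@[simp] lemma plab_nil : plab ([] : List (α × α)) = [] := rfl

lemma plab_cons (p : α × α) (φ : List (α × α)) : plab (p :: φ) = p.1 :: p.2 :: plab φ := rfl

lemma plab_append (φ ψ : List (α × α)) : plab (φ ++ ψ) = plab φ ++ plab ψ := by
  simp [plab]

lemma length_plab (φ : List (α × α)) : (plab φ).length = 2 * φ.length := by
  induction φ with
  | nil => rfl
  | cons x xs ih => simp only [plab_cons, List.length_cons, ih]; ring

section perm

variable (t a u l b : α) (A B : List (Lt α))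

open List in
/-- a waste at a gap permutes the labels -/
lemma labels_gapW : labels (t, A ++ gap u l :: B) ~ labels (u, rs A ++ gap t l :: B) := by
  rw [labels_eq, labels_eq]
  simp only [lab_append, lab_cons, labels_gap, List.cons_append, List.nil_append]
  calc t :: (lab A ++ (u :: l :: lab B)) ~ t :: (u :: (lab A ++ (l :: lab B))) :=
        (List.perm_middle).cons _
    _ ~ u :: (t :: (lab A ++ (l :: lab B))) := List.Perm.swap _ _ _
    _ ~ u :: (lab A ++ (t :: l :: lab B)) := (List.perm_middle.symm).cons _
    _ ~ u :: (lab (rs A) ++ (t :: l :: lab B)) := ((lab_rs_perm A).symm.append_right _).cons _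

open List in
/-- a gain at a gap removes the top and the lower label -/
lemma labels_gapG : labels (t, A ++ gap u l :: B) ~ t :: l :: labels (u, rs A ++ B) := by
  rw [labels_eq, labels_eq]
  simp only [lab_append, lab_cons, labels_gap, List.cons_append, List.nil_append]
  calc t :: (lab A ++ (u :: l :: lab B)) ~ t :: (u :: (lab A ++ (l :: lab B))) :=
        (List.perm_middle).cons _
    _ ~ t :: (u :: (l :: (lab A ++ lab B))) := ((List.perm_middle).cons _).cons _
    _ ~ t :: (l :: (u :: (lab A ++ lab B))) := (List.Perm.swap _ _ _).cons _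
    _ ~ t :: l :: u :: (lab (rs A) ++ lab B) :=
        ((((lab_rs_perm A).symm.append_right _).cons _).cons _).cons _

open List in
lemma labels_mk_aux : labels (t, A ++ mk a u l b :: B) ~
    a :: b :: t :: u :: l :: (lab A ++ lab B) := by
  rw [labels_eq]
  simp only [lab_append, lab_cons, labels_mk, List.cons_append, List.nil_append]
  calc t :: (lab A ++ (a :: u :: l :: b :: lab B)) ~ t :: a :: (lab A ++ (u :: l :: b :: lab B)) :=
        (List.perm_middle).cons _
    _ ~ t :: a :: u :: (lab A ++ (l :: b :: lab B)) := ((List.perm_middle).cons _).cons _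
    _ ~ t :: a :: u :: l :: (lab A ++ (b :: lab B)) := (((List.perm_middle).cons _).cons _).cons _
    _ ~ t :: a :: u :: l :: b :: (lab A ++ lab B) :=
        ((((List.perm_middle).cons _).cons _).cons _).cons _
    _ ~ t :: a :: u :: b :: l :: (lab A ++ lab B) :=
        (((List.Perm.swap _ _ _).cons _).cons _).cons _
    _ ~ t :: a :: b :: u :: l :: (lab A ++ lab B) := ((List.Perm.swap _ _ _).cons _).cons _
    _ ~ a :: t :: b :: u :: l :: (lab A ++ lab B) := List.Perm.swap _ _ _
    _ ~ a :: b :: t :: u :: l :: (lab A ++ lab B) := (List.Perm.swap _ _ _).cons _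

open List in
/-- a waste at a marker removes its inner labels -/
lemma labels_mkW : labels (t, A ++ mk a u l b :: B) ~
    a :: b :: labels (l, gap u t :: (A ++ B)) := by
  refine (labels_mk_aux t a u l b A B).trans ?_
  rw [labels_eq]
  simp only [lab_append, lab_cons, labels_gap, List.cons_append, List.nil_append]
  refine (List.Perm.cons _ (List.Perm.cons _ ?_))
  calc t :: u :: l :: (lab A ++ lab B) ~ u :: t :: l :: (lab A ++ lab B) := List.Perm.swap _ _ _
    _ ~ u :: l :: t :: (lab A ++ lab B) := (List.Perm.swap _ _ _).cons _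
    _ ~ l :: u :: t :: (lab A ++ lab B) := List.Perm.swap _ _ _

open List in
/-- a gain at a marker removes the top, the upper label and the inner labels -/
lemma labels_mkG : labels (t, A ++ mk a u l b :: B) ~
    t :: u :: a :: b :: labels (l, A ++ B) := by
  refine (labels_mk_aux t a u l b A B).trans ?_
  rw [labels_eq]
  simp only [lab_append]
  calc a :: b :: t :: u :: l :: (lab A ++ lab B) ~ a :: t :: b :: u :: l :: (lab A ++ lab B) :=
        (List.Perm.swap _ _ _).cons _
    _ ~ t :: a :: b :: u :: l :: (lab A ++ lab B) := List.Perm.swap _ _ _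
    _ ~ t :: a :: u :: b :: l :: (lab A ++ lab B) := ((List.Perm.swap _ _ _).cons _).cons _
    _ ~ t :: u :: a :: b :: l :: (lab A ++ lab B) := (List.Perm.swap _ _ _).cons _

/-- the dissolution of a marker keeps the labels -/
lemma labels_dis : labels (t, A ++ mk a u l b :: B) =
    labels (t, A ++ gap a u :: gap l b :: B) := by
  rw [labels_eq, labels_eq]
  simp [lab_append, lab_cons]

end perm

/-! ### The steps as functions of the position -/

/-- one visit at the letter number `p` of `s`, as a waste: glued inner pairs and new state -/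
def stepW (s : St α) (p : ℕ) : Option (List (α × α) × St α) :=
  match s.2.drop p with
    | [] => none
    | gap u l :: B => some ([], (u, rs (s.2.take p) ++ gap s.1 l :: B))
    | Lt.mk a u l b :: B => some ([(a, b)], (l, gap u s.1 :: (s.2.take p ++ B)))

/-- one visit at the letter number `p` of `s`, as a gain: glued pairs and new state -/
def stepG (s : St α) (p : ℕ) : Option (List (α × α) × St α) :=
  match s.2.drop p with
    | [] => none
    | gap u l :: B => some ([(s.1, l)], (u, rs (s.2.take p) ++ B))
    | Lt.mk a u l b :: B => some ([(s.1, u), (a, b)], (l, s.2.take p ++ B))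

/-- dissolution of the marker number `p` of `s` -/
def stepD (s : St α) (p : ℕ) : Option (List (α × α) × St α) :=
  match s.2.drop p with
    | [] => none
    | gap _ _ :: _ => none
    | Lt.mk a u l b :: B => some ([], (s.1, s.2.take p ++ gap a u :: gap l b :: B))

/-- the three kinds of steps -/
def stp (s : St α) (i : Fin 3) (p : ℕ) : Option (List (α × α) × St α) :=
  if i = 0 then stepW s p else if i = 1 then stepG s p else stepD s p

section steps

variable (t a u l b : α) (A B : List (Lt α))

lemma stepW_gap : stepW (t, A ++ gap u l :: B) A.length =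
    some ([], (u, rs A ++ gap t l :: B)) := by
  simp [stepW]

lemma stepW_mk : stepW (t, A ++ mk a u l b :: B) A.length =
    some ([(a, b)], (l, gap u t :: (A ++ B))) := by
  simp [stepW]

lemma stepG_gap : stepG (t, A ++ gap u l :: B) A.length =
    some ([(t, l)], (u, rs A ++ B)) := by
  simp [stepG]

lemma stepG_mk : stepG (t, A ++ mk a u l b :: B) A.length =
    some ([(t, u), (a, b)], (l, A ++ B)) := by
  simp [stepG]

lemma stepD_gap : stepD (t, A ++ gap u l :: B) A.length = none := by
  simp [stepD]

lemma stepD_mk : stepD (t, A ++ mk a u l b :: B) A.length =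
    some ([], (t, A ++ gap a u :: gap l b :: B)) := by
  simp [stepD]

end steps

/-- a position splits the list -/
lemma trans_split_at (xs : List (Lt α)) (p : ℕ) (hp : p < xs.length) :
    ∃ A x B, xs = A ++ x :: B ∧ A.length = p := by
  refine ⟨xs.take p, xs[p], xs.drop (p + 1), ?_, ?_⟩
  · rw [← List.drop_eq_getElem_cons hp, List.take_append_drop]
  · rw [List.length_take, Nat.min_eq_left hp.le]

lemma stp_none (s : St α) (i : Fin 3) (p : ℕ) (hp : s.2.length ≤ p) : stp s i p = none := by
  simp only [stp, stepW, stepG, stepD, List.drop_eq_nil_of_le hp]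
  split_ifs <;> rfl

/-- the inner pairs of the markers are pairs of `τ` -/
def MkOK (τ : α → α) (s : St α) : Prop :=
  ∀ a u l b, mk a u l b ∈ s.2 → τ a = b ∧ τ b = a

lemma MkOK_rs {τ : α → α} {A : List (Lt α)} {a u l b : α}
    (h : ∀ a u l b, mk a u l b ∈ A → τ a = b ∧ τ b = a) (hm : mk a u l b ∈ rs A) :
    τ a = b ∧ τ b = a := by
  rw [mem_rs] at hm
  exact (h _ _ _ _ hm).symm

/-- A run is empty or starts with a step. -/
lemma Run.head {τ : α → α} {W : Lt α → Bool} {n g k : ℕ} {s s' : St α}
    (h : Run τ W n g k s s') (hM : MkOK τ s) :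
    (n = 0 ∧ g = 0 ∧ k = 0 ∧ s = s') ∨
    (∃ i, ∃ p < s.2.length, ∃ φ s₁ n' g' k', stp s i p = some (φ, s₁) ∧ n = n' + 1 ∧
      g' ≤ g ∧ k' ≤ k ∧ (∀ q ∈ φ, τ q.1 = q.2) ∧ MkOK τ s₁ ∧
      Run τ W n' g' k' s₁ s') := by
  induction h with
  | refl => exact Or.inl ⟨rfl, rfl, rfl, rfl⟩
  | @gapW n g k s t u l A B h hne ih =>
    right
    rcases ih hM with ⟨rfl, rfl, rfl, rfl⟩ | ⟨i, p, hp, φ, s₁, n', g', k', h1, rfl, h2, h3, h4, h5, h6⟩
    · refine ⟨0, A.length, by simp, [], (u, rs A ++ gap t l :: B), 0, 0, 0, ?_, rfl, le_rfl,
        Nat.zero_le _, by simp, ?_, Run.refl _⟩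
      · rw [stp, if_pos rfl, stepW_gap]
      · intro a u' l' b hm
        rcases List.mem_append.1 hm with hm | hm
        · exact MkOK_rs (fun a u l b h => hM a u l b (List.mem_append_left _ h)) hm
        · rcases List.mem_cons.1 hm with hm | hm
          · cases hm
          · exact hM a u' l' b (List.mem_append_right _ (List.mem_cons_of_mem _ hm))
    · exact ⟨i, p, hp, φ, s₁, n' + 1, g', _, h1, rfl, h2, Nat.add_le_add_right h3 _, h4, h5,
        Run.gapW h6 hne⟩
  | @gapG n g k s t u l A B h he ih =>
    right
    rcases ih hM with ⟨rfl, rfl, rfl, rfl⟩ | ⟨i, p, hp, φ, s₁, n', g', k', h1, rfl, h2, h3, h4, h5, h6⟩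
    · refine ⟨1, A.length, by simp, [(t, l)], (u, rs A ++ B), 0, 0, 0, ?_, rfl, Nat.zero_le _,
        Nat.zero_le _, by simpa using he, ?_, Run.refl _⟩
      · rw [stp, if_neg (by decide), if_pos rfl, stepG_gap]
      · intro a u' l' b hm
        rcases List.mem_append.1 hm with hm | hm
        · exact MkOK_rs (fun a u l b h => hM a u l b (List.mem_append_left _ h)) hm
        · exact hM a u' l' b (List.mem_append_right _ (List.mem_cons_of_mem _ hm))
    · exact ⟨i, p, hp, φ, s₁, n' + 1, g' + 1, _, h1, rfl, Nat.add_le_add_right h2 _,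
        Nat.add_le_add_right h3 _, h4, h5, Run.gapG h6 he⟩
  | @mkW n g k s t a u l b A B h hne ih =>
    right
    rcases ih hM with ⟨rfl, rfl, rfl, rfl⟩ | ⟨i, p, hp, φ, s₁, n', g', k', h1, rfl, h2, h3, h4, h5, h6⟩
    · refine ⟨0, A.length, by simp, [(a, b)], (l, gap u t :: (A ++ B)), 0, 0, 0, ?_, rfl, le_rfl,
        Nat.zero_le _, ?_, ?_, Run.refl _⟩
      · rw [stp, if_pos rfl, stepW_mk]
      · intro q hq
        rw [List.mem_singleton] at hq
        subst hq
        exact (hM a u l b (by simp)).1
      · intro a' u' l' b' hm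
        rcases List.mem_cons.1 hm with hm | hm
        · cases hm
        · rcases List.mem_append.1 hm with hm | hm
          · exact hM a' u' l' b' (List.mem_append_left _ hm)
          · exact hM a' u' l' b' (List.mem_append_right _ (List.mem_cons_of_mem _ hm))
    · exact ⟨i, p, hp, φ, s₁, n' + 1, g', _, h1, rfl, h2, Nat.add_le_add_right h3 _, h4, h5,
        Run.mkW h6 hne⟩
  | @mkG n g k s t a u l b A B h he ih =>
    right
    rcases ih hM with ⟨rfl, rfl, rfl, rfl⟩ | ⟨i, p, hp, φ, s₁, n', g', k', h1, rfl, h2, h3, h4, h5, h6⟩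
    · refine ⟨1, A.length, by simp, [(t, u), (a, b)], (l, A ++ B), 0, 0, 0, ?_, rfl,
        Nat.zero_le _, Nat.zero_le _, ?_, ?_, Run.refl _⟩
      · rw [stp, if_neg (by decide), if_pos rfl, stepG_mk]
      · intro q hq
        rcases List.mem_cons.1 hq with rfl | hq
        · exact he
        · rw [List.mem_singleton] at hq
          subst hq
          exact (hM a u l b (by simp)).1
      · intro a' u' l' b' hm
        rcases List.mem_append.1 hm with hm | hm
        · exact hM a' u' l' b' (List.mem_append_left _ hm)
        · exact hM a' u' l' b' (List.mem_append_right _ (List.mem_cons_of_mem _ hm))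
    · exact ⟨i, p, hp, φ, s₁, n' + 1, g' + 1, _, h1, rfl, Nat.add_le_add_right h2 _,
        Nat.add_le_add_right h3 _, h4, h5, Run.mkG h6 he⟩
  | @dis n g k s t a u l b A B h ih =>
    right
    rcases ih hM with ⟨rfl, rfl, rfl, rfl⟩ | ⟨i, p, hp, φ, s₁, n', g', k', h1, rfl, h2, h3, h4, h5, h6⟩
    · refine ⟨2, A.length, by simp, [], (t, A ++ gap a u :: gap l b :: B), 0, 0, 0, ?_, rfl,
        le_rfl, Nat.zero_le _, by simp, ?_, Run.refl _⟩
      · rw [stp, if_neg (by decide), if_neg (by decide), stepD_mk]
      · intro a' u' l' b' hm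
        rcases List.mem_append.1 hm with hm | hm
        · exact hM a' u' l' b' (List.mem_append_left _ hm)
        · rcases List.mem_cons.1 hm with hm | hm
          · cases hm
          · rcases List.mem_cons.1 hm with hm | hm
            · cases hm
            · exact hM a' u' l' b' (List.mem_append_right _ (List.mem_cons_of_mem _ hm))
    · exact ⟨i, p, hp, φ, s₁, n' + 1, g', _, h1, rfl, h2, Nat.add_le_add_right h3 _, h4, h5,
        Run.dis h6⟩

open List in
/-- labels and number of letters after one step -/
lemma stp_labels {s s₁ : St α} {i : Fin 3} {p : ℕ} {φ : List (α × α)}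
    (h : stp s i p = some (φ, s₁)) :
    labels s ~ labels s₁ ++ plab φ ∧ s₁.2.length ≤ s.2.length + 1 := by
  obtain ⟨t, xs⟩ := s
  by_cases hp : p < xs.length
  · obtain ⟨A, x, B, rfl, rfl⟩ := trans_split_at xs p hp
    fin_cases i
    · simp only [stp, Fin.zero_eta, if_true] at h
      cases x with
      | gap u l =>
        rw [stepW_gap] at h
        cases h
        refine ⟨?_, by simp⟩
        rw [plab_nil, List.append_nil]
        exact labels_gapW t u l A B
      | mk a u l b =>
        rw [stepW_mk] at h
        cases h
        refine ⟨?_, by simp⟩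
        exact (labels_mkW t a u l b A B).trans (List.perm_append_comm (l₁ := [a, b]))
    · simp only [stp, Fin.mk_one, Fin.isValue, one_ne_zero, if_false, if_true] at h
      cases x with
      | gap u l =>
        rw [stepG_gap] at h
        cases h
        refine ⟨?_, by simp; omega⟩
        exact (labels_gapG t u l A B).trans (List.perm_append_comm (l₁ := [t, l]))
      | mk a u l b =>
        rw [stepG_mk] at h
        cases h
        refine ⟨?_, by simp; omega⟩
        exact (labels_mkG t a u l b A B).trans (List.perm_append_comm (l₁ := [t, u, a, b]))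
    · have h' : stepD (t, A ++ x :: B) A.length = some (φ, s₁) := h
      cases x with
      | gap u l =>
        rw [stepD_gap] at h'
        cases h'
      | mk a u l b =>
        rw [stepD_mk] at h'
        cases h'
        refine ⟨?_, by simp; omega⟩
        rw [plab_nil, List.append_nil, labels_dis]
  · rw [stp_none _ _ _ (Nat.le_of_not_lt hp)] at h
    cases h

/-! ### The finite set of the outcomes of `n` steps -/

open Classical in
/-- all possible outcomes of `n` steps: the glued pairs and the final state -/
noncomputable def outc : ℕ → St α → Finset (List (α × α) × St α)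
  | 0, s => {([], s)}
  | n + 1, s => (univ ×ˢ Finset.range s.2.length).biUnion fun ip : Fin 3 × ℕ =>
      (stp s ip.1 ip.2).elim ∅ (fun r => (outc n r.2).image
        (fun q : List (α × α) × St α => (r.1 ++ q.1, q.2)))

open Classical in
/-- there are at most `(3 (m + n)) ^ n` outcomes -/
lemma card_outc (n : ℕ) : ∀ s : St α, (outc n s).card ≤ (3 * (s.2.length + n)) ^ n := by
  induction n with
  | zero => intro s; simp [outc]
  | succ n ih =>
    intro s
    rw [outc]
    have h1 : ∀ ip ∈ (univ ×ˢ Finset.range s.2.length : Finset (Fin 3 × ℕ)),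
        ((stp s ip.1 ip.2).elim ∅ (fun r => (outc n r.2).image
        (fun q : List (α × α) × St α => (r.1 ++ q.1, q.2)))).card ≤
        (3 * (s.2.length + (n + 1))) ^ n := by
      intro ip _
      rcases h : stp s ip.1 ip.2 with _ | r
      · simp
      · obtain ⟨φ, s₁⟩ := r
        have h2 := ih s₁
        have h3 := (stp_labels h).2
        refine Finset.card_image_le.trans (h2.trans (Nat.pow_le_pow_left ?_ n))
        omega
    refine (Finset.card_biUnion_le_card_mul _ _ _ h1).trans ?_
    rw [Finset.card_product, Finset.card_univ, Fintype.card_fin, Finset.card_range, pow_succ,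
      mul_comm]
    exact Nat.mul_le_mul_left _ (by omega)

open Classical List in
/-- **T2.** Every run of `n` steps has its outcome in the set `outc n s`. -/
lemma Run.mem_outc {τ : α → α} {W : Lt α → Bool} (n : ℕ) : ∀ {g k : ℕ} {s s' : St α},
    Run τ W n g k s s' → MkOK τ s → ∃ φ : List (α × α), (φ, s') ∈ outc n s ∧
      (∀ p ∈ φ, τ p.1 = p.2) ∧ labels s ~ labels s' ++ plab φ ∧ MkOK τ s' := by
  induction n with
  | zero =>
    intro g k s s' h hM
    rcases h.head hM with ⟨_, _, _, rfl⟩ | ⟨_, _, _, _, _, n', _, _, _, h3, _⟩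
    · exact ⟨[], by simp [outc], by simp, by simp, hM⟩
    · omega
  | succ n ih =>
    intro g k s s' h hM
    rcases h.head hM with ⟨h3, _⟩ | ⟨i, p, hp, ψ, s₁, n', g', k', h1, h2, _, _, h4, h5, h6⟩
    · omega
    · obtain rfl : n = n' := by omega
      obtain ⟨φ, h7, h8, h9, h10⟩ := ih h6 h5
      refine ⟨ψ ++ φ, ?_, ?_, ?_, h10⟩
      · rw [outc, Finset.mem_biUnion]
        refine ⟨(i, p), Finset.mem_product.2 ⟨Finset.mem_univ _, Finset.mem_range.2 hp⟩, ?_⟩
        rw [h1]
        exact Finset.mem_image.2 ⟨(φ, s'), h7, rfl⟩
      · intro q hq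
        rcases List.mem_append.1 hq with hq | hq
        · exact h4 q hq
        · exact h8 q hq
      · rw [plab_append]
        refine (stp_labels h1).1.trans ?_
        refine (h9.append_right _).trans ?_
        rw [List.append_assoc]
        exact List.Perm.append_left _ List.perm_append_comm

end BP2
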