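import Mathlib
import Pool.Agent.BP2.D.Trans

set_option autoImplicit false

/-!
# MP_475aca_co, part (D): (T1) the number of typed pairings with given pairs
-/

namespace BP2

open Finset

variable {α : Type*}

/-- typed pairing: an involution whose only fixed point is `T`; partners have opposite types -/
def TPair (ty : α → Bool) (T : α) (τ : α → α) : Prop :=
  (∀ x, τ (τ x) = x) ∧ (∀ x, τ x = x ↔ x = T) ∧ (∀ x, x ≠ T → ty (τ x) = !ty x)

lemma mem_plab {κ : List (α × α)} {x : α} : x ∈ plab κ ↔ ∃ p ∈ κ, x = p.1 ∨ x = p.2 := by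
  simp [plab]

variable [Fintype α] [DecidableEq α]

open Classical in
/-- the typed pairings which contain the pairs of `κ` -/
noncomputable def TSh (ty : α → Bool) (T : α) (κ : List (α × α)) : Finset (α → α) :=
  univ.filter fun τ => TPair ty T τ ∧ ∀ p ∈ κ, τ p.1 = p.2

lemma mem_TSh {ty : α → Bool} {T : α} {κ : List (α × α)} {τ : α → α} :
    τ ∈ TSh ty T κ ↔ TPair ty T τ ∧ ∀ p ∈ κ, τ p.1 = p.2 := by
  simp [TSh]

/-- free labels of a given type -/
def Rf (ty : α → Bool) (T : α) (κ : List (α × α)) (b : Bool) : Finset α :=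
  univ.filter fun x => x ∉ plab κ ∧ x ≠ T ∧ ty x = b

lemma mem_Rf {ty : α → Bool} {T : α} {κ : List (α × α)} {b : Bool} {x : α} :
    x ∈ Rf ty T κ b ↔ x ∉ plab κ ∧ x ≠ T ∧ ty x = b := by
  simp [Rf]

omit [Fintype α] [DecidableEq α] in
/-- the partner of a free label is free and of the other type -/
lemma TPair.free {ty : α → Bool} {T : α} {κ : List (α × α)} {τ : α → α}
    (h : TPair ty T τ) (hκ : ∀ p ∈ κ, τ p.1 = p.2) {x : α} (hx : x ∉ plab κ) (hT : x ≠ T) :
    τ x ∉ plab κ ∧ τ x ≠ T := by
  refine ⟨?_, ?_⟩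
  · intro hm
    obtain ⟨p, hp, hp'⟩ := mem_plab.1 hm
    apply hx
    rw [mem_plab]
    rcases hp' with e | e
    · refine ⟨p, hp, Or.inr ?_⟩
      have := hκ p hp
      rw [← e, h.1 x] at this
      exact this
    · refine ⟨p, hp, Or.inl ?_⟩
      have := hκ p hp
      rw [← h.1 p.1, this, ← e, h.1 x]
  · intro e
    apply hT
    have h1 : τ T = T := (h.2.1 T).2 rfl
    have h2 := h.1 x
    rw [e, h1] at h2
    exact h2.symm

/-- the numbers of free labels of the two types agree -/
lemma card_Rf_eq {ty : α → Bool} {T : α} {κ : List (α × α)} {τ : α → α}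
    (h : TPair ty T τ) (hκ : ∀ p ∈ κ, τ p.1 = p.2) :
    (Rf ty T κ true).card = (Rf ty T κ false).card := by
  apply Finset.card_bij (fun x _ => τ x)
  · intro x hx
    rw [mem_Rf] at hx ⊢
    obtain ⟨h1, h2⟩ := h.free hκ hx.1 hx.2.1
    refine ⟨h1, h2, ?_⟩
    rw [h.2.2 x hx.2.1, hx.2.2]
    rfl
  · intro x _ y _ e
    have := congrArg τ e
    rwa [h.1, h.1] at this
  · intro y hy
    rw [mem_Rf] at hy
    obtain ⟨h1, h2⟩ := h.free hκ hy.1 hy.2.1
    refine ⟨τ y, ?_, h.1 y⟩
    rw [mem_Rf]
    refine ⟨h1, h2, ?_⟩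
    rw [h.2.2 y hy.2.1, hy.2.2]
    rfl

lemma card_Rf_add {ty : α → Bool} {T : α} {κ : List (α × α)} {K : ℕ}
    (hK : Fintype.card α = 2 * K + 1) (hn : (plab κ).Nodup) (hT : T ∉ plab κ) :
    (Rf ty T κ true).card + (Rf ty T κ false).card = 2 * (K - κ.length) ∧ κ.length ≤ K := by
  have h1 : (insert T (plab κ).toFinset).card = 2 * κ.length + 1 := by
    rw [Finset.card_insert_of_notMem (by simpa using hT), List.toFinset_card_of_nodup hn,
      length_plab]
  have h2 : Rf ty T κ true ∪ Rf ty T κ false = (insert T (plab κ).toFinset)ᶜ := by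
    ext x
    rw [Finset.mem_union, mem_Rf, mem_Rf, Finset.mem_compl, Finset.mem_insert, not_or,
      List.mem_toFinset]
    constructor
    · rintro (h | h)
      · exact ⟨h.2.1, h.1⟩
      · exact ⟨h.2.1, h.1⟩
    · rintro ⟨h3, h4⟩
      cases hx : ty x
      · exact Or.inr ⟨h4, h3, rfl⟩
      · exact Or.inl ⟨h4, h3, rfl⟩
  have h3 : Disjoint (Rf ty T κ true) (Rf ty T κ false) := by
    rw [Finset.disjoint_left]
    intro x hx hx'
    rw [mem_Rf] at hx hx'
    rw [hx.2.2] at hx'
    exact absurd hx'.2.2 (by decide)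
  have h4 : (insert T (plab κ).toFinset).card ≤ Fintype.card α := Finset.card_le_univ _
  rw [← Finset.card_union_of_disjoint h3, h2, Finset.card_compl, h1, hK]
  rw [h1, hK] at h4
  omega

/-- **T1.** If `α` has `2K + 1` elements, at most `(K - |κ|)!` typed pairings contain the pairs of
`κ`. -/
theorem card_TSh_le (ty : α → Bool) (T : α) {K : ℕ} (hK : Fintype.card α = 2 * K + 1) :
    ∀ (n : ℕ) (κ : List (α × α)), (plab κ).Nodup → T ∉ plab κ → K - κ.length = n →
      (TSh ty T κ).card ≤ n.factorial := by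
  intro n
  induction n with
  | zero =>
    intro κ hn hT hk
    rw [Nat.factorial_zero, Finset.card_le_one]
    intro τ hτ τ' hτ'
    rw [mem_TSh] at hτ hτ'
    funext x
    have hcov : x = T ∨ x ∈ plab κ := by
      by_contra hc
      push Not at hc
      have h1 := (card_Rf_add (ty := ty) hK hn hT).1
      rw [hk] at h1
      have h2 : x ∈ Rf ty T κ (ty x) := mem_Rf.2 ⟨hc.2, hc.1, rfl⟩
      have h3 : 0 < (Rf ty T κ (ty x)).card := Finset.card_pos.2 ⟨x, h2⟩
      cases hx : ty x
      · rw [hx] at h3; omega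
      · rw [hx] at h3; omega
    rcases hcov with rfl | hx
    · rw [(hτ.1.2.1 x).2 rfl, (hτ'.1.2.1 x).2 rfl]
    · obtain ⟨p, hp, rfl | rfl⟩ := mem_plab.1 hx
      · rw [hτ.2 p hp, hτ'.2 p hp]
      · have h1 := hτ.2 p hp
        have h2 := hτ'.2 p hp
        rw [← h1, hτ.1.1, h1, ← h2, hτ'.1.1]
  | succ n ih =>
    intro κ hn hT hk
    rcases (TSh ty T κ).eq_empty_or_nonempty with he | ⟨τ₀, hτ₀⟩
    · rw [he, Finset.card_empty]
      exact Nat.zero_le _
    rw [mem_TSh] at hτ₀
    have h1 := card_Rf_eq hτ₀.1 hτ₀.2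
    obtain ⟨h2, h2'⟩ := card_Rf_add (ty := ty) hK hn hT
    have h3 : (Rf ty T κ false).card = n + 1 := by omega
    have h4 : (Rf ty T κ true).card = n + 1 := by omega
    obtain ⟨x, hx⟩ : (Rf ty T κ true).Nonempty := by
      rw [← Finset.card_pos, h4]; omega
    have hx' := mem_Rf.1 hx
    have hsub : TSh ty T κ ⊆ (Rf ty T κ false).biUnion (fun y => TSh ty T ((x, y) :: κ)) := by
      intro τ hτ
      rw [mem_TSh] at hτ
      obtain ⟨h5, h6⟩ := hτ.1.free hτ.2 hx'.1 hx'.2.1
      rw [Finset.mem_biUnion]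
      refine ⟨τ x, mem_Rf.2 ⟨h5, h6, ?_⟩, mem_TSh.2 ⟨hτ.1, ?_⟩⟩
      · rw [hτ.1.2.2 x hx'.2.1, hx'.2.2]
        rfl
      · intro p hp
        rcases List.mem_cons.1 hp with rfl | hp
        · rfl
        · exact hτ.2 p hp
    refine (Finset.card_le_card hsub).trans ?_
    refine (Finset.card_biUnion_le_card_mul _ _ n.factorial ?_).trans ?_
    · intro y hy
      have hy' := mem_Rf.1 hy
      have hxy : x ≠ y := by
        rintro rfl
        rw [hx'.2.2] at hy'
        exact absurd hy'.2.2 (by decide)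
      apply ih
      · rw [plab_cons, List.nodup_cons, List.nodup_cons]
        refine ⟨?_, hy'.1, hn⟩
        rw [List.mem_cons, not_or]
        exact ⟨hxy, hx'.1⟩
      · rw [plab_cons, List.mem_cons, List.mem_cons, not_or, not_or]
        exact ⟨fun h => hx'.2.1 h.symm, fun h => hy'.2.1 h.symm, hT⟩
      · rw [List.length_cons]
        omega
    · rw [h3, Nat.factorial_succ]

/-! ### States -/

omit [Fintype α] [DecidableEq α] in
/-- the inner pairs of the markers of a list -/
def mp : List (Lt α) → List (α × α)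
  | [] => []
  | Lt.gap _ _ :: xs => mp xs
  | Lt.mk a _ _ b :: xs => (a, b) :: mp xs

omit [Fintype α] [DecidableEq α] in
lemma mem_mp {xs : List (Lt α)} {p : α × α} (h : p ∈ mp xs) :
    ∃ u l, Lt.mk p.1 u l p.2 ∈ xs := by
  induction xs with
  | nil => simp [mp] at h
  | cons x xs ih =>
    cases x with
    | gap u l =>
      obtain ⟨u', l', h'⟩ := ih h
      exact ⟨u', l', List.mem_cons_of_mem _ h'⟩
    | mk a u l b =>
      rcases List.mem_cons.1 h with rfl | h
      · exact ⟨u, l, List.mem_cons_self⟩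
      · obtain ⟨u', l', h'⟩ := ih h
        exact ⟨u', l', List.mem_cons_of_mem _ h'⟩

omit [Fintype α] [DecidableEq α] in
lemma plab_mp_sublist (xs : List (Lt α)) : (plab (mp xs)).Sublist (lab xs) := by
  induction xs with
  | nil => exact List.Sublist.refl _
  | cons x xs ih =>
    cases x with
    | gap u l =>
      rw [lab_cons]
      exact ih.trans (List.sublist_append_right _ _)
    | mk a u l b =>
      rw [lab_cons, mp, plab_cons]
      have h1 : List.Sublist [a, b] [a, u, l, b] := by
        exact List.Sublist.cons_cons a (List.Sublist.cons u (List.Sublist.cons l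
          (List.Sublist.refl [b])))
      exact h1.append ih

omit [Fintype α] [DecidableEq α] in
lemma length_lab (xs : List (Lt α)) : (lab xs).length = 2 * xs.length + 2 * (mp xs).length := by
  induction xs with
  | nil => rfl
  | cons x xs ih =>
    cases x with
    | gap u l =>
      rw [lab_cons, List.length_append, ih, mp, List.length_cons, Lt.labels]
      simp only [List.length_cons, List.length_nil]
      ring
    | mk a u l b =>
      rw [lab_cons, List.length_append, ih, mp, List.length_cons, List.length_cons, Lt.labels]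
      simp only [List.length_cons, List.length_nil]
      ring

open Classical in
/-- **T1 for states.** If the labels of the state `s` and of the glued pairs `ρ` are all the labels,
each once, then at most `m!` typed pairings contain `ρ` and the inner pairs of the markers of `s`,
`m` the number of letters of `s`. -/
theorem card_state_le (ty : α → Bool) (T : α) (s : St α) (ρ : List (α × α))
    (hn : (labels s ++ plab ρ).Nodup) (hc : ∀ x, x ∈ labels s ++ plab ρ) :
    (univ.filter fun τ : α → α => TPair ty T τ ∧ (∀ p ∈ ρ, τ p.1 = p.2) ∧ MkOK τ s).card ≤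
      s.2.length.factorial := by
  set F := univ.filter fun τ : α → α =>
    TPair ty T τ ∧ (∀ p ∈ ρ, τ p.1 = p.2) ∧ MkOK τ s with hF
  rcases F.eq_empty_or_nonempty with he | ⟨τ₀, hτ₀⟩
  · rw [he, Finset.card_empty]
    exact Nat.zero_le _
  obtain ⟨h1, h2, h3⟩ := (Finset.mem_filter.1 hτ₀).2
  set κ := mp s.2 ++ ρ with hκ
  have hmem : ∀ p ∈ κ, τ₀ p.1 = p.2 := by
    intro p hp
    rcases List.mem_append.1 hp with hp | hp
    · obtain ⟨u, l, h⟩ := mem_mp hp
      exact (h3 _ _ _ _ h).1
    · exact h2 p hp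
  have hsub : (plab κ).Sublist (labels s ++ plab ρ) := by
    rw [hκ, plab_append, labels_eq]
    exact ((plab_mp_sublist s.2).trans (List.sublist_cons_self _ _)).append (List.Sublist.refl _)
  have hnκ : (plab κ).Nodup := hsub.nodup hn
  have hT : T ∉ plab κ := by
    intro hT
    obtain ⟨p, hp, hp'⟩ := mem_plab.1 hT
    have h4 := hmem p hp
    have h5 : τ₀ T = T := (h1.2.1 T).2 rfl
    have h6 : p.1 = p.2 := by
      rcases hp' with e | e
      · rw [← e, h5] at h4
        rw [← h4, e]
      · have := h1.1 p.1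
        rw [h4, ← e, h5] at this
        rw [← this, e]
    -- the labels of a pair of `κ` are different
    obtain ⟨κ₁, κ₂, hs⟩ := List.append_of_mem hp
    rw [hs, plab_append, plab_cons] at hnκ
    have h7 := (List.nodup_append.1 hnκ).2.1
    rw [List.nodup_cons] at h7
    exact h7.1 (by rw [h6]; exact List.mem_cons_self)
  have hcard : Fintype.card α = 2 * (s.2.length + (mp s.2).length + ρ.length) + 1 := by
    have h8 : (labels s ++ plab ρ).toFinset = univ := by
      rw [Finset.eq_univ_iff_forall]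
      intro x
      rw [List.mem_toFinset]
      exact hc x
    rw [← Finset.card_univ, ← h8, List.toFinset_card_of_nodup hn, List.length_append,
      length_plab, labels_eq, List.length_cons, length_lab]
    ring
  have h9 := card_TSh_le ty T hcard s.2.length κ hnκ hT (by
    rw [hκ, List.length_append]
    omega)
  refine (Finset.card_le_card ?_).trans h9
  intro τ hτ
  obtain ⟨h10, h11, h12⟩ := (Finset.mem_filter.1 hτ).2
  rw [mem_TSh]
  refine ⟨h10, ?_⟩
  intro p hp
  rcases List.mem_append.1 hp with hp | hp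
  · obtain ⟨u, l, h⟩ := mem_mp hp
    exact (h12 _ _ _ _ h).1
  · exact h11 p hp

end BP2
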