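import Pool.Agent.BP2.D.Stmt
import Pool.Agent.BP2.D.PairCount

set_option autoImplicit false

/-!
# MP_475aca_co, part (D): (T1), (T2), (T5)
-/

namespace BP2

open Finset

variable {α : Type*}

lemma lb_eq (ρ : List (α × α)) : lb ρ = plab ρ := rfl

lemma Mk.ok {τ : α → α} {s : St α} (h : Mk τ s) (hi : ∀ x, τ (τ x) = x) : MkOK τ s := by
  intro a u l b hm
  have h1 := h a u l b hm
  exact ⟨h1, by rw [← h1, hi]⟩

lemma MkOK.mk {τ : α → α} {s : St α} (h : MkOK τ s) : Mk τ s :=
  fun a u l b hm => (h a u l b hm).1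

lemma Pairing.tp {ty : α → Bool} {T : α} {τ : α → α} (h : Pairing ty T τ) : TPair ty T τ :=
  ⟨h.invol, h.fix, h.opp⟩

/-- **(T1)** -/
theorem shCard : ShCard := by
  intro α _ ty T s ρ hWF
  classical
  refine le_trans (Finset.card_le_card ?_)
    (card_state_le ty T s ρ hWF.nodup hWF.cover)
  intro τ hτ
  obtain ⟨h1, h2, h3⟩ := (Finset.mem_filter.1 hτ).2
  exact Finset.mem_filter.2 ⟨Finset.mem_univ _, h1.tp, h2, h3.ok h1.invol⟩

/-- **(T2)** -/
theorem outcomes : Outcomes := by
  intro α _ W s n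
  classical
  refine ⟨outc n s, card_outc n s, ?_⟩
  intro ty T ρ _ τ g k s' hτ hr
  obtain ⟨h1, h2, h3⟩ := (Finset.mem_filter.1 hτ).2
  obtain ⟨φ, h4, h5, h6, h7⟩ := hr.mem_outc n (h3.ok h1.invol)
  refine ⟨φ, h4, h6, ?_⟩
  refine Finset.mem_filter.2 ⟨Finset.mem_univ _, h1, ?_, h7.mk⟩
  intro p hp
  rcases List.mem_append.1 hp with hp | hp
  · exact h2 p hp
  · exact h5 p hp

lemma sw_ent (x : Lt α) : x.sw.ent = x.lv := by cases x <;> rfl

lemma sw_lv (x : Lt α) : x.sw.lv = x.ent := by cases x <;> rfl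

/-- number of improper letters of a list -/
def cn (ty : α → Bool) (A : List (Lt α)) : ℕ := A.countP (fun x => ty x.ent == ty x.lv)

lemma cn_append (ty : α → Bool) (A B : List (Lt α)) : cn ty (A ++ B) = cn ty A + cn ty B :=
  List.countP_append

lemma cn_gap (ty : α → Bool) (u l : α) (B : List (Lt α)) :
    cn ty (Lt.gap u l :: B) = cn ty B + (ty l == ty u).toNat := by
  rw [cn, List.countP_cons, cn]
  congr 1
  change (if (ty l == ty u) = true then 1 else 0) = (ty l == ty u).toNat
  cases (ty l == ty u) <;> rfl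

lemma cn_mk (ty : α → Bool) (a u l b : α) (B : List (Lt α)) :
    cn ty (Lt.mk a u l b :: B) = cn ty B + (ty u == ty l).toNat := by
  rw [cn, List.countP_cons, cn]
  congr 1
  change (if (ty u == ty l) = true then 1 else 0) = (ty u == ty l).toNat
  cases (ty u == ty l) <;> rfl

/-- turning a block over does not change the number of improper letters -/
lemma cn_rs (ty : α → Bool) (A : List (Lt α)) : cn ty (rs A) = cn ty A := by
  rw [cn, cn, rs, List.countP_reverse, List.countP_map]
  apply List.countP_congr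
  intro x _
  simp only [Function.comp, sw_ent, sw_lv, beq_iff_eq]
  exact ⟨fun h => h.symm, fun h => h.symm⟩

lemma imp_eq (ty : α → Bool) (t : α) (xs : List (Lt α)) :
    imp ty (t, xs) = cn ty xs + (!ty t).toNat := rfl

/-- **(T5)** -/
theorem impLemma : ImpLemma := by
  intro α τ ty n g k s s' h
  induction h with
  | refl => simp
  | @gapW n g k s t u l A B h hne ih =>
    rw [imp_eq] at ih ⊢
    rw [cn_append, cn_gap] at ih ⊢
    rw [cn_rs]
    simp only [Wr, Lt.ent]
    have key : ∀ t u l : Bool, (l == t).toNat + (!u).toNat ≤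
        (l == u).toNat + (!t).toNat + 2 * l.toNat := by decide
    have := key (ty t) (ty u) (ty l)
    omega
  | @gapG n g k s t u l A B h he ih =>
    rw [imp_eq] at ih ⊢
    rw [cn_append, cn_gap] at ih
    rw [cn_append, cn_rs]
    simp only [Wr, Lt.ent]
    have key : ∀ t u l : Bool, (!u).toNat ≤
        (l == u).toNat + (!t).toNat + 2 * l.toNat := by decide
    have := key (ty t) (ty u) (ty l)
    omega
  | @mkW n g k s t a u l b A B h hne ih =>
    rw [imp_eq] at ih ⊢
    rw [cn_append, cn_mk] at ih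
    rw [cn_gap, cn_append]
    simp only [Wr, Lt.ent]
    have key : ∀ t u l : Bool, (t == u).toNat + (!l).toNat ≤
        (u == l).toNat + (!t).toNat + 2 * u.toNat := by decide
    have := key (ty t) (ty u) (ty l)
    omega
  | @mkG n g k s t a u l b A B h he ih =>
    rw [imp_eq] at ih ⊢
    rw [cn_append, cn_mk] at ih
    rw [cn_append]
    simp only [Wr, Lt.ent]
    have key : ∀ t u l : Bool, (!l).toNat ≤
        (u == l).toNat + (!t).toNat + 2 * u.toNat := by decide
    have := key (ty t) (ty u) (ty l)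
    omega
  | @dis n g k s t a u l b A B h ih =>
    rw [imp_eq] at ih ⊢
    rw [cn_append, cn_mk] at ih
    rw [cn_append, cn_gap, cn_gap]
    have h1 : ∀ x : Bool, x.toNat ≤ 1 := by decide
    have h2 := h1 (ty u == ty a)
    have h3 := h1 (ty b == ty l)
    omega

end BP2
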