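import Pool.Agent.BP2.D.Stmt

set_option autoImplicit false

/-!
# MP_475aca_co, part (D): every shape has a coherent typing
-/

namespace BP2

open Equiv Equiv.Perm

section two

variable {α : Type*} [Fintype α]

/-- two involutions, each with exactly one fixed point: a 2-colouring which both reverse -/
theorem exists_two_col (μ τ : α → α) (hμ : ∀ x, μ (μ x) = x) (hτ : ∀ x, τ (τ x) = x) (t T : α)
    (ht : ∀ x, μ x = x ↔ x = t) (hT : ∀ x, τ x = x ↔ x = T) :
    ∃ ty : α → Bool, ty t = true ∧ (∀ x, x ≠ t → ty (μ x) = !ty x) ∧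
      (∀ x, x ≠ T → ty (τ x) = !ty x) := by
  classical
  let m : Perm α := ⟨μ, μ, hμ, hμ⟩
  let p : Perm α := ⟨τ, τ, hτ, hτ⟩
  have hm : m * m = 1 := by ext x; exact hμ x
  have hp : p * p = 1 := by ext x; exact hτ x
  have hmi : m⁻¹ = m := inv_eq_of_mul_eq_one_left hm
  have hpi : p⁻¹ = p := inv_eq_of_mul_eq_one_left hp
  let σ : Perm α := m * p
  have hmσ : m * σ = p := by rw [show m * σ = (m * m) * p by simp [σ, mul_assoc], hm, one_mul]
  -- reflection rule
  have hσi : σ⁻¹ = p * m := by rw [mul_inv_rev, hmi, hpi]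
  have hconj : m * σ * m⁻¹ = σ⁻¹ := by rw [hmσ, hmi, hσi]
  have hrefl : ∀ (k : ℤ) (x : α), m ((σ ^ k) x) = (σ ^ (-k)) (m x) := by
    intro k x
    have h1 : m * σ ^ k * m⁻¹ = (σ⁻¹) ^ k := by
      rw [← hconj, conj_zpow]
    have h2 : m * σ ^ k = σ ^ (-k) * m := by
      rw [zpow_neg, ← inv_zpow, ← h1]
      simp [mul_assoc]
    exact congrArg (fun f : Perm α => f x) h2
  have hpm : ∀ (k : ℤ) (x : α), p ((σ ^ k) x) = (σ ^ (-(k + 1))) (m x) := by
    intro k x
    have : p ((σ ^ k) x) = m ((σ ^ (k + 1)) x) := by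
      rw [add_comm, zpow_add, zpow_one, ← hmσ]
      rfl
    rw [this, hrefl]
  have hmt : m t = t := (ht t).2 rfl
  -- the cycle of t
  obtain ⟨c, hc0, hc⟩ : ∃ c : ℕ, 0 < c ∧ ∀ k : ℤ, (σ ^ k) t = t ↔ (c : ℤ) ∣ k := by
    refine ⟨Function.minimalPeriod σ t, ?_, ?_⟩
    · apply Function.minimalPeriod_pos_of_mem_periodicPts
      refine ⟨orderOf σ, orderOf_pos σ, ?_⟩
      unfold Function.IsPeriodicPt Function.IsFixedPt
      rw [Perm.iterate_eq_pow, pow_orderOf_eq_one]
      rfl
    · have hnat : ∀ k : ℕ, (σ ^ k) t = t ↔ Function.minimalPeriod σ t ∣ k := by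
        intro k
        rw [← Function.isPeriodicPt_iff_minimalPeriod_dvd]
        unfold Function.IsPeriodicPt Function.IsFixedPt
        rw [Perm.iterate_eq_pow]
      intro k
      rcases Int.eq_nat_or_neg k with ⟨n, rfl | rfl⟩
      · rw [zpow_natCast, hnat]
        exact Int.natCast_dvd_natCast.symm
      · rw [Int.dvd_neg, Int.natCast_dvd_natCast, ← hnat, zpow_neg, zpow_natCast,
          Perm.inv_eq_iff_eq]
        exact eq_comm
  have hdiff : ∀ k l : ℤ, (σ ^ k) t = (σ ^ l) t ↔ (c : ℤ) ∣ k - l := by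
    intro k l
    rw [← hc, sub_eq_neg_add, zpow_add, Perm.mul_apply, zpow_neg, Perm.inv_eq_iff_eq]
  obtain ⟨r, hr⟩ : ∃ r : ℕ, c = 2 * r + 1 := by
    rcases Nat.even_or_odd' c with ⟨j, hj | hj⟩
    · exfalso
      have h1 : m ((σ ^ (j : ℤ)) t) = (σ ^ (j : ℤ)) t := by
        rw [hrefl, hmt, hdiff, hj]
        refine ⟨-1, by push_cast; ring⟩
      have h2 : (σ ^ (j : ℤ)) t = t := (ht _).1 h1
      rw [hc] at h2
      have h3 : c ∣ j := Int.natCast_dvd_natCast.1 h2
      have h4 := Nat.le_of_dvd (by omega) h3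
      omega
    · exact ⟨j, hj⟩
  have hTr : (σ ^ (r : ℤ)) t = T := by
    rw [← hT]
    change p ((σ ^ (r : ℤ)) t) = _
    rw [hpm, hmt, hdiff, hr]
    refine ⟨-1, by push_cast; ring⟩
  -- a cycle which is mapped to itself contains t
  have hfix : ∀ x, SameCycle σ x (m x) → SameCycle σ t x := by
    rintro x ⟨k, hk⟩
    rcases Int.even_or_odd' k with ⟨j, rfl | rfl⟩
    · apply SameCycle.symm
      refine ⟨j, ?_⟩
      rw [← ht]
      change m ((σ ^ j) x) = (σ ^ j) x
      rw [hrefl, ← hk, ← Perm.mul_apply, ← zpow_add]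
      congr 2
      ring
    · have h1 : (σ ^ j) x = T := by
        rw [← hT]
        change p ((σ ^ j) x) = (σ ^ j) x
        rw [hpm, ← hk, ← Perm.mul_apply, ← zpow_add]
        congr 2
        ring
      have h2 : SameCycle σ t T := ⟨r, hTr⟩
      exact h2.trans (SameCycle.symm ⟨j, h1⟩)
  -- the colours
  let q : α → Quotient (SameCycle.setoid σ) := fun x => Quotient.mk _ x
  have hq : ∀ x y, q x = q y ↔ SameCycle σ x y := fun x y => Quotient.eq
  let R : Quotient (SameCycle.setoid σ) → Quotient (SameCycle.setoid σ) → Prop := WellOrderingRel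
  have hRt : ∀ a b, a ≠ b → (R a b ↔ ¬ R b a) := by
    intro a b hab
    constructor
    · intro h1 h2
      exact asymm_of WellOrderingRel h1 h2
    · intro h1
      rcases trichotomous_of WellOrderingRel a b with h | h | h
      · exact h
      · exact absurd h hab
      · exact absurd h h1
  have hqm : ∀ x, q (p x) = q (m x) := by
    intro x
    rw [hq]
    have := hpm 0 x
    rw [zpow_zero, Perm.one_apply] at this
    rw [this]
    exact SameCycle.symm ⟨_, rfl⟩
  have hqmp : ∀ x, q (m (p x)) = q x := by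
    intro x
    rw [hq]
    exact SameCycle.symm ⟨1, by rw [zpow_one]; rfl⟩
  have hqmm : ∀ x, q (m (m x)) = q x := by
    intro x
    have : m (m x) = x := hμ x
    rw [this]
  let col : α → Bool := fun x =>
    if h : SameCycle σ t x then decide ((Classical.choose h) % (c : ℤ) ≤ r)
    else decide (R (q x) (q (m x)))
  have hcolf : ∀ k : ℤ, col ((σ ^ k) t) = decide (k % (c : ℤ) ≤ r) := by
    intro k
    have h : SameCycle σ t ((σ ^ k) t) := ⟨k, rfl⟩
    have h1 : (σ ^ (Classical.choose h)) t = (σ ^ k) t := Classical.choose_spec h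
    rw [hdiff] at h1
    have h2 : (Classical.choose h) % (c : ℤ) = k % (c : ℤ) := ((Int.modEq_iff_dvd).2 h1).symm
    simp only [col, dif_pos h, h2]
  have hcpos : (0 : ℤ) < c := by exact_mod_cast hc0
  refine ⟨col, ?_, ?_, ?_⟩
  · have := hcolf 0
    rw [zpow_zero, Perm.one_apply] at this
    rw [this]
    simp
  · intro x hx
    by_cases h : SameCycle σ t x
    · obtain ⟨k, rfl⟩ := h
      have h1 : μ ((σ ^ k) t) = (σ ^ (-k)) t := by
        change m ((σ ^ k) t) = _
        rw [hrefl, hmt]
      rw [h1, hcolf, hcolf]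
      have h2 : k % (c : ℤ) ≠ 0 := by
        intro h3
        exact hx ((hc k).2 (Int.dvd_of_emod_eq_zero h3))
      have h3 : 0 ≤ k % (c : ℤ) := Int.emod_nonneg _ hcpos.ne'
      have h4 : k % (c : ℤ) < c := Int.emod_lt_of_pos _ hcpos
      have h5 : (-k) % (c : ℤ) = c - k % c := by
        have h6 : -k = (c - k % c) + c * (-(k / c) - 1) := by
          have := Int.emod_add_mul_ediv k c
          linarith
        rw [h6, Int.add_mul_emod_self_left]
        exact Int.emod_eq_of_lt (by omega) (by omega)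
      rw [h5]
      have h7 : (c : ℤ) = 2 * r + 1 := by rw [hr]; push_cast; ring
      by_cases h8 : k % (c : ℤ) ≤ r
      · have h9 : ¬ ((c : ℤ) - k % c ≤ r) := by omega
        simp [h8, h9]
      · have h9 : ((c : ℤ) - k % c ≤ r) := by omega
        simp [h8, h9]
    · have h' : ¬ SameCycle σ t (m x) := by
        intro h1
        apply h
        obtain ⟨k, hk⟩ := h1
        refine ⟨-k, ?_⟩
        have := hrefl k t
        rw [hk, hmt] at this
        rw [← this]
        exact hμ x
      have hne : q x ≠ q (m x) := by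
        intro h1
        exact h (hfix x ((hq _ _).1 h1))
      have e1 : col (μ x) = decide (R (q (m x)) (q (m (m x)))) := by
        change col (m x) = _
        simp only [col, dif_neg h']
      have e2 : col x = decide (R (q x) (q (m x))) := by
        simp only [col, dif_neg h]
      rw [e1, e2, hqmm]
      have := hRt _ _ hne
      by_cases h5 : R (q x) (q (m x))
      · simp [h5, this.1 h5]
      · have h6 : R (q (m x)) (q x) := by
          by_contra h7
          exact h5 (this.2 h7)
        simp [h5, h6]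
  · intro x hx
    by_cases h : SameCycle σ t x
    · obtain ⟨k, rfl⟩ := h
      have h1 : τ ((σ ^ k) t) = (σ ^ (-(k + 1))) t := by
        change p ((σ ^ k) t) = _
        rw [hpm, hmt]
      rw [h1, hcolf, hcolf]
      have h7 : (c : ℤ) = 2 * r + 1 := by rw [hr]; push_cast; ring
      have h2 : k % (c : ℤ) ≠ r := by
        intro h3
        apply hx
        rw [← hTr, hdiff]
        refine Int.dvd_of_emod_eq_zero ?_
        rw [Int.sub_emod, h3, Int.emod_eq_of_lt (a := (r : ℤ)) (by positivity) (by omega), sub_self,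
          Int.zero_emod]
      have h3 : 0 ≤ k % (c : ℤ) := Int.emod_nonneg _ hcpos.ne'
      have h4 : k % (c : ℤ) < c := Int.emod_lt_of_pos _ hcpos
      have h5 : (-(k + 1)) % (c : ℤ) = c - 1 - k % c := by
        have h6 : -(k + 1) = (c - 1 - k % c) + c * (-(k / c) - 1) := by
          have := Int.emod_add_mul_ediv k c
          linarith
        rw [h6, Int.add_mul_emod_self_left]
        exact Int.emod_eq_of_lt (by omega) (by omega)
      rw [h5]
      by_cases h8 : k % (c : ℤ) ≤ r
      · have h9 : ¬ ((c : ℤ) - 1 - k % c ≤ r) := by omega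
        simp [h8, h9]
      · have h9 : ((c : ℤ) - 1 - k % c ≤ r) := by omega
        simp [h8, h9]
    · have h' : ¬ SameCycle σ t (p x) := by
        intro h1
        apply h
        obtain ⟨k, hk⟩ := h1
        refine ⟨-(k + 1), ?_⟩
        have := hpm k t
        rw [hk, hmt] at this
        rw [← this]
        exact hτ x
      have hne : q x ≠ q (m x) := by
        intro h1
        exact h (hfix x ((hq _ _).1 h1))
      have e1 : col (τ x) = decide (R (q (p x)) (q (m (p x)))) := by
        change col (p x) = _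
        simp only [col, dif_neg h']
      have e2 : col x = decide (R (q x) (q (m x))) := by
        simp only [col, dif_neg h]
      rw [e1, e2, hqmp, hqm]
      have := hRt _ _ hne
      by_cases h5 : R (q x) (q (m x))
      · simp [h5, this.1 h5]
      · have h6 : R (q (m x)) (q x) := by
          by_contra h7
          exact h5 (this.2 h7)
        simp [h5, h6]

end two

section pairs

variable {α : Type*}

/-- `x` and `y` form a pair of `P` -/
def PR (P : List (α × α)) (x y : α) : Prop := (x, y) ∈ P ∨ (y, x) ∈ P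

lemma PR.symm {P : List (α × α)} {x y : α} (h : PR P x y) : PR P y x := Or.symm h

lemma mem_lb {P : List (α × α)} {x : α} : x ∈ lb P ↔ ∃ y, PR P x y := by
  unfold lb PR
  simp only [List.mem_flatMap, List.mem_cons, List.not_mem_nil, or_false]
  constructor
  · rintro ⟨⟨a, b⟩, hp, rfl | rfl⟩
    · exact ⟨b, Or.inl hp⟩
    · exact ⟨a, Or.inr hp⟩
  · rintro ⟨y, h | h⟩
    · exact ⟨_, h, Or.inl rfl⟩
    · exact ⟨_, h, Or.inr rfl⟩

lemma PR.unique {P : List (α × α)} (hP : (lb P).Nodup) {x y z : α} (h1 : PR P x y)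
    (h2 : PR P x z) : y = z ∧ x ≠ y := by
  induction P with
  | nil => rcases h1 with h | h <;> exact absurd h List.not_mem_nil
  | cons p P ih =>
    obtain ⟨a, b⟩ := p
    have e : lb ((a, b) :: P) = a :: b :: lb P := by simp [lb]
    rw [e, List.nodup_cons, List.nodup_cons] at hP
    obtain ⟨h3, h4, h5⟩ := hP
    have hab : a ≠ b := fun h => h3 (by rw [h]; exact List.mem_cons_self)
    have h3' : a ∉ lb P := fun h => h3 (List.mem_cons_of_mem _ h)
    have key : ∀ w, PR ((a, b) :: P) x w → (x = a ∧ w = b) ∨ (x = b ∧ w = a) ∨ PR P x w := by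
      intro w hw
      rcases hw with h | h
      · rcases List.mem_cons.1 h with h | h
        · left
          exact ⟨congrArg Prod.fst h, congrArg Prod.snd h⟩
        · right; right; exact Or.inl h
      · rcases List.mem_cons.1 h with h | h
        · right; left
          exact ⟨congrArg Prod.snd h, congrArg Prod.fst h⟩
        · right; right; exact Or.inr h
    rcases key y h1 with ⟨rfl, rfl⟩ | ⟨rfl, rfl⟩ | h
    · refine ⟨?_, hab⟩
      rcases key z h2 with ⟨_, rfl⟩ | ⟨h6, _⟩ | h6
      · rfl
      · exact absurd h6 hab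
      · exact absurd (mem_lb.2 ⟨_, h6⟩) h3'
    · refine ⟨?_, hab.symm⟩
      rcases key z h2 with ⟨h6, _⟩ | ⟨_, rfl⟩ | h6
      · exact absurd h6.symm hab
      · rfl
      · exact absurd (mem_lb.2 ⟨_, h6⟩) h4
    · rcases key z h2 with ⟨rfl, rfl⟩ | ⟨rfl, rfl⟩ | h6
      · exact absurd (mem_lb.2 ⟨_, h⟩) h3'
      · exact absurd (mem_lb.2 ⟨_, h⟩) h4
      · exact ih h5 h h6

/-- the pairs of a letter: entered and left label, inner pair of a marker -/
def prs : Lt α → List (α × α)
  | Lt.gap u l => [(u, l)]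
  | Lt.mk a u l b => [(u, l), (a, b)]

lemma labels_perm (xs : List (Lt α)) : (xs.flatMap Lt.labels).Perm (lb (xs.flatMap prs)) := by
  induction xs with
  | nil => simp [lb]
  | cons x xs ih =>
    rw [List.flatMap_cons, List.flatMap_cons]
    have : lb (prs x ++ xs.flatMap prs) = lb (prs x) ++ lb (xs.flatMap prs) := by simp [lb]
    rw [this]
    refine List.Perm.append ?_ ih
    cases x with
    | gap u l => simp [lb, prs, Lt.labels]
    | mk a u l b =>
      simp only [lb, prs, Lt.labels, List.flatMap_cons, List.flatMap_nil, List.cons_append,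
        List.nil_append]
      calc [a, u, l, b] = [a] ++ [u, l] ++ [b] := rfl
        _ |>.Perm ([u, l] ++ [a] ++ [b]) := (List.perm_append_comm).append_right _

end pairs

/-- every shape has a coherent typing -/
theorem exists_typing {α : Type*} [Fintype α] (s : St α) (hW : WF s []) (τ : α → α)
    (hτ : IsShape τ s) :
    ∃ ty : α → Bool, ty s.1 = true ∧ (∀ x, τ x ≠ x → ty (τ x) = !ty x) ∧ imp ty s = 0 := by
  obtain ⟨hinv, ⟨T, hT, hTu⟩, hMk⟩ := hτ
  set P := s.2.flatMap prs with hP
  have hperm : (labels s).Perm (s.1 :: lb P) := (labels_perm s.2).cons _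
  have hnd : (s.1 :: lb P).Nodup := by
    have := hW.nodup
    simp only [lb, List.flatMap_nil, List.append_nil] at this
    exact hperm.nodup_iff.1 this
  have hcov : ∀ x, x = s.1 ∨ x ∈ lb P := by
    intro x
    have := hW.cover x
    simp only [lb, List.flatMap_nil, List.append_nil] at this
    exact List.mem_cons.1 (hperm.mem_iff.1 this)
  rw [List.nodup_cons] at hnd
  have hex : ∀ x, ∃ y, (x = s.1 ∧ y = s.1) ∨ PR P x y := by
    intro x
    rcases hcov x with h | h
    · exact ⟨s.1, Or.inl ⟨h, rfl⟩⟩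
    · obtain ⟨y, hy⟩ := mem_lb.1 h
      exact ⟨y, Or.inr hy⟩
  choose μ hμ using hex
  have hμt : μ s.1 = s.1 := by
    rcases hμ s.1 with h | h
    · exact h.2
    · exact absurd (mem_lb.2 ⟨_, h⟩) hnd.1
  have hμP : ∀ x y, PR P x y → μ x = y := by
    intro x y h
    rcases hμ x with h1 | h1
    · rw [h1.1] at h
      exact absurd (mem_lb.2 ⟨_, h⟩) hnd.1
    · exact (PR.unique hnd.2 h1 h).1
  have hμn : ∀ x, x ≠ s.1 → PR P x (μ x) := by
    intro x hx
    rcases hμ x with h1 | h1
    · exact absurd h1.1 hx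
    · exact h1
  obtain ⟨ty, h1, h2, h3⟩ := exists_two_col μ τ (by
      intro x
      by_cases hx : x = s.1
      · rw [hx, hμt, hμt]
      · exact hμP _ _ (hμn x hx).symm) hinv s.1 T (by
      intro x
      constructor
      · intro h
        by_contra hx
        have := hμn x hx
        exact (PR.unique hnd.2 this this).2 h.symm
      · rintro rfl
        exact hμt) (fun x => ⟨fun h => hTu x h, fun h => by rw [h]; exact hT⟩)
  refine ⟨ty, h1, fun x hx => h3 x (fun h => hx (by rw [h]; exact hT)), ?_⟩
  have h4 : ∀ x ∈ s.2, ty x.lv = !ty x.ent := by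
    intro x hx
    have h5 : PR P x.ent x.lv := by
      cases x with
      | gap u l =>
        right
        rw [hP, List.mem_flatMap]
        exact ⟨_, hx, by simp [prs, Lt.ent, Lt.lv]⟩
      | mk a u l b =>
        left
        rw [hP, List.mem_flatMap]
        exact ⟨_, hx, by simp [prs, Lt.ent, Lt.lv]⟩
    have h6 : x.ent ≠ s.1 := by
      intro h
      rw [h] at h5
      exact hnd.1 (mem_lb.2 ⟨_, h5⟩)
    rw [← hμP _ _ h5]
    exact h2 _ h6
  unfold imp
  rw [h1]
  simp only [Bool.not_true, Bool.toNat_false, add_zero, List.countP_eq_zero]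
  intro x hx
  rw [h4 x hx]
  cases ty x.ent <;> simp

end BP2
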