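import Pool.Agent.BP2.D.Main
import Pool.Agent.BP2.D.TOut
import Pool.Agent.BP2.D.ParF
import Pool.Agent.BP2.D.StuckB
import Pool.Agent.BP2.D.Typing

set_option autoImplicit false

/-! # MP_475aca_co, part (D): the typical-case theorem -/

namespace BP2

/-- (D) for every `ε` all but `m! * m ^ (- c m)` shapes with `m` letters are good -/
theorem typical : TheoremD :=
  theoremD (c₀ := 16) (c₁ := 28) (by norm_num) (by norm_num) outcomes stuckCard parLemma impLemma

end BP2
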