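import Pool.Agent.BP2.D.Stmt
import Pool.Agent.BP2.D.End

set_option autoImplicit false

/-!
# MP_475aca_co, part (D): complete runs

If a partner map is good at a valid state, then the whole state is sorted with at most
`(1 + 6 ε) m` steps, at most `6 ε m` of them bad.
-/

namespace BP2

variable {α : Type*}

lemma mkc_le (A : List (Lt α)) : mkc A ≤ A.length := List.countP_le_length

theorem GoodD.full {τ : α → α} (hτ : ∀ x, τ (τ x) = x) {T : α} {s : St α} (hv : Val τ T s)
    {ε δ : ℝ} (h : GoodD ε δ s τ) (ty : α → Bool) (hty : ∀ x, τ x ≠ x → ty (τ x) = !ty x)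
    (himp : (imp ty s : ℝ) ≤ δ * s.2.length) :
    ∃ n g k : ℕ, Run τ (Wr ty) n g k s (T, []) ∧ (n : ℝ) ≤ (1 + 6 * ε) * s.2.length ∧
      (k : ℝ) ≤ 6 * ε * s.2.length := by
  obtain ⟨n, g, k, s', hr, hm, hn, hk⟩ := h ty hty himp
  have hv' := hv.run hτ hr
  obtain ⟨n', k', hn', hr'⟩ := endgame hτ (Wr ty) s' hv'
  have h1 : mkc s'.2 ≤ s'.2.length := mkc_le _
  have h2 := hr'.le.2
  have h3 : (n' : ℝ) ≤ 5 * s'.2.length := by
    have : n' ≤ 5 * s'.2.length := by omega
    exact_mod_cast this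
  have h4 : (k' : ℝ) ≤ n' := by exact_mod_cast h2
  refine ⟨n + n', g + s'.2.length, k + k', hr.trans hr', ?_, ?_⟩
  · push_cast
    linarith
  · push_cast
    linarith

end BP2
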