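import Pool.Agent.BP2.D.Ana

set_option autoImplicit false

/-!
# MP_475aca_co, part (D): assembly of TheoremD
-/

namespace BP2

lemma card_le_labels {α : Type*} [Fintype α] {s : St α} (h : WF s []) :
    Fintype.card α ≤ 4 * s.2.length + 1 := by
  classical
  have h1 : (Finset.univ : Finset α) ⊆ (labels s).toFinset := by
    intro x _
    rw [List.mem_toFinset]
    have := h.cover x
    simpa [lb] using this
  have h2 : Fintype.card α ≤ (labels s).length :=
    (Finset.card_le_card h1).trans (List.toFinset_card_le _)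
  have h3 : ∀ xs : List (Lt α), (xs.flatMap Lt.labels).length ≤ 4 * xs.length := by
    intro xs
    induction xs with
    | nil => simp
    | cons x xs ih =>
      rw [List.flatMap_cons, List.length_append, List.length_cons]
      have : (Lt.labels x).length ≤ 4 := by cases x <;> simp [Lt.labels]
      omega
  have h4 := h3 s.2
  unfold labels at h2
  rw [List.length_cons] at h2
  omega

lemma const_pow {c : ℝ} (hc : 0 < c) : ∃ M₁ : ℕ, ∀ M : ℕ, M₁ ≤ M →
    (2 : ℝ) ^ (4 * M + 1) * (4 * M + 1) ≤ (M : ℝ) ^ (c * M) := by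
  refine ⟨⌈(256 : ℝ) ^ (1 / c)⌉₊ + 1, ?_⟩
  intro M hM
  have hM1 : 1 ≤ M := by omega
  have h1 : (256 : ℝ) ^ (1 / c) ≤ M := by
    have : (256 : ℝ) ^ (1 / c) ≤ (⌈(256 : ℝ) ^ (1 / c)⌉₊ : ℝ) := Nat.le_ceil _
    have h2 : ((⌈(256 : ℝ) ^ (1 / c)⌉₊ : ℕ) : ℝ) ≤ M := by exact_mod_cast (by omega)
    linarith
  have h3 : (256 : ℝ) ≤ (M : ℝ) ^ c := by
    have := Real.rpow_le_rpow (by positivity) h1 hc.le
    rwa [← Real.rpow_mul (by norm_num), one_div, inv_mul_cancel₀ hc.ne', Real.rpow_one] at this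
  have h4 : (M : ℝ) ^ (c * M) = ((M : ℝ) ^ c) ^ M := by
    rw [Real.rpow_mul (by positivity), Real.rpow_natCast]
  rw [h4]
  have h5 : (256 : ℝ) ^ M ≤ ((M : ℝ) ^ c) ^ M := pow_le_pow_left₀ (by norm_num) h3 M
  refine le_trans ?_ h5
  have h6 : 4 * M + 1 ≤ 8 ^ M := by
    clear h5 h4 h3 h1 hM
    induction M, hM1 using Nat.le_induction with
    | base => norm_num
    | succ M hM ih =>
      rw [pow_succ]
      omega
  have h7 : (2 : ℝ) ^ (4 * M + 1) ≤ 32 ^ M := by
    rw [show (32 : ℝ) = 2 ^ 5 by norm_num, ← pow_mul]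
    exact pow_le_pow_right₀ (by norm_num) (by omega)
  have h8 : (4 * M + 1 : ℝ) ≤ 8 ^ M := by exact_mod_cast h6
  calc (2 : ℝ) ^ (4 * M + 1) * (4 * M + 1) ≤ 32 ^ M * 8 ^ M :=
        mul_le_mul h7 h8 (by positivity) (by positivity)
    _ = 256 ^ M := by rw [← mul_pow]; norm_num

open Classical in
theorem theoremD {c₀ c₁ : ℕ} (hc₀ : 1 ≤ c₀) (hc₁ : 1 ≤ c₁) (hT2 : Outcomes)
    (hT3 : StuckCard c₀) (hT4 : ParLemma c₁) (hT5 : ImpLemma) : TheoremD := by
  intro ε₀ hε₀
  set ε : ℝ := min ε₀ 1 / 4 with hεdef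
  have hε : 0 < ε := by
    have : 0 < min ε₀ 1 := lt_min hε₀ one_pos
    positivity
  have hε4 : ε ≤ 1 / 4 := by
    have : min ε₀ 1 ≤ 1 := min_le_right _ _
    rw [hεdef]; linarith
  have hεε : 4 * ε ≤ ε₀ := by
    have : min ε₀ 1 ≤ ε₀ := min_le_left _ _
    rw [hεdef]; linarith
  obtain ⟨y₀, N, R, M₀, hy₀, hR, han⟩ := analysis c₀ c₁ hc₀ hc₁
    (fun L N => if h : 1 ≤ L then Classical.choose (hT3 L N h) else 0) ε hε (by linarith)
  obtain ⟨M₁, hM₁⟩ := const_pow (c := y₀ / 2) (by positivity)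
  refine ⟨y₀ / 2, 1 / R, by positivity, by positivity, max (max M₀ M₁) 1, ?_⟩
  intro α _ s hW hM
  set M := s.2.length with hMdef
  have hM0 : M₀ ≤ M := le_trans (le_trans (le_max_left _ _) (le_max_left _ _)) hM
  have hM1 : M₁ ≤ M := le_trans (le_trans (le_max_right _ _) (le_max_left _ _)) hM
  have hMpos : 1 ≤ M := le_trans (le_max_right _ _) hM
  obtain ⟨Lf, F, hF, hL, hFM, A1, A2, A3, A4, A5⟩ := han M hM0
  have hrec := fun (ty : α → Bool) (T : α) => recursion hT2 hT3 hT4 hT5 ty T ε M N R Lf F hF hL A1 A2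
    A3 A4 (by
      intro m hm hm'
      have := A5 m hm hm'
      simpa [hL m] using this) hR hε M s [] rfl le_rfl hW
  have hsub : badShapes ε₀ (1 / R) s ⊆
      (Finset.univ : Finset ((α → Bool) × α)).biUnion fun x =>
        if imp x.1 s * R ≤ 2 * M - M then (Sh x.1 x.2 [] s).filter (Bd x.1 (ε * M) ε s) else ∅ := by
    intro τ hτ
    simp only [badShapes, Finset.mem_filter, Finset.mem_univ, true_and] at hτ
    obtain ⟨⟨hinv, ⟨T, hT, hTu⟩, hMk⟩, hbad⟩ := hτ
    unfold GoodD at hbad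
    push Not at hbad
    obtain ⟨ty, hopp, himp, hno⟩ := hbad
    rw [Finset.mem_biUnion]
    refine ⟨(ty, T), Finset.mem_univ _, ?_⟩
    have h1 : imp ty s * R ≤ 2 * M - M := by
      have h2 : ((imp ty s * R : ℕ) : ℝ) ≤ (M : ℝ) := by
        push_cast
        have hRR : (0 : ℝ) < R := by exact_mod_cast hR
        calc (imp ty s : ℝ) * R ≤ (1 / R * (M : ℝ)) * R :=
              mul_le_mul_of_nonneg_right himp hRR.le
          _ = M := by field_simp
      have h3 : imp ty s * R ≤ M := by exact_mod_cast h2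
      omega
    rw [if_pos h1, Finset.mem_filter]
    refine ⟨?_, ?_⟩
    · simp only [Sh, Finset.mem_filter, Finset.mem_univ, true_and]
      refine ⟨⟨hinv, fun x => ⟨fun h => hTu x h, fun h => by rw [h]; exact hT⟩, ?_⟩, by simp, hMk⟩
      intro x hx
      exact hopp x (fun h => hx (hTu x h))
    · rintro ⟨n, g, k, s', hrun, hl, hn, hk⟩
      have hlen := hrun.length
      rw [← hMdef] at hlen
      have h5 : (g : ℝ) ≤ M + k := by
        have : g ≤ M + k := by omega
        exact_mod_cast this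
      have h6 : (g : ℝ) * (1 - ε) ≤ M := by nlinarith
      have h7 : (g : ℝ) ≤ (1 + 2 * ε) * M := by
        have hg0 : (0 : ℝ) ≤ g := Nat.cast_nonneg _
        have hM00 : (0 : ℝ) ≤ M := Nat.cast_nonneg _
        have h8 : (1 : ℝ) ≤ (1 + 2 * ε) * (1 - ε) := by nlinarith
        calc (g : ℝ) = g * 1 := by ring
          _ ≤ g * ((1 + 2 * ε) * (1 - ε)) := mul_le_mul_of_nonneg_left h8 hg0
          _ = (1 + 2 * ε) * (g * (1 - ε)) := by ring
          _ ≤ (1 + 2 * ε) * M := mul_le_mul_of_nonneg_left h6 (by linarith)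
      have hM00 : (0 : ℝ) ≤ M := Nat.cast_nonneg _
      have h9 := hno n g k s' hrun (by
        refine hl.trans ?_
        exact mul_le_mul_of_nonneg_right (by linarith) hM00) (by
        refine hn.trans ?_
        calc (1 + ε) * g ≤ (1 + ε) * ((1 + 2 * ε) * M) :=
              mul_le_mul_of_nonneg_left h7 (by linarith)
          _ = ((1 + ε) * (1 + 2 * ε)) * M := by ring
          _ ≤ (1 + ε₀) * M := by
              apply mul_le_mul_of_nonneg_right _ hM00
              nlinarith)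
      apply absurd h9
      push Not
      refine hk.trans ?_
      calc ε * g ≤ ε * ((1 + 2 * ε) * M) := mul_le_mul_of_nonneg_left h7 hε.le
        _ = (ε * (1 + 2 * ε)) * M := by ring
        _ ≤ ε₀ * M := by
            apply mul_le_mul_of_nonneg_right _ hM00
            nlinarith
  have hcard : ((badShapes ε₀ (1 / R) s).card : ℝ) ≤
      ∑ x : (α → Bool) × α, (M.factorial : ℝ) * F M := by
    refine le_trans (by exact_mod_cast (Finset.card_le_card hsub).trans Finset.card_biUnion_le :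
      ((badShapes ε₀ (1 / R) s).card : ℝ) ≤ ∑ x : (α → Bool) × α,
        (((if imp x.1 s * R ≤ 2 * M - M then
          (Sh x.1 x.2 [] s).filter (Bd x.1 (ε * M) ε s) else ∅ : Finset (α → α)).card : ℕ) : ℝ)) ?_
    apply Finset.sum_le_sum
    intro x _
    split_ifs with h
    · exact hrec x.1 x.2 h
    · simpa using mul_nonneg (Nat.cast_nonneg _) (hF M)
  refine hcard.trans ?_
  rw [Finset.sum_const, nsmul_eq_mul, Finset.card_univ, Fintype.card_prod, Fintype.card_fun,
    Fintype.card_bool]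
  have hα := card_le_labels hW
  rw [← hMdef] at hα
  have h10 : (((2 ^ Fintype.card α * Fintype.card α : ℕ)) : ℝ) ≤
      (2 : ℝ) ^ (4 * M + 1) * (4 * M + 1) := by
    push_cast
    apply mul_le_mul
    · exact pow_le_pow_right₀ (by norm_num) hα
    · exact_mod_cast hα
    · positivity
    · positivity
  have h11 := hM₁ M hM1
  have hfac : (0 : ℝ) ≤ (M.factorial : ℝ) := Nat.cast_nonneg _
  have hMr : (0 : ℝ) < M := by exact_mod_cast hMpos
  calc (((2 ^ Fintype.card α * Fintype.card α : ℕ)) : ℝ) * ((M.factorial : ℝ) * F M)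
      ≤ (M : ℝ) ^ (y₀ / 2 * M) * ((M.factorial : ℝ) * (M : ℝ) ^ (-(y₀ * M))) := by
        apply mul_le_mul (h10.trans h11) (mul_le_mul_of_nonneg_left hFM hfac)
          (mul_nonneg hfac (hF M)) (by positivity)
    _ = (M.factorial : ℝ) * ((M : ℝ) ^ (y₀ / 2 * M) * (M : ℝ) ^ (-(y₀ * M))) := by ring
    _ = (M.factorial : ℝ) * (M : ℝ) ^ (-(y₀ / 2 * M)) := by
        rw [← Real.rpow_add hMr]
        congr 2
        ring

end BP2
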