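import Pool.Agent.BP2.D.Decomp

/-!
# MP_475aca_co, part (D): the numerical estimates for the stuck pairings
-/

set_option autoImplicit false

namespace BP2.Cnt

open Nat

/-- about `m ^ (1/4)` -/
def qf (m : ℕ) : ℕ := Nat.sqrt (Nat.sqrt m)

/-- the threshold for the products of distances -/
def Th (m L : ℕ) : ℕ := m ^ (L - 1) * qf m

/-- polylogarithmic against `m ^ (1/4)` -/
lemma polylog_lt (C L : ℕ) : ∃ m₀ : ℕ, 1 ≤ m₀ ∧ ∀ m, m₀ ≤ m →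
    C * (Nat.log 2 m + 1) ^ L < qf m := by
  have h := tendsto_pow_const_div_const_pow_of_one_lt (4 * L) (r := (2 : ℝ)) (by norm_num)
  have hpos : (0 : ℝ) < 1 / (2 * ((C : ℝ) + 1) ^ 4) := by positivity
  have h1 := h.eventually (gt_mem_nhds hpos)
  rw [Filter.eventually_atTop] at h1
  obtain ⟨n₀, hn₀⟩ := h1
  refine ⟨2 ^ n₀, Nat.one_le_two_pow, fun m hm => ?_⟩
  have hm0 : m ≠ 0 := by
    have : 0 < 2 ^ n₀ := by positivity
    omega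
  have hlog : n₀ ≤ Nat.log 2 m := Nat.le_log_of_pow_le (by norm_num) hm
  set ℓ := Nat.log 2 m with hℓ
  have h2 := hn₀ (ℓ + 1) (by omega)
  have h3 : (((C + 1) * (ℓ + 1) ^ L) ^ 4 : ℕ) ≤ 2 ^ ℓ := by
    have h4 : (((C : ℝ) + 1) ^ 4) * ((ℓ : ℝ) + 1) ^ (4 * L) ≤ 2 ^ ℓ := by
      rw [div_lt_div_iff₀ (by positivity) (by positivity), one_mul] at h2
      push_cast at h2
      rw [pow_succ (2 : ℝ) ℓ] at h2
      nlinarith
    have h5 : ((((C + 1) * (ℓ + 1) ^ L) ^ 4 : ℕ) : ℝ) ≤ ((2 ^ ℓ : ℕ) : ℝ) := by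
      push_cast
      calc (((C : ℝ) + 1) * ((ℓ : ℝ) + 1) ^ L) ^ 4
          = (((C : ℝ) + 1) ^ 4) * ((ℓ : ℝ) + 1) ^ (4 * L) := by
            rw [mul_pow, ← pow_mul]
            ring_nf
        _ ≤ _ := h4
    exact_mod_cast h5
  have h6 : 2 ^ ℓ ≤ m := Nat.pow_log_le_self 2 hm0
  unfold qf
  rw [← Nat.succ_le_iff, Nat.le_sqrt, Nat.le_sqrt]
  have h7 : (C * (ℓ + 1) ^ L).succ ≤ (C + 1) * (ℓ + 1) ^ L := by
    have : 1 ≤ (ℓ + 1) ^ L := Nat.one_le_pow _ _ (by omega)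
    rw [Nat.succ_eq_add_one]
    nlinarith
  calc (C * (ℓ + 1) ^ L).succ * (C * (ℓ + 1) ^ L).succ *
        ((C * (ℓ + 1) ^ L).succ * (C * (ℓ + 1) ^ L).succ)
      = ((C * (ℓ + 1) ^ L).succ) ^ 4 := by ring
    _ ≤ ((C + 1) * (ℓ + 1) ^ L) ^ 4 := Nat.pow_le_pow_left h7 4
    _ ≤ 2 ^ ℓ := h3
    _ ≤ m := h6

lemma qf_sq (m : ℕ) : (qf m : ℝ) ^ 2 ≤ Real.sqrt m := by
  apply Real.le_sqrt_of_sq_le
  have h1 : qf m ^ 2 ≤ Nat.sqrt m := Nat.sqrt_le' _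
  have h2 : (Nat.sqrt m) ^ 2 ≤ m := Nat.sqrt_le' _
  have h3 : (qf m ^ 2) ^ 2 ≤ m := (Nat.pow_le_pow_left h1 2).trans h2
  exact_mod_cast h3

/-- the pattern threshold -/
lemma pattern_num (L N K : ℕ) (hL : 1 ≤ L) : ∃ m₀ : ℕ, ∀ m, m₀ ≤ m → ∀ S : ℕ,
    m ≤ 8 * (L + 1) * S →
    (L + 1)! * K * ((Nat.log 2 m + 1) ^ L * (4 * m) ^ L) * N ^ (2 ^ L) < S * Th m L := by
  obtain ⟨m₀, h0, h⟩ := polylog_lt (8 * (L + 1) * ((L + 1)! * K * 4 ^ L * N ^ (2 ^ L))) L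
  refine ⟨m₀, fun m hm S hS => ?_⟩
  have h1 := h m hm
  have hm0 : 0 < m := by omega
  have h2 : 8 * (L + 1) * ((L + 1)! * K * ((Nat.log 2 m + 1) ^ L * (4 * m) ^ L) * N ^ (2 ^ L)) <
      8 * (L + 1) * (S * Th m L) := by
    calc 8 * (L + 1) * ((L + 1)! * K * ((Nat.log 2 m + 1) ^ L * (4 * m) ^ L) * N ^ (2 ^ L))
        = m ^ L * (8 * (L + 1) * ((L + 1)! * K * 4 ^ L * N ^ (2 ^ L)) *
            (Nat.log 2 m + 1) ^ L) := by
          rw [mul_pow]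
          ring
      _ < m ^ L * qf m := Nat.mul_lt_mul_of_pos_left h1 (by positivity)
      _ = m * Th m L := by
          unfold Th
          obtain ⟨l, rfl⟩ : ∃ l, L = l + 1 := ⟨L - 1, by omega⟩
          rw [Nat.add_sub_cancel, pow_succ]
          ring
      _ ≤ 8 * (L + 1) * S * Th m L := Nat.mul_le_mul_right _ hS
      _ = 8 * (L + 1) * (S * Th m L) := by ring
  exact lt_of_mul_lt_mul_left h2 (Nat.zero_le _)

/-- the factor lost per bad structure is at most `m ^ (-1/2)` -/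
lemma betaC_le (L : ℕ) (hL : 1 ≤ L) : ∃ m₀ : ℕ, 1 ≤ m₀ ∧ ∀ m, m₀ ≤ m →
    betaC m (Th m L) L ≤ (m : ℝ) ^ (-(1 / 2 : ℝ)) := by
  obtain ⟨m₀, h0, h⟩ := polylog_lt (3 ^ L * ((L + 1)! + L)) L
  refine ⟨m₀, h0, fun m hm => ?_⟩
  have h1 := h m hm
  have hm0 : (0 : ℝ) < m := by exact_mod_cast (by omega : 0 < m)
  have hq1 : 1 ≤ qf m := by
    have := Nat.lt_of_le_of_lt (Nat.zero_le _) h1
    omega
  have he : Real.exp 1 ≤ 3 := Real.exp_one_lt_three.le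
  set ℓ := Nat.log 2 m + 1 with hℓ
  have hℓ1 : 1 ≤ ℓ ^ L := Nat.one_le_pow _ _ (by omega)
  have h2 : betaC m (Th m L) L = Real.exp 1 ^ L * ((((L + 1)! * (qf m * ℓ ^ L) + L : ℕ) : ℝ) / m) := by
    unfold betaC Th
    rw [← hℓ]
    congr 1
    obtain ⟨l, rfl⟩ : ∃ l, L = l + 1 := ⟨L - 1, by omega⟩
    rw [Nat.add_sub_cancel]
    push_cast
    rw [pow_succ (m : ℝ)]
    field_simp
  rw [h2]
  have h3 : (((L + 1)! * (qf m * ℓ ^ L) + L : ℕ) : ℝ) ≤ (((L + 1)! + L) * (qf m * ℓ ^ L) : ℕ) := by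
    have : (L + 1)! * (qf m * ℓ ^ L) + L ≤ ((L + 1)! + L) * (qf m * ℓ ^ L) := by
      have : 1 ≤ qf m * ℓ ^ L := Nat.mul_pos hq1 hℓ1
      nlinarith
    exact_mod_cast this
  have h4 : ((3 ^ L * ((L + 1)! + L) * ℓ ^ L : ℕ) : ℝ) ≤ qf m := by exact_mod_cast h1.le
  calc Real.exp 1 ^ L * ((((L + 1)! * (qf m * ℓ ^ L) + L : ℕ) : ℝ) / m)
      ≤ 3 ^ L * (((((L + 1)! + L) * (qf m * ℓ ^ L) : ℕ) : ℝ) / m) := by
        apply mul_le_mul
        · exact pow_le_pow_left₀ (Real.exp_pos 1).le he L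
        · gcongr
        · positivity
        · positivity
    _ = ((3 ^ L * ((L + 1)! + L) * ℓ ^ L : ℕ) : ℝ) * qf m / m := by
        push_cast
        ring
    _ ≤ (qf m : ℝ) * qf m / m := by gcongr
    _ = (qf m : ℝ) ^ 2 / m := by ring
    _ ≤ Real.sqrt m / m := by
        gcongr
        exact qf_sq m
    _ = (m : ℝ) ^ (-(1 / 2 : ℝ)) := by
        rw [Real.sqrt_eq_rpow, Real.rpow_neg hm0.le]
        rw [div_eq_iff hm0.ne']
        rw [← Real.rpow_neg hm0.le]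
        nth_rewrite 3 [← Real.rpow_one (m : ℝ)]
        rw [← Real.rpow_add hm0]
        norm_num

/-- the final estimate -/
lemma final_num (L : ℕ) (hL : 1 ≤ L) : ∃ m₀ : ℕ, 1 ≤ m₀ ∧ ∀ m, m₀ ≤ m → ∀ k : ℕ,
    m ≤ 4 * (L + 1) * k →
    2 ^ m * (m ! : ℝ) * betaC m (Th m L) L ^ k ≤
      (m ! : ℝ) * (m : ℝ) ^ (-((m : ℝ) / ((16 : ℕ) * (L + 1)))) := by
  obtain ⟨m₀, h0, h⟩ := betaC_le L hL
  obtain ⟨n, hn⟩ : ∃ n, n = 16 * (L + 1) := ⟨_, rfl⟩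
  have hp : 0 < 2 ^ n := Nat.two_pow_pos n
  refine ⟨m₀ + 2 ^ n, by omega, fun m hm k hk => ?_⟩
  have h1 := h m (by omega)
  have hm2 : 2 ^ n ≤ m := by omega
  have hm1 : 1 ≤ m := by omega
  have hm0 : (0 : ℝ) < m := by exact_mod_cast (by omega : 0 < m)
  have hm1' : (1 : ℝ) ≤ m := by exact_mod_cast hm1
  have hβ0 : 0 ≤ betaC m (Th m L) L := by
    unfold betaC
    positivity
  have hLp : (0 : ℝ) < L + 1 := by positivity
  have h2 : betaC m (Th m L) L ^ k ≤ (m : ℝ) ^ (-((m : ℝ) / (8 * (L + 1)))) := by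
    calc betaC m (Th m L) L ^ k ≤ ((m : ℝ) ^ (-(1 / 2 : ℝ))) ^ k := pow_le_pow_left₀ hβ0 h1 k
      _ = (m : ℝ) ^ (-(1 / 2 : ℝ) * k) := by
          rw [← Real.rpow_natCast, ← Real.rpow_mul hm0.le]
      _ ≤ _ := by
          apply Real.rpow_le_rpow_of_exponent_le hm1'
          have hk' : (m : ℝ) ≤ 4 * (L + 1) * k := by exact_mod_cast hk
          have : (m : ℝ) / (8 * (L + 1)) ≤ k / 2 := by
            rw [div_le_div_iff₀ (by positivity) (by norm_num)]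
            nlinarith
          linarith
  have h3 : (2 : ℝ) ^ m ≤ (m : ℝ) ^ ((m : ℝ) / (16 * (L + 1))) := by
    have h4 : (2 : ℝ) ^ n ≤ m := by exact_mod_cast hm2
    have hn' : (n : ℝ) = 16 * ((L : ℝ) + 1) := by rw [hn]; push_cast; ring
    calc (2 : ℝ) ^ m = ((2 : ℝ) ^ n) ^ ((m : ℝ) / (16 * (L + 1))) := by
          rw [← Real.rpow_natCast 2 n, ← Real.rpow_natCast 2 m, ← Real.rpow_mul (by norm_num),
            hn']
          congr 1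
          field_simp
      _ ≤ (m : ℝ) ^ ((m : ℝ) / (16 * (L + 1))) := by
          apply Real.rpow_le_rpow (by positivity) h4 (by positivity)
  calc 2 ^ m * (m ! : ℝ) * betaC m (Th m L) L ^ k
      = (m ! : ℝ) * (2 ^ m * betaC m (Th m L) L ^ k) := by ring
    _ ≤ (m ! : ℝ) * ((m : ℝ) ^ ((m : ℝ) / (16 * (L + 1))) *
        (m : ℝ) ^ (-((m : ℝ) / (8 * (L + 1))))) := by
        gcongr
    _ = (m ! : ℝ) * (m : ℝ) ^ (-((m : ℝ) / ((16 : ℕ) * (L + 1)))) := by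
        rw [← Real.rpow_add hm0]
        congr 2
        push_cast
        field_simp
        ring

end BP2.Cnt
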