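import Pool.Agent.BP2.D.Defs

set_option autoImplicit false

/-!
# MP_475aca_co, part (D): one cycle of the parallel lemma

The letters which are still to be visited, concatenated in the order of their arrangement, are a
sublist of the list of the letters.
-/

namespace BP2

open List Lt

variable {α : Type*}

/-- the number of gains if the letters `ws` are visited in this order -/
def gn (τ : α → α) [DecidableEq α] : α → List (Lt α) → ℕ
  | _, [] => 0
  | t, x :: ws => (if τ t = ent x then 1 else 0) + gn τ (lv x) ws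

/-- the last top label -/
def tp : α → List (Lt α) → α
  | t, [] => t
  | _, x :: ws => tp (lv x) ws

lemma gn_append (τ : α → α) [DecidableEq α] (t : α) (v w : List (Lt α)) :
    gn τ t (v ++ w) = gn τ t v + gn τ (tp t v) w := by
  induction v generalizing t with
  | nil => simp [gn, tp]
  | cons a v ih =>
    simp only [List.cons_append, gn, tp]
    rw [ih, add_assoc]

lemma tp_append (t : α) (v w : List (Lt α)) : tp t (v ++ w) = tp (tp t v) w := by
  induction v generalizing t with
  | nil => simp [tp]
  | cons a v ih =>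
    simp only [List.cons_append, tp]
    rw [ih]

/-- splitting at a marked letter -/
lemma split_at {xs P Q : List (Lt α)} {x : Lt α} (h : P ++ x :: Q <+ xs) :
    ∃ A B, xs = A ++ x :: B ∧ P <+ A ∧ Q <+ B := by
  obtain ⟨A, B, rfl, hA, hB⟩ := List.append_sublist_iff.1 h
  obtain ⟨B₁, B₂, rfl, hg, hQ⟩ := List.cons_sublist_iff.1 hB
  obtain ⟨C, D, rfl⟩ := List.append_of_mem hg
  exact ⟨A ++ C, D ++ B₂, by simp, hA.trans (List.sublist_append_left _ _),
    hQ.trans (List.sublist_append_right _ _)⟩

/-- visit of a gap -/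
lemma visit_gap (τ : α → α) (W : Lt α → Bool) [DecidableEq α] {t : α} {xs P Q : List (Lt α)}
    {x : Lt α} (hx : isMk x = false) (h : P ++ x :: Q <+ xs) :
    ∃ xs', Run τ W 1 (gn τ t [x]) (W x).toNat (t, xs) (tp t [x], xs') ∧ rs P ++ Q <+ xs' := by
  obtain ⟨A, B, rfl, hA, hB⟩ := split_at h
  rcases x with ⟨u, l⟩ | ⟨a, u, l, b⟩
  · by_cases ht : τ t = l
    · refine ⟨rs A ++ B, ?_, (rs_sublist hA).append hB⟩
      simpa [gn, tp, ent, lv, ht] using
        Run.gapG (Run.refl (τ := τ) (W := W) (t, A ++ gap u l :: B)) ht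
    · refine ⟨rs A ++ gap t l :: B, ?_,
        (rs_sublist hA).append (hB.trans (List.sublist_cons_self _ _))⟩
      simpa [gn, tp, ent, lv, ht] using
        Run.gapW (Run.refl (τ := τ) (W := W) (t, A ++ gap u l :: B)) ht
  · exact absurd hx (by simp [isMk])

/-- visit of a marker -/
lemma visit_mk (τ : α → α) (W : Lt α → Bool) [DecidableEq α] {t : α} {xs P Q : List (Lt α)}
    {x : Lt α} (hx : isMk x = true) (h : P ++ x :: Q <+ xs) :
    ∃ xs', Run τ W 1 (gn τ t [x]) (W x).toNat (t, xs) (tp t [x], xs') ∧ P ++ Q <+ xs' := by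
  obtain ⟨A, B, rfl, hA, hB⟩ := split_at h
  rcases x with ⟨u, l⟩ | ⟨a, u, l, b⟩
  · exact absurd hx (by simp [isMk])
  · by_cases ht : τ t = u
    · refine ⟨A ++ B, ?_, hA.append hB⟩
      simpa [gn, tp, ent, lv, ht] using
        Run.mkG (Run.refl (τ := τ) (W := W) (t, A ++ mk a u l b :: B)) ht
    · refine ⟨gap u t :: (A ++ B), ?_,
        (hA.append hB).trans (List.sublist_cons_self _ _)⟩
      simpa [gn, tp, ent, lv, ht] using
        Run.mkW (Run.refl (τ := τ) (W := W) (t, A ++ mk a u l b :: B)) ht

/-- a flip at any letter: a marker is dissolved first -/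
lemma cut_at (τ : α → α) (W : Lt α → Bool) [DecidableEq α] {t : α} {xs P Q : List (Lt α)}
    {x : Lt α} (h : P ++ x :: Q <+ xs) :
    ∃ n g k t' xs', n ≤ 2 ∧ k ≤ 2 ∧ Run τ W n g k (t, xs) (t', xs') ∧ rs P ++ Q <+ xs' := by
  have hb : ∀ x : Bool, x.toNat ≤ 1 := by decide
  rcases hx : isMk x with _ | _
  · obtain ⟨xs', r, s⟩ := visit_gap τ W (t := t) hx h
    exact ⟨_, _, _, _, xs', by omega, (hb _).trans (by omega), r, s⟩
  · obtain ⟨A, B, rfl, hA, hB⟩ := split_at h
    rcases x with ⟨u, l⟩ | ⟨a, u, l, b⟩
    · exact absurd hx (by simp [isMk])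
    · have r0 := Run.dis (Run.refl (τ := τ) (W := W) (t, A ++ mk a u l b :: B))
      have h1 : P ++ gap a u :: Q <+ A ++ gap a u :: gap l b :: B :=
        hA.append ((hB.trans (List.sublist_cons_self _ _)).cons_cons _)
      obtain ⟨xs', r, s⟩ := visit_gap τ W (t := t) (x := gap a u) rfl h1
      refine ⟨_, _, _, _, xs', ?_, ?_, r0.trans r, s⟩
      · omega
      · have := hb (W (gap a u))
        omega

/-! ### Dyck words with neutral letters -/

/-- `node a u b v` is the word `a u b v`, `mark c v` the word `c v` -/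
inductive Dy (ι : Type*)
  | nil : Dy ι
  | node (a : ι) (u : Dy ι) (b : ι) (v : Dy ι) : Dy ι
  | mark (c : ι) (v : Dy ι) : Dy ι

namespace Dy

variable {ι : Type*}

/-- the tokens in their order -/
def word : Dy ι → List ι
  | nil => []
  | node a u b v => a :: (word u ++ b :: word v)
  | mark c v => c :: word v

/-- the arrangement of the zones `Z` of gaps -/
def cont (Z : ι → List (Lt α)) : Dy ι → List (Lt α)
  | nil => []
  | node a u b v => (Z a).reverse ++ (Z b ++ (cont Z u ++ cont Z v))
  | mark _ v => cont Z v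

/-- the arrangement of the zones of markers -/
def mcont (s : ι → Bool) (Z : ι → List (Lt α)) : Dy ι → List (Lt α)
  | nil => []
  | node _ u _ v => mcont s Z u ++ mcont s Z v
  | mark c v => (if s c = true then Z c else (Z c).reverse) ++ mcont s Z v

/-- `κ` = kinds (`true` for markers), `s` = signs: the opening gap tokens have sign `false`, the
closing ones `true` -/
def ok (κ s : ι → Bool) : Dy ι → Prop
  | nil => True
  | node a u b v => κ a = false ∧ κ b = false ∧ s a = false ∧ s b = true ∧ ok κ s u ∧ ok κ s v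
  | mark c v => κ c = true ∧ ok κ s v

end Dy

open Dy

lemma single_countP (W : Lt α → Bool) (x : Lt α) : [x].countP W = (W x).toNat := by
  cases hw : W x <;> simp [hw]

/-- One cycle: the first letters of all zones are visited, and the arrangement is reproduced. -/
theorem cycle {ι : Type*} (τ : α → α) (W : Lt α → Bool) [DecidableEq α] (κ s : ι → Bool)
    (H : ι → Lt α) (hH : ∀ j, isMk (H j) = κ j) (Z : ι → List (Lt α)) (D : Dy ι) (hD : ok κ s D) :
    ∀ (t : α) (xs P Q₁ Q₂ : List (Lt α)),
      P ++ (cont (fun j => H j :: Z j) D ++ (Q₁ ++ (mcont s (fun j => H j :: Z j) D ++ Q₂))) <+ xs →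
      ∃ xs', Run τ W (word D).length (gn τ t ((word D).map H)) (((word D).map H).countP W)
        (t, xs) (tp t ((word D).map H), xs') ∧
        P ++ (cont Z D ++ (Q₁ ++ (mcont s Z D ++ Q₂))) <+ xs' := by
  induction D with
  | nil =>
    intro t xs P Q₁ Q₂ h
    exact ⟨xs, Run.refl _, h⟩
  | mark c v ih =>
    intro t xs P Q₁ Q₂ h
    obtain ⟨hc, hv⟩ := hD
    -- the place of the letter `H c`
    obtain ⟨X, Y, hXY, hXY'⟩ : ∃ X Y : List (Lt α),
        (if s c = true then H c :: Z c else (H c :: Z c).reverse) = X ++ H c :: Y ∧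
        (if s c = true then Z c else (Z c).reverse) = X ++ Y := by
      by_cases hs : s c = true
      · exact ⟨[], Z c, by rw [if_pos hs]; rfl, by rw [if_pos hs]; rfl⟩
      · exact ⟨(Z c).reverse, [], by rw [if_neg hs]; simp, by rw [if_neg hs]; simp⟩
    have h0 : (P ++ (cont (fun j => H j :: Z j) v ++ (Q₁ ++ X))) ++ H c ::
        (Y ++ (mcont s (fun j => H j :: Z j) v ++ Q₂)) <+ xs := by
      have h' := h
      simp only [cont, mcont] at h'
      rw [hXY] at h'
      simpa using h'
    obtain ⟨xs1, r1, s1⟩ := visit_mk τ W (t := t) (by rw [hH, hc]) h0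
    have h1 : P ++ (cont (fun j => H j :: Z j) v ++ ((Q₁ ++ (X ++ Y)) ++
        (mcont s (fun j => H j :: Z j) v ++ Q₂))) <+ xs1 := by
      simpa using s1
    obtain ⟨xs2, r2, s2⟩ := ih hv (tp t [H c]) xs1 _ _ _ h1
    refine ⟨xs2, ?_, ?_⟩
    · have r := r1.trans r2
      have e0 : (word (mark c v)).map H = [H c] ++ (word v).map H := by simp [word]
      have e1 : (word (mark c v)).length = 1 + (word v).length := by
        simp only [word, List.length_cons]
        omega
      rw [e0, e1, gn_append, tp_append, List.countP_append, single_countP]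
      exact r
    · simp only [cont, mcont]
      rw [hXY']
      simpa using s2
  | node a u b v ihu ihv =>
    intro t xs P Q₁ Q₂ h
    obtain ⟨ha, hb, -, -, hu, hv⟩ := hD
    have h0 : (P ++ (Z a).reverse) ++ H a :: ((H b :: Z b) ++
        (cont (fun j => H j :: Z j) u ++ (cont (fun j => H j :: Z j) v ++ (Q₁ ++
          (mcont s (fun j => H j :: Z j) u ++ (mcont s (fun j => H j :: Z j) v ++ Q₂)))))) <+ xs := by
      simpa [cont, mcont] using h
    obtain ⟨xs1, r1, s1⟩ := visit_gap τ W (t := t) (by rw [hH, ha]) h0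
    have h1 : (rs (P ++ (Z a).reverse) ++ (H b :: Z b)) ++
        (cont (fun j => H j :: Z j) u ++ ((cont (fun j => H j :: Z j) v ++ Q₁) ++
          (mcont s (fun j => H j :: Z j) u ++ (mcont s (fun j => H j :: Z j) v ++ Q₂)))) <+ xs1 := by
      simpa using s1
    obtain ⟨xs2, r2, s2⟩ := ihu hu (tp t [H a]) xs1 _ _ _ h1
    have h2 : rs (P ++ (Z a).reverse) ++ H b :: (Z b ++ (cont Z u ++
        ((cont (fun j => H j :: Z j) v ++ Q₁) ++
          (mcont s Z u ++ (mcont s (fun j => H j :: Z j) v ++ Q₂))))) <+ xs2 := by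
      simpa using s2
    obtain ⟨xs3, r3, s3⟩ := visit_gap τ W (t := tp (tp t [H a]) ((word u).map H))
      (by rw [hH, hb]) h2
    have h3 : (P ++ ((Z a).reverse ++ (Z b ++ cont Z u))) ++
        (cont (fun j => H j :: Z j) v ++ ((Q₁ ++ mcont s Z u) ++
          (mcont s (fun j => H j :: Z j) v ++ Q₂))) <+ xs3 := by
      rw [rs_rs] at s3
      simpa using s3
    obtain ⟨xs4, r4, s4⟩ := ihv hv (tp (tp (tp t [H a]) ((word u).map H)) [H b]) xs3 _ _ _ h3
    refine ⟨xs4, ?_, ?_⟩
    · have r := ((r1.trans r2).trans r3).trans r4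
      have e0 : (word (node a u b v)).map H =
          [H a] ++ (word u).map H ++ [H b] ++ (word v).map H := by
        simp [word]
      rw [e0]
      have e1 : (word (node a u b v)).length = 1 + (word u).length + 1 + (word v).length := by
        simp only [word, List.length_cons, List.length_append]
        omega
      have e2 : gn τ t ([H a] ++ (word u).map H ++ [H b] ++ (word v).map H) =
          gn τ t [H a] + gn τ (tp t [H a]) ((word u).map H) +
            gn τ (tp (tp t [H a]) ((word u).map H)) [H b] +
            gn τ (tp (tp (tp t [H a]) ((word u).map H)) [H b]) ((word v).map H) := by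
        rw [gn_append, gn_append, gn_append, tp_append, tp_append, tp_append]
      have e3 : ([H a] ++ (word u).map H ++ [H b] ++ (word v).map H).countP W =
          (W (H a)).toNat + ((word u).map H).countP W + (W (H b)).toNat +
            ((word v).map H).countP W := by
        rw [List.countP_append, List.countP_append, List.countP_append, single_countP,
          single_countP]
      have e4 : tp t ([H a] ++ (word u).map H ++ [H b] ++ (word v).map H) =
          tp (tp (tp (tp t [H a]) ((word u).map H)) [H b]) ((word v).map H) := by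
        rw [tp_append, tp_append, tp_append]
      rw [e1, e2, e3, e4]
      exact r
    · simpa [cont, mcont] using s4

end BP2
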