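import Pool.Agent.BP2.D.ParA

set_option autoImplicit false

/-!
# MP_475aca_co, part (D): many cycles, Dyck words
-/

namespace BP2

open List Dy Lt

variable {α : Type*}

/-- `n` gaps of the zone `x` -/
def Zn (G : ℕ → Lt α) (T n x : ℕ) : List (Lt α) := (List.range n).map fun c => G (x + c * T)

lemma Zn_succ (G : ℕ → Lt α) (T n x : ℕ) :
    Zn G T (n + 1) x = G x :: Zn (fun y => G (y + T)) T n x := by
  unfold Zn
  rw [List.range_succ_eq_map, List.map_cons, List.map_map]
  congr 1
  · simp
  · apply List.map_congr_left
    intro c _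
    simp only [Function.comp_apply]
    congr 1
    rw [Nat.succ_mul]
    omega

theorem cycles (τ : α → α) (W : Lt α → Bool) [DecidableEq α] (κ s : ℕ → Bool) (D : Dy ℕ)
    (hD : ok κ s D) (r T : ℕ) (hκ : ∀ x, κ (x + T) = κ x)
    (hw : word D = List.range' r T) (n : ℕ) : ∀ (G : ℕ → Lt α) (_ : ∀ x, isMk (G x) = κ x)
      (t : α) (xs P Q₁ Q₂ : List (Lt α)),
      P ++ (cont (Zn G T n) D ++ (Q₁ ++ (mcont s (Zn G T n) D ++ Q₂))) <+ xs →
      ∃ xs', Run τ W (n * T) (gn τ t ((List.range' r (n * T)).map G))
        (((List.range' r (n * T)).map G).countP W)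
        (t, xs) (tp t ((List.range' r (n * T)).map G), xs') := by
  induction n with
  | zero =>
    intro G _ t xs P Q₁ Q₂ _
    refine ⟨xs, ?_⟩
    simpa [gn, tp] using Run.refl (τ := τ) (W := W) (t, xs)
  | succ n ih =>
    intro G hG t xs P Q₁ Q₂ h
    have e : (Zn G T (n + 1)) = fun j => G j :: Zn (fun y => G (y + T)) T n j := by
      funext j
      exact Zn_succ G T n j
    rw [e] at h
    obtain ⟨xs1, r1, s1⟩ := cycle τ W κ s G hG (Zn (fun y => G (y + T)) T n) D hD t xs P Q₁ Q₂ h
    obtain ⟨xs2, r2⟩ := ih (fun y => G (y + T)) (fun x => by rw [hG, hκ])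
      (tp t ((word D).map G)) xs1 P Q₁ Q₂ s1
    refine ⟨xs2, ?_⟩
    have e1 : List.range' r ((n + 1) * T) = List.range' r T ++ List.range' (r + T) (n * T) := by
      rw [List.range'_append_1]
      congr 1
      ring
    have e2 : (List.range' r (n * T)).map (fun y => G (y + T)) =
        (List.range' (r + T) (n * T)).map G := by
      rw [add_comm r T, ← List.map_add_range', List.map_map]
      apply List.map_congr_left
      intro x _
      simp [add_comm]
    have hr := r1.trans r2
    rw [hw, e2] at hr
    rw [e1, List.map_append, gn_append, tp_append, List.countP_append]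
    have e3 : (n + 1) * T = T + n * T := by ring
    rw [e3]
    simpa using hr

/-- number of gains along linked gaps -/
lemma gn_link (τ : α → α) [DecidableEq α] (G : ℕ → Lt α) (st : ℕ → Bool) (m : ℕ) :
    ∀ r : ℕ, (∀ x, r ≤ x → x < r + m → st (x + 1) = false → τ (lv (G x)) = ent (G (x + 1))) →
      m ≤ gn τ (lv (G r)) ((List.range' (r + 1) m).map G) + (List.range' (r + 1) m).countP st := by
  induction m with
  | zero => intro r _; simp
  | succ m ih =>
    intro r h
    have h1 := ih (r + 1) (fun x hx hx' => h x (by omega) (by omega))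
    rw [List.range'_succ, List.map_cons, gn, List.countP_cons]
    by_cases hs : st (r + 1) = true
    · rw [if_pos hs]
      omega
    · rw [if_pos (h r le_rfl (by omega) (by simpa using hs))]
      omega

/-! ### Dyck words -/

/-- the height of a letter -/
def wt (κ s : ℕ → Bool) (x : ℕ) : ℤ := if κ x = true then 0 else if s x = true then -1 else 1

/-- the height of a word -/
def htl (κ s : ℕ → Bool) (l : List ℕ) : ℤ := (l.map (wt κ s)).sum

lemma htl_nil (κ s : ℕ → Bool) : htl κ s [] = 0 := rfl

lemma htl_cons (κ s : ℕ → Bool) (x : ℕ) (l : List ℕ) :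
    htl κ s (x :: l) = wt κ s x + htl κ s l := by
  simp [htl]

lemma htl_append (κ s : ℕ → Bool) (l m : List ℕ) :
    htl κ s (l ++ m) = htl κ s l + htl κ s m := by
  simp [htl]

/-- first passage -/
lemma first_passage (κ s : ℕ → Bool) (l : List ℕ) : ∀ h : ℤ, 0 ≤ h → h + htl κ s l < 0 →
    ∃ u b v, l = u ++ b :: v ∧ κ b = false ∧ s b = true ∧ h + htl κ s u = 0 ∧
      ∀ p, p <+: u → 0 ≤ h + htl κ s p := by
  induction l with
  | nil =>
    intro h h0 h1
    rw [htl_nil] at h1
    omega
  | cons x l ih =>
    intro h h0 h1
    rw [htl_cons] at h1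
    by_cases hx : h + wt κ s x < 0
    · have h2 : κ x = false ∧ s x = true ∧ h = 0 := by
        unfold wt at hx
        by_cases hk : κ x = true
        · rw [if_pos hk] at hx
          omega
        · rw [if_neg hk] at hx
          by_cases hs : s x = true
          · rw [if_pos hs] at hx
            exact ⟨by simpa using hk, hs, by omega⟩
          · rw [if_neg hs] at hx
            omega
      refine ⟨[], x, l, rfl, h2.1, h2.2.1, ?_, ?_⟩
      · rw [htl_nil]; omega
      · intro p hp
        rw [List.prefix_nil] at hp
        rw [hp, htl_nil]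
        omega
    · obtain ⟨u, b, v, e, hk, hb, hu, hp⟩ := ih (h + wt κ s x) (by omega) (by omega)
      refine ⟨x :: u, b, v, by rw [e]; rfl, hk, hb, ?_, ?_⟩
      · rw [htl_cons]; omega
      · intro p hpp
        rcases p with _ | ⟨y, p⟩
        · rw [htl_nil]; omega
        · rw [List.cons_prefix_cons] at hpp
          obtain ⟨rfl, hpp⟩ := hpp
          have := hp p hpp
          rw [htl_cons]
          omega

lemma dyck_of (κ s : ℕ → Bool) (n : ℕ) : ∀ l : List ℕ, l.length ≤ n →
    (∀ p, p <+: l → 0 ≤ htl κ s p) → htl κ s l = 0 → ∃ D : Dy ℕ, word D = l ∧ ok κ s D := by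
  induction n with
  | zero =>
    intro l hl _ _
    have : l = [] := List.length_eq_zero_iff.1 (by omega)
    subst this
    exact ⟨Dy.nil, rfl, trivial⟩
  | succ n ih =>
    intro l hl hp h0
    rcases l with _ | ⟨a, l⟩
    · exact ⟨Dy.nil, rfl, trivial⟩
    rw [List.length_cons] at hl
    by_cases hk : κ a = true
    · have hw : wt κ s a = 0 := by
        unfold wt
        rw [if_pos hk]
      obtain ⟨D, hD, hok⟩ := ih l (by omega) (fun p h => by
        have h1 := hp (a :: p) (by rw [List.cons_prefix_cons]; exact ⟨rfl, h⟩)
        rw [htl_cons, hw] at h1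
        omega) (by
        rw [htl_cons, hw] at h0
        omega)
      exact ⟨Dy.mark a D, by rw [word, hD], hk, hok⟩
    · have hk' : κ a = false := by simpa using hk
      have ha : s a = false := by
        have := hp [a] (by simp)
        rw [htl_cons, htl_nil, wt, if_neg hk] at this
        by_contra hc
        rw [if_pos (by simpa using hc)] at this
        omega
      have hwa : wt κ s a = 1 := by
        unfold wt
        rw [if_neg hk, ha, if_neg (by simp)]
      rw [htl_cons, hwa] at h0
      obtain ⟨u, b, v, e, hkb, hb, hu, hpu⟩ := first_passage κ s l 0 le_rfl (by omega)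
      have hwb : wt κ s b = -1 := by
        unfold wt
        rw [hkb, hb, if_neg (by simp), if_pos rfl]
      have hlen : l.length = u.length + (v.length + 1) := by
        rw [e]; simp
      obtain ⟨Du, hDu, hoku⟩ := ih u (by omega) (fun p h => by
        have := hpu p h
        omega) (by omega)
      obtain ⟨Dv, hDv, hokv⟩ := ih v (by omega) (fun p h => by
        have h1 := hp (a :: (u ++ b :: p)) (by
          rw [e, List.cons_prefix_cons]
          refine ⟨rfl, ?_⟩
          rw [List.prefix_append_right_inj, List.cons_prefix_cons]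
          exact ⟨rfl, h⟩)
        rw [htl_cons, htl_append, htl_cons, hwa, hwb] at h1
        omega) (by
        rw [e, htl_append, htl_cons, hwb] at h0
        omega)
      exact ⟨Dy.node a Du b Dv, by rw [word, hDu, hDv, e], hk', hkb, ha, hb, hoku, hokv⟩

lemma htl_range' (κ s : ℕ → Bool) (r m : ℕ) :
    htl κ s (List.range' r m) = htl κ s (List.range (r + m)) - htl κ s (List.range r) := by
  have e : List.range (r + m) = List.range r ++ List.range' r m := by
    rw [List.range_eq_range', List.range_eq_range']
    have := List.range'_append_1 (s := 0) (m := r) (n := m)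
    rw [zero_add] at this
    exact this.symm
  rw [e, htl_append]
  ring

/-- rotation of a balanced periodic word -/
theorem exists_dyck (κ s : ℕ → Bool) (T : ℕ) (hT : 0 < T) (hκ : ∀ x, κ (x + T) = κ x)
    (hs : ∀ x, s (x + T) = s x) (h0 : htl κ s (List.range T) = 0) :
    ∃ r, r < T ∧ ∃ D : Dy ℕ, word D = List.range' r T ∧ ok κ s D := by
  set S : ℕ → ℤ := fun x => htl κ s (List.range x) with hS
  have hper : ∀ x, S (x + T) = S x := by
    intro x
    have h1 := htl_range' κ s T x
    have h2 : htl κ s (List.range' T x) = htl κ s (List.range x) := by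
      rw [List.range_eq_range', htl, htl]
      have : List.range' T x = (List.range' 0 x).map (T + ·) := by
        rw [List.map_add_range']
        simp
      rw [this, List.map_map]
      congr 1
      apply List.map_congr_left
      intro y _
      simp only [Function.comp_apply, wt]
      rw [add_comm T y, hs, hκ]
    simp only [hS]
    rw [add_comm x T]
    rw [h2, h0] at h1
    omega
  have hmod : ∀ x, S x = S (x % T) := by
    intro x
    induction x using Nat.strong_induction_on with
    | _ x ih =>
      by_cases hx : x < T
      · rw [Nat.mod_eq_of_lt hx]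
      · have h1 := ih (x - T) (by omega)
        have h2 := hper (x - T)
        rw [Nat.sub_add_cancel (by omega)] at h2
        rw [h2, h1, ← Nat.mod_eq_sub_mod (by omega)]
  obtain ⟨r, hr, hmin⟩ := Finset.exists_min_image (Finset.range T) S
    ⟨0, Finset.mem_range.2 hT⟩
  rw [Finset.mem_range] at hr
  have hmin' : ∀ x, S r ≤ S x := by
    intro x
    rw [hmod x]
    exact hmin _ (Finset.mem_range.2 (Nat.mod_lt _ hT))
  refine ⟨r, hr, dyck_of κ s T _ (by simp) ?_ ?_⟩
  · intro p hp
    rw [List.prefix_iff_eq_take] at hp
    have hle : p.length ≤ T := by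
      have := congrArg List.length hp
      rw [List.length_take, List.length_range'] at this
      omega
    rw [hp, List.take_range'_of_length_ge hle, htl_range']
    have := hmin' (r + p.length)
    simp only [hS] at this
    omega
  · rw [htl_range']
    have := hper r
    simp only [hS] at this
    omega

end BP2
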