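import Pool.Agent.BP2.D.ParB

set_option autoImplicit false

/-!
# MP_475aca_co, part (D): rearrangement of the zones
-/

namespace BP2

open List Dy Lt

variable {α ζ : Type*}

/-- the contents of a list of zones with orientations -/
def par_flat (C : ζ → Bool → List (Lt α)) (l : List (ζ × Bool)) : List (Lt α) :=
  l.flatMap fun p => C p.1 p.2

/-- reversal of a list of zones -/
def rv (l : List (ζ × Bool)) : List (ζ × Bool) := (l.map fun p => (p.1, !p.2)).reverse

lemma rv_append (l m : List (ζ × Bool)) : rv (l ++ m) = rv m ++ rv l := by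
  simp [rv]

lemma rv_rv (l : List (ζ × Bool)) : rv (rv l) = l := by
  simp [rv, List.map_reverse, Function.comp_def]

lemma rv_fst (l : List (ζ × Bool)) : (rv l).map Prod.fst = (l.map Prod.fst).reverse := by
  simp [rv, List.map_reverse, Function.comp_def]

lemma rv_length (l : List (ζ × Bool)) : (rv l).length = l.length := by
  simp [rv]

lemma flat_append (C : ζ → Bool → List (Lt α)) (l m : List (ζ × Bool)) :
    par_flat C (l ++ m) = par_flat C l ++ par_flat C m := by
  simp [par_flat]

lemma flat_cons (C : ζ → Bool → List (Lt α)) (p : ζ × Bool) (m : List (ζ × Bool)) :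
    par_flat C (p :: m) = C p.1 p.2 ++ par_flat C m := by
  simp [par_flat]

lemma flat_rv (C : ζ → Bool → List (Lt α)) (hC : ∀ z c, C z (!c) = rs (C z c))
    (l : List (ζ × Bool)) : par_flat C (rv l) = rs (par_flat C l) := by
  induction l with
  | nil => rfl
  | cons p l ih =>
    have e : p :: l = [p] ++ l := rfl
    rw [e, rv_append, flat_append, flat_append, rs_append, ih]
    congr 1
    simp [rv, par_flat, hC]

lemma flat_mono (C C' : ζ → Bool → List (Lt α)) (l : List (ζ × Bool))
    (h : ∀ p ∈ l, C' p.1 p.2 <+ C p.1 p.2) : par_flat C' l <+ par_flat C l := by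
  induction l with
  | nil => simp [par_flat]
  | cons p l ih =>
    rw [flat_cons, flat_cons]
    exact (h p (by simp)).append (ih fun q hq => h q (by simp [hq]))

/-- one flip between two zones; all zones lose their two extreme gaps -/
lemma boundary_flip (τ : α → α) (W : Lt α → Bool) [DecidableEq α] (C C' : ζ → Bool → List (Lt α))
    (hC' : ∀ z c, C' z (!c) = rs (C' z c)) (l1 l2 : List (ζ × Bool))
    (hne : l1 ++ l2 ≠ [])
    (hs : ∀ z ∈ (l1 ++ l2).map Prod.fst, ∀ c, ∃ h h', C z c = h :: (C' z c ++ [h']))
    (t : α) (xs : List (Lt α)) (h : par_flat C (l1 ++ l2) <+ xs) :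
    ∃ n g k t' xs', n ≤ 2 ∧ k ≤ 2 ∧ Run τ W n g k (t, xs) (t', xs') ∧
      par_flat C' (rv l1 ++ l2) <+ xs' := by
  have hm : ∀ l : List (ζ × Bool), (∀ z ∈ l.map Prod.fst, z ∈ (l1 ++ l2).map Prod.fst) →
      par_flat C' l <+ par_flat C l := by
    intro l hl
    apply flat_mono
    intro p hp
    obtain ⟨a, b, e⟩ := hs p.1 (hl _ (List.mem_map_of_mem hp)) p.2
    rw [e]
    exact (List.sublist_append_left _ _).trans (List.sublist_cons_self _ _)
  rcases l2 with _ | ⟨p, l2⟩
  · -- the last gap
    rw [List.append_nil] at hne h hs hm ⊢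
    obtain ⟨l, p, rfl⟩ : ∃ l p, l1 = l ++ [p] :=
      ⟨l1.dropLast, l1.getLast hne, (List.dropLast_append_getLast hne).symm⟩
    obtain ⟨a, b, e⟩ := hs p.1 (by simp) p.2
    have h1 : (par_flat C l ++ a :: C' p.1 p.2) ++ b :: [] <+ xs := by
      rw [flat_append, flat_cons, e] at h
      simpa [par_flat] using h
    obtain ⟨n, g, k, t', xs', hn, hk, hr, hx⟩ := cut_at τ W (t := t) h1
    refine ⟨n, g, k, t', xs', hn, hk, hr, ?_⟩
    rw [flat_rv C' hC']
    refine List.Sublist.trans ?_ hx
    rw [List.append_nil]
    apply rs_sublist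
    rw [flat_append]
    refine (hm l ?_).append ?_
    · intro z hz
      rw [List.map_append, List.mem_append]
      exact Or.inl hz
    · rw [flat_cons]
      simp [par_flat]
  · obtain ⟨a, b, e⟩ := hs p.1 (by simp) p.2
    have h1 : par_flat C l1 ++ a :: (C' p.1 p.2 ++ ([b] ++ par_flat C l2)) <+ xs := by
      rw [flat_append, flat_cons, e] at h
      simpa using h
    obtain ⟨n, g, k, t', xs', hn, hk, hr, hx⟩ := cut_at τ W (t := t) h1
    refine ⟨n, g, k, t', xs', hn, hk, hr, ?_⟩
    rw [flat_append, flat_cons, flat_rv C' hC']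
    refine List.Sublist.trans ?_ hx
    refine (rs_sublist (hm l1 ?_)).append ((List.Sublist.refl _).append ?_)
    · intro z hz
      rw [List.map_append, List.mem_append]
      exact Or.inl hz
    · refine (hm l2 ?_).trans (List.sublist_append_right _ _)
      intro z hz
      rw [List.map_append, List.mem_append, List.map_cons, List.mem_cons]
      exact Or.inr (Or.inr hz)

/-- Any arrangement of the zones is reached with six steps per zone. -/
theorem arrange (τ : α → α) (W : Lt α → Bool) [DecidableEq α] (C : ℕ → ζ → Bool → List (Lt α))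
    (V : ℕ) (U : Set ζ)
    (hC1 : ∀ v, ∀ z c, C v z (!c) = rs (C v z c))
    (hC2 : ∀ v, v < V → ∀ z ∈ U, ∀ c, ∃ h h', C v z c = h :: (C (v + 1) z c ++ [h']))
    (m : ℕ) : ∀ (l l' R : List (ζ × Bool)) (v : ℕ) (t : α) (xs : List (Lt α)),
      l'.length = m → (l.map Prod.fst).Perm (l'.map Prod.fst) →
      (∀ z ∈ (l ++ R).map Prod.fst, z ∈ U) → v + 3 * m ≤ V → par_flat (C v) (l ++ R) <+ xs →
      ∃ n g k t' xs', n ≤ 6 * m ∧ k ≤ 6 * m ∧ Run τ W n g k (t, xs) (t', xs') ∧
        par_flat (C (v + 3 * m)) (l' ++ R) <+ xs' := by
  have hmono : ∀ (l : List (ζ × Bool)), (∀ z ∈ l.map Prod.fst, z ∈ U) → ∀ j v, v + j ≤ V →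
      par_flat (C (v + j)) l <+ par_flat (C v) l := by
    intro l hl j
    induction j with
    | zero => intro v _; exact List.Sublist.refl _
    | succ j ih =>
      intro v hv
      refine List.Sublist.trans ?_ (ih v (by omega))
      apply flat_mono
      intro p hp
      obtain ⟨a, b, e⟩ := hC2 (v + j) (by omega) p.1 (hl _ (List.mem_map_of_mem hp)) p.2
      rw [e, show v + (j + 1) = v + j + 1 by omega]
      exact (List.sublist_append_left _ _).trans (List.sublist_cons_self _ _)
  induction m with
  | zero =>
    intro l l' R v t xs hl' hp hU hv h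
    have e' : l' = [] := List.length_eq_zero_iff.1 hl'
    subst e'
    have e : l = [] := by
      have := hp.length_eq
      rw [List.length_map, List.map_nil, List.length_nil] at this
      exact List.length_eq_zero_iff.1 this
    subst e
    exact ⟨0, 0, 0, t, xs, le_rfl, le_rfl, Run.refl _, by simpa using h⟩
  | succ m ih =>
    intro l l' R v t xs hl' hp hU hv h
    obtain ⟨m', q, rfl⟩ : ∃ m' q, l' = m' ++ [q] := by
      have hne : l' ≠ [] := by
        intro h0
        rw [h0] at hl'
        simp at hl'
      exact ⟨l'.dropLast, l'.getLast hne, (List.dropLast_append_getLast hne).symm⟩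
    have hml : m'.length = m := by
      rw [List.length_append, List.length_singleton] at hl'
      omega
    obtain ⟨z, c⟩ := q
    have hz : z ∈ l.map Prod.fst := by
      rw [hp.mem_iff]
      simp
    obtain ⟨⟨z', c0⟩, hzl, hz'⟩ := List.mem_map.1 hz
    simp only at hz'
    subst hz'
    obtain ⟨A, B, rfl⟩ := List.append_of_mem hzl
    -- the membership conditions of all the lists used
    have hUA : ∀ y ∈ A.map Prod.fst, y ∈ U := by
      intro y hy
      apply hU
      simp only [List.map_append, List.mem_append]
      exact Or.inl (Or.inl hy)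
    have hUB : ∀ y ∈ B.map Prod.fst, y ∈ U := by
      intro y hy
      apply hU
      simp only [List.map_append, List.mem_append, List.map_cons, List.mem_cons]
      exact Or.inl (Or.inr (Or.inr hy))
    have hUR : ∀ y ∈ R.map Prod.fst, y ∈ U := by
      intro y hy
      apply hU
      simp only [List.map_append, List.mem_append]
      exact Or.inr hy
    have hUz : z' ∈ U := by
      apply hU
      simp
    -- first flip
    have h1 : par_flat (C v) ((A ++ [(z', c0)]) ++ (B ++ R)) <+ xs := by
      simpa using h
    obtain ⟨n1, g1, k1, t1, xs1, hn1, hk1, r1, s1⟩ := boundary_flip τ W (C v) (C (v + 1)) (hC1 (v + 1))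
      (A ++ [(z', c0)]) (B ++ R) (by simp) (by
        intro y hy cc
        apply hC2 v (by omega)
        simp only [List.map_append, List.mem_append, List.map_cons, List.map_nil,
          List.mem_singleton] at hy
        rcases hy with (hy | hy) | (hy | hy)
        · exact hUA y hy
        · rw [hy]; exact hUz
        · exact hUB y hy
        · exact hUR y hy) t xs h1
    have e1 : rv (A ++ [(z', c0)]) ++ (B ++ R) = ([(z', !c0)] : List (ζ × Bool)) ++
        (rv A ++ (B ++ R)) := by
      rw [rv_append]
      simp [rv]
    rw [e1] at s1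
    -- second flip (or none)
    obtain ⟨n2, g2, k2, t2, xs2, hn2, hk2, r2, s2⟩ : ∃ n2 g2 k2 t2 xs2, n2 ≤ 2 ∧ k2 ≤ 2 ∧
        Run τ W n2 g2 k2 (t1, xs1) (t2, xs2) ∧
        par_flat (C (v + 2)) (([(z', !c)] : List (ζ × Bool)) ++ (rv A ++ (B ++ R))) <+ xs2 := by
      by_cases hc : c0 = c
      · subst hc
        refine ⟨0, 0, 0, t1, xs1, by omega, by omega, Run.refl _, ?_⟩
        refine List.Sublist.trans ?_ s1
        have := hmono (([(z', !c0)] : List (ζ × Bool)) ++ (rv A ++ (B ++ R))) (by
          intro y hy
          simp only [List.map_append, List.mem_append, List.map_cons, List.map_nil,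
            List.mem_singleton, rv_fst, List.mem_reverse] at hy
          rcases hy with hy | (hy | (hy | hy))
          · rw [hy]; exact hUz
          · exact hUA y hy
          · exact hUB y hy
          · exact hUR y hy) 1 (v + 1) (by omega)
        exact this
      · have hc' : c0 = !c := by
          cases c0 <;> cases c <;> first | rfl | exact absurd rfl hc
        obtain ⟨n2, g2, k2, t2, xs2, hn2, hk2, r2, s2⟩ := boundary_flip τ W (C (v + 1)) (C (v + 1 + 1))
          (hC1 (v + 1 + 1)) [(z', !c0)] (rv A ++ (B ++ R)) (by simp) (by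
            intro y hy cc
            apply hC2 (v + 1) (by omega)
            simp only [List.map_append, List.mem_append, List.map_cons, List.map_nil,
              List.mem_singleton, rv_fst, List.mem_reverse] at hy
            rcases hy with hy | (hy | (hy | hy))
            · rw [hy]; exact hUz
            · exact hUA y hy
            · exact hUB y hy
            · exact hUR y hy) t1 xs1 s1
        refine ⟨n2, g2, k2, t2, xs2, hn2, hk2, r2, ?_⟩
        have e2 : rv ([(z', !c0)] : List (ζ × Bool)) = [(z', !c)] := by
          rw [hc']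
          simp [rv]
        rw [e2] at s2
        exact s2
    -- third flip
    have e3 : ([(z', !c)] : List (ζ × Bool)) ++ (rv A ++ (B ++ R)) =
        (([(z', !c)] : List (ζ × Bool)) ++ (rv A ++ B)) ++ R := by simp
    rw [e3] at s2
    obtain ⟨n3, g3, k3, t3, xs3, hn3, hk3, r3, s3⟩ := boundary_flip τ W (C (v + 2)) (C (v + 2 + 1))
      (hC1 (v + 2 + 1)) (([(z', !c)] : List (ζ × Bool)) ++ (rv A ++ B)) R (by simp) (by
        intro y hy cc
        apply hC2 (v + 2) (by omega)
        simp only [List.map_append, List.mem_append, List.map_cons, List.map_nil,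
          List.mem_singleton, rv_fst, List.mem_reverse] at hy
        rcases hy with (hy | (hy | hy)) | hy
        · rw [hy]; exact hUz
        · exact hUA y hy
        · exact hUB y hy
        · exact hUR y hy) t2 xs2 s2
    have e4 : rv (([(z', !c)] : List (ζ × Bool)) ++ (rv A ++ B)) ++ R =
        (rv B ++ A) ++ ((z', c) :: R) := by
      rw [rv_append, rv_append, rv_rv]
      simp [rv]
    rw [e4] at s3
    obtain ⟨n4, g4, k4, t4, xs4, hn4, hk4, r4, s4⟩ := ih (rv B ++ A) m' ((z', c) :: R) (v + 3) t3 xs3
      hml (by
        rw [List.map_append, rv_fst]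
        rw [List.map_append, List.map_cons, List.map_append, List.map_cons, List.map_nil] at hp
        have h5 : (z' :: ((B.map Prod.fst).reverse ++ A.map Prod.fst)).Perm
            (z' :: m'.map Prod.fst) := by
          refine List.Perm.trans ?_ (hp.trans (List.perm_append_singleton _ _))
          refine List.Perm.trans ?_ (List.perm_middle.symm)
          refine List.Perm.cons _ ?_
          refine List.Perm.trans ?_ List.perm_append_comm
          exact (List.reverse_perm _).append_right _
        exact (List.perm_cons z').1 h5) (by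
        intro y hy
        simp only [List.map_append, List.mem_append, List.map_cons, List.mem_cons, rv_fst,
          List.mem_reverse] at hy
        rcases hy with (hy | hy) | (hy | hy)
        · exact hUB y hy
        · exact hUA y hy
        · rw [hy]; exact hUz
        · exact hUR y hy) (by omega) s3
    refine ⟨n1 + n2 + n3 + n4, g1 + g2 + g3 + g4, k1 + k2 + k3 + k4, t4, xs4, by omega, by omega,
      ((r1.trans r2).trans r3).trans r4, ?_⟩
    have e5 : (m' ++ [(z', c)]) ++ R = m' ++ (z', c) :: R := by simp
    rw [e5, show v + 3 * (m + 1) = v + 3 + 3 * m by ring]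
    exact s4

end BP2
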