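import Pool.Agent.BP2.D.ParC

set_option autoImplicit false

/-!
# MP_475aca_co, part (D): the parallel lemma
-/

namespace BP2

open List Dy Lt

variable {α : Type*}

/-- the letters number `i` of the windows `0, ..., N - 1` -/
def inc (w : ℕ → ℕ → Lt α) (N i : ℕ) : List (Lt α) := (List.range N).map fun b => w b i

/-- contents of the zone number `i`; `w b i` is the letter in the orientation in which it will be
visited, `e i` tells whether the windows are in increasing order downwards in that orientation,
`c i` whether the zone has that orientation now -/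
def zc (w : ℕ → ℕ → Lt α) (e c : ℕ → Bool) (N i : ℕ) : List (Lt α) :=
  if c i = true then (if e i = true then inc w N i else (inc w N i).reverse)
  else rs (if e i = true then inc w N i else (inc w N i).reverse)

/-! ### tokens of a Dyck word -/

/-- the gap tokens in the order of the arrangement -/
def arrL : Dy ℕ → List ℕ
  | Dy.nil => []
  | Dy.node a u b v => a :: b :: (arrL u ++ arrL v)
  | Dy.mark _ v => arrL v

/-- the marker tokens -/
def mkL : Dy ℕ → List ℕ
  | Dy.nil => []
  | Dy.node _ u _ v => mkL u ++ mkL v
  | Dy.mark c v => c :: mkL v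

lemma arr_perm (D : Dy ℕ) : (arrL D ++ mkL D).Perm (word D) := by
  induction D with
  | nil => exact List.Perm.refl _
  | mark c v ih =>
    simp only [arrL, mkL, word]
    exact List.perm_middle.trans (List.Perm.cons _ ih)
  | node a u b v ihu ihv =>
    simp only [arrL, mkL, word, List.cons_append]
    refine List.Perm.cons _ ?_
    refine List.Perm.trans ?_ List.perm_middle.symm
    refine List.Perm.cons _ ?_
    refine List.Perm.trans ?_ (ihu.append ihv)
    rw [List.append_assoc, List.append_assoc]
    refine List.Perm.append_left _ ?_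
    rw [← List.append_assoc, ← List.append_assoc]
    refine List.Perm.append_right _ ?_
    exact List.perm_append_comm

lemma cont_flat (κ s : ℕ → Bool) (T : ℕ) (Z : ℕ → List (Lt α)) (C : ℕ → Bool → List (Lt α))
    (D : Dy ℕ) (hD : ok κ s D)
    (h : ∀ x ∈ word D, (if s x = true then Z x else (Z x).reverse) <+ C (x % T) true) :
    cont Z D <+ par_flat C ((arrL D).map fun x => (x % T, true)) ∧
      mcont s Z D <+ par_flat C ((mkL D).map fun x => (x % T, true)) := by
  induction D with
  | nil => exact ⟨List.Sublist.refl _, List.Sublist.refl _⟩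
  | mark c v ih =>
    obtain ⟨h1, h2⟩ := ih hD.2 (fun x hx => h x (by simp [word, hx]))
    refine ⟨h1, ?_⟩
    simp only [mcont, mkL, List.map_cons]
    rw [flat_cons]
    exact (h c (by simp [word])).append h2
  | node a u b v ihu ihv =>
    obtain ⟨-, -, ha, hb, hu, hv⟩ := hD
    obtain ⟨u1, u2⟩ := ihu hu (fun x hx => h x (by simp [word, hx]))
    obtain ⟨v1, v2⟩ := ihv hv (fun x hx => h x (by simp [word, hx]))
    have h3 := h a (by simp [word])
    have h4 := h b (by simp [word])
    rw [ha, if_neg (by simp)] at h3
    rw [hb, if_pos rfl] at h4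
    constructor
    · simp only [cont, arrL, List.map_cons, List.map_append]
      rw [flat_cons, flat_cons, flat_append]
      exact h3.append (h4.append (u1.append v1))
    · simp only [mcont, mkL, List.map_append]
      rw [flat_append]
      exact u2.append v2

/-! ### the letters in the order of the visits -/

section setup

variable (L N : ℕ) (w : ℕ → ℕ → Lt α) (kd e : ℕ → Bool)

/-- letter number `x` -/
def Gx (x : ℕ) : Lt α :=
  if x % (2 * (L + 1)) ≤ L then w (x / (2 * (L + 1))) (x % (2 * (L + 1)))
  else w (N - 1 - x / (2 * (L + 1))) (x % (2 * (L + 1)) - (L + 1))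

/-- kinds of the tokens -/
def kx (x : ℕ) : Bool :=
  if x % (2 * (L + 1)) ≤ L then kd (x % (2 * (L + 1))) else kd (x % (2 * (L + 1)) - (L + 1))

/-- signs of the tokens -/
def sx (x : ℕ) : Bool :=
  if x % (2 * (L + 1)) ≤ L then e (x % (2 * (L + 1))) else !(e (x % (2 * (L + 1)) - (L + 1)))

/-- contents of the zones at the level `v` -/
def Cx (v z : ℕ) (c : Bool) : List (Lt α) :=
  if c = true then
    (if sx L e z = true then
      (List.range' v (N / 2 - 2 * v)).map fun q => Gx L N w (z + q * (2 * (L + 1)))
    else ((List.range' v (N / 2 - 2 * v)).map fun q => Gx L N w (z + q * (2 * (L + 1)))).reverse)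
  else rs (if sx L e z = true then
      (List.range' v (N / 2 - 2 * v)).map fun q => Gx L N w (z + q * (2 * (L + 1)))
    else ((List.range' v (N / 2 - 2 * v)).map fun q => Gx L N w (z + q * (2 * (L + 1)))).reverse)

lemma kx_add (x j : ℕ) : kx L kd (x + j * (2 * (L + 1))) = kx L kd x := by
  unfold kx
  rw [Nat.add_mul_mod_self_right]

lemma sx_add (x j : ℕ) : sx L e (x + j * (2 * (L + 1))) = sx L e x := by
  unfold sx
  rw [Nat.add_mul_mod_self_right]

lemma sx_mod (x : ℕ) : sx L e (x % (2 * (L + 1))) = sx L e x := by
  unfold sx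
  rw [Nat.mod_mod]

lemma par_balance : htl (kx L kd) (sx L e) (List.range (2 * (L + 1))) = 0 := by
  have e1 : List.range (2 * (L + 1)) = List.range (L + 1) ++ (List.range (L + 1)).map
      ((L + 1) + ·) := by
    rw [← List.range_add]
    congr 1
    ring
  rw [e1, htl_append]
  have e2 : htl (kx L kd) (sx L e) ((List.range (L + 1)).map ((L + 1) + ·)) =
      - htl (kx L kd) (sx L e) (List.range (L + 1)) := by
    have key : ∀ l : List ℕ, (∀ i ∈ l, i < L + 1) →
        htl (kx L kd) (sx L e) (l.map ((L + 1) + ·)) = - htl (kx L kd) (sx L e) l := by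
      intro l
      induction l with
      | nil => intro _; simp [htl]
      | cons i l ih =>
        intro hl
        have hi := hl i (by simp)
        rw [List.map_cons, htl_cons, htl_cons, ih (fun j hj => hl j (by simp [hj]))]
        have m1 : i % (2 * (L + 1)) = i := Nat.mod_eq_of_lt (by omega)
        have m2 : (L + 1 + i) % (2 * (L + 1)) = L + 1 + i := Nat.mod_eq_of_lt (by omega)
        have k1 : kx L kd (L + 1 + i) = kd i := by
          unfold kx
          rw [m2, if_neg (by omega), show L + 1 + i - (L + 1) = i by omega]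
        have k2 : kx L kd i = kd i := by
          unfold kx
          rw [m1, if_pos (by omega)]
        have s1 : sx L e (L + 1 + i) = !(e i) := by
          unfold sx
          rw [m2, if_neg (by omega), show L + 1 + i - (L + 1) = i by omega]
        have s2 : sx L e i = e i := by
          unfold sx
          rw [m1, if_pos (by omega)]
        have : wt (kx L kd) (sx L e) (L + 1 + i) = - wt (kx L kd) (sx L e) i := by
          unfold wt
          rw [k1, k2, s1, s2]
          cases kd i <;> cases e i <;> simp
        rw [this]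
        ring
    exact key _ (fun i hi => List.mem_range.1 hi)
  rw [e2]
  ring

lemma Cx_not (v z : ℕ) (c : Bool) : Cx L N w e v z (!c) = rs (Cx L N w e v z c) := by
  unfold Cx
  cases c
  · simp
  · simp

lemma Cx_succ (v z : ℕ) (c : Bool) (hv : 2 * v + 2 ≤ N / 2) :
    ∃ h h', Cx L N w e v z c = h :: (Cx L N w e (v + 1) z c ++ [h']) := by
  have e1 : List.range' v (N / 2 - 2 * v) =
      v :: (List.range' (v + 1) (N / 2 - 2 * (v + 1)) ++ [N / 2 - v - 1]) := by
    have e2 : N / 2 - 2 * v = (N / 2 - 2 * (v + 1)) + 1 + 1 := by omega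
    rw [e2, List.range'_succ]
    congr 1
    rw [List.range'_concat]
    congr 2
    omega
  have key : ∀ f : ℕ → Lt α, ∃ h h', (List.range' v (N / 2 - 2 * v)).map f =
      h :: ((List.range' (v + 1) (N / 2 - 2 * (v + 1))).map f ++ [h']) := by
    intro f
    refine ⟨f v, f (N / 2 - v - 1), ?_⟩
    rw [e1]
    simp
  obtain ⟨h, h', hh⟩ := key fun q => Gx L N w (z + q * (2 * (L + 1)))
  have key2 : ∃ g g', (if sx L e z = true then
      (List.range' v (N / 2 - 2 * v)).map fun q => Gx L N w (z + q * (2 * (L + 1)))
    else ((List.range' v (N / 2 - 2 * v)).map fun q => Gx L N w (z + q * (2 * (L + 1)))).reverse)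
      = g :: ((if sx L e z = true then
      (List.range' (v + 1) (N / 2 - 2 * (v + 1))).map fun q => Gx L N w (z + q * (2 * (L + 1)))
    else ((List.range' (v + 1) (N / 2 - 2 * (v + 1))).map
      fun q => Gx L N w (z + q * (2 * (L + 1)))).reverse) ++ [g']) := by
    rw [hh]
    by_cases hs : sx L e z = true
    · exact ⟨h, h', by rw [if_pos hs, if_pos hs]⟩
    · exact ⟨h', h, by rw [if_neg hs, if_neg hs]; simp⟩
  obtain ⟨g, g', hg⟩ := key2
  unfold Cx
  by_cases hc : c = true
  · exact ⟨g, g', by rw [if_pos hc, if_pos hc, hg]⟩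
  · refine ⟨sw g', sw g, ?_⟩
    rw [if_neg hc, if_neg hc, hg]
    simp [rs]

end setup

/-! ### lists of numbers -/

lemma range_mod (T : ℕ) (r : ℕ) : ((List.range' r T).map (· % T)).Perm (List.range T) := by
  induction r with
  | zero =>
    rw [← List.range_eq_range']
    have : (List.range T).map (· % T) = List.range T := by
      conv_rhs => rw [← List.map_id (List.range T)]
      apply List.map_congr_left
      intro x hx
      rw [List.mem_range] at hx
      simp [Nat.mod_eq_of_lt hx]
    rw [this]
  | succ r ih =>
    rcases T with _ | T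
    · simp
    refine List.Perm.trans ?_ ih
    rw [List.range'_concat, List.range'_succ, List.map_append, List.map_cons]
    refine (List.perm_append_comm).trans ?_
    rw [List.map_cons, List.map_nil, List.singleton_append]
    have : (r + 1 + 1 * T) % (T + 1) = r % (T + 1) := by
      rw [show r + 1 + 1 * T = r + (T + 1) by ring, Nat.add_mod_right]
    rw [this]

lemma count_le (T a : ℕ) (r : ℕ) :
    (List.range' r T).countP (fun y => y % T == 0 || y % T == a) ≤ 2 := by
  have h1 : (List.range' r T).countP (fun y => y % T == 0 || y % T == a) =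
      ((List.range' r T).map (· % T)).countP (fun z => z == 0 || z == a) := by
    rw [List.countP_map]
    rfl
  rw [h1, (range_mod T r).countP_eq]
  have h2 : (List.range T).countP (fun z => z == 0 || z == a) ≤
      (List.range T).count 0 + (List.range T).count a := by
    generalize List.range T = l
    induction l with
    | nil => simp
    | cons x l ih =>
      rw [List.countP_cons, List.count_cons, List.count_cons]
      by_cases h0 : x == 0
      · simp only [h0, Bool.true_or, if_true]
        omega
      · by_cases ha : x == a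
        · simp only [ha, Bool.or_true, if_true]
          omega
        · simp only [h0, ha, Bool.or_false]
          omega
  have h3 := List.nodup_iff_count_le_one.1 (List.nodup_range (n := T)) 0
  have h4 := List.nodup_iff_count_le_one.1 (List.nodup_range (n := T)) a
  omega

lemma count_le_mul (T a n : ℕ) : ∀ r : ℕ,
    (List.range' r (n * T)).countP (fun y => y % T == 0 || y % T == a) ≤ 2 * n := by
  induction n with
  | zero => intro r; simp
  | succ n ih =>
    intro r
    have e1 : List.range' r ((n + 1) * T) = List.range' r T ++ List.range' (r + T) (n * T) := by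
      rw [List.range'_append_1]
      congr 1
      ring
    rw [e1, List.countP_append]
    have := count_le T a r
    have := ih (r + T)
    omega

lemma two_halves (N : ℕ) :
    List.range (N / 2) ++ ((List.range (N / 2)).map fun q => N - 1 - q).reverse <+
      List.range N := by
  have e1 : ((List.range (N / 2)).map fun q => N - 1 - q).reverse =
      List.range' (N - N / 2) (N / 2) := by
    apply List.ext_getElem
    · simp
    · intro j h1 h2
      simp only [List.length_reverse, List.length_map, List.length_range] at h1
      simp only [List.getElem_reverse, List.getElem_map, List.getElem_range,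
        List.getElem_range', List.length_map, List.length_range]
      omega
  have e2 : List.range N = List.range' 0 (N / 2) ++ (List.range' (N / 2) (N - 2 * (N / 2)) ++
      List.range' (N - N / 2) (N / 2)) := by
    have h1 := List.range'_append_1 (s := N / 2) (m := N - 2 * (N / 2)) (n := N / 2)
    rw [show N / 2 + (N - 2 * (N / 2)) = N - N / 2 by omega,
      show N - 2 * (N / 2) + N / 2 = N - N / 2 by omega] at h1
    rw [h1]
    have h2 := List.range'_append_1 (s := 0) (m := N / 2) (n := N - N / 2)
    rw [zero_add, show N / 2 + (N - N / 2) = N by omega] at h2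
    rw [h2, List.range_eq_range']
  rw [e1, e2, ← List.range_eq_range']
  exact (List.Sublist.refl _).append (List.sublist_append_right _ _)

lemma inc_halves (w : ℕ → ℕ → Lt α) (N i : ℕ) :
    ((List.range (N / 2)).map fun q => w q i) ++
      ((List.range (N / 2)).map fun q => w (N - 1 - q) i).reverse <+ inc w N i := by
  have h := (two_halves N).map fun b => w b i
  rw [List.map_append, List.map_reverse, List.map_map] at h
  exact h

/-! ### the theorem -/

section final

variable (L N : ℕ) (w : ℕ → ℕ → Lt α) (kd e c : ℕ → Bool)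

/-- the two zones which come from the zone `i` -/
def blk (i : ℕ) : List (ℕ × Bool) :=
  if c i = true then
    (if e i = true then [(i, true), (L + 1 + i, true)] else [(L + 1 + i, true), (i, true)])
  else rv (if e i = true then [(i, true), (L + 1 + i, true)] else [(L + 1 + i, true), (i, true)])

lemma blk_fst (i : ℕ) : ((blk L e c i).map Prod.fst).Perm [i, L + 1 + i] := by
  have h1 : ((if e i = true then [(i, true), (L + 1 + i, true)]
      else [(L + 1 + i, true), (i, true)] : List (ℕ × Bool)).map Prod.fst).Perm
        [i, L + 1 + i] := by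
    by_cases he : e i = true
    · rw [if_pos he]
      exact List.Perm.refl _
    · rw [if_neg he]
      exact List.Perm.swap _ _ _
  unfold blk
  by_cases hc : c i = true
  · rw [if_pos hc]
    exact h1
  · rw [if_neg hc, rv_fst]
    exact (List.reverse_perm _).trans h1

lemma perm_blk (π : List ℕ) (hπ : π.Perm (List.range (L + 1))) :
    ((π.flatMap (blk L e c)).map Prod.fst).Perm (List.range (2 * (L + 1))) := by
  have h1 : ∀ l : List ℕ, ((l.flatMap (blk L e c)).map Prod.fst).Perm
      (l ++ l.map (L + 1 + ·)) := by
    intro l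
    induction l with
    | nil => simp
    | cons i l ih =>
      rw [List.flatMap_cons, List.map_append]
      refine ((blk_fst L e c i).append ih).trans ?_
      simp only [List.cons_append, List.nil_append, List.map_cons]
      refine List.Perm.cons _ ?_
      exact List.perm_middle.symm
  refine (h1 π).trans ?_
  have e1 : List.range (2 * (L + 1)) = List.range (L + 1) ++ (List.range (L + 1)).map
      ((L + 1) + ·) := by
    rw [← List.range_add]
    congr 1
    ring
  rw [e1]
  exact hπ.append (hπ.map _)

lemma Gx_low (z q : ℕ) (hz : z ≤ L) : Gx L N w (z + q * (2 * (L + 1))) = w q z := by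
  have h1 : (z + q * (2 * (L + 1))) % (2 * (L + 1)) = z := by
    rw [Nat.add_mul_mod_self_right]
    exact Nat.mod_eq_of_lt (by omega)
  have h2 : (z + q * (2 * (L + 1))) / (2 * (L + 1)) = q := by
    rw [Nat.add_mul_div_right _ _ (by omega), Nat.div_eq_of_lt (by omega)]
    omega
  unfold Gx
  rw [h1, h2, if_pos hz]

lemma Gx_high (i q : ℕ) (hi : i ≤ L) :
    Gx L N w (L + 1 + i + q * (2 * (L + 1))) = w (N - 1 - q) i := by
  have h1 : (L + 1 + i + q * (2 * (L + 1))) % (2 * (L + 1)) = L + 1 + i := by
    rw [Nat.add_mul_mod_self_right]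
    exact Nat.mod_eq_of_lt (by omega)
  have h2 : (L + 1 + i + q * (2 * (L + 1))) / (2 * (L + 1)) = q := by
    rw [Nat.add_mul_div_right _ _ (by omega), Nat.div_eq_of_lt (by omega)]
    omega
  unfold Gx
  rw [h1, h2, if_neg (by omega), show L + 1 + i - (L + 1) = i by omega]

lemma blk_sub (i : ℕ) (hi : i ≤ L) : par_flat (Cx L N w e 0) (blk L e c i) <+ zc w e c N i := by
  have m1 : i % (2 * (L + 1)) = i := Nat.mod_eq_of_lt (by omega)
  have m2 : (L + 1 + i) % (2 * (L + 1)) = L + 1 + i := Nat.mod_eq_of_lt (by omega)
  have s1 : sx L e i = e i := by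
    unfold sx
    rw [m1, if_pos hi]
  have s2 : sx L e (L + 1 + i) = !(e i) := by
    unfold sx
    rw [m2, if_neg (by omega), show L + 1 + i - (L + 1) = i by omega]
  have g1 : ((List.range' 0 (N / 2 - 2 * 0)).map fun q => Gx L N w (i + q * (2 * (L + 1)))) =
      (List.range (N / 2)).map fun q => w q i := by
    rw [← List.range_eq_range', Nat.mul_zero, Nat.sub_zero]
    apply List.map_congr_left
    intro q _
    exact Gx_low L N w i q hi
  have g2 : ((List.range' 0 (N / 2 - 2 * 0)).map fun q =>
      Gx L N w (L + 1 + i + q * (2 * (L + 1)))) =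
      (List.range (N / 2)).map fun q => w (N - 1 - q) i := by
    rw [← List.range_eq_range', Nat.mul_zero, Nat.sub_zero]
    apply List.map_congr_left
    intro q _
    exact Gx_high L N w i q hi
  have key : par_flat (Cx L N w e 0) (if e i = true then [(i, true), (L + 1 + i, true)]
      else [(L + 1 + i, true), (i, true)]) <+
      (if e i = true then inc w N i else (inc w N i).reverse) := by
    by_cases he : e i = true
    · rw [if_pos he, if_pos he, flat_cons, flat_cons]
      unfold Cx
      rw [if_pos rfl, if_pos rfl, s1, s2, he, if_pos rfl, if_neg (by simp), g1, g2]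
      simpa [par_flat] using inc_halves w N i
    · rw [if_neg he, if_neg he, flat_cons, flat_cons]
      have he' : e i = false := by simpa using he
      unfold Cx
      rw [if_pos rfl, if_pos rfl, s1, s2, he', Bool.not_false, if_pos rfl,
        if_neg Bool.false_ne_true, g1, g2]
      have := (inc_halves w N i).reverse
      rw [List.reverse_append, List.reverse_reverse] at this
      simpa [par_flat] using this
  unfold blk zc
  by_cases hc : c i = true
  · rw [if_pos hc, if_pos hc]
    exact key
  · rw [if_neg hc, if_neg hc, flat_rv _ (fun z c => Cx_not L N w e 0 z c)]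
    exact rs_sublist key

lemma flat_sub (C : ℕ → Bool → List (Lt α)) (B : ℕ → List (ℕ × Bool)) (Z : ℕ → List (Lt α))
    (l : List ℕ) (h : ∀ i ∈ l, par_flat C (B i) <+ Z i) : par_flat C (l.flatMap B) <+ l.flatMap Z := by
  induction l with
  | nil => simp [par_flat]
  | cons i l ih =>
    rw [List.flatMap_cons, List.flatMap_cons, flat_append]
    exact (h i (by simp)).append (ih fun j hj => h j (by simp [hj]))

/-- the letters of the main phase in the zone `x` -/
lemma zn_sub (v n x : ℕ) (hn : n + 1 = N / 2 - 2 * v) (hx : x < 2 * (2 * (L + 1))) :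
    Zn (fun y => Gx L N w (y + v * (2 * (L + 1)))) (2 * (L + 1)) n x <+
      ((List.range' v (N / 2 - 2 * v)).map
        fun q => Gx L N w (x % (2 * (L + 1)) + q * (2 * (L + 1)))) := by
  rw [← hn]
  have h1 := Nat.mod_add_div x (2 * (L + 1))
  have h2 : x / (2 * (L + 1)) ≤ 1 := by
    have := Nat.div_lt_of_lt_mul (m := x) (n := 2 * (L + 1)) (k := 2) (by omega)
    omega
  set j := x / (2 * (L + 1)) with hj
  have e1 : Zn (fun y => Gx L N w (y + v * (2 * (L + 1)))) (2 * (L + 1)) n x =
      (List.range' (v + j) n).map
        fun q => Gx L N w (x % (2 * (L + 1)) + q * (2 * (L + 1))) := by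
    unfold Zn
    have e2 : List.range' (v + j) n = (List.range n).map (v + j + ·) := by
      rw [List.range_eq_range', List.map_add_range']
      simp
    rw [e2, List.map_map]
    apply List.map_congr_left
    intro q _
    simp only [Function.comp_apply]
    congr 1
    calc x + q * (2 * (L + 1)) + v * (2 * (L + 1))
        = (x % (2 * (L + 1)) + 2 * (L + 1) * j) + q * (2 * (L + 1)) + v * (2 * (L + 1)) := by
          rw [h1]
      _ = x % (2 * (L + 1)) + (v + j + q) * (2 * (L + 1)) := by ring
  rw [e1]
  apply List.Sublist.map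
  interval_cases j
  · rw [List.range'_concat]
    exact List.sublist_append_left _ _
  · rw [List.range'_succ]
    exact List.sublist_cons_self _ _

end final

lemma Cx_true (L N : ℕ) (w : ℕ → ℕ → Lt α) (e : ℕ → Bool) (v z : ℕ) :
    Cx L N w e v z true = if sx L e z = true then
      (List.range' v (N / 2 - 2 * v)).map fun q => Gx L N w (z + q * (2 * (L + 1)))
    else ((List.range' v (N / 2 - 2 * v)).map
      fun q => Gx L N w (z + q * (2 * (L + 1)))).reverse := by
  unfold Cx
  rw [if_pos rfl]

/-- the main case -/
lemma parallel_aux (τ : α → α) (W : Lt α → Bool) [DecidableEq α] (L N : ℕ)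
    (w : ℕ → ℕ → Lt α) (kd : ℕ → Bool)
    (hkd : ∀ b, ∀ i ≤ L, isMk (w b i) = kd i)
    (hlink : ∀ b, ∀ i < L, τ (lv (w b i)) = ent (w b (i + 1)))
    (hW : ∀ b, ∀ i ≤ L, W (w b i) = false)
    (π : List ℕ) (hπ : π.Perm (List.range (L + 1))) (e c : ℕ → Bool) (t : α)
    (xs : List (Lt α)) (hsub : π.flatMap (zc w e c N) <+ xs)
    (hN : 6 * (2 * (L + 1)) + 1 ≤ N / 2) :
    ∃ n g k t' xs', Run τ W n g k (t, xs) (t', xs') ∧ n ≤ N * (L + 1) + 12 * (L + 1) ∧
      N * L ≤ g + 28 * (L + 1) ^ 2 ∧ k ≤ 12 * (L + 1) := by
  obtain ⟨T, hT⟩ : ∃ T, T = 2 * (L + 1) := ⟨_, rfl⟩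
  have hTpos : 0 < T := by omega
  have hmodT : ∀ x, x % T < T := fun x => Nat.mod_lt _ hTpos
  -- the letters
  have hGk : ∀ x, isMk (Gx L N w x) = kx L kd x := by
    intro x
    have := hmodT x
    rw [hT] at this
    unfold Gx kx
    by_cases hx : x % (2 * (L + 1)) ≤ L
    · rw [if_pos hx, if_pos hx]
      exact hkd _ _ hx
    · rw [if_neg hx, if_neg hx]
      exact hkd _ _ (by omega)
  have hGW : ∀ x, W (Gx L N w x) = false := by
    intro x
    have := hmodT x
    rw [hT] at this
    unfold Gx
    by_cases hx : x % (2 * (L + 1)) ≤ L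
    · rw [if_pos hx]
      exact hW _ _ hx
    · rw [if_neg hx]
      exact hW _ _ (by omega)
  have hGl : ∀ x, ((x + 1) % T == 0 || (x + 1) % T == L + 1) = false →
      τ (lv (Gx L N w x)) = ent (Gx L N w (x + 1)) := by
    intro x hx
    rw [Bool.or_eq_false_iff, beq_eq_false_iff_ne, beq_eq_false_iff_ne] at hx
    obtain ⟨hx0, hx1⟩ := hx
    have h1 : (x + 1) % T = x % T + 1 := by
      have h3 := hmodT x
      have h4 := Nat.mod_add_div x T
      have h5 : (x + 1) = (x % T + 1) + T * (x / T) := by omega
      rcases Nat.lt_or_ge (x % T + 1) T with h6 | h6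
      · rw [h5, Nat.add_mul_mod_self_left, Nat.mod_eq_of_lt h6]
      · exfalso
        apply hx0
        rw [h5, Nat.add_mul_mod_self_left, show x % T + 1 = T by omega, Nat.mod_self]
    have h2 : (x + 1) / T = x / T := by
      have h4 := Nat.mod_add_div x T
      have h5 := Nat.mod_add_div (x + 1) T
      have h6 : T * ((x + 1) / T) = T * (x / T) := by omega
      exact Nat.eq_of_mul_eq_mul_left hTpos h6
    have h3 := hmodT (x + 1)
    rw [hT] at h1 h2 h3 hx0 hx1
    unfold Gx
    rw [h1] at h3 hx0 hx1 ⊢
    rw [h2]
    by_cases hx : x % (2 * (L + 1)) + 1 ≤ L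
    · rw [if_pos hx, if_pos (by omega)]
      exact hlink _ _ (by omega)
    · rw [if_neg hx, if_neg (by omega)]
      have h7 := hlink (N - 1 - x / (2 * (L + 1))) (x % (2 * (L + 1)) - (L + 1)) (by omega)
      rw [h7, show x % (2 * (L + 1)) - (L + 1) + 1 = x % (2 * (L + 1)) + 1 - (L + 1) by omega]
  -- the Dyck word
  obtain ⟨r, hr, D, hD, hok⟩ := exists_dyck (kx L kd) (sx L e) T hTpos
    (fun x => by have := kx_add L kd x 1; rwa [one_mul, ← hT] at this)
    (fun x => by have := sx_add L e x 1; rwa [one_mul, ← hT] at this)
    (by have := par_balance L kd e; rwa [← hT] at this)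
  -- the rearrangement
  have hsub0 : par_flat (Cx L N w e 0) (π.flatMap (blk L e c)) <+ xs := by
    refine (flat_sub _ _ _ π ?_).trans hsub
    intro i hi
    have : i < L + 1 := List.mem_range.1 ((hπ.mem_iff).1 hi)
    exact blk_sub L N w e c i (by omega)
  have hl' : ((arrL D ++ mkL D).map (fun x => (x % T, true))).length = T := by
    rw [List.length_map, (arr_perm D).length_eq, hD, List.length_range']
  obtain ⟨n1, g1, k1, t1, xs1, hn1, hk1, r1, s1⟩ := arrange τ W (Cx L N w e) (3 * T) Set.univ
    (fun v z c => Cx_not L N w e v z c)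
    (fun v hv z _ c => Cx_succ L N w e v z c (by omega)) T
    (π.flatMap (blk L e c)) ((arrL D ++ mkL D).map (fun x => (x % T, true))) [] 0 t xs hl'
    (by
      refine (perm_blk L e c π hπ).trans ?_
      rw [List.map_map]
      have h1 := ((arr_perm D).map (· % T))
      rw [hD] at h1
      have h2 := (h1.trans (range_mod T r)).symm
      rw [← hT]
      exact h2)
    (fun z _ => Set.mem_univ z) (by omega) (by rw [List.append_nil]; exact hsub0)
  rw [List.append_nil, Nat.zero_add] at s1
  -- the main phase
  obtain ⟨n, hn⟩ : ∃ n, n + 1 = N / 2 - 2 * (3 * T) := ⟨N / 2 - 2 * (3 * T) - 1, by omega⟩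
  set G : ℕ → Lt α := fun y => Gx L N w (y + 3 * T * T) with hG
  obtain ⟨c1, c2⟩ := cont_flat (kx L kd) (sx L e) T (Zn G T n) (Cx L N w e (3 * T)) D hok (by
    intro x hx
    rw [hD, List.mem_range'_1] at hx
    have h1 := zn_sub L N w (3 * T) n x hn (by rw [← hT]; omega)
    rw [Cx_true]
    have h2 : sx L e (x % T) = sx L e x := by
      rw [hT]
      exact sx_mod L e x
    rw [h2]
    have h3 : Zn G T n x <+ ((List.range' (3 * T) (N / 2 - 2 * (3 * T))).map
        fun q => Gx L N w (x % T + q * (2 * (L + 1)))) := by
      rw [hG]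
      have h4 := h1
      rw [← hT] at h4
      rw [← hT]
      exact h4
    by_cases hs : sx L e x = true
    · rw [if_pos hs, if_pos hs]
      exact h3
    · rw [if_neg hs, if_neg hs]
      exact h3.reverse)
  have s2 : ([] : List (Lt α)) ++ (cont (Zn G T n) D ++ ([] ++ (mcont (sx L e) (Zn G T n) D ++
      []))) <+ xs1 := by
    rw [List.nil_append, List.nil_append, List.append_nil]
    refine (c1.append c2).trans ?_
    rw [← flat_append, ← List.map_append]
    exact s1
  obtain ⟨xs2, r2⟩ := cycles τ W (kx L kd) (sx L e) D hok r T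
    (fun x => by have := kx_add L kd x 1; rwa [one_mul, ← hT] at this) hD n G
    (fun x => by
      rw [hG]
      simp only
      rw [hGk, hT]
      exact kx_add L kd x _) t1 xs1 [] [] [] s2
  have hcount : ((List.range' r (n * T)).map G).countP W = 0 := by
    rw [List.countP_eq_zero]
    intro x hx
    obtain ⟨y, -, rfl⟩ := List.mem_map.1 hx
    rw [hG]
    simp only
    rw [hGW]
    exact Bool.false_ne_true
  rw [hcount] at r2
  refine ⟨_, _, _, _, _, r1.trans r2, ?_, ?_, ?_⟩
  · -- steps
    have h1 : n * T ≤ (N / 2) * T := Nat.mul_le_mul_right _ (by omega)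
    have h2 : (N / 2) * T = (2 * (N / 2)) * (L + 1) := by rw [hT]; ring
    have h3 : (2 * (N / 2)) * (L + 1) ≤ N * (L + 1) := Nat.mul_le_mul_right _ (by omega)
    omega
  · -- gains
    have hg : n * T ≤ gn τ t1 ((List.range' r (n * T)).map G) + 2 * n + 1 := by
      rcases Nat.eq_zero_or_pos (n * T) with h0 | h0
      · omega
      obtain ⟨m, hm⟩ : ∃ m, n * T = m + 1 := ⟨n * T - 1, by omega⟩
      have h1 := gn_link τ G (fun y => y % T == 0 || y % T == L + 1) m r (by
        intro x _ _ hx
        rw [hG]
        simp only
        have h2 := hGl (x + 3 * T * T) (by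
          have h3 : (x + 3 * T * T + 1) % T = (x + 1) % T := by
            rw [show x + 3 * T * T + 1 = (x + 1) + 3 * T * T by ring,
              Nat.add_mul_mod_self_right]
          rw [h3]
          exact hx)
        rw [h2]
        congr 2
        ring)
      have h2 := count_le_mul T (L + 1) n r
      rw [hm, List.range'_succ, List.countP_cons] at h2
      rw [hm, List.range'_succ, List.map_cons, gn]
      omega
    have h1 : 2 * n * L + 2 * n = n * T := by rw [hT]; ring
    have h2 : N ≤ 2 * n + 3 + 12 * T := by omega
    have h3 : N * L ≤ (2 * n + 3 + 12 * T) * L := Nat.mul_le_mul_right _ h2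
    have h4 : (2 * n + 3 + 12 * T) * L = 2 * n * L + 3 * L + 24 * (L + 1) * L := by
      rw [hT]; ring
    have h5 : 1 + 3 * L + 24 * (L + 1) * L ≤ 28 * (L + 1) ^ 2 := by nlinarith
    omega
  · omega

/-- **The parallel lemma.** `w b i` is the letter `i` of the window `b`, in the orientation in which
it is visited; the zones `{w b i : b < N}` are in the order `π`, each of them monotone. -/
theorem parallel (τ : α → α) (W : Lt α → Bool) [DecidableEq α] (L N : ℕ)
    (w : ℕ → ℕ → Lt α) (kd : ℕ → Bool)
    (hkd : ∀ b < N, ∀ i ≤ L, isMk (w b i) = kd i)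
    (hlink : ∀ b < N, ∀ i < L, τ (lv (w b i)) = ent (w b (i + 1)))
    (hW : ∀ b < N, ∀ i ≤ L, W (w b i) = false)
    (π : List ℕ) (hπ : π.Perm (List.range (L + 1))) (e c : ℕ → Bool) (t : α)
    (xs : List (Lt α)) (hsub : π.flatMap (zc w e c N) <+ xs) :
    ∃ n g k t' xs', Run τ W n g k (t, xs) (t', xs') ∧ n ≤ N * (L + 1) + 12 * (L + 1) ∧
      N * L ≤ g + 28 * (L + 1) ^ 2 ∧ k ≤ 12 * (L + 1) := by
  by_cases hN : 6 * (2 * (L + 1)) + 1 ≤ N / 2
  · have hw : ∀ i, zc (fun b i => if b < N then w b i else w 0 i) e c N i = zc w e c N i := by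
      intro i
      have h1 : inc (fun b i => if b < N then w b i else w 0 i) N i = inc w N i := by
        unfold inc
        apply List.map_congr_left
        intro b hb
        rw [List.mem_range] at hb
        simp only [if_pos hb]
      unfold zc
      rw [h1]
    have hN0 : 0 < N := by omega
    refine parallel_aux τ W L N (fun b i => if b < N then w b i else w 0 i) kd ?_ ?_ ?_ π hπ e c t
      xs ?_ hN
    · intro b i hi
      by_cases hb : b < N
      · simp only [if_pos hb]
        exact hkd b hb i hi
      · simp only [if_neg hb]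
        exact hkd 0 hN0 i hi
    · intro b i hi
      by_cases hb : b < N
      · simp only [if_pos hb]
        exact hlink b hb i hi
      · simp only [if_neg hb]
        exact hlink 0 hN0 i hi
    · intro b i hi
      by_cases hb : b < N
      · simp only [if_pos hb]
        exact hW b hb i hi
      · simp only [if_neg hb]
        exact hW 0 hN0 i hi
    · have h2 : zc (fun b i => if b < N then w b i else w 0 i) e c N = zc w e c N := funext hw
      rw [h2]
      exact hsub
  · refine ⟨0, 0, 0, t, xs, Run.refl _, by omega, ?_, by omega⟩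
    have h1 : N ≤ 24 * (L + 1) + 1 := by omega
    have h2 : N * L ≤ (24 * (L + 1) + 1) * L := Nat.mul_le_mul_right _ h1
    nlinarith

end BP2
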