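import Pool.Agent.BP2.D.ES
import Pool.Agent.BP2.D.Defs

/-!
# Good windows contain a separated monotone family

(burnt pancake numbers, part (D), version U, helper37)

A window is `pos i : Fin (L + 1) → ℕ` (positions of its letters, all distinct, `< m`).
`srt (pos i)` sorts it. A window is good if the product of the `L` consecutive distances of the
sorted positions is `> Θ`. Many good windows (in one class of a map `cl`) contain a family of `n`
windows with the same sorting permutation, common separators and every coordinate monotone.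
-/

namespace BP2.Pat

open Finset BP2.ES

variable {ι : Type*}

/-- the sorting permutation of a window -/
noncomputable def srt {L : ℕ} (p : Fin (L + 1) → ℕ) : Equiv.Perm (Fin (L + 1)) := Tuple.sort p

lemma srt_mono {L : ℕ} (p : Fin (L + 1) → ℕ) : Monotone (p ∘ srt p) := Tuple.monotone_sort p

lemma srt_strict {L : ℕ} {p : Fin (L + 1) → ℕ} (hp : Function.Injective p) :
    StrictMono (p ∘ srt p) :=
  (srt_mono p).strictMono_of_injective (hp.comp (srt p).injective)

/-- the consecutive distances of the sorted positions -/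
noncomputable def dist {L : ℕ} (p : Fin (L + 1) → ℕ) (r : Fin L) : ℕ :=
  p (srt p r.succ) - p (srt p r.castSucc)

lemma dist_pos {L : ℕ} {p : Fin (L + 1) → ℕ} (hp : Function.Injective p) (r : Fin L) :
    0 < dist p r := by
  have h := srt_strict hp (Fin.castSucc_lt_succ (i := r))
  simp only [Function.comp_apply] at h
  unfold dist
  omega

/-- the code of a window: exponents -/
noncomputable def ex {L : ℕ} (p : Fin (L + 1) → ℕ) (r : Fin L) : ℕ := Nat.log 2 (dist p r)

/-- the code of a window: separators (divided by `2 ^ ex`) -/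
noncomputable def sep {L : ℕ} (p : Fin (L + 1) → ℕ) (r : Fin L) : ℕ :=
  (p (srt p r.succ) - 1) / 2 ^ ex p r

lemma sep_lt {L : ℕ} {p : Fin (L + 1) → ℕ} (hp : Function.Injective p) (r : Fin L) :
    2 ^ ex p r * sep p r < p (srt p r.succ) := by
  have h0 : 0 < p (srt p r.succ) := by
    have := dist_pos hp r
    unfold dist at this
    omega
  have h1 := Nat.mul_div_le (p (srt p r.succ) - 1) (2 ^ ex p r)
  unfold sep
  omega

lemma le_sep {L : ℕ} {p : Fin (L + 1) → ℕ} (hp : Function.Injective p) (r : Fin L) :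
    p (srt p r.castSucc) ≤ 2 ^ ex p r * sep p r := by
  have hd := dist_pos hp r
  have he : 2 ^ ex p r ≤ dist p r := Nat.pow_log_le_self 2 hd.ne'
  have h2 : p (srt p r.succ) - 1 < 2 ^ ex p r * (sep p r) + 2 ^ ex p r := by
    have := Nat.lt_mul_div_succ (p (srt p r.succ) - 1) (b := 2 ^ ex p r) (by positivity)
    unfold sep
    rw [Nat.mul_add, Nat.mul_one] at this
    exact this
  unfold dist at he hd
  omega

lemma sep_le {L : ℕ} {p : Fin (L + 1) → ℕ} {m : ℕ} (hm : ∀ j, p j < m) (r : Fin L) :
    sep p r < m / 2 ^ ex p r + 1 := by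
  unfold sep
  have h := hm (srt p r.succ)
  have : (p (srt p r.succ) - 1) / 2 ^ ex p r ≤ m / 2 ^ ex p r :=
    Nat.div_le_div_right (by omega)
  omega

lemma ex_le {L : ℕ} {p : Fin (L + 1) → ℕ} {m : ℕ} (hm : ∀ j, p j < m) (r : Fin L) :
    ex p r < Nat.log 2 m + 1 := by
  unfold ex
  have h := hm (srt p r.succ)
  have : Nat.log 2 (dist p r) ≤ Nat.log 2 m := Nat.log_mono_right (by unfold dist; omega)
  omega

lemma pow_ex_le {L : ℕ} {p : Fin (L + 1) → ℕ} {m : ℕ} (hp : Function.Injective p)
    (hm : ∀ j, p j < m) (r : Fin L) : 2 ^ ex p r ≤ m := by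
  have h1 := Nat.pow_log_le_self 2 (dist_pos hp r).ne'
  have h := hm (srt p r.succ)
  have h2 : dist p r ≤ m := by unfold dist; omega
  exact h1.trans h2

/-- exponent vectors which occur for good windows -/
def Ex (L m Θ : ℕ) : Finset (Fin L → ℕ) :=
  (Fintype.piFinset fun _ : Fin L => Finset.range (Nat.log 2 m + 1)).filter
    (fun e => (∀ r, 2 ^ e r ≤ m) ∧ Θ < 2 ^ L * ∏ r, 2 ^ e r)

lemma card_Ex (L m Θ : ℕ) : (Ex L m Θ).card ≤ (Nat.log 2 m + 1) ^ L := by
  unfold Ex
  refine (Finset.card_filter_le _ _).trans ?_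
  rw [Fintype.card_piFinset]
  simp

lemma ex_mem {L : ℕ} {p : Fin (L + 1) → ℕ} {m Θ : ℕ} (hp : Function.Injective p)
    (hm : ∀ j, p j < m) (hg : Θ < ∏ r, dist p r) : ex p ∈ Ex L m Θ := by
  unfold Ex
  rw [Finset.mem_filter, Fintype.mem_piFinset]
  refine ⟨fun r => Finset.mem_range.mpr (ex_le hm r), fun r => pow_ex_le hp hm r, ?_⟩
  refine lt_of_lt_of_le hg ?_
  have h1 : (2 : ℕ) ^ L * ∏ r : Fin L, 2 ^ ex p r = ∏ r : Fin L, (2 * 2 ^ ex p r) := by
    rw [Finset.prod_mul_distrib]
    simp
  rw [h1]
  refine Finset.prod_le_prod' fun r _ => ?_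
  have := Nat.lt_pow_succ_log_self (b := 2) (by norm_num) (dist p r)
  unfold ex
  rw [pow_succ] at this
  omega

/-- the finset of the pairs (exponents, separators) -/
def Cd (L m Θ : ℕ) : Finset ((_ : Fin L → ℕ) × (Fin L → ℕ)) :=
  (Ex L m Θ).sigma fun e => Fintype.piFinset fun r => Finset.range (m / 2 ^ e r + 1)

lemma card_Cd (L m Θ : ℕ) :
    (Cd L m Θ).card * Θ ≤ (Nat.log 2 m + 1) ^ L * (4 * m) ^ L := by
  unfold Cd
  rw [Finset.card_sigma, Finset.sum_mul]
  have h : ∀ e ∈ Ex L m Θ,
      (Fintype.piFinset fun r : Fin L => Finset.range (m / 2 ^ e r + 1)).card * Θ ≤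
        (4 * m) ^ L := by
    intro e he
    unfold Ex at he
    rw [Finset.mem_filter] at he
    obtain ⟨-, hem, heΘ⟩ := he
    rw [Fintype.card_piFinset]
    simp only [Finset.card_range]
    calc (∏ r : Fin L, (m / 2 ^ e r + 1)) * Θ
        ≤ (∏ r : Fin L, (m / 2 ^ e r + 1)) * (2 ^ L * ∏ r : Fin L, 2 ^ e r) :=
          Nat.mul_le_mul_left _ heΘ.le
      _ = ∏ r : Fin L, ((m / 2 ^ e r + 1) * (2 * 2 ^ e r)) := by
          rw [Finset.prod_mul_distrib, Finset.prod_mul_distrib]
          simp
      _ ≤ ∏ _r : Fin L, (4 * m) := by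
          refine Finset.prod_le_prod' fun r _ => ?_
          have h1 := Nat.div_mul_le_self m (2 ^ e r)
          have h2 := hem r
          nlinarith
      _ = (4 * m) ^ L := by simp
  calc ∑ e ∈ Ex L m Θ,
        (Fintype.piFinset fun r : Fin L => Finset.range (m / 2 ^ e r + 1)).card * Θ
      ≤ ∑ _e ∈ Ex L m Θ, (4 * m) ^ L := Finset.sum_le_sum h
    _ = (Ex L m Θ).card * (4 * m) ^ L := by simp
    _ ≤ _ := Nat.mul_le_mul_right _ (card_Ex L m Θ)

/-- **Pattern theorem.** -/
theorem pattern {κ : Type*} [Fintype κ] [DecidableEq κ] {L m Θ n : ℕ}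
    (S : Finset ι) (pos : ι → Fin (L + 1) → ℕ) (cl : ι → κ)
    (hm : ∀ i ∈ S, ∀ j, pos i j < m)
    (hinj : ∀ j, Set.InjOn (fun i => pos i j) (S : Set ι))
    (hwin : ∀ i ∈ S, Function.Injective (pos i))
    (hgood : ∀ i ∈ S, Θ < ∏ r, dist (pos i) r)
    (hcard : (L + 1).factorial * Fintype.card κ * ((Nat.log 2 m + 1) ^ L * (4 * m) ^ L) *
      n ^ (2 ^ L) < S.card * Θ) :
    ∃ (ρ : Equiv.Perm (Fin (L + 1))) (c : κ) (z : Fin L → ℕ) (f : Fin n → ι),
      Function.Injective f ∧ (∀ k, f k ∈ S) ∧ (∀ k, cl (f k) = c) ∧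
      (∀ k, srt (pos (f k)) = ρ) ∧
      (∀ k r, pos (f k) (ρ r.castSucc) ≤ z r ∧ z r < pos (f k) (ρ r.succ)) ∧
      StrictMono (fun k => pos (f k) 0) ∧
      ∀ j, StrictMono (fun k => pos (f k) j) ∨ StrictAnti (fun k => pos (f k) j) := by
  classical
  let code : ι → Equiv.Perm (Fin (L + 1)) × κ × ((_ : Fin L → ℕ) × (Fin L → ℕ)) :=
    fun i => (srt (pos i), cl i, ⟨ex (pos i), sep (pos i)⟩)
  let T : Finset (Equiv.Perm (Fin (L + 1)) × κ × ((_ : Fin L → ℕ) × (Fin L → ℕ))) :=
    Finset.univ ×ˢ (Finset.univ ×ˢ Cd L m Θ)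
  have hmaps : ∀ i ∈ S, code i ∈ T := by
    intro i hi
    simp only [code, T, Finset.mem_product, Finset.mem_univ, true_and]
    unfold Cd
    rw [Finset.mem_sigma]
    refine ⟨ex_mem (hwin i hi) (hm i hi) (hgood i hi), ?_⟩
    rw [Fintype.mem_piFinset]
    intro r
    exact Finset.mem_range.mpr (sep_le (hm i hi) r)
  have hT : T.card * n ^ (2 ^ L) < S.card := by
    have hTc : T.card = (L + 1).factorial * (Fintype.card κ * (Cd L m Θ).card) := by
      simp only [T, Finset.card_product, Finset.card_univ, Fintype.card_perm, Fintype.card_fin]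
    have h1 := card_Cd L m Θ
    have h2 : T.card * n ^ (2 ^ L) * Θ < S.card * Θ := by
      refine lt_of_le_of_lt ?_ hcard
      rw [hTc]
      calc (L + 1).factorial * (Fintype.card κ * (Cd L m Θ).card) * n ^ (2 ^ L) * Θ
          = (L + 1).factorial * Fintype.card κ * ((Cd L m Θ).card * Θ) * n ^ (2 ^ L) := by ring
        _ ≤ (L + 1).factorial * Fintype.card κ *
            ((Nat.log 2 m + 1) ^ L * (4 * m) ^ L) * n ^ (2 ^ L) := by gcongr
    exact lt_of_mul_lt_mul_right h2 (Nat.zero_le _)
  obtain ⟨y, -, hy⟩ := Finset.exists_lt_card_fiber_of_mul_lt_card_of_maps_to hmaps hT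
  obtain ⟨f, hfi, hfS, hf0, hfm⟩ := es_enum (pos := pos) (L := L) (n := n)
    (S := S.filter (fun i => code i = y))
    (fun j => (hinj j).mono (by exact_mod_cast Finset.filter_subset _ _)) hy.le
  have hfS' : ∀ k, f k ∈ S ∧ code (f k) = y := fun k => Finset.mem_filter.mp (hfS k)
  obtain ⟨ρ, c, e, s⟩ := y
  refine ⟨ρ, c, fun r => 2 ^ e r * s r, f, hfi, fun k => (hfS' k).1, ?_, ?_, ?_, hf0, hfm⟩
  · intro k
    have := (hfS' k).2
    simp only [code, Prod.mk.injEq] at this
    exact this.2.1
  · intro k
    have := (hfS' k).2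
    simp only [code, Prod.mk.injEq] at this
    exact this.1
  · intro k r
    have h := (hfS' k).2
    simp only [code, Prod.mk.injEq, Sigma.mk.injEq, heq_eq_eq] at h
    obtain ⟨h1, -, h3, h4⟩ := h
    have hw := hwin (f k) (hfS' k).1
    have ha := le_sep hw r
    have hb := sep_lt hw r
    rw [h1, h3, h4] at ha hb
    exact ⟨ha, hb⟩

/-! ### the list form -/

open List in
/-- Increasing positions give a sublist. -/
lemma sublist_of_pos {β : Type*} {xs : List β} {ps : List ℕ} {ws : List β}
    (hinc : ps.Pairwise (· < ·)) (hget : ps.map (fun x => xs[x]?) = ws.map some) : ws <+ xs := by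
  have hl : ps.length = ws.length := by
    have := congrArg List.length hget
    simpa using this
  have hget' : ∀ k (h : k < ps.length), xs[ps[k]]? = some (ws[k]'(hl ▸ h)) := by
    intro k h
    have h1 : (ps.map (fun x => xs[x]?))[k]'(by simpa using h) =
        (ws.map some)[k]'(by simpa using (hl ▸ h)) := by
      simp only [hget]
    simpa using h1
  have hlt : ∀ k (h : k < ps.length), ps[k] < xs.length := by
    intro k h
    have := hget' k h
    rw [List.getElem?_eq_some_iff] at this
    exact this.1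
  let is : List (Fin xs.length) :=
    List.ofFn (fun k : Fin ps.length => (⟨ps[k], hlt k k.2⟩ : Fin xs.length))
  have his : is.Pairwise (· < ·) := by
    rw [List.pairwise_ofFn]
    intro i j hij
    rw [List.pairwise_iff_getElem] at hinc
    exact hinc i j i.2 j.2 hij
  have h := List.map_getElem_sublist his
  have e : is.map (fun i => xs[i]) = ws := by
    apply List.ext_getElem
    · simp [is, hl]
    · intro k h1 h2
      have hk : k < ps.length := by rw [hl]; exact h2
      have := hget' k hk
      rw [List.getElem?_eq_some_iff] at this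
      obtain ⟨hx, he⟩ := this
      simp only [is, List.getElem_map, List.getElem_ofFn]
      exact he
  rw [← e]
  exact h

/-- the zone `j` of a family: the marks of the windows in increasing or decreasing order -/
def zone {β : Type*} {L n : ℕ} (w : Fin n → Fin (L + 1) → β) (dec : Fin (L + 1) → Bool)
    (j : Fin (L + 1)) : List β :=
  if dec j then ((List.finRange n).map fun k => w k j).reverse
  else (List.finRange n).map fun k => w k j

lemma zone_map {β γ : Type*} {L n : ℕ} (w : Fin n → Fin (L + 1) → β) (dec : Fin (L + 1) → Bool)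
    (g : β → γ) (j : Fin (L + 1)) :
    (zone w dec j).map g = zone (fun k j => g (w k j)) dec j := by
  unfold zone
  split_ifs <;> simp [List.map_reverse, Function.comp_def]

lemma mem_zone {β : Type*} {L n : ℕ} {w : Fin n → Fin (L + 1) → β} {dec : Fin (L + 1) → Bool}
    {j : Fin (L + 1)} {x : β} : x ∈ zone w dec j ↔ ∃ k, w k j = x := by
  unfold zone
  split_ifs <;> simp

open List in
/-- A separated monotone family is a sublist: zone after zone, in the order `ρ`. -/
theorem zones_sublist {β : Type*} {L n : ℕ} {xs : List β} {w : Fin n → Fin (L + 1) → β}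
    {p : Fin n → Fin (L + 1) → ℕ} (hget : ∀ k j, xs[p k j]? = some (w k j))
    {ρ : Equiv.Perm (Fin (L + 1))} {z : Fin L → ℕ}
    (hz : ∀ k r, p k (ρ r.castSucc) ≤ z r ∧ z r < p k (ρ r.succ))
    {dec : Fin (L + 1) → Bool}
    (hinc : ∀ j, dec j = false → StrictMono (fun k => p k j))
    (hdec : ∀ j, dec j = true → StrictAnti (fun k => p k j)) :
    ((List.finRange (L + 1)).flatMap fun r => zone w dec (ρ r)) <+ xs := by
  have hsort : ∀ k, StrictMono (fun r => p k (ρ r)) := by
    intro k
    rw [Fin.strictMono_iff_lt_succ]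
    intro r
    have := hz k r
    omega
  apply sublist_of_pos (ps := (List.finRange (L + 1)).flatMap fun r => zone p dec (ρ r))
  · rw [List.pairwise_flatMap]
    constructor
    · intro r _
      unfold zone
      split_ifs with h
      · rw [List.pairwise_reverse, List.pairwise_map]
        refine (List.pairwise_lt_finRange n).imp ?_
        intro a b hab
        exact hdec _ h hab
      · rw [List.pairwise_map]
        refine (List.pairwise_lt_finRange n).imp ?_
        intro a b hab
        exact hinc _ (by simpa using h) hab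
    · refine (List.pairwise_lt_finRange (L + 1)).imp ?_
      intro r r' hrr x hx y hy
      rw [mem_zone] at hx hy
      obtain ⟨k, rfl⟩ := hx
      obtain ⟨k', rfl⟩ := hy
      -- `r` is not the last one
      have hr : (r : ℕ) < L := by
        have := r'.2
        have h2 : (r : ℕ) < r' := hrr
        omega
      let q : Fin L := ⟨r, hr⟩
      have e1 : q.castSucc = r := by ext; rfl
      have h1 := (hz k q).1
      have h2 := (hz k' q).2
      rw [e1] at h1
      have h3 : p k' (ρ q.succ) ≤ p k' (ρ r') := by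
        apply (hsort k').monotone
        rw [Fin.le_def]
        simp only [q, Fin.val_succ]
        have h2 : (r : ℕ) < r' := hrr
        omega
      omega
  · rw [List.map_flatMap, List.map_flatMap]
    congr 1
    funext r
    rw [zone_map, zone_map]
    congr 1
    funext k j
    exact hget k j

open List in
/-- **Pattern theorem, list form.** `xs` is the list of the letters, `w i j` the letter number
`j` of the window `i`, at the place `pos i j`. -/
theorem pattern_list {β κ : Type*} [Fintype κ] [DecidableEq κ] {L Θ n : ℕ} {xs : List β}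
    (S : Finset ι) (pos : ι → Fin (L + 1) → ℕ) (w : ι → Fin (L + 1) → β) (cl : ι → κ)
    (hget : ∀ i ∈ S, ∀ j, xs[pos i j]? = some (w i j))
    (hinj : ∀ j, Set.InjOn (fun i => pos i j) (S : Set ι))
    (hwin : ∀ i ∈ S, Function.Injective (pos i))
    (hgood : ∀ i ∈ S, Θ < ∏ r, dist (pos i) r)
    (hcard : (L + 1).factorial * Fintype.card κ *
      ((Nat.log 2 xs.length + 1) ^ L * (4 * xs.length) ^ L) * n ^ (2 ^ L) < S.card * Θ) :
    ∃ (ρ : Equiv.Perm (Fin (L + 1))) (c : κ) (dec : Fin (L + 1) → Bool) (f : Fin n → ι),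
      Function.Injective f ∧ (∀ k, f k ∈ S) ∧ (∀ k, cl (f k) = c) ∧ dec 0 = false ∧
      ((List.finRange (L + 1)).flatMap fun r => zone (fun k => w (f k)) dec (ρ r)) <+ xs := by
  classical
  have hm : ∀ i ∈ S, ∀ j, pos i j < xs.length := by
    intro i hi j
    have := hget i hi j
    rw [List.getElem?_eq_some_iff] at this
    exact this.1
  obtain ⟨ρ, c, z, f, h1, h2, h3, -, h5, h6, h7⟩ :=
    pattern S pos cl hm hinj hwin hgood hcard
  refine ⟨ρ, c, fun j => if StrictMono (fun k => pos (f k) j) then false else true, f, h1, h2, h3,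
    ?_, ?_⟩
  · simp only [h6, if_true]
  · have hA : ∀ k j, xs[pos (f k) j]? = some (w (f k) j) := fun k j => hget (f k) (h2 k) j
    refine zones_sublist (p := fun k => pos (f k)) (w := fun k => w (f k)) hA h5 ?_ ?_
    · intro j hj
      by_contra hc
      simp only [hc, if_false] at hj
      exact absurd hj (by decide)
    · intro j hj
      rcases h7 j with h | h
      · simp only [h, if_true] at hj
        exact absurd hj (by decide)
      · exact h

end BP2.Pat
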