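import Pool.Agent.BP2.D.Stmt

set_option autoImplicit false

/-!
# MP_475aca_co, part (D): the recursion over the number of letters
-/

namespace BP2

/-- no run from `s` to at most `m₁` letters with `n ≤ (1 + ε) g` steps and `k ≤ ε g` bad ones -/
def Bd {α : Type*} (ty : α → Bool) (m₁ ε : ℝ) (s : St α) (τ : α → α) : Prop :=
  ¬ ∃ (n g k : ℕ) (s' : St α), Run τ (Wr ty) n g k s s' ∧ (s'.2.length : ℝ) ≤ m₁ ∧
    (n : ℝ) ≤ (1 + ε) * g ∧ (k : ℝ) ≤ ε * g

lemma lb_append {α : Type*} (ρ φ : List (α × α)) : lb (ρ ++ φ) = lb ρ ++ lb φ := by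
  simp [lb]

lemma WF.next {α : Type*} {s s' : St α} {ρ φ : List (α × α)} (h : WF s ρ)
    (hp : (labels s).Perm (labels s' ++ lb φ)) : WF s' (ρ ++ φ) := by
  have h1 : (labels s ++ lb ρ).Perm (labels s' ++ lb (ρ ++ φ)) := by
    rw [lb_append]
    calc (labels s ++ lb ρ).Perm ((labels s' ++ lb φ) ++ lb ρ) := hp.append_right _
      _ = labels s' ++ (lb φ ++ lb ρ) := by rw [List.append_assoc]
      _ |>.Perm (labels s' ++ (lb ρ ++ lb φ)) := List.perm_append_comm.append_left _
  exact ⟨h1.nodup_iff.1 h.nodup, fun x => (h1.mem_iff).1 (h.cover x)⟩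

/-- the number of visits of a family run is at most `nmax` -/
def nmax (c₁ N L : ℕ) : ℕ := N * (L + 1) + c₁ * (L + 1) ^ 2

open Classical in
/-- the recursion: `F m` = bound for the fraction of the bad pairings -/
theorem recursion {c₀ c₁ : ℕ} (hT2 : Outcomes) (hT3 : StuckCard c₀) (hT4 : ParLemma c₁)
    (hT5 : ImpLemma) {α : Type} [Fintype α] (ty : α → Bool) (T : α) (ε : ℝ)
    (M N R : ℕ) (Lf : ℕ → ℕ) (F : ℕ → ℝ) (hF : ∀ m, 0 ≤ F m)
    (hL : ∀ m, 1 ≤ Lf m)
    (A1 : ∀ m : ℕ, m ≤ M → ε * M < m →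
      2 * (m : ℝ) ^ (-((m : ℝ) / (c₀ * (Lf m + 1)))) ≤ F m)
    (A2 : ∀ m : ℕ, m ≤ M → ε * M < m → ∀ n g k m₁ : ℕ, n ≤ nmax c₁ N (Lf m) → g ≤ n →
      N * Lf m ≤ g + c₁ * (Lf m + 1) ^ 2 → k ≤ c₁ * (Lf m + 1) ^ 2 → m ≤ m₁ + g → m₁ + g ≤ m + k →
      2 * (nmax c₁ N (Lf m) + 1 : ℝ) * (3 * (m + n)) ^ n *
        ((m₁.factorial : ℝ) * F m₁) ≤ (m.factorial : ℝ) * F m)
    (A3 : ∀ m : ℕ, m ≤ M → ε * M < m → ∀ g : ℕ, N * Lf m ≤ g + c₁ * (Lf m + 1) ^ 2 →
      2 * (c₁ * (Lf m + 1) ^ 2) * R + c₁ * (Lf m + 1) ^ 2 + 1 ≤ g ∧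
      (nmax c₁ N (Lf m) : ℝ) ≤ (1 + ε) * g ∧ ((c₁ * (Lf m + 1) ^ 2 : ℕ) : ℝ) ≤ ε * g)
    (A4 : ∀ m : ℕ, m ≤ M → ε * M < m → 16 * (Lf m + 1) * (2 * M) ≤ R * m)
    (A5 : ∀ m : ℕ, m ≤ M → ε * M < m → Classical.choose (hT3 (Lf m) N (hL m)) ≤ m)
    (hR : 0 < R) (hε : 0 < ε) :
    ∀ (m : ℕ) (s : St α) (ρ : List (α × α)), s.2.length = m → m ≤ M → WF s ρ →
      imp ty s * R ≤ 2 * M - m →
      (((Sh ty T ρ s).filter (Bd ty (ε * M) ε s)).card : ℝ) ≤ (m.factorial : ℝ) * F m := by
  intro m
  induction m using Nat.strong_induction_on with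
  | _ m ih =>
  intro s ρ hs hm hW himp
  by_cases hsm : (m : ℝ) ≤ ε * M
  · have : (Sh ty T ρ s).filter (Bd ty (ε * M) ε s) = ∅ := by
      rw [Finset.filter_eq_empty_iff]
      intro τ _ hB
      exact hB ⟨0, 0, 0, s, Run.refl s, by rw [hs]; exact hsm, by simp, by simp⟩
    rw [this]
    simpa using mul_nonneg (Nat.cast_nonneg _) (hF m)
  · push Not at hsm
    have hmR : (0 : ℝ) ≤ (m.factorial : ℝ) := Nat.cast_nonneg _
    have hm0 : (0 : ℝ) < m := lt_of_le_of_lt (by positivity) hsm
    -- the stuck pairings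
    have hstuck := Classical.choose_spec (hT3 (Lf m) N (hL m)) α ty T s ρ hW
      (by rw [hs]; exact A5 m hm hsm) (by
        rw [hs]
        have h1 := A4 m hm hsm
        have h2 : imp ty s * R ≤ 2 * M := himp.trans (Nat.sub_le _ _)
        have h3 : (16 * (Lf m + 1) * imp ty s) * R ≤ m * R := by
          calc (16 * (Lf m + 1) * imp ty s) * R = 16 * (Lf m + 1) * (imp ty s * R) := by ring
            _ ≤ 16 * (Lf m + 1) * (2 * M) := Nat.mul_le_mul_left _ h2
            _ ≤ R * m := h1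
            _ = m * R := by ring
        exact Nat.le_of_mul_le_mul_right h3 hR)
    rw [hs] at hstuck
    -- the outcomes
    choose S hScard hS using fun n => hT2 α (Wr ty) s n
    set nm := nmax c₁ N (Lf m) with hnm
    let Ax : ℕ → List (α × α) × St α → Finset (α → α) := fun n x =>
      (Sh ty T ρ s).filter fun τ => Bd ty (ε * M) ε s τ ∧
        (labels s).Perm (labels x.2 ++ lb x.1) ∧ τ ∈ Sh ty T (ρ ++ x.1) x.2 ∧
        ∃ g k, Run τ (Wr ty) n g k s x.2 ∧ N * Lf m ≤ g + c₁ * (Lf m + 1) ^ 2 ∧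
          k ≤ c₁ * (Lf m + 1) ^ 2
    have hsub : (Sh ty T ρ s).filter (Bd ty (ε * M) ε s) ⊆
        stuckSet ty T ρ s N (Lf m) ∪
          (Finset.range (nm + 1)).biUnion fun n => (S n).biUnion fun x => Ax n x := by
      intro τ hτ
      rw [Finset.mem_filter] at hτ
      rw [Finset.mem_union]
      by_cases hfam : Fam τ ty s.2 N (Lf m)
      · right
        have hnd : (labels s).Nodup := (List.nodup_append.1 hW.nodup).1
        obtain ⟨n, g, k, s', hrun, hn, hg, hk⟩ := hT4 α τ ty s N (Lf m) hnd hfam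
        obtain ⟨φ, hφ, hperm, hmem⟩ := hS n ty T ρ hW τ g k s' hτ.1 hrun
        rw [Finset.mem_biUnion]
        refine ⟨n, by rw [Finset.mem_range, hnm]; unfold nmax; omega, ?_⟩
        rw [Finset.mem_biUnion]
        refine ⟨(φ, s'), hφ, ?_⟩
        simp only [Ax, Finset.mem_filter]
        exact ⟨hτ.1, hτ.2, hperm, hmem, g, k, hrun, hg, hk⟩
      · left
        unfold stuckSet
        rw [Finset.mem_filter]
        exact ⟨hτ.1, hfam⟩
    -- one outcome
    have hone : ∀ n ∈ Finset.range (nm + 1), ∀ x ∈ S n,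
        2 * (nm + 1 : ℝ) * (3 * (m + n)) ^ n * ((Ax n x).card : ℝ) ≤ (m.factorial : ℝ) * F m := by
      intro n hn x hx
      rw [Finset.mem_range] at hn
      rcases (Ax n x).eq_empty_or_nonempty with he | ⟨τ₀, hτ₀⟩
      · rw [he]
        simpa using mul_nonneg hmR (hF m)
      · simp only [Ax, Finset.mem_filter] at hτ₀
        obtain ⟨_, _, hperm, _, g₀, k₀, hrun₀, hg₀, hk₀⟩ := hτ₀
        have hlen := hrun₀.length
        rw [hs] at hlen
        obtain ⟨a31, a33, a34⟩ := A3 m hm hsm g₀ hg₀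
        have hgn : g₀ ≤ n := hrun₀.le.1
        have himp' := hT5 α τ₀ ty _ _ _ _ _ hrun₀
        have hkR : 2 * k₀ * R ≤ 2 * (c₁ * (Lf m + 1) ^ 2) * R :=
          Nat.mul_le_mul_right _ (by omega)
        have hI := ih x.2.2.length (by omega) x.2 (ρ ++ x.1) rfl (by omega)
          (hW.next hperm) (by
            have h7 : imp ty x.2 * R ≤ imp ty s * R + 2 * k₀ * R := by
              calc imp ty x.2 * R ≤ (imp ty s + 2 * k₀) * R := Nat.mul_le_mul_right _ himp'
                _ = imp ty s * R + 2 * k₀ * R := by ring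
            omega)
        have hcard : ((Ax n x).card : ℝ) ≤ (x.2.2.length.factorial : ℝ) * F x.2.2.length := by
          refine le_trans ?_ hI
          have : Ax n x ⊆ (Sh ty T (ρ ++ x.1) x.2).filter (Bd ty (ε * M) ε x.2) := by
            intro τ hτ
            simp only [Ax, Finset.mem_filter] at hτ
            obtain ⟨hτ1, hτB, _, hτS, g, k, hrun, hg, hk⟩ := hτ
            rw [Finset.mem_filter]
            refine ⟨hτS, ?_⟩
            intro ⟨n', g', k', s', hr', h1, h2, h3⟩
            obtain ⟨_, b33, b34⟩ := A3 m hm hsm g hg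
            apply hτB
            refine ⟨_, _, _, s', hrun.trans hr', h1, ?_, ?_⟩
            · push_cast
              have : (n : ℝ) ≤ (1 + ε) * g :=
                le_trans (by exact_mod_cast (by omega : n ≤ nm)) b33
              linarith
            · push_cast
              have : (k : ℝ) ≤ ε * g := le_trans (by exact_mod_cast hk) b34
              linarith
          exact_mod_cast Finset.card_le_card this
        have ha2 := A2 m hm hsm n g₀ k₀ x.2.2.length (by omega) hgn hg₀ hk₀ hlen.2 hlen.1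
        refine le_trans ?_ ha2
        have h0 : (0 : ℝ) ≤ 2 * (nm + 1 : ℝ) * (3 * (m + n)) ^ n := by positivity
        exact mul_le_mul_of_nonneg_left hcard h0
    -- sum
    have hsum : ∀ n ∈ Finset.range (nm + 1), (((S n).biUnion fun x => Ax n x).card : ℝ) ≤
        (m.factorial : ℝ) * F m / (2 * (nm + 1)) := by
      intro n hn
      have h1 : (((S n).biUnion fun x => Ax n x).card : ℝ) ≤ ∑ x ∈ S n, ((Ax n x).card : ℝ) := by
        exact_mod_cast Finset.card_biUnion_le
      have h2 : ∑ x ∈ S n, ((Ax n x).card : ℝ) ≤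
          ∑ x ∈ S n, (m.factorial : ℝ) * F m / (2 * (nm + 1) * (3 * (m + n)) ^ n) := by
        apply Finset.sum_le_sum
        intro x hx
        rw [le_div_iff₀ (by positivity)]
        have := hone n hn x hx
        linarith
      refine h1.trans (h2.trans ?_)
      rw [Finset.sum_const, nsmul_eq_mul]
      have h3 : ((S n).card : ℝ) ≤ (3 * (m + n)) ^ n := by
        have := hScard n
        rw [hs] at this
        exact_mod_cast this
      have h4 : (0 : ℝ) ≤ (m.factorial : ℝ) * F m / (2 * (nm + 1) * (3 * (m + n)) ^ n) := by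
        apply div_nonneg (mul_nonneg hmR (hF m))
        positivity
      refine (mul_le_mul_of_nonneg_right h3 h4).trans (le_of_eq ?_)
      field_simp
    calc (((Sh ty T ρ s).filter (Bd ty (ε * M) ε s)).card : ℝ)
        ≤ ((stuckSet ty T ρ s N (Lf m) ∪
          (Finset.range (nm + 1)).biUnion fun n => (S n).biUnion fun x => Ax n x).card : ℝ) := by
          exact_mod_cast Finset.card_le_card hsub
      _ ≤ ((stuckSet ty T ρ s N (Lf m)).card : ℝ) +
          (((Finset.range (nm + 1)).biUnion fun n => (S n).biUnion fun x => Ax n x).card : ℝ) := by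
          exact_mod_cast Finset.card_union_le _ _
      _ ≤ (m.factorial : ℝ) * F m / 2 + (m.factorial : ℝ) * F m / 2 := by
          apply add_le_add
          · refine hstuck.trans ?_
            have := A1 m hm hsm
            have h5 := mul_le_mul_of_nonneg_left this hmR
            linarith
          · have h6 : (((Finset.range (nm + 1)).biUnion fun n =>
                (S n).biUnion fun x => Ax n x).card : ℝ) ≤
                ∑ n ∈ Finset.range (nm + 1), (((S n).biUnion fun x => Ax n x).card : ℝ) := by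
              exact_mod_cast Finset.card_biUnion_le
            refine h6.trans ((Finset.sum_le_sum hsum).trans ?_)
            rw [Finset.sum_const, nsmul_eq_mul, Finset.card_range]
            apply le_of_eq
            push_cast
            field_simp
      _ = (m.factorial : ℝ) * F m := by ring

end BP2
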