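import Pool.Agent.BP2.D.FamP
import Pool.Agent.BP2.D.Decomp

/-!
# Few typed pairings have no family: translation from states to abstract pairings

(burnt pancake numbers, part (D), version U, T3 (a), helper37)
-/

set_option autoImplicit false

namespace BP2.Stk

open Lt BP2

variable {α : Type}

/-! ### free and inner labels -/

/-- the labels `ent`, `lv` of a letter -/
def fl (x : Lt α) : List α := [x.ent, x.lv]

/-- the inner labels of a letter -/
def inn : Lt α → List α
  | gap _ _ => []
  | mk a _ _ b => [a, b]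

/-- the free labels of a state -/
def free (s : St α) : List α := s.1 :: s.2.flatMap fl

/-- the inner labels of a state -/
def inner (s : St α) : List α := s.2.flatMap inn

lemma labels_perm_lt (x : Lt α) : x.labels.Perm (fl x ++ inn x) := by
  cases x with
  | gap u l =>
    simp only [Lt.labels, fl, inn, ent, lv, List.append_nil]
    exact List.Perm.swap _ _ _
  | mk a u l b =>
    simp only [Lt.labels, fl, inn, ent, lv]
    have h : [a, u, l, b].Perm ([u, l] ++ [a, b]) := by
      have h1 : ([a] ++ [u, l]).Perm ([u, l] ++ [a]) := List.perm_append_comm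
      have h2 := h1.append_right [b]
      simpa using h2
    exact h

lemma labels_perm (s : St α) : (labels s).Perm (free s ++ inner s) := by
  obtain ⟨t, xs⟩ := s
  unfold labels free inner
  rw [List.cons_append]
  apply List.Perm.cons
  induction xs with
  | nil => simp
  | cons x xs ih =>
    simp only [List.flatMap_cons]
    have h1 := (labels_perm_lt x).append ih
    refine h1.trans ?_
    -- (A ++ B) ++ (C ++ D) ~ (A ++ C) ++ (B ++ D)
    rw [List.append_assoc, List.append_assoc]
    apply List.Perm.append_left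
    rw [← List.append_assoc, ← List.append_assoc]
    exact List.Perm.append_right _ List.perm_append_comm

lemma length_free (s : St α) : (free s).length = 2 * s.2.length + 1 := by
  unfold free
  rw [List.length_cons, List.length_flatMap]
  have : (s.2.map fun x => (fl x).length) = s.2.map fun _ => 2 := by
    apply List.map_congr_left
    intro x _
    rfl
  rw [this]
  simp [mul_comm]

lemma mem_free {s : St α} {a : α} : a ∈ free s ↔ a = s.1 ∨ ∃ x ∈ s.2, a = x.ent ∨ a = x.lv := by
  unfold free fl
  simp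

lemma mem_inner {s : St α} {a : α} :
    a ∈ inner s ↔ ∃ c u l b, Lt.mk c u l b ∈ s.2 ∧ (a = c ∨ a = b) := by
  unfold inner
  rw [List.mem_flatMap]
  constructor
  · rintro ⟨x, hx, ha⟩
    cases x with
    | gap u l => simp [inn] at ha
    | mk c u l b =>
      refine ⟨c, u, l, b, hx, ?_⟩
      simpa [inn] using ha
  · rintro ⟨c, u, l, b, hx, ha⟩
    exact ⟨_, hx, by simpa [inn] using ha⟩

lemma mem_lb {ρ : List (α × α)} {a : α} : a ∈ lb ρ ↔ ∃ p ∈ ρ, a = p.1 ∨ a = p.2 := by
  unfold lb
  simp

/-- well-formed states: free, inner and glued labels -/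
lemma wf_nodup {s : St α} {ρ : List (α × α)} (h : WF s ρ) :
    (free s ++ inner s ++ lb ρ).Nodup :=
  (((labels_perm s).append_right (lb ρ)).nodup_iff).mp h.nodup

lemma wf_cover {s : St α} {ρ : List (α × α)} (h : WF s ρ) (x : α) :
    x ∈ free s ∨ x ∈ inner s ∨ x ∈ lb ρ := by
  have := ((labels_perm s).append_right (lb ρ)).mem_iff.mp (h.cover x)
  simpa [or_assoc] using this

lemma free_nodup {s : St α} {ρ : List (α × α)} (h : WF s ρ) : (free s).Nodup :=
  (List.nodup_append.mp (List.nodup_append.mp (wf_nodup h)).1).1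

lemma free_inner {s : St α} {ρ : List (α × α)} (h : WF s ρ) {x : α} (hx : x ∈ free s) :
    x ∉ inner s := by
  intro hy
  exact (List.nodup_append.mp (List.nodup_append.mp (wf_nodup h)).1).2.2 x hx x hy rfl

lemma free_lb {s : St α} {ρ : List (α × α)} (h : WF s ρ) {x : α} (hx : x ∈ free s) :
    x ∉ lb ρ := by
  intro hy
  exact (List.nodup_append.mp (wf_nodup h)).2.2 x (List.mem_append_left _ hx) x hy rfl

/-! ### typed pairings -/

section
variable [Fintype α] {ty : α → Bool} {T : α} {s : St α} {ρ : List (α × α)} {τ : α → α}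

lemma mem_Sh : τ ∈ Sh ty T ρ s ↔ Pairing ty T τ ∧ (∀ p ∈ ρ, τ p.1 = p.2) ∧ Mk τ s := by
  unfold Sh
  simp

lemma tau_inner (hτ : τ ∈ Sh ty T ρ s) {x : α} (hx : x ∈ inner s) : τ x ∈ inner s := by
  rw [mem_Sh] at hτ
  obtain ⟨c, u, l, b, hm, h⟩ := mem_inner.mp hx
  have hcb := hτ.2.2 c u l b hm
  rw [mem_inner]
  rcases h with rfl | rfl
  · exact ⟨x, u, l, b, hm, Or.inr hcb⟩
  · refine ⟨c, u, l, x, hm, Or.inl ?_⟩
    rw [← hcb, hτ.1.invol]

lemma tau_lb (hτ : τ ∈ Sh ty T ρ s) {x : α} (hx : x ∈ lb ρ) : τ x ∈ lb ρ := by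
  rw [mem_Sh] at hτ
  obtain ⟨p, hp, h⟩ := mem_lb.mp hx
  have hcb := hτ.2.1 p hp
  rw [mem_lb]
  rcases h with rfl | rfl
  · exact ⟨p, hp, Or.inr hcb⟩
  · exact ⟨p, hp, Or.inl (by rw [← hcb, hτ.1.invol])⟩

lemma tau_free (hWF : WF s ρ) (hτ : τ ∈ Sh ty T ρ s) {x : α} (hx : x ∈ free s) :
    τ x ∈ free s := by
  have hinv := (mem_Sh.mp hτ).1.invol
  rcases wf_cover hWF (τ x) with h | h | h
  · exact h
  · exact absurd (by rw [← hinv x]; exact tau_inner hτ h) (free_inner hWF hx)
  · exact absurd (by rw [← hinv x]; exact tau_lb hτ h) (free_lb hWF hx)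

lemma T_free (hWF : WF s ρ) (hτ : τ ∈ Sh ty T ρ s) : T ∈ free s := by
  have hTT : τ T = T := ((mem_Sh.mp hτ).1.fix T).mpr rfl
  have hn := wf_nodup hWF
  rcases wf_cover hWF T with h | h | h
  · exact h
  · exfalso
    obtain ⟨c, u, l, b, hm, h'⟩ := mem_inner.mp h
    have hcb := (mem_Sh.mp hτ).2.2 c u l b hm
    have heq : c = b := by
      rcases h' with rfl | rfl
      · rw [← hcb, hTT]
      · have := congrArg τ hcb
        rw [(mem_Sh.mp hτ).1.invol, hTT] at this
        exact this
    have hl : (labels s).Nodup := (List.nodup_append.mp hWF.nodup).1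
    unfold labels at hl
    have h2 := (List.nodup_flatMap.mp (List.nodup_cons.mp hl).2).1 _ hm
    simp [Lt.labels, heq] at h2
  · exfalso
    obtain ⟨p, hp, h'⟩ := mem_lb.mp h
    have hcb := (mem_Sh.mp hτ).2.1 p hp
    have heq : p.1 = p.2 := by
      rcases h' with h' | h'
      · rw [← hcb, ← h', hTT]
      · have := congrArg τ hcb
        rw [(mem_Sh.mp hτ).1.invol, ← h', hTT] at this
        rw [← h']
        exact this
    have hl : (lb ρ).Nodup := (List.nodup_append.mp hWF.nodup).2.1
    unfold lb at hl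
    have h2 := (List.nodup_flatMap.mp hl).1 _ hp
    simp [heq] at h2

end

/-! ### the abstract pairing -/

/-- in-labels -/
abbrev II (ty : α → Bool) (T : α) (s : St α) : Type :=
  {x : α // x ∈ free s ∧ ty x = false ∧ x ≠ T}

/-- out-labels -/
abbrev KK (ty : α → Bool) (T : α) (s : St α) : Type :=
  {x : α // x ∈ free s ∧ ty x = true ∧ x ≠ T}

section
set_option linter.unusedSectionVars false
variable [Fintype α] {ty : α → Bool} {T : α} {s : St α} {ρ : List (α × α)} {τ : α → α}

/-- the bijection of a typed pairing -/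
def sig (hWF : WF s ρ) (hτ : τ ∈ Sh ty T ρ s) : KK ty T s ≃ II ty T s where
  toFun x := ⟨τ x.1, tau_free hWF hτ x.2.1, by
    rw [(mem_Sh.mp hτ).1.opp x.1 x.2.2.2, x.2.2.1]; rfl, fun h => x.2.2.2 (by
    rw [← (mem_Sh.mp hτ).1.invol x.1, h]
    exact ((mem_Sh.mp hτ).1.fix T).mpr rfl)⟩
  invFun x := ⟨τ x.1, tau_free hWF hτ x.2.1, by
    rw [(mem_Sh.mp hτ).1.opp x.1 x.2.2.2, x.2.2.1]; rfl, fun h => x.2.2.2 (by
    rw [← (mem_Sh.mp hτ).1.invol x.1, h]
    exact ((mem_Sh.mp hτ).1.fix T).mpr rfl)⟩
  left_inv x := Subtype.ext ((mem_Sh.mp hτ).1.invol x.1)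
  right_inv x := Subtype.ext ((mem_Sh.mp hτ).1.invol x.1)

lemma sig_inj (hWF : WF s ρ) {τ' : α → α} (hτ : τ ∈ Sh ty T ρ s) (hτ' : τ' ∈ Sh ty T ρ s)
    (h : sig hWF hτ = sig hWF hτ') : τ = τ' := by
  have hP := (mem_Sh.mp hτ).1
  have hP' := (mem_Sh.mp hτ').1
  have hT : τ T = T := (hP.fix T).mpr rfl
  have hT' : τ' T = T := (hP'.fix T).mpr rfl
  have hout : ∀ x, x ∈ free s → ty x = true → x ≠ T → τ x = τ' x := by
    intro x hx hty hne
    have := congrArg (fun e => (e ⟨x, hx, hty, hne⟩ : II ty T s).1) h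
    exact this
  funext x
  by_cases hxT : x = T
  · rw [hxT, hT, hT']
  rcases wf_cover hWF x with hx | hx | hx
  · cases htyx : ty x with
    | true => exact hout x hx htyx hxT
    | false =>
      have h1 : τ x ∈ free s := tau_free hWF hτ hx
      have h2 : ty (τ x) = true := by rw [hP.opp x hxT, htyx]; rfl
      have h3 : τ x ≠ T := fun h => hxT (by rw [← hP.invol x, h, hT])
      have h4 := hout (τ x) h1 h2 h3
      rw [hP.invol] at h4
      have h5 := congrArg τ' h4
      rw [hP'.invol] at h5
      exact h5.symm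
  · obtain ⟨c, u, l, b, hm, h'⟩ := mem_inner.mp hx
    have e1 := (mem_Sh.mp hτ).2.2 c u l b hm
    have e2 := (mem_Sh.mp hτ').2.2 c u l b hm
    rcases h' with rfl | rfl
    · rw [e1, e2]
    · have e3 : τ x = c := by rw [← e1, hP.invol]
      have e4 : τ' x = c := by rw [← e2, hP'.invol]
      rw [e3, e4]
  · obtain ⟨p, hp, h'⟩ := mem_lb.mp hx
    have e1 := (mem_Sh.mp hτ).2.1 p hp
    have e2 := (mem_Sh.mp hτ').2.1 p hp
    rcases h' with h' | h'
    · rw [h', e1, e2]
    · have e3 : τ x = p.1 := by rw [h', ← e1, hP.invol]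
      have e4 : τ' x = p.1 := by rw [h', ← e2, hP'.invol]
      rw [e3, e4]

open Classical in
noncomputable instance : Fintype (II ty T s) := Subtype.fintype _

open Classical in
noncomputable instance : Fintype (KK ty T s) := Subtype.fintype _

lemma card_both (hWF : WF s ρ) (hτ : τ ∈ Sh ty T ρ s) :
    Fintype.card (KK ty T s) = s.2.length ∧ Fintype.card (II ty T s) = s.2.length := by
  classical
  have h1 : Fintype.card (KK ty T s) = Fintype.card (II ty T s) :=
    Fintype.card_congr (sig hWF hτ)
  have h2 : Fintype.card (KK ty T s) =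
      ((free s).toFinset.filter fun x => ty x = true ∧ x ≠ T).card := by
    rw [Fintype.card_subtype]
    congr 1
    ext x
    simp
  have h3 : Fintype.card (II ty T s) =
      ((free s).toFinset.filter fun x => ty x = false ∧ x ≠ T).card := by
    rw [Fintype.card_subtype]
    congr 1
    ext x
    simp
  have h4 : ((free s).toFinset.filter fun x => ty x = true ∧ x ≠ T).card +
      ((free s).toFinset.filter fun x => ty x = false ∧ x ≠ T).card =
      ((free s).toFinset.erase T).card := by
    rw [← Finset.card_union_of_disjoint]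
    · congr 1
      ext x
      simp only [Finset.mem_union, Finset.mem_filter, Finset.mem_erase, List.mem_toFinset]
      cases ty x <;> simp [and_comm]
    · rw [Finset.disjoint_left]
      intro x hx hy
      rw [Finset.mem_filter] at hx hy
      rw [hx.2.1] at hy
      exact absurd hy.2.1 (by decide)
  have h5 : ((free s).toFinset.erase T).card = 2 * s.2.length := by
    rw [Finset.card_erase_of_mem (List.mem_toFinset.mpr (T_free hWF hτ)),
      List.toFinset_card_of_nodup (free_nodup hWF), length_free]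
    omega
  omega

/-! ### mates and positions -/

/-- `a` and `o` are the two free labels of a letter -/
def Mate (s : St α) (a o : α) : Prop := ∃ x ∈ s.2, (x.ent = a ∧ x.lv = o) ∨ (x.lv = a ∧ x.ent = o)

lemma Mate.symm {a o : α} (h : Mate s a o) : Mate s o a := by
  obtain ⟨x, hx, h⟩ := h
  exact ⟨x, hx, h.elim (fun h => Or.inr ⟨h.2, h.1⟩) (fun h => Or.inl ⟨h.2, h.1⟩)⟩

/-- a free label lies in one letter only -/
lemma letter_unique (hWF : WF s ρ) {i j : ℕ} (hi : i < s.2.length) (hj : j < s.2.length) {a : α}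
    (ha : a ∈ fl s.2[i]) (ha' : a ∈ fl s.2[j]) : i = j := by
  have hn := free_nodup hWF
  unfold free at hn
  have h2 := (List.nodup_flatMap.mp (List.nodup_cons.mp hn).2).2
  rw [List.pairwise_iff_getElem] at h2
  rcases lt_trichotomy i j with h | h | h
  · exact absurd ha' (h2 i j hi hj h ha)
  · exact h
  · exact absurd ha (h2 j i hj hi h ha')

lemma ent_ne_lv (hWF : WF s ρ) {x : Lt α} (hx : x ∈ s.2) : x.ent ≠ x.lv := by
  have hn := free_nodup hWF
  unfold free at hn
  have h2 := (List.nodup_flatMap.mp (List.nodup_cons.mp hn).2).1 x hx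
  simpa [fl] using h2

lemma top_notMem (hWF : WF s ρ) {x : Lt α} (hx : x ∈ s.2) : s.1 ∉ fl x := by
  have hn := free_nodup hWF
  unfold free at hn
  intro h
  exact (List.nodup_cons.mp hn).1 (List.mem_flatMap.mpr ⟨x, hx, h⟩)

lemma Mate.unique (hWF : WF s ρ) {a o o' : α} (h : Mate s a o) (h' : Mate s a o') : o = o' := by
  obtain ⟨x, hx, h⟩ := h
  obtain ⟨y, hy, h'⟩ := h'
  obtain ⟨i, hi, rfl⟩ := List.getElem_of_mem hx
  obtain ⟨j, hj, rfl⟩ := List.getElem_of_mem hy
  have h1 : a ∈ fl s.2[i] := by
    unfold fl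
    rcases h with h | h <;> simp [← h.1]
  have h2 : a ∈ fl s.2[j] := by
    unfold fl
    rcases h' with h | h <;> simp [← h.1]
  have := letter_unique hWF hi hj h1 h2
  subst this
  have hne := ent_ne_lv hWF hx
  rcases h with h | h <;> rcases h' with h' | h'
  · rw [← h.2, ← h'.2]
  · exact absurd (h.1.trans h'.1.symm) hne
  · exact absurd (h'.1.trans h.1.symm) hne
  · rw [← h.2, ← h'.2]

open Classical in
/-- the mate of an in-label (an out-label, not `T`), if there is one -/
noncomputable def mate (ty : α → Bool) (T : α) (s : St α) (a : II ty T s) : Option (KK ty T s) :=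
  if h : ∃ o : KK ty T s, Mate s a.1 o.1 then some h.choose else none

lemma mate_spec {a : II ty T s} {o : KK ty T s} (h : mate ty T s a = some o) :
    Mate s a.1 o.1 := by
  unfold mate at h
  split_ifs at h with h'
  rw [Option.some.injEq] at h
  rw [← h]
  exact h'.choose_spec

lemma mate_none {a : II ty T s} (h : mate ty T s a = none) (o : KK ty T s) :
    ¬ Mate s a.1 o.1 := by
  intro hm
  unfold mate at h
  rw [dif_pos ⟨o, hm⟩] at h
  exact absurd h (by simp)

lemma mate_inj (hWF : WF s ρ) (a b : II ty T s) (o : KK ty T s) (ha : mate ty T s a = some o)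
    (hb : mate ty T s b = some o) : a = b :=
  Subtype.ext (Mate.unique hWF (mate_spec ha).symm (mate_spec hb).symm)

open Classical in
/-- the position of a label -/
noncomputable def posn (s : St α) (a : α) : ℕ := s.2.findIdx fun x => decide (a ∈ fl x)

lemma posn_le (a : α) : posn s a ≤ s.2.length := List.findIdx_le_length

lemma posn_spec {a o : α} (h : Mate s a o) : ∃ hk : posn s a < s.2.length,
    a ∈ fl (s.2[posn s a]'hk) := by
  classical
  obtain ⟨x, hx, h⟩ := h
  have h1 : ∃ x ∈ s.2, decide (a ∈ fl x) = true := by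
    refine ⟨x, hx, ?_⟩
    rw [decide_eq_true_eq]
    unfold fl
    rcases h with h | h <;> simp [← h.1]
  have hlt : posn s a < s.2.length := by
    unfold posn
    exact List.findIdx_lt_length.mpr h1
  refine ⟨hlt, ?_⟩
  have key : ∀ (p : Lt α → Bool) (xs : List (Lt α)) (h : xs.findIdx p < xs.length),
      p (xs[xs.findIdx p]'h) = true := fun p xs h => List.findIdx_getElem
  have h2 := key _ s.2 hlt
  exact of_decide_eq_true h2

/-- the letter of a label, turned such that the label is `ent` -/
lemma posn_letter (hWF : WF s ρ) {a o : α} (h : Mate s a o) :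
    ∃ hk : posn s a < s.2.length, ((s.2[posn s a]'hk).ent = a ∧ (s.2[posn s a]'hk).lv = o) ∨
      ((s.2[posn s a]'hk).lv = a ∧ (s.2[posn s a]'hk).ent = o) := by
  obtain ⟨hk, ha⟩ := posn_spec h
  refine ⟨hk, ?_⟩
  have hx : s.2[posn s a]'hk ∈ s.2 := List.getElem_mem hk
  unfold fl at ha
  rw [List.mem_cons, List.mem_singleton] at ha
  rcases ha with ha | ha
  · left
    refine ⟨ha.symm, ?_⟩
    have h2 : Mate s a (s.2[posn s a]'hk).lv := ⟨_, hx, Or.inl ⟨ha.symm, rfl⟩⟩
    exact h2.unique hWF h
  · right
    refine ⟨ha.symm, ?_⟩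
    have h2 : Mate s a (s.2[posn s a]'hk).ent := ⟨_, hx, Or.inr ⟨ha.symm, rfl⟩⟩
    exact h2.unique hWF h

lemma posn_inj (hWF : WF s ρ) (a b : II ty T s) (ha : (mate ty T s a).isSome)
    (hb : (mate ty T s b).isSome) (h : posn s a.1 = posn s b.1) : a = b := by
  obtain ⟨o, ho⟩ := Option.isSome_iff_exists.mp ha
  obtain ⟨o', ho'⟩ := Option.isSome_iff_exists.mp hb
  obtain ⟨hk, h1⟩ := posn_letter hWF (mate_spec ho)
  obtain ⟨hk', h2⟩ := posn_letter hWF (mate_spec ho')
  simp only [← h] at h2
  have hab : ty a.1 = false := a.2.2.1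
  have hbb : ty b.1 = false := b.2.2.1
  have hoo : ty o.1 = true := o.2.2.1
  have hoo' : ty o'.1 = true := o'.2.2.1
  apply Subtype.ext
  rcases h1 with h1 | h1 <;> rcases h2 with h2 | h2
  · rw [← h1.1, ← h2.1]
  · exfalso
    have : a.1 = o'.1 := by rw [← h1.1, ← h2.2]
    rw [this, hoo'] at hab
    exact absurd hab (by decide)
  · exfalso
    have : a.1 = o'.1 := by rw [← h1.1, ← h2.2]
    rw [this, hoo'] at hab
    exact absurd hab (by decide)
  · rw [← h1.1, ← h2.1]

/-- positions for the abstract theorem -/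
noncomputable def ps (ty : α → Bool) (T : α) (s : St α) (a : II ty T s) : ℕ :=
  if (mate ty T s a).isSome then posn s a.1 else 0

lemma ps_of_some {a : II ty T s} (h : (mate ty T s a).isSome) : ps ty T s a = posn s a.1 := by
  unfold ps
  rw [if_pos h]

lemma ps_lt (hm : 0 < s.2.length) (a : II ty T s) : ps ty T s a < s.2.length := by
  unfold ps
  split_ifs with h
  · obtain ⟨o, ho⟩ := Option.isSome_iff_exists.mp h
    exact (posn_spec (mate_spec ho)).1
  · exact hm

lemma ps_inj (hWF : WF s ρ) (a b : II ty T s) (ha : (mate ty T s a).isSome)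
    (hb : (mate ty T s b).isSome) (h : ps ty T s a = ps ty T s b) : a = b := by
  rw [ps_of_some ha, ps_of_some hb] at h
  exact posn_inj hWF a b ha hb h

/-! ### windows give a family -/

/-- a letter turned over or not -/
def tn (b : Bool) (x : Lt α) : Lt α := if b then x.sw else x

lemma tn_tn (b : Bool) (x : Lt α) : tn b (tn b x) = x := by
  unfold tn
  cases b <;> simp

lemma ent_sw (x : Lt α) : x.sw.ent = x.lv := by cases x <;> rfl

lemma lv_sw (x : Lt α) : x.sw.lv = x.ent := by cases x <;> rfl

open Classical in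
/-- must the letter of `a` be turned over to be visited at `a`? -/
noncomputable def tr (s : St α) (a : α) : Bool :=
  if h : posn s a < s.2.length then decide ((s.2[posn s a]'h).ent ≠ a) else false

/-- the letter of `a` in the orientation in which it is visited at `a` -/
noncomputable def ltr (s : St α) (x0 : Lt α) (a : α) : Lt α :=
  if h : posn s a < s.2.length then tn (tr s a) (s.2[posn s a]'h) else x0

lemma ltr_spec (hWF : WF s ρ) (x0 : Lt α) {a o : α} (h : Mate s a o) :
    s.2[posn s a]? = some (tn (tr s a) (ltr s x0 a)) ∧ (ltr s x0 a).ent = a ∧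
      (ltr s x0 a).lv = o := by
  classical
  obtain ⟨hk, h1⟩ := posn_letter hWF h
  have e1 : ltr s x0 a = tn (tr s a) (s.2[posn s a]'hk) := by
    unfold ltr
    rw [dif_pos hk]
  have e2 : tr s a = decide ((s.2[posn s a]'hk).ent ≠ a) := by
    unfold tr
    rw [dif_pos hk]
  refine ⟨?_, ?_⟩
  · rw [e1, tn_tn, List.getElem?_eq_getElem hk]
  · rw [e1]
    rcases h1 with h1 | h1
    · have e3 : tr s a = false := by
        rw [e2, h1.1]
        simp
      rw [e3]
      exact h1
    · have hne : (s.2[posn s a]'hk).ent ≠ a := by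
        intro he
        exact ent_ne_lv hWF (List.getElem_mem hk) (he.trans h1.1.symm)
      have e3 : tr s a = true := by
        rw [e2]
        simpa using hne
      rw [e3]
      unfold tn
      simp only [if_true]
      rw [ent_sw, lv_sw]
      exact h1

/-- disjoint good windows give a family -/
theorem fam_of_good (hWF : WF s ρ) (hτ : τ ∈ Sh ty T ρ s) (hm : 0 < s.2.length) {Θ L N : ℕ}
    (F : Finset (II ty T s)) (w : II ty T s → Fin (L + 1) → II ty T s)
    (hF : ∀ a ∈ F, Cnt.Win (mate ty T s) (sig hWF hτ) (w a) ∧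
      ¬ Cnt.BadW (ps ty T s) Θ (w a))
    (hdis : ∀ a ∈ F, ∀ b ∈ F, a ≠ b → Disjoint (Set.range (w a)) (Set.range (w b)))
    (hcard : (L + 1).factorial * 4 ^ (L + 1) *
      ((Nat.log 2 s.2.length + 1) ^ L * (4 * s.2.length) ^ L) * N ^ (2 ^ L) < F.card * Θ) :
    Fam τ ty s.2 N L := by
  classical
  let x0 : Lt α := s.2[0]'hm
  have hmt : ∀ a ∈ F, ∀ j, ∃ o : KK ty T s, mate ty T s (w a j) = some o := by
    intro a ha j
    exact Option.isSome_iff_exists.mp ((hF a ha).1.prop j)
  refine fam_of_windows x0 F (fun a j => ps ty T s (w a j)) (fun a j => ltr s x0 (w a j).1)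
    (fun a j => tr s (w a j).1) ?_ ?_ ?_ ?_ ?_ ?_ hcard
  · intro a ha j
    obtain ⟨o, ho⟩ := hmt a ha j
    rw [ps_of_some ((hF a ha).1.prop j)]
    exact (ltr_spec hWF x0 (mate_spec ho)).1
  · intro a ha j
    obtain ⟨o, ho⟩ := hmt a ha j
    obtain ⟨-, h1, h2⟩ := ltr_spec hWF x0 (mate_spec ho)
    rw [h1, h2]
    exact ⟨(w a j).2.2.1, o.2.2.1⟩
  · intro a ha j
    obtain ⟨o, ho⟩ := hmt a ha j.castSucc
    obtain ⟨o', ho'⟩ := hmt a ha j.succ
    obtain ⟨-, -, h2⟩ := ltr_spec hWF x0 (mate_spec ho)
    obtain ⟨-, h1, -⟩ := ltr_spec hWF x0 (mate_spec ho')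
    rw [h1, h2]
    have h3 := (hF a ha).1.nx j
    rw [ho, Option.map_some, Option.some.injEq] at h3
    exact congrArg Subtype.val h3
  · intro j a ha b hb hab
    by_contra hne
    have h1 := ps_inj hWF (w a j) (w b j) ((hF a ha).1.prop j) ((hF b hb).1.prop j) hab
    exact Set.disjoint_left.mp (hdis a ha b hb hne) ⟨j, rfl⟩ ⟨j, h1.symm⟩
  · intro a ha i j hij
    exact (hF a ha).1.inj (ps_inj hWF _ _ ((hF a ha).1.prop i) ((hF a ha).1.prop j) hij)
  · intro a ha
    by_contra hle
    rw [not_lt] at hle
    apply (hF a ha).2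
    have hinj : Function.Injective (fun j => ps ty T s (w a j)) := by
      intro i j hij
      exact (hF a ha).1.inj (ps_inj hWF _ _ ((hF a ha).1.prop i) ((hF a ha).1.prop j) hij)
    exact ⟨Pat.srt (fun j => ps ty T s (w a j)), Pat.srt_strict hinj, hle⟩

/-! ### the stops -/

open Classical in
/-- in-labels without mate -/
noncomputable def stops (ty : α → Bool) (T : α) (s : St α) : Finset (II ty T s) :=
  Finset.univ.filter fun a => mate ty T s a = none

lemma card_stops (hWF : WF s ρ) : (stops ty T s).card ≤ 2 * imp ty s + 1 := by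
  classical
  let A : Finset α := if ty s.1 then ∅ else {s.1}
  let B : Finset α := ((s.2.filter fun x => ty x.ent == ty x.lv).flatMap fl).toFinset
  let C : Finset α := Finset.univ.filter fun a => Mate s a T
  have hA : A.card = (!ty s.1).toNat := by
    simp only [A]
    cases ty s.1 <;> rfl
  have hB : B.card ≤ 2 * s.2.countP (fun x => ty x.ent == ty x.lv) := by
    refine (List.toFinset_card_le _).trans ?_
    rw [List.length_flatMap, List.countP_eq_length_filter]
    have : ((s.2.filter fun x => ty x.ent == ty x.lv).map fun x => (fl x).length) =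
        (s.2.filter fun x => ty x.ent == ty x.lv).map fun _ => 2 := by
      apply List.map_congr_left
      intro x _
      rfl
    rw [this]
    simp [mul_comm]
  have hC : C.card ≤ 1 := by
    rw [Finset.card_le_one]
    intro a ha b hb
    simp only [C, Finset.mem_filter, Finset.mem_univ, true_and] at ha hb
    exact Mate.unique hWF ha.symm hb.symm
  have hsub : (stops ty T s).image Subtype.val ⊆ A ∪ B ∪ C := by
    intro x hx
    rw [Finset.mem_image] at hx
    obtain ⟨a, ha, rfl⟩ := hx
    unfold stops at ha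
    rw [Finset.mem_filter] at ha
    have hno := mate_none ha.2
    rw [Finset.mem_union, Finset.mem_union]
    rcases mem_free.mp a.2.1 with h | ⟨y, hy, h⟩
    · left; left
      have h2 : ty s.1 = false := by rw [← h]; exact a.2.2.1
      simp only [A, h2]
      simp [h]
    · -- the other label
      obtain ⟨o, hM, hyo⟩ : ∃ o, Mate s a.1 o ∧ ((y.ent = a.1 ∧ y.lv = o) ∨
          (y.lv = a.1 ∧ y.ent = o)) := by
        rcases h with h | h
        · exact ⟨y.lv, ⟨y, hy, Or.inl ⟨h.symm, rfl⟩⟩, Or.inl ⟨h.symm, rfl⟩⟩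
        · exact ⟨y.ent, ⟨y, hy, Or.inr ⟨h.symm, rfl⟩⟩, Or.inr ⟨h.symm, rfl⟩⟩
      by_cases hoT : o = T
      · right
        simp only [C, Finset.mem_filter, Finset.mem_univ, true_and]
        exact hoT ▸ hM
      · left; right
        have hof : o ∈ free s := by
          rw [mem_free]
          right
          refine ⟨y, hy, ?_⟩
          rcases hyo with h | h
          · exact Or.inr h.2.symm
          · exact Or.inl h.2.symm
        have hty : ty o = false := by
          by_contra hne
          rw [Bool.not_eq_false] at hne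
          exact hno ⟨o, hof, hne, hoT⟩ hM
        simp only [B, List.mem_toFinset, List.mem_flatMap, List.mem_filter]
        refine ⟨y, ⟨hy, ?_⟩, ?_⟩
        · have ha' := a.2.2.1
          rcases hyo with h | h
          · rw [h.1, h.2, ha', hty]; rfl
          · rw [h.1, h.2, ha', hty]; rfl
        · unfold fl
          rcases hyo with h | h <;> simp [← h.1]
  have h1 : (stops ty T s).card = ((stops ty T s).image Subtype.val).card :=
    (Finset.card_image_of_injective _ Subtype.val_injective).symm
  rw [h1]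
  refine (Finset.card_le_card hsub).trans ?_
  refine (Finset.card_union_le _ _).trans ?_
  have h2 := Finset.card_union_le A B
  unfold imp
  omega

end

end BP2.Stk
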