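import Pool.Agent.BP2.D.Defs

set_option autoImplicit false

/-!
# MP_475aca_co, part (D): valid states

`Val τ T s`: the labels of `s` are distinct, closed under the partner map `τ`, `T` is the only
label which is its own partner, the inner labels of a marker are partners, and the blocks of `s`
together with the partner pairs contain no circle: every set of labels which is closed under `τ`
and under passing to the other end of the block, and does not contain `T`, is empty. Validity is
kept by `Run`.
-/

namespace BP2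

open Lt (gap sw)

variable {α : Type*}

/-- the finished blocks of `(t, A)` have both or no ends in `C` -/
def clP (C : Set α) : α → List (Lt α) → Prop
  | _, [] => True
  | t, Lt.gap u l :: xs => (t ∈ C ↔ u ∈ C) ∧ clP C l xs
  | t, Lt.mk a u l b :: xs => (t ∈ C ↔ a ∈ C) ∧ (u ∈ C ↔ l ∈ C) ∧ clP C b xs

/-- the upper end of the last block of `(t, A)` -/
def pnd : α → List (Lt α) → α
  | t, [] => t
  | _, Lt.gap _ l :: xs => pnd l xs
  | _, Lt.mk _ _ _ b :: xs => pnd b xs

lemma clP_append (C : Set α) (t : α) (A B : List (Lt α)) :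
    clP C t (A ++ B) ↔ clP C t A ∧ clP C (pnd t A) B := by
  induction A generalizing t with
  | nil => simp [clP, pnd]
  | cons x A ih => cases x <;> simp [clP, pnd, ih, and_assoc]

lemma pnd_append (t : α) (A B : List (Lt α)) : pnd t (A ++ B) = pnd (pnd t A) B := by
  induction A generalizing t with
  | nil => simp [pnd]
  | cons x A ih => cases x <;> simp [pnd, ih]

/-- both ends of the blocks of a top part ending with the label `v` -/
def clT (C : Set α) (t : α) (A : List (Lt α)) (v : α) : Prop :=
  clP C t A ∧ (pnd t A ∈ C ↔ v ∈ C)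

lemma rs_cons (x : Lt α) (A : List (Lt α)) : rs (x :: A) = rs A ++ [sw x] := by simp [rs]

lemma clT_rs (C : Set α) (A : List (Lt α)) : ∀ (t v : α), clT C t A v → clT C v (rs A) t := by
  induction A with
  | nil =>
    intro t v h
    simp only [clT, clP, pnd, rs_nil, true_and] at h ⊢
    exact h.symm
  | cons x A ih =>
    intro t v h
    rw [rs_cons]
    cases x with
    | gap u l =>
      simp only [clT, clP, pnd] at h
      have h1 := ih l v ⟨h.1.2, h.2⟩
      simp only [clT, clP_append, pnd_append, clP, pnd, sw, and_true] at h1 ⊢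
      exact ⟨h1, h.1.1.symm⟩
    | mk a u l b =>
      simp only [clT, clP, pnd] at h
      have h1 := ih b v ⟨h.1.2.2, h.2⟩
      simp only [clT, clP_append, pnd_append, clP, pnd, sw, and_true] at h1 ⊢
      exact ⟨⟨h1.1, h1.2, h.1.2.1.symm⟩, h.1.1.symm⟩

/-- valid states -/
structure Val (τ : α → α) (T : α) (s : St α) : Prop where
  nodup : (BP2.labels s).Nodup
  closed : ∀ x ∈ BP2.labels s, τ x ∈ BP2.labels s
  fixed : ∀ x ∈ BP2.labels s, τ x = x → x = T
  fixT : τ T = T
  mark : ∀ a u l b, Lt.mk a u l b ∈ s.2 → τ a = b ∧ τ b = a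
  conn : ∀ C : Set α, (∀ x ∈ C, τ x ∈ C) → clP C s.1 s.2 → T ∉ C → ∀ x ∈ BP2.labels s, x ∉ C

/-! ### the labels -/

/-- the labels of a list of letters -/
def lbl (A : List (Lt α)) : List α := A.flatMap Lt.labels

@[simp] lemma lbl_nil : lbl ([] : List (Lt α)) = [] := rfl

@[simp] lemma lbl_gap (u l : α) (A : List (Lt α)) : lbl (gap u l :: A) = u :: l :: lbl A := by
  simp [lbl, Lt.labels]

@[simp] lemma lbl_mk (a u l b : α) (A : List (Lt α)) :
    lbl (Lt.mk a u l b :: A) = a :: u :: l :: b :: lbl A := by
  simp [lbl, Lt.labels]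

@[simp] lemma lbl_append (A B : List (Lt α)) : lbl (A ++ B) = lbl A ++ lbl B := by
  simp [lbl]

lemma val_labels_eq (s : St α) : BP2.labels s = s.1 :: lbl s.2 := rfl

lemma lbl_rs (A : List (Lt α)) : (lbl (rs A)).Perm (lbl A) := by
  induction A with
  | nil => simp
  | cons x A ih =>
    rw [rs_cons, lbl_append]
    refine (List.perm_append_comm).trans ?_
    cases x with
    | gap u l =>
      simp only [sw, lbl_gap, lbl_nil, List.cons_append, List.nil_append]
      refine (List.Perm.swap u l _).trans ?_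
      exact (ih.cons _).cons _
    | mk a u l b =>
      simp only [sw, lbl_mk, lbl_nil, List.cons_append, List.nil_append]
      have h1 : ([b, l, u, a] : List α).Perm [a, u, l, b] := by
        have := List.reverse_perm [a, u, l, b]
        simpa using this
      exact (h1.append_right (lbl (rs A))).trans (((((ih.cons _).cons _).cons _).cons _))

/-- a visit of a gap permutes the labels -/
lemma val_labels_gap (t u l : α) (A B : List (Lt α)) :
    (BP2.labels (u, rs A ++ gap t l :: B)).Perm (BP2.labels (t, A ++ gap u l :: B)) := by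
  simp only [val_labels_eq, lbl_append, lbl_gap]
  calc (u :: (lbl (rs A) ++ t :: l :: lbl B)).Perm (u :: (lbl A ++ t :: l :: lbl B)) :=
        (((lbl_rs A).append_right _)).cons _
    _ = ([u] ++ (lbl A ++ [t] ++ (l :: lbl B))) := by simp
    _ = (([u] ++ lbl A ++ [t]) ++ (l :: lbl B)) := by simp
    _ |>.Perm (([t] ++ (lbl A ++ [u])) ++ (l :: lbl B)) := by
        refine List.Perm.append_right _ ?_
        refine (List.perm_append_comm).trans ?_
        refine List.Perm.append_left _ ?_
        exact List.perm_append_comm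
    _ = (t :: (lbl A ++ u :: l :: lbl B)) := by simp

/-! ### validity is kept -/

lemma mark_rs {τ : α → α} {A : List (Lt α)}
    (h : ∀ a u l b, Lt.mk a u l b ∈ A → τ a = b ∧ τ b = a) :
    ∀ a u l b, Lt.mk a u l b ∈ rs A → τ a = b ∧ τ b = a := by
  intro a u l b hm
  have := h b l u a (by simpa [sw] using (mem_rs A _).mp hm)
  exact this.symm

lemma Val.gap_move {τ : α → α} {T t u l : α} {A B : List (Lt α)}
    (h : Val τ T (t, A ++ gap u l :: B)) : Val τ T (u, rs A ++ gap t l :: B) := by
  have hp := val_labels_gap t u l A B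
  refine ⟨hp.nodup_iff.mpr h.nodup, fun x hx => ?_, fun x hx => h.fixed x (hp.mem_iff.mp hx),
    h.fixT, fun a' u' l' b' hm => ?_, fun C hτ hC hT x hx => ?_⟩
  · exact hp.mem_iff.mpr (h.closed x (hp.mem_iff.mp hx))
  · simp only [List.mem_append, List.mem_cons, reduceCtorEq, false_or] at hm
    rcases hm with hm | hm
    · exact mark_rs (fun a u l b hm => h.mark a u l b (by simp [hm])) _ _ _ _ hm
    · exact h.mark a' u' l' b' (by simp [hm])
  · refine h.conn C hτ ?_ hT x (hp.mem_iff.mp hx)
    simp only [clP_append, clP] at hC ⊢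
    have h1 : clT C u (rs A) t := ⟨hC.1, hC.2.1⟩
    have h2 := clT_rs C _ _ _ h1
    rw [rs_rs] at h2
    exact ⟨h2.1, h2.2, hC.2.2⟩

/-- a marker may be dissolved -/
lemma Val.dis {τ : α → α} {T t a u l b : α} {A B : List (Lt α)}
    (h : Val τ T (t, A ++ Lt.mk a u l b :: B)) : Val τ T (t, A ++ gap a u :: gap l b :: B) := by
  have hl : BP2.labels (t, A ++ gap a u :: gap l b :: B) =
      BP2.labels (t, A ++ Lt.mk a u l b :: B) := by simp [val_labels_eq]
  refine ⟨by rw [hl]; exact h.nodup, fun x hx => ?_, fun x hx => h.fixed x (hl ▸ hx), h.fixT,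
    fun a' u' l' b' hm => ?_, fun C hτ hC hT x hx => ?_⟩
  · rw [hl] at hx ⊢
    exact h.closed x hx
  · simp only [List.mem_append, List.mem_cons, reduceCtorEq, false_or] at hm
    rcases hm with hm | hm
    · exact h.mark a' u' l' b' (by simp [hm])
    · exact h.mark a' u' l' b' (by simp [hm])
  · refine h.conn C hτ ?_ hT x (hl ▸ hx)
    simp only [clP_append, clP] at hC ⊢
    exact hC

/-- membership in `C` of labels outside `{p, q}` -/
lemma clP_congr (C D : Set α) (t : α) (A : List (Lt α)) (ht : t ∈ C ↔ t ∈ D)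
    (h : ∀ x ∈ lbl A, (x ∈ C ↔ x ∈ D)) : clP C t A ↔ clP D t A := by
  induction A generalizing t with
  | nil => simp [clP]
  | cons x A ih =>
    cases x with
    | gap u l =>
      simp only [lbl_gap, List.mem_cons, forall_eq_or_imp] at h
      simp only [clP]
      rw [ih l h.2.1 h.2.2, ht, h.1]
    | mk a u l b =>
      simp only [lbl_mk, List.mem_cons, forall_eq_or_imp] at h
      simp only [clP]
      rw [ih b h.2.2.2.1 h.2.2.2.2, ht, h.1, h.2.1, h.2.2.1]

/-- only the membership of the start counts -/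
lemma clP_start (C : Set α) (t t' : α) (A : List (Lt α)) (ht : t ∈ C ↔ t' ∈ C) :
    clP C t A ↔ clP C t' A := by
  cases A with
  | nil => simp [clP]
  | cons x A => cases x <;> simp only [clP, ht]

lemma pnd_mem (t : α) (A : List (Lt α)) : pnd t A = t ∨ pnd t A ∈ lbl A := by
  induction A generalizing t with
  | nil => simp [pnd]
  | cons x A ih =>
    cases x with
    | gap u l =>
      simp only [pnd, lbl_gap, List.mem_cons]
      rcases ih l with h | h
      · exact Or.inr (Or.inr (Or.inl h))
      · exact Or.inr (Or.inr (Or.inr h))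
    | mk a u l b =>
      simp only [pnd, lbl_mk, List.mem_cons]
      rcases ih b with h | h
      · exact Or.inr (Or.inr (Or.inr (Or.inr (Or.inl h))))
      · exact Or.inr (Or.inr (Or.inr (Or.inr (Or.inr h))))

lemma pnd_mem' (t : α) (A : List (Lt α)) : pnd t A ∈ t :: lbl A := by
  rcases pnd_mem t A with h | h
  · rw [h]
    exact List.mem_cons_self
  · exact List.mem_cons_of_mem _ h

/-- deleting a gap whose labels are partners -/
lemma Val.del {τ : α → α} (hτ : ∀ x, τ (τ x) = x) {T v p q : α} {A B : List (Lt α)}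
    (h : Val τ T (v, A ++ gap p q :: B)) (hpq : τ p = q) : Val τ T (v, A ++ B) := by
  classical
  have hqp : τ q = p := by rw [← hpq, hτ]
  -- the old labels are `p, q` and the new ones
  have hperm : (BP2.labels (v, A ++ gap p q :: B)).Perm (p :: q :: BP2.labels (v, A ++ B)) := by
    simp only [val_labels_eq, lbl_append, lbl_gap]
    calc (v :: (lbl A ++ p :: q :: lbl B)) = ((v :: lbl A) ++ [p, q]) ++ lbl B := by simp
      _ |>.Perm (([p, q] ++ (v :: lbl A)) ++ lbl B) := (List.perm_append_comm).append_right _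
      _ = p :: q :: v :: (lbl A ++ lbl B) := by simp
  have hnd2 := hperm.nodup_iff.mp h.nodup
  have hpq' : p ≠ q := by
    intro e
    simp [e] at hnd2
  have hpn : p ∉ BP2.labels (v, A ++ B) := by
    intro e
    simp only [List.nodup_cons, List.mem_cons, not_or] at hnd2
    exact hnd2.1.2 e
  have hqn : q ∉ BP2.labels (v, A ++ B) := by
    intro e
    simp only [List.nodup_cons, List.mem_cons, not_or] at hnd2
    exact hnd2.2.1 e
  have hmem : ∀ x, x ∈ BP2.labels (v, A ++ gap p q :: B) ↔
      x = p ∨ x = q ∨ x ∈ BP2.labels (v, A ++ B) := fun x => by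
    rw [hperm.mem_iff]
    simp
  have hTp : p ≠ T := by
    rintro rfl
    exact hpq' (h.fixT.symm.trans hpq)
  have hTq : q ≠ T := by
    rintro rfl
    exact hpq' (by rw [← hqp, h.fixT])
  refine ⟨?_, fun x hx => ?_, fun x hx => h.fixed x ((hmem x).mpr (Or.inr (Or.inr hx))),
    h.fixT, fun a' u' l' b' hm => ?_, fun C hC hcl hT x hx hxC => ?_⟩
  · simp only [List.nodup_cons] at hnd2
    exact hnd2.2.2
  · have h1 := (hmem _).mp (h.closed x ((hmem x).mpr (Or.inr (Or.inr hx))))
    rcases h1 with h1 | h1 | h1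
    · exfalso
      apply hqn
      rw [← hpq, ← h1, hτ]
      exact hx
    · exfalso
      apply hpn
      rw [← hqp, ← h1, hτ]
      exact hx
    · exact h1
  · refine h.mark a' u' l' b' ?_
    simp only [List.mem_append] at hm
    simp [hm]
  · -- the old closed set
    set y := pnd v A with hy
    let D : Set α := {z | (z ≠ p ∧ z ≠ q ∧ z ∈ C) ∨ ((z = p ∨ z = q) ∧ y ∈ C)}
    have hDC : ∀ z, z ∈ BP2.labels (v, A ++ B) → (z ∈ D ↔ z ∈ C) := by
      intro z hz
      have hzp : z ≠ p := fun e => hpn (e ▸ hz)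
      have hzq : z ≠ q := fun e => hqn (e ▸ hz)
      simp [D, hzp, hzq]
    have hyl : y ∈ BP2.labels (v, A ++ B) := by
      simp only [val_labels_eq, lbl_append, List.mem_cons, List.mem_append]
      rcases pnd_mem v A with h1 | h1
      · exact Or.inl h1
      · exact Or.inr (Or.inl h1)
    have hyD : y ∈ D ↔ y ∈ C := hDC y hyl
    have hpD : p ∈ D ↔ y ∈ C := by simp [D]
    have hqD : q ∈ D ↔ y ∈ C := by simp [D]
    have hvD : v ∈ D ↔ v ∈ C := hDC v (by simp [val_labels_eq])
    have hAD : ∀ z ∈ lbl A, (z ∈ C ↔ z ∈ D) := fun z hz =>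
      (hDC z (by simp [val_labels_eq, hz])).symm
    have hBD : ∀ z ∈ lbl B, (z ∈ C ↔ z ∈ D) := fun z hz =>
      (hDC z (by simp [val_labels_eq, hz])).symm
    refine h.conn D ?_ ?_ ?_ x ((hmem x).mpr (Or.inr (Or.inr hx))) ((hDC x hx).mpr hxC)
    · rintro z (⟨hz1, hz2, hz3⟩ | ⟨hz1 | hz1, hz2⟩)
      · refine Or.inl ⟨fun e => hz2 ?_, fun e => hz1 ?_, hC z hz3⟩
        · rw [← hτ z, e, hpq]
        · rw [← hτ z, e, hqp]
      · exact Or.inr ⟨Or.inr (by rw [hz1, hpq]), hz2⟩
      · exact Or.inr ⟨Or.inl (by rw [hz1, hqp]), hz2⟩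
    · simp only [clP_append, clP] at hcl ⊢
      refine ⟨(clP_congr C D v A hvD.symm hAD).mp hcl.1, ?_, ?_⟩
      · rw [← hy, hyD, hpD]
      · have h2 : clP D y B := (clP_congr C D y B hyD.symm hBD).mp hcl.2
        exact (clP_start D q y B (by rw [hqD, hyD])).mpr h2
    · rintro (⟨_, _, h3⟩ | ⟨h3 | h3, _⟩)
      · exact hT h3
      · exact hTp h3.symm
      · exact hTq h3.symm

/-- the visit of a marker, before the gap on top is deleted -/
lemma Val.mk_move {τ : α → α} (hτ : ∀ x, τ (τ x) = x) {T t a u l b : α} {A B : List (Lt α)}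
    (h : Val τ T (t, A ++ Lt.mk a u l b :: B)) : Val τ T (l, gap u t :: (A ++ B)) := by
  have h1 : τ a = b := (h.mark a u l b (by simp)).1
  have h2 := h.dis.gap_move
  have h3 : Val τ T (a, (rs A ++ [gap t u]) ++ gap l b :: B) := by simpa using h2
  have h4 := h3.gap_move.del hτ h1
  simpa [rs_append, rs_single, sw] using h4

/-- validity is kept by `Run` -/
theorem Val.run {τ : α → α} (hτ : ∀ x, τ (τ x) = x) {T : α} {W : Lt α → Bool} {n g k : ℕ}
    {s s' : St α} (h : Val τ T s) (hr : Run τ W n g k s s') : Val τ T s' := by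
  induction hr with
  | refl => exact h
  | gapW _ _ ih => exact (ih h).gap_move
  | gapG _ he ih => exact (ih h).gap_move.del hτ he
  | mkW _ _ ih => exact (ih h).mk_move hτ
  | mkG _ he ih => exact Val.del (A := []) hτ ((ih h).mk_move hτ) (by rw [← he, hτ])
  | dis _ ih => exact (ih h).dis

/-- a valid state without letters is the target -/
lemma Val.nil {τ : α → α} {T t : α} (h : Val τ T (t, [])) : t = T :=
  h.fixed t (by simp [val_labels_eq]) (by
    have := h.closed t (by simp [val_labels_eq])
    simpa [val_labels_eq] using this)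

end BP2
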